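import Pool.Agent.H79.LX.Q169_RC_ClsDef
import Pool.Agent.H79.LX.Q169_RC_Flat

/-!
# Vanishing above the middle for the classes `Cls`
-/

set_option autoImplicit false

namespace Pool.Agent.Q169.RC

open Pool.Agent.W907.SG Pool.Agent.W907.SM Pool.Agent.TH652.Above
open Pool.Agent.TH652.Join (join)

/-- the motive -/
def PQ (b : Bool) (n : ℕ) {V : Type} (G : SimpleGraph V) : Prop := match b with
  | true => P n G
  | false => Q n G

theorem Q_mid {m : ℕ} {V : Type} [Fintype V] [LinearOrder V] (S : SimpleGraph V) (hP : P (2 * m + 2) S)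
    (h : L2Van S (m + 1)) : Q (2 * m + 1) S := by
  refine ⟨inferInstance, fun A i hi => ?_⟩
  refine lv_down S i ?_ (fun v A hA => P_link hP v A hA i (by omega)) A
  rcases Nat.lt_or_ge (m + 1) i with h1 | h1
  · exact lv_of_P hP i (by omega)
  · have : i = m + 1 := by omega
    rw [this]
    exact lv_of h

theorem P_van {n : ℕ} {V : Type} [Fintype V] [LinearOrder V] (G : SimpleGraph V)
    (h : ∀ i : ℕ, n + 1 < 2 * i → L2Van G i) (hL : ∀ v, P n (G.induce (G.neighborSet v))) : P (n + 1) G := by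
  refine P_her G ⟨inferInstance, fun A i hi => ?_⟩ hL
  refine lv_down G i (lv_of (h i hi)) (fun v A hA => ?_) A
  exact lv_of_induce hA ((Q_of_P _ (hL v)).2 {x | x.1 ∈ A} i (by omega))

theorem PQ_of {b : Bool} {n : ℕ} {V : Type} {G : SimpleGraph V} (h : Cls b n G) : PQ b n G := by
  induction h with
  | am G h => exact P_of_AM h
  | aq G h => exact Q_of_AQ h
  | weak G _ ih => exact Q_of_P G ih
  | @full b n V G A _ ih =>
    cases b
    · exact Q_emb G _ (SimpleGraph.Embedding.induce A) ih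
    · exact P_full G A ih
  | sub G s t hst _ ih => exact P_sub G s t hst ih
  | @join b m n V U G H _ _ ih1 ih2 =>
    cases b
    · exact Q_join G H ih1 ih2
    · exact P_join G H ih1 ih2
  | @succ b n V G _ ih =>
    cases b
    · exact ⟨ih.1, fun A i hi => ih.2 A i (by omega)⟩
    · exact P_succ G ih
  | pred G _ ih => exact ⟨ih.1, fun A i hi => ih.2 A i (by omega)⟩
  | del G s t hst _ _ ih1 ih2 => exact Q_del G s t hst ih1 ih2
  | @glue b n V _ G A B hAB hno _ _ _ ih1 ih2 ih3 =>
    cases b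
    · exact Q_glue G A B hAB hno ih1 ih2 ih3
    · exact P_glue G A B hAB hno ih1 ih2 ih3
  | dim G hm hB => exact Q_dim G hm hB
  | vert G B _ _ ih1 ih2 =>
    exact Q_ext G B ih1 fun v hv A hA i hi =>
      lv_of_induce hA ((ih2 v hv).2 {x | x.1 ∈ A} i (by omega))
  | even G B _ _ ih1 ih2 =>
    exact Q_ext G B ih1 fun v hv A hA i hi =>
      lv_of_induce hA ((ih2 v hv).2 {x | x.1 ∈ A} i (by omega))
  | her G _ _ ih1 ih2 => exact P_her G ih1 ih2
  | van G h _ ih => exact P_van G h ih
  | flat G _ hS hχ ih => exact Q_flat G ih hS hχ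
  | mid G _ h ih => exact Q_mid G ih h
  | @iso b n V U G H e _ ih =>
    cases b
    · exact Q_emb G H e.some.symm.toEmbedding ih
    · exact P_iso G H e.some ih

theorem Q_of_Cls {b : Bool} {n : ℕ} {V : Type} {G : SimpleGraph V} (h : Cls b n G) : Q n G := by
  cases b
  · exact PQ_of h
  · exact Q_of_P G (PQ_of h)

/-- vanishing above the middle for all full subcomplexes -/
theorem above_Cls {b : Bool} {n : ℕ} {V : Type} {G : SimpleGraph V} (h : Cls b n G) (A : Set V)
    [Fintype ↥A] [LinearOrder ↥A] (i : ℕ) (hi : n < 2 * i) : L2Van (G.induce A) i :=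
  (Q_of_Cls h).2 A i hi _ _

theorem singer_Cls {b : Bool} {n : ℕ} {V : Type} [Fintype V] [LinearOrder V] {G : SimpleGraph V} (hS : HSph n G)
    (h : Cls b n G) (i : ℕ) (hi : 2 * i ≠ n) : L2Van G i :=
  singer_of_above hS (fun i hi => (lv_univ G i).1 ((Q_of_Cls h).2 Set.univ i hi) _ _) i hi

end Pool.Agent.Q169.RC
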