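import Pool.Agent.H7.L.Y132_SI_Up
import Pool.Agent.H7.L.TH652_Above

set_option autoImplicit false

/-!
# Growth of the Betti numbers in the degrees in which the `ℓ²`-homology vanishes
-/

namespace Pool.Agent.Q169.RC

open Module Pool.Agent.W907.SG Pool.Agent.W907.SM Pool.Agent.W461.SGN Pool.Agent.W397.SG
  Pool.Agent.TH652.Above Pool.Agent.Y132.SI

theorem growth_of {V : Type} [Fintype V] [LinearOrder V] (G : SimpleGraph V) (R : ℕ → Prop)
    (hL : ∀ i, R i → L2Van G i) (ε : ℝ) (hε : 0 < ε) :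
    ∃ E : Finset (W G), (1 : W G) ∉ E ∧ ∀ H : Subgroup (W G), H.FiniteIndex →
      (∀ g ∈ E, ∀ x : W G, x * g * x⁻¹ ∉ H) → ∀ i : ℕ, R i →
        (finrank ℝ (HInv G H i) : ℝ) ≤ ε * H.index := by
  classical
  obtain ⟨K, hK⟩ : ∃ K : ℕ, K = Fintype.card V + 1 := ⟨_, rfl⟩
  obtain ⟨N, hN⟩ := exists_nat_gt (1 / ε)
  have hN0 : (0 : ℝ) < N := lt_of_le_of_lt (by positivity) hN
  have hNε : 1 < N * ε := (div_lt_iff₀ hε).1 hN
  have h1 : ∀ i : ℕ, ∃ Ei : Finset (W G), (1 : W G) ∉ Ei ∧ (R i →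
      ∀ H : Subgroup (W G), H.FiniteIndex → (∀ g ∈ Ei, ∀ x : W G, x * g * x⁻¹ ∉ H) →
        N * finrank ℝ (HInv G H i) ≤ H.index) := by
    intro i
    by_cases hi : R i
    · obtain ⟨Ei, h2, h3⟩ := growth_one G i (hL i hi) N
      exact ⟨Ei, h2, fun _ => h3⟩
    · exact ⟨∅, Finset.notMem_empty _, fun h => absurd h hi⟩
  choose Ef hEf1 hEf2 using h1
  refine ⟨(Finset.range K).biUnion Ef, ?_, ?_⟩
  · rw [Finset.mem_biUnion]
    rintro ⟨i, _, h⟩
    exact hEf1 i h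
  intro H hfin hE i hi
  have hidx : (0 : ℝ) ≤ H.index := Nat.cast_nonneg _
  by_cases hiK : i < K
  · have h2 := hEf2 i hi H hfin fun g hg x =>
      hE g (Finset.mem_biUnion.2 ⟨i, Finset.mem_range.2 hiK, hg⟩) x
    have h3 : (N : ℝ) * (finrank ℝ (HInv G H i) : ℝ) ≤ H.index := by exact_mod_cast h2
    have h4 : (finrank ℝ (HInv G H i) : ℝ) ≤ N * ε * (finrank ℝ (HInv G H i) : ℝ) := by
      have h5 : (0 : ℝ) ≤ (finrank ℝ (HInv G H i) : ℝ) := Nat.cast_nonneg _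
      nlinarith
    nlinarith
  · haveI : Finite (Quotient (QuotientGroup.rightRel H)) :=
      Finite.of_equiv _ (QuotientGroup.quotientRightRelEquivQuotientLeftRel H).symm
    letI : Fintype (Quotient (QuotientGroup.rightRel H)) := Fintype.ofFinite _
    rw [finrank_HInv, beta_big G _ Set.univ ∅ (by omega), Nat.cast_zero]
    positivity

end Pool.Agent.Q169.RC
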