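import Pool.Agent.H7.L.TH652_QDef

/-!
# The classes `CV true n` and `CV false n` of finite graphs
-/

set_option autoImplicit false

namespace Pool.Agent.Q169.RC

open Pool.Agent.W907.SG Pool.Agent.W907.SM Pool.Agent.TH652.Above
open Pool.Agent.TH652.Join (join)

/-- the flag complex of a graph: its simplices are the cliques -/
noncomputable def flagCx {n : ℕ} (G : SimpleGraph (Fin n)) : Finset (Finset (Fin n)) := by
  classical exact Finset.univ.filter (fun T => G.IsClique (T : Set (Fin n)))

/-- elements of `U` of even rank (the smallest element has rank `0`) -/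
def evens {n : ℕ} (U : Finset (Fin n)) : Finset (Fin n) :=
  U.filter (fun u => Even (U.filter (fun w => w < u)).card)

/-- elements of `U` of odd rank -/
def odds {n : ℕ} (U : Finset (Fin n)) : Finset (Fin n) :=
  U.filter (fun u => ¬ Even (U.filter (fun w => w < u)).card)

/-- the mod `2` van Kampen obstruction of the complex `L` vanishes: the simplices of the deleted join of `L` are the
pairs `(σ, τ)` of disjoint faces; `Z` is a chain of dimension `d` with coefficients modulo `2`, symmetric under the
exchange of `σ` and `τ`, and its boundary is zero; the sum is over the alternating simplices -/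
def ObsVanishes {n : ℕ} (L : Finset (Finset (Fin n))) (d : ℕ) : Prop :=
  ∀ Z : Finset (Fin n) → Finset (Fin n) → ZMod 2,
    (∀ σ τ, Z σ τ = Z τ σ) →
    (∀ σ τ, Z σ τ ≠ 0 → σ ∈ L ∧ τ ∈ L) →
    (∀ ρ τ : Finset (Fin n), Disjoint ρ τ → ρ.card + τ.card = d →
      ∑ v ∈ (ρ ∪ τ)ᶜ, (Z (insert v ρ) τ + Z ρ (insert v τ)) = 0) →
    ∑ U ∈ Finset.powersetCard (d + 1) Finset.univ, Z (evens U) (odds U) = 0

/-- Two classes of finite graphs: the hereditary class `CV true n` and the larger class `CV false n`. -/
inductive CV : Bool → ℕ → ∀ {V : Type}, SimpleGraph V → Prop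
  /-- the members of the class `AM n` of the starting library -/
  | am {n : ℕ} {V : Type} (G : SimpleGraph V) : AM n G → CV true n G
  /-- the members of the class `AQ n` of the starting library -/
  | aq {n : ℕ} {V : Type} (G : SimpleGraph V) : AQ n G → CV false n G
  /-- complexes with a proper colouring by `k + 1` colours and with vanishing van Kampen obstruction for the
  sphere of dimension `2 k` -/
  | vk {N k : ℕ} (G : SimpleGraph (Fin N)) (κ : Fin N → Fin (k + 1)) : (∀ u v, G.Adj u v → κ u ≠ κ v) →
      ObsVanishes (flagCx G) (2 * k + 1) → CV false (2 * k + 1) G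
  /-- the hereditary class is contained in the other one -/
  | weak {n : ℕ} {V : Type} (G : SimpleGraph V) : CV true n G → CV false n G
  /-- full subcomplexes -/
  | full {b : Bool} {n : ℕ} {V : Type} (G : SimpleGraph V) (A : Set V) : CV b n G → CV b n (G.induce A)
  /-- stellar subdivision of an edge -/
  | sub {n : ℕ} {V : Type} (G : SimpleGraph V) (s t : V) : G.Adj s t → CV true n G → CV true n (esub G s t)
  /-- joins -/
  | join {b : Bool} {m n : ℕ} {V U : Type} (G : SimpleGraph V) (H : SimpleGraph U) : CV b m G → CV b n H →
      CV b (m + n) (join G H)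
  /-- from `n` to `n + 1` -/
  | succ {b : Bool} {n : ℕ} {V : Type} (G : SimpleGraph V) : CV b n G → CV b (n + 1) G
  /-- from `2 m + 1` to `2 m` -/
  | pred {m : ℕ} {V : Type} (G : SimpleGraph V) : CV false (2 * m + 1) G → CV false (2 * m) G
  /-- deleting an edge whose link is in the class `n` -/
  | del {n : ℕ} {V : Type} [Finite V] (G : SimpleGraph V) (s t : V) : G.Adj s t → CV false (n + 2) G →
      CV false n (G.induce (G.neighborSet s ∩ G.neighborSet t)) → CV false (n + 2) (G.deleteEdges {s(s, t)})
  /-- gluing along a full subcomplex of the class `n` -/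
  | glue {b : Bool} {n : ℕ} {V : Type} [Finite V] (G : SimpleGraph V) (A B : Set V) : A ∪ B = Set.univ →
      (∀ a ∈ A, a ∉ B → ∀ b ∈ B, b ∉ A → ¬ G.Adj a b) → CV b (n + 2) (G.induce A) → CV b (n + 2) (G.induce B) →
      CV b n (G.induce (A ∩ B)) → CV b (n + 2) G
  /-- complexes of dimension less than `m` -/
  | dim {n m : ℕ} {V : Type} [Finite V] (G : SimpleGraph V) : 2 * m ≤ n →
      (∀ T : Finset V, G.IsClique (T : Set V) → T.card ≤ m) → CV false n G
  /-- adding vertices whose links are in the class `n` -/
  | vert {n : ℕ} {V : Type} [Finite V] (G : SimpleGraph V) (B : Set V) : CV false (n + 2) (G.induce B) →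
      (∀ v, v ∉ B → CV false n (G.induce (G.neighborSet v))) → CV false (n + 2) G
  /-- even length: adding vertices whose links are in the class `2 m + 1` -/
  | even {m : ℕ} {V : Type} [Finite V] (G : SimpleGraph V) (B : Set V) : CV false (2 * m + 2) (G.induce B) →
      (∀ v, v ∉ B → CV false (2 * m + 1) (G.induce (G.neighborSet v))) → CV false (2 * m + 2) G
  /-- heredity: a complex in the class `n + 1` with vertex links in the hereditary class `n` -/
  | her {n : ℕ} {V : Type} (G : SimpleGraph V) : CV false (n + 1) G →
      (∀ v, CV true n (G.induce (G.neighborSet v))) → CV true (n + 1) G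
  /-- flat complexes: real homology spheres in the hereditary class `2 m + 2` the groups of which have Euler
  characteristic zero belong to the class `2 m + 1` -/
  | flat {m : ℕ} {V : Type} [Fintype V] [LinearOrder V] (G : SimpleGraph V) : CV true (2 * m + 2) G →
      HSph (2 * m + 2) G → chiW G = 0 → CV false (2 * m + 1) G
  /-- isomorphic graphs -/
  | iso {b : Bool} {n : ℕ} {V U : Type} (G : SimpleGraph V) (H : SimpleGraph U) : Nonempty (G ≃g H) → CV b n G →
      CV b n H

end Pool.Agent.Q169.RC
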