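import Pool.Agent.H7.L.TH652_QDef

/-!
# The classes `Cls true n` and `Cls false n` of finite graphs
-/

set_option autoImplicit false

namespace Pool.Agent.Q169.RC

open Pool.Agent.W907.SG Pool.Agent.W907.SM Pool.Agent.TH652.Above
open Pool.Agent.TH652.Join (join)

/-- Two classes of finite graphs: the hereditary class `Cls true n` and the larger class `Cls false n`. -/
inductive Cls : Bool → ℕ → ∀ {V : Type}, SimpleGraph V → Prop
  /-- the members of the class `AM n` of the starting library -/
  | am {n : ℕ} {V : Type} (G : SimpleGraph V) : AM n G → Cls true n G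
  /-- the members of the class `AQ n` of the starting library -/
  | aq {n : ℕ} {V : Type} (G : SimpleGraph V) : AQ n G → Cls false n G
  /-- the hereditary class is contained in the other one -/
  | weak {n : ℕ} {V : Type} (G : SimpleGraph V) : Cls true n G → Cls false n G
  /-- full subcomplexes -/
  | full {b : Bool} {n : ℕ} {V : Type} (G : SimpleGraph V) (A : Set V) : Cls b n G → Cls b n (G.induce A)
  /-- stellar subdivision of an edge -/
  | sub {n : ℕ} {V : Type} (G : SimpleGraph V) (s t : V) : G.Adj s t → Cls true n G → Cls true n (esub G s t)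
  /-- joins -/
  | join {b : Bool} {m n : ℕ} {V U : Type} (G : SimpleGraph V) (H : SimpleGraph U) : Cls b m G → Cls b n H →
      Cls b (m + n) (join G H)
  /-- from `n` to `n + 1` -/
  | succ {b : Bool} {n : ℕ} {V : Type} (G : SimpleGraph V) : Cls b n G → Cls b (n + 1) G
  /-- from `2 m + 1` to `2 m` -/
  | pred {m : ℕ} {V : Type} (G : SimpleGraph V) : Cls false (2 * m + 1) G → Cls false (2 * m) G
  /-- deleting an edge whose link is in the class `n` -/
  | del {n : ℕ} {V : Type} [Finite V] (G : SimpleGraph V) (s t : V) : G.Adj s t → Cls false (n + 2) G →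
      Cls false n (G.induce (G.neighborSet s ∩ G.neighborSet t)) → Cls false (n + 2) (G.deleteEdges {s(s, t)})
  /-- gluing along a full subcomplex of the class `n` -/
  | glue {b : Bool} {n : ℕ} {V : Type} [Finite V] (G : SimpleGraph V) (A B : Set V) : A ∪ B = Set.univ →
      (∀ a ∈ A, a ∉ B → ∀ b ∈ B, b ∉ A → ¬ G.Adj a b) → Cls b (n + 2) (G.induce A) → Cls b (n + 2) (G.induce B) →
      Cls b n (G.induce (A ∩ B)) → Cls b (n + 2) G
  /-- complexes of dimension less than `m` -/
  | dim {n m : ℕ} {V : Type} [Finite V] (G : SimpleGraph V) : 2 * m ≤ n →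
      (∀ T : Finset V, G.IsClique (T : Set V) → T.card ≤ m) → Cls false n G
  /-- adding vertices whose links are in the class `n` -/
  | vert {n : ℕ} {V : Type} [Finite V] (G : SimpleGraph V) (B : Set V) : Cls false (n + 2) (G.induce B) →
      (∀ v, v ∉ B → Cls false n (G.induce (G.neighborSet v))) → Cls false (n + 2) G
  /-- even length: adding vertices whose links are in the class `2 m + 1` -/
  | even {m : ℕ} {V : Type} [Finite V] (G : SimpleGraph V) (B : Set V) : Cls false (2 * m + 2) (G.induce B) →
      (∀ v, v ∉ B → Cls false (2 * m + 1) (G.induce (G.neighborSet v))) → Cls false (2 * m + 2) G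
  /-- heredity: a complex in the class `n + 1` with vertex links in the hereditary class `n` -/
  | her {n : ℕ} {V : Type} (G : SimpleGraph V) : Cls false (n + 1) G →
      (∀ v, Cls true n (G.induce (G.neighborSet v))) → Cls true (n + 1) G
  /-- complexes without `ℓ²`-homology above the middle, with vertex links in the hereditary class `n` -/
  | van {n : ℕ} {V : Type} [Fintype V] [LinearOrder V] (G : SimpleGraph V) :
      (∀ i : ℕ, n + 1 < 2 * i → L2Van G i) →
      (∀ v, Cls true n (G.induce (G.neighborSet v))) → Cls true (n + 1) G
  /-- flat complexes: real homology spheres in the hereditary class `2 m + 2` the groups of which have Euler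
  characteristic zero belong to the class `2 m + 1` -/
  | flat {m : ℕ} {V : Type} [Fintype V] [LinearOrder V] (G : SimpleGraph V) : Cls true (2 * m + 2) G →
      HSph (2 * m + 2) G → chiW G = 0 → Cls false (2 * m + 1) G
  /-- complexes in the hereditary class `2 m + 2` without `ℓ²`-homology in the degree `m + 1` belong to the class
  `2 m + 1` -/
  | mid {m : ℕ} {V : Type} [Fintype V] [LinearOrder V] (G : SimpleGraph V) : Cls true (2 * m + 2) G →
      L2Van G (m + 1) → Cls false (2 * m + 1) G
  /-- isomorphic graphs -/
  | iso {b : Bool} {n : ℕ} {V U : Type} (G : SimpleGraph V) (H : SimpleGraph U) : Nonempty (G ≃g H) → Cls b n G →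
      Cls b n H

end Pool.Agent.Q169.RC
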