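import Pool.Agent.H7.L.W907_SM_LV
import Pool.Agent.H7.L.W347_SG_VERT
import Pool.Agent.H7.L.W338_SG_ADD
import Pool.Agent.H7.L.TH652_Above

set_option autoImplicit false

/-!
# Deleting a vertex, for the `ℓ²`-homology of right-angled Coxeter groups

`vdel`: for a vertex `v` not in `A`, the `i`-th Betti number of `A` is at most the `i`-th Betti number of `A ∪ {v}`
plus the `i`-th Betti number of the link of `v` in `A`; `lv_del` is the corresponding vanishing statement in
`ℓ²`-homology.  This is the direction opposite to the lemmas `S_VERT`, `S_L2ADD` of the starting library.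
-/

namespace Pool.Agent.Q169.RC

open Pool.Agent.W907.SG Pool.Agent.W907.SM Pool.Agent.W347.SGV Pool.Agent.W338.SG Pool.Agent.TH652.Above Module

/-- finite level: deleting a vertex -/
theorem vdel (V F M : Type) [Fintype V] [LinearOrder V] [Field F] [AddCommGroup M] [Module F M]
    [FiniteDimensional F M] (G : SimpleGraph V) (ρ : V → M →ₗ[F] M) (A S : Set V) (v : V) (hvA : v ∉ A) (i : ℕ) :
    beta G ρ A S i ≤ beta G ρ (insert v A) S i + beta G ρ (A ∩ G.neighborSet v) (insert v S) i := by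
  have q_zero : ∀ (j : ℕ) (c : Finset V → M), c ∈ KK G ρ A S j → qq F v c = 0 := by
    intro j c hc
    funext T
    by_cases hv : v ∈ T
    · exact qq_of_mem _ hv
    · rw [qq_of_not _ hv, (mem_KK.1 hc).1, smul_zero]
      · rfl
      · rintro ⟨-, h4, -⟩
        exact hvA (h4 (by simp))
  refine con F (Finset V → M) (Finset V → M) (Finset V → M) (bd F) (qq F v)
      (BB G ρ A S i) (ZZ G ρ A S i) (BB G ρ (insert v A) S i) (ZZ G ρ (insert v A) S i)
      (BB G ρ (A ∩ G.neighborSet v) (insert v S) i) (ZZ G ρ (A ∩ G.neighborSet v) (insert v S) i)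
      (KK G ρ (insert v A) S (i + 1) ⊓ (KK G ρ A S i).comap (bd F))
      (BB_le_ZZ _ _ _ _ _) (BB_le_ZZ _ _ _ _ _) (BB_le_ZZ _ _ _ _ _) ?_ ?_ ?_ ?_
  · exact inf_le_inf_right _ (KK_mono (Set.subset_insert _ _))
  · rintro z hz ⟨c, hc, rfl⟩
    exact ⟨c, ⟨hc, hz.1⟩, rfl⟩
  · rintro x ⟨hx1, hx2⟩
    refine ⟨qq_mem hx1, ?_⟩
    show bd F (qq F v x) = 0
    rw [qq_bd, q_zero i _ hx2, neg_zero]
  · rintro x ⟨hx1, hx2⟩ ⟨y, hy, hyx⟩
    have hy : y ∈ KK G ρ (A ∩ G.neighborSet v) (insert v S) (i + 1) := hy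
    have h1 : x + bd F (lift v y) ∈ KK G ρ (insert v A) S (i + 1) :=
      Submodule.add_mem _ hx1 (bd_mem_KK (lift_mem hy))
    have h2 : qq F v (x + bd F (lift v y)) = 0 := by
      have h3 := qq_bd (F := F) v (lift v y)
      rw [qq_lift hvA hy] at h3
      rw [map_add, ← hyx, h3, neg_add_cancel]
    refine ⟨x + bd F (lift v y), mem_of_qq h1 h2, ?_⟩
    rw [map_add, bd_bd, add_zero]

/-- the Betti numbers with `v` acting as `-1` are at most those without this condition -/
theorem eig_le {V Y : Type} [Fintype V] [LinearOrder V] [Fintype Y] {G : SimpleGraph V} (a : V → Y → Y)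
    (hinv : ∀ v y, a v (a v y) = y) (hcomm : ∀ u v, G.Adj u v → ∀ y, a u (a v y) = a v (a u y)) (A : Set V) (v : V)
    (hA : A ⊆ G.neighborSet v) (i : ℕ) :
    beta G (pull ℝ a) A {v} i ≤ beta G (pull ℝ a) A ∅ i := by
  have h := eig V ℝ (Y → ℝ) G (pull ℝ a) A ∅ v (by norm_num)
    (fun m => by
      funext x
      rw [pull_apply, pull_apply, hinv])
    (fun u hu m => by
      have hu' : G.Adj u v := by
        rcases hu with hu | hu
        · exact (hA hu).symm
        · exact absurd hu (by simp)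
      funext x
      rw [pull_apply, pull_apply, pull_apply, pull_apply, hcomm u v hu']) i
  simpa using h

/-- deleting a vertex: `ℓ²`-version -/
theorem l2dv {V : Type} [Fintype V] [LinearOrder V] (G : SimpleGraph V) (v : V)
    [Fintype ↥({v}ᶜ : Set V)] [Fintype (G.neighborSet v)] (i : ℕ) (h1 : L2Van G i)
    (h2 : L2Van (G.induce (G.neighborSet v)) i) : L2Van (G.induce {v}ᶜ) i := by
  classical
  refine large ↥({v}ᶜ : Set V) (G.induce {v}ᶜ) i fun N E hE => ?_
  have : Fact (Nat.Prime 3) := ⟨Nat.prime_three⟩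
  obtain ⟨E1, hE1, hX1⟩ := small V G i h1 (2 * N)
  obtain ⟨E2, hE2, hX2⟩ := small_restrict small tr G (G.neighborSet v) i h2 (2 * N)
  obtain ⟨Y, _, _, P, ev, e1, e2, e3, e4⟩ := nilp 3 V G (E.image (inA G {v}ᶜ) ∪ (E1 ∪ E2)) (by decide) (by
    rw [Finset.mem_union, Finset.mem_union]
    intro h
    rcases h with h | h | h
    · obtain ⟨g, hg, hg'⟩ := Finset.mem_image.1 h
      exact inA_ne G {v}ᶜ (fun he => hE (he ▸ hg)) hg'
    · exact hE1 h
    · exact hE2 h)
  refine ⟨Y, inferInstance, inferInstance, fun u => P.a u.1, fun y g => ev y (inA G {v}ᶜ g), fun u x => P.inv _ x,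
    fun u w h x => P.comm u.1 w.1 h x, fun x => ?_, fun x g h => ?_, fun x u => ?_,
    fun g hg x => e4 _ (Finset.mem_union_left _ (Finset.mem_image_of_mem _ hg)) x, ?_⟩
  · show ev x (inA G {v}ᶜ 1) = x
    rw [map_one, e1]
  · show ev x (inA G {v}ᶜ (g * h)) = ev (ev x (inA G {v}ᶜ g)) (inA G {v}ᶜ h)
    rw [map_mul, e2]
  · show ev x (inA G {v}ᶜ ((cox (G.induce {v}ᶜ)).simple u)) = P.a u.1 x
    rw [inA_simple, e3]
  · have h3 := tr ↥({v}ᶜ : Set V) V ℝ (Y → ℝ) G (G.induce {v}ᶜ) (pull ℝ P.a) (fun u => (u : V))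
      (Subtype.strictMono_coe _) (fun u u' => Iff.rfl) i
    rw [Subtype.range_coe] at h3
    have h4 : beta (G.induce {v}ᶜ) (pull ℝ fun u : ↥({v}ᶜ : Set V) => P.a u.1) Set.univ ∅ i =
        beta G (pull ℝ P.a) {v}ᶜ ∅ i := h3.symm
    rw [h4]
    have b1 := vdel V ℝ (Y → ℝ) G (pull ℝ P.a) {v}ᶜ ∅ v (by simp) i
    rw [ins_compl] at b1
    have hA : ({v}ᶜ : Set V) ∩ G.neighborSet v = G.neighborSet v := by
      ext u
      simp only [Set.mem_inter_iff, Set.mem_compl_iff, Set.mem_singleton_iff,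
        SimpleGraph.mem_neighborSet, and_iff_right_iff_imp]
      intro h hu
      exact h.ne hu.symm
    have e5 : (insert v (∅ : Set V)) = {v} := by simp
    rw [hA, e5] at b1
    have b2 := eig_le P.a P.inv P.comm (G.neighborSet v) v (le_refl _) i
    refine arith (b1.trans (Nat.add_le_add_left b2 _)) ?_ ?_
    · exact hX1 Y P.a ev P.inv P.comm e1 e2 e3 (fun g hg => e4 g (Finset.mem_union_right _
        (Finset.mem_union_left _ hg)))
    · exact hX2 Y P.a ev P.inv P.comm e1 e2 e3 (fun g hg => e4 g (Finset.mem_union_right _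
        (Finset.mem_union_right _ hg)))

theorem ldelv {V : Type} [Finite V] (G : SimpleGraph V) (v : V) (i : ℕ) (h1 : LV G i)
    (h2 : LV (G.induce (G.neighborSet v)) i) : LV (G.induce {v}ᶜ) i := by
  classical
  intro _ o
  have := Fintype.ofFinite V
  let o1 : LinearOrder V := linearOrderOfSTO (WellOrderingRel (α := V))
  have h := l2dv (V := V) G v i (h1 _ _) (h2 _ _)
  exact ord ↥({v}ᶜ : Set V) ↥({v}ᶜ : Set V) _ _ _ o _ _ i ⟨SimpleGraph.Iso.refl⟩ h

/-- deleting a vertex, relative form -/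
theorem lv_del {V : Type} [Finite V] (G : SimpleGraph V) (A : Set V) (v : V) (hv : v ∈ A) (i : ℕ)
    (h1 : LV (G.induce A) i) (h2 : LV (G.induce (A ∩ G.neighborSet v)) i) :
    LV (G.induce (A \ {v})) i := by
  have h := ldelv (G.induce A) ⟨v, hv⟩ i h1 (by
    rw [lv_sub]
    refine lv_set ?_ h2
    ext x
    simp only [Set.mem_image, Set.mem_inter_iff, SimpleGraph.mem_neighborSet, Subtype.exists,
      exists_and_right, exists_eq_right]
    constructor
    · rintro ⟨hx, h4⟩
      exact ⟨hx, h4⟩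
    · rintro ⟨hx, h4⟩
      exact ⟨hx, h4⟩)
  rw [lv_sub] at h
  refine lv_set ?_ h
  ext x
  simp only [Set.mem_image, Set.mem_compl_iff, Set.mem_singleton_iff, Subtype.exists, Subtype.mk.injEq,
    exists_and_left, exists_prop, exists_eq_right_right, Set.mem_sdiff]
  tauto

end Pool.Agent.Q169.RC
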