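import Pool.Agent.H7.L.W555_KS_Defs

set_option autoImplicit false

namespace Pool.Agent.W646.KS

open Finset MvPolynomial Pool.Agent.W555.KS

variable {ι : Type} [Fintype ι] [DecidableEq ι]

/-- the indicator exponent -/
noncomputable def indE (s : Finset ι) : ι →₀ ℕ := ∑ i ∈ s, Finsupp.single i 1

theorem indE_apply (s : Finset ι) (i : ι) : indE s i = if i ∈ s then 1 else 0 := by
  unfold indE
  rw [Finsupp.finset_sum_apply]
  simp [Finsupp.single_apply, Finset.sum_ite_eq']

theorem prod_X_eq (s : Finset ι) :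
    (∏ i ∈ s, (X i : MvPolynomial ι (ZMod 2))) = monomial (indE s) 1 := by
  unfold indE
  rw [MvPolynomial.monomial_sum_one]
  rfl

theorem poly_ind (S : Finset (Finset ι)) (P : Finset ι → MvPolynomial ι (ZMod 2))
    (h : ∑ s ∈ S, (∏ i ∈ s, (X i : MvPolynomial ι (ZMod 2))) * P s ^ 2 = 0) :
    ∀ s ∈ S, P s = 0 := by
  intro s₀ hs₀
  ext m
  rw [coeff_zero]
  have h1 := congrArg (coeff (indE s₀ + 2 • m)) h
  rw [coeff_zero, coeff_sum, Finset.sum_eq_single_of_mem s₀ hs₀] at h1
  · rw [prod_X_eq, ← MvPolynomial.expand_zmod, coeff_monomial_mul, one_mul,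
      coeff_expand_smul 2 (by norm_num)] at h1
    exact h1
  · intro s _ hne
    rw [prod_X_eq, ← MvPolynomial.expand_zmod, coeff_monomial_mul']
    split_ifs with hle
    · rw [one_mul]
      obtain ⟨i, hi⟩ : ∃ i, ¬ (i ∈ s ↔ i ∈ s₀) := by
        by_contra hcon
        push Not at hcon
        exact hne (Finset.ext hcon)
      refine coeff_expand_of_not_dvd (p := 2) (P s) (i := i) ?_
      have hlei := hle i
      rw [Finsupp.coe_tsub, Pi.sub_apply, Finsupp.add_apply, Finsupp.smul_apply, indE_apply,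
        indE_apply, smul_eq_mul]
      rw [Finsupp.add_apply, Finsupp.smul_apply, indE_apply, indE_apply, smul_eq_mul] at hlei
      by_cases h1 : i ∈ s
      · have h2 : i ∉ s₀ := fun h2 => hi ⟨fun _ => h2, fun _ => h1⟩
        rw [if_pos h1, if_neg h2] at *
        omega
      · have h2 : i ∈ s₀ := by
          by_contra h2
          exact hi ⟨fun h => absurd h h1, fun h => absurd h h2⟩
        rw [if_neg h1, if_pos h2] at *
        omega
    · rfl

theorem ind : StInd := by
  intro ι _ _ S c hsum s hs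
  obtain ⟨b, hb⟩ := IsLocalization.exist_integer_multiples
    (nonZeroDivisors (MvPolynomial ι (ZMod 2))) S c
  classical
  have hb' : ∀ s, ∃ P : MvPolynomial ι (ZMod 2), s ∈ S →
      algebraMap (MvPolynomial ι (ZMod 2)) (FractionRing (MvPolynomial ι (ZMod 2))) P =
        algebraMap _ _ (b : MvPolynomial ι (ZMod 2)) * c s := by
    intro s
    by_cases hs : s ∈ S
    · obtain ⟨P, hP⟩ := hb s hs
      refine ⟨P, fun _ => ?_⟩
      rw [hP, Algebra.smul_def]
    · exact ⟨0, fun h => absurd h hs⟩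
  choose P hP using hb'
  have hinj : Function.Injective
      (algebraMap (MvPolynomial ι (ZMod 2)) (FractionRing (MvPolynomial ι (ZMod 2)))) :=
    IsFractionRing.injective _ _
  have h0 : ∑ s ∈ S, (∏ i ∈ s, (X i : MvPolynomial ι (ZMod 2))) * P s ^ 2 = 0 := by
    apply hinj
    rw [map_zero, map_sum]
    have : ∀ s ∈ S, algebraMap (MvPolynomial ι (ZMod 2))
        (FractionRing (MvPolynomial ι (ZMod 2))) ((∏ i ∈ s, X i) * P s ^ 2) =
        algebraMap _ _ (b : MvPolynomial ι (ZMod 2)) ^ 2 *
          (algebraMap (MvPolynomial ι (ZMod 2)) (FractionRing (MvPolynomial ι (ZMod 2)))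
            (∏ i ∈ s, X i) * c s ^ 2) := by
      intro s hs
      rw [map_mul, map_pow, hP s hs]
      ring
    rw [Finset.sum_congr rfl this, ← Finset.mul_sum, hsum, mul_zero]
  have h1 := poly_ind S P h0 s hs
  have h2 := hP s hs
  rw [h1, map_zero] at h2
  have hbne : algebraMap (MvPolynomial ι (ZMod 2)) (FractionRing (MvPolynomial ι (ZMod 2)))
      (b : MvPolynomial ι (ZMod 2)) ≠ 0 := by
    rw [Ne, ← map_zero (algebraMap (MvPolynomial ι (ZMod 2))
      (FractionRing (MvPolynomial ι (ZMod 2))))]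
    exact fun h => nonZeroDivisors.ne_zero b.2 (hinj h)
  exact (mul_eq_zero.1 h2.symm).resolve_left hbne

end Pool.Agent.W646.KS
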