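import Pool.Agent.H7.L.W555_KS_Defs2
import Pool.Agent.H79.LX.W646_KS_Ind
import Pool.Agent.H79.LX.Y408_BS_Gen2
import Pool.Agent.H79.LX.Y408_BS_Tr

set_option autoImplicit false

/-!
# Line complexes have no top cycles on complexes without van Kampen obstruction

Let `K` be a simplicial complex with `δ + 1` colours, with vanishing mod `2` van Kampen obstruction in degree `2 δ`.
A function `ζ` on the rainbow faces with `δ + 1` vertices such that, for all colours `c` and all sets `T'`, the sums
of `ζ (T' ∪ {v})` and of `τ v * ζ (T' ∪ {v})` over the vertices `v` of colour `c` vanish, is zero, for the generic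
slopes `τ` in characteristic two.
-/

namespace Pool.Agent.Q169.RC.St

open Finset MvPolynomial Pool.Agent.W555.KS Pool.Agent.Y408.BS Pool.Agent.W646.KS

variable {n δ : ℕ}

/-- the generic slopes -/
noncomputable abbrev kk (n : ℕ) : Type := FractionRing (MvPolynomial (Fin n) (ZMod 2))

noncomputable abbrev gx (v : Fin n) : kk n := algebraMap (MvPolynomial (Fin n) (ZMod 2)) (kk n) (X v)

/-- the two forms of each colour -/
noncomputable def th (κ : Fin n → Fin (δ + 1)) (ij : Fin (δ + 1) × Fin 2) : MvPolynomial (Fin n) (kk n) :=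
  form κ ij.1 (fun v => if ij.2 = 0 then 1 else gx v)

theorem mem_ideal (h1e : StT1E) (hind : StInd) (K : Finset (Finset (Fin n))) (κ : Fin n → Fin (δ + 1))
    (hK : IsCx K) (hV : VK K (2 * δ + 1 + 1))
    (w : Fin (δ + 1) → Fin n) (hw' : ∀ i, κ (w i) = i) :
    (∏ v ∈ univ.image w, X v : MvPolynomial (Fin n) (kk n)) ∈
      srI _ K ⊔ Ideal.span (Set.range (th κ)) := by
  classical
  let k : Type := kk n
  let al : MvPolynomial (Fin n) (ZMod 2) →+* k := algebraMap _ _
  have hchar : CharP k 2 := by
    have h1 : CharP (MvPolynomial (Fin n) (ZMod 2)) 2 := inferInstance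
    exact charP_of_injective_algebraMap (IsFractionRing.injective (MvPolynomial (Fin n) (ZMod 2)) k) 2
  let I : Ideal (MvPolynomial (Fin n) k) := srI k K ⊔ Ideal.span (Set.range (th κ))
  show (∏ v ∈ univ.image w, X v : MvPolynomial (Fin n) k) ∈ I
  rw [← Ideal.Quotient.eq_zero_iff_mem]
  let R : Type := MvPolynomial (Fin n) k ⧸ I
  let x : Fin n → R := fun v => Ideal.Quotient.mk I (X v)
  let e : Fin (2 * δ + 1 + 1) ≃ Fin (δ + 1) × Fin 2 := Fintype.equivOfCardEq (by
    simp only [Fintype.card_fin, Fintype.card_prod]; ring)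
  let b : Fin (δ + 1) × Fin 2 → Fin n → k := fun p v =>
    if κ v = p.1 then (if p.2 = 0 then 1 else al (X v)) else 0
  have hbsum : ∀ p, ∑ v, b p v • x v = 0 := by
    intro p
    have h1 : ∑ v, b p v • x v = Ideal.Quotient.mk I (th κ p) := by
      show _ = Ideal.Quotient.mk I
        (∑ v ∈ univ.filter (fun v => κ v = p.1), C (if p.2 = 0 then 1 else gx v) * X v)
      rw [map_sum, Finset.sum_filter]
      refine Finset.sum_congr rfl (fun v _ => ?_)
      show (if κ v = p.1 then (if p.2 = 0 then 1 else al (X v)) else 0) • x v = _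
      split_ifs with h
      · rw [map_mul, Algebra.smul_def]
        rfl
      · rw [map_mul, Algebra.smul_def]
        rfl
      · rw [zero_smul]
    rw [h1, Ideal.Quotient.eq_zero_iff_mem]
    exact Ideal.mem_sup_right (Ideal.subset_span ⟨p, rfl⟩)
  have hx : ∀ σ, σ ∉ K → ∏ v ∈ σ, x v = 0 := by
    intro σ hσ
    have h1 : ∏ v ∈ σ, x v = Ideal.Quotient.mk I (∏ v ∈ σ, X v) := by
      rw [map_prod]
    rw [h1, Ideal.Quotient.eq_zero_iff_mem]
    exact Ideal.mem_sup_left (Ideal.subset_span ⟨σ, hσ, rfl⟩)
  have hmain : ∀ M : R →ₗ[k] k, M (∏ v ∈ univ.image w, x v) = 0 := by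
    intro M
    have h1 := h1e k R n (2 * δ + 1) (δ + 1) 0 K (fun i v => b (e i) v) x M 0 hK
      hV hx (fun i => hbsum _) (hbsum _).symm (by ring) (by simp)
    simp only [pow_zero, one_mul] at h1
    obtain ⟨W, hW⟩ : ∃ W : Finset (Fin (2 * δ + 1 + 1) → Fin n), W =
      (univ.filter EvenFun).filter (fun h => ∀ i, κ (h i) = (e i).1) := ⟨_, rfl⟩
    have hcol : ∀ h ∈ W, ∀ i, κ (h i) = (e i).1 := by
      intro h hh
      rw [hW, mem_filter] at hh
      exact hh.2
    have hev : ∀ h ∈ W, EvenFun h := by
      intro h hh
      rw [hW, mem_filter, mem_filter] at hh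
      exact hh.1.2
    -- elements of the same colour in the image are equal
    have hfib : ∀ h ∈ W, ∀ i, univ.filter (fun j => h j = h i) = {e.symm ((e i).1, 0), e.symm ((e i).1, 1)} := by
      intro h hh i
      have hsub : univ.filter (fun j => h j = h i) ⊆ {e.symm ((e i).1, 0), e.symm ((e i).1, 1)} := by
        intro j hj
        rw [mem_filter] at hj
        have h2 : (e j).1 = (e i).1 := by rw [← hcol h hh j, ← hcol h hh i, hj.2]
        rw [mem_insert, mem_singleton]
        have h3 : e j = ((e i).1, (e j).2) := by rw [← h2]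
        have h4 : (e j).2 = 0 ∨ (e j).2 = 1 := by
          rcases Fin.exists_fin_two.1 ⟨(e j).2, rfl⟩ with h | h
          · exact Or.inl h
          · exact Or.inr h
        rcases h4 with h4 | h4
        · left
          rw [h4] at h3
          rw [← h3, Equiv.symm_apply_apply]
        · right
          rw [h4] at h3
          rw [← h3, Equiv.symm_apply_apply]
      have hcard : ({e.symm ((e i).1, 0), e.symm ((e i).1, 1)} : Finset (Fin (2 * δ + 1 + 1))).card = 2 := by
        rw [card_pair]
        intro h5
        have h55 : (0 : Fin 2) = 1 := congrArg Prod.snd (e.symm.injective h5)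
        exact absurd h55 (by decide)
      refine eq_of_subset_of_card_le hsub ?_
      rw [hcard]
      have h5 := hev h hh (h i)
      unfold fib at h5
      have h6 : 0 < (univ.filter (fun j => h j = h i)).card := card_pos.2 ⟨i, by simp⟩
      obtain ⟨r, hr⟩ := h5
      omega
    have heq : ∀ h ∈ W, ∀ i j, (e i).1 = (e j).1 → h i = h j := by
      intro h hh i j hij
      have h7 : i ∈ univ.filter (fun l => h l = h j) := by
        have h8 : i ∈ univ.filter (fun l => h l = h i) := by simp
        rw [hfib h hh i, hij, ← hfib h hh j] at h8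
        exact h8
      exact (mem_filter.1 h7).2
    have hinj : Set.InjOn (fun h : Fin (2 * δ + 1 + 1) → Fin n => univ.image h) (W : Set _) := by
      intro h hh h' hh' hhh
      have hh : h ∈ W := hh
      have hh' : h' ∈ W := hh'
      funext i
      have h7 : h i ∈ univ.image h' := by
        have h8 : h i ∈ univ.image h := mem_image_of_mem _ (mem_univ _)
        have h9 : univ.image h = univ.image h' := hhh
        rwa [h9] at h8
      obtain ⟨j, _, hj⟩ := mem_image.1 h7
      have h10 : (e i).1 = (e j).1 := by rw [← hcol h hh i, ← hcol h' hh' j, hj]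
      rw [← hj, heq h' hh' i j h10]
    have hprod : ∀ h ∈ W, ∏ i, b (e i) (h i) = al (∏ v ∈ univ.image h, X v) := by
      intro h hh
      rw [← Equiv.prod_comp e.symm, Fintype.prod_prod_type, map_prod]
      simp only [Equiv.apply_symm_apply, Fin.prod_univ_two]
      have h8 : ∀ c, b (c, 0) (h (e.symm (c, 0))) * b (c, 1) (h (e.symm (c, 1))) =
          al (X (h (e.symm (c, 1)))) := by
        intro c
        have h9 : κ (h (e.symm (c, 0))) = c := by
          rw [hcol h hh, Equiv.apply_symm_apply]
        have h10 : κ (h (e.symm (c, 1))) = c := by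
          rw [hcol h hh, Equiv.apply_symm_apply]
        show (if κ (h (e.symm (c, 0))) = c then (if (0 : Fin 2) = 0 then 1 else al (X _)) else 0) *
          (if κ (h (e.symm (c, 1))) = c then (if (1 : Fin 2) = 0 then 1 else al (X _)) else 0) = _
        rw [if_pos h9, if_pos h10, if_pos rfl, if_neg (by decide), one_mul]
      rw [prod_congr rfl fun c _ => h8 c]
      have h11 : univ.image h = univ.image (fun c => h (e.symm (c, 1))) := by
        ext v
        simp only [mem_image, mem_univ, true_and]
        constructor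
        · rintro ⟨i, rfl⟩
          refine ⟨(e i).1, heq h hh _ _ ?_⟩
          rw [Equiv.apply_symm_apply]
        · rintro ⟨c, rfl⟩
          exact ⟨_, rfl⟩
      rw [h11, prod_image]
      intro c _ c' _ hcc
      have h12 := congrArg κ hcc
      simp only at h12
      rw [hcol h hh, hcol h hh, Equiv.apply_symm_apply, Equiv.apply_symm_apply] at h12
      exact h12
    have hhalf : ∀ h ∈ W, halfMon x h = ∏ v ∈ univ.image h, x v := by
      intro h hh
      unfold halfMon
      rw [← prod_subset (subset_univ (univ.image h))]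
      · refine prod_congr rfl fun v hv => ?_
        obtain ⟨i, _, rfl⟩ := mem_image.1 hv
        have h8 : fib h (h i) = 2 := by
          unfold fib
          rw [hfib h hh i, card_pair]
          intro h5
          have h55 : (0 : Fin 2) = 1 := congrArg Prod.snd (e.symm.injective h5)
          exact absurd h55 (by decide)
        rw [h8]
        norm_num
      · intro v _ hv
        have h8 : fib h v = 0 := by
          unfold fib
          rw [card_eq_zero, filter_eq_empty_iff]
          intro i _ hi
          exact hv (mem_image.2 ⟨i, mem_univ _, hi⟩)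
        rw [h8]
        norm_num
    have h3 : ∑ s ∈ W.image (fun h => univ.image h), al (∏ i ∈ s, X i) * (M (∏ v ∈ s, x v)) ^ 2 = 0 := by
      rw [Finset.sum_image hinj, ← h1]
      have h4 : ∑ h ∈ W, al (∏ i ∈ univ.image h, X i) * (M (∏ v ∈ univ.image h, x v)) ^ 2 =
          ∑ h ∈ W, (∏ i, b (e i) (h i)) * M (halfMon x h) ^ 2 :=
        sum_congr rfl fun h hh => by rw [hprod h hh, hhalf h hh]
      rw [h4, hW]
      rw [Finset.sum_filter]
      refine Finset.sum_congr rfl (fun h _ => ?_)
      split_ifs with hcol
      · rfl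
      · push Not at hcol
        obtain ⟨i, hi⟩ := hcol
        have h0 : ∏ i, b (e i) (h i) = 0 := by
          refine Finset.prod_eq_zero (Finset.mem_univ i) ?_
          show (if κ (h i) = (e i).1 then _ else (0 : k)) = 0
          rw [if_neg hi]
        rw [h0, zero_mul]
    have hwW : (fun i => w (e i).1) ∈ W := by
      rw [hW, mem_filter, mem_filter]
      refine ⟨⟨mem_univ _, ?_⟩, fun i => hw' _⟩
      intro v
      by_cases hv : ∃ c, w c = v
      · obtain ⟨c, rfl⟩ := hv
        have h8 : univ.filter (fun i => w (e i).1 = w c) = {e.symm (c, 0), e.symm (c, 1)} := by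
          ext j
          rw [mem_filter, mem_insert, mem_singleton]
          constructor
          · rintro ⟨_, h9⟩
            have h10 := congrArg κ h9
            rw [hw', hw'] at h10
            rcases Fin.exists_fin_two.1 ⟨(e j).2, rfl⟩ with h | h
            · left
              rw [Equiv.eq_symm_apply]
              exact Prod.ext h10 h
            · right
              rw [Equiv.eq_symm_apply]
              exact Prod.ext h10 h
          · rintro (rfl | rfl) <;> simp
        unfold fib
        rw [h8, card_pair]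
        · exact even_two
        · intro h5
          have h55 : (0 : Fin 2) = 1 := congrArg Prod.snd (e.symm.injective h5)
          exact absurd h55 (by decide)
      · have h8 : fib (fun i => w (e i).1) v = 0 := by
          unfold fib
          rw [card_eq_zero, filter_eq_empty_iff]
          intro i _ hi
          exact hv ⟨_, hi⟩
        rw [h8]
        exact Even.zero
    have h4 := hind (Fin n) (W.image (fun h => univ.image h)) (fun s => M (∏ v ∈ s, x v)) h3
      (univ.image fun i => w (e i).1) (mem_image_of_mem _ hwW)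
    have h5 : (univ.image fun i => w (e i).1) = univ.image w := by
      ext v
      simp only [mem_image, mem_univ, true_and]
      constructor
      · rintro ⟨i, rfl⟩
        exact ⟨_, rfl⟩
      · rintro ⟨c, rfl⟩
        exact ⟨e.symm (c, 0), by rw [Equiv.apply_symm_apply]⟩
    rwa [h5] at h4
  have h5 : Ideal.Quotient.mk I (∏ v ∈ univ.image w, X v) = ∏ v ∈ univ.image w, x v := by
    rw [map_prod]
  rw [h5]
  exact (Module.forall_dual_apply_eq_zero_iff k (∏ v ∈ univ.image w, x v)).1 hmain

/-- the functional given by `ζ` -/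
noncomputable def M0 (ζ : Finset (Fin n) → kk n) : MvPolynomial (Fin n) (kk n) →ₗ[kk n] kk n where
  toFun p := ∑ T : Finset (Fin n), ζ T * coeff (indE T) p
  map_add' p q := by
    rw [← sum_add_distrib]
    exact sum_congr rfl fun T _ => by rw [coeff_add, mul_add]
  map_smul' a p := by
    rw [RingHom.id_apply, smul_eq_mul, mul_sum]
    exact sum_congr rfl fun T _ => by rw [coeff_smul, smul_eq_mul]; ring

theorem M0_apply (ζ : Finset (Fin n) → kk n) (p : MvPolynomial (Fin n) (kk n)) :
    M0 ζ p = ∑ T : Finset (Fin n), ζ T * coeff (indE T) p := rfl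

theorem supp_indE (T : Finset (Fin n)) : (indE T).support = T := by
  ext v
  rw [Finsupp.mem_support_iff, indE_apply]
  by_cases h : v ∈ T <;> simp [h]

theorem indE_erase (T : Finset (Fin n)) (v : Fin n) (hv : v ∈ T) :
    indE T - Finsupp.single v 1 = indE (T.erase v) := by
  ext u
  rw [Finsupp.tsub_apply, indE_apply, indE_apply, Finsupp.single_apply]
  by_cases huv : v = u
  · subst huv
    simp [hv]
  · rw [if_neg huv]
    by_cases hu : u ∈ T
    · rw [if_pos hu, if_pos (mem_erase.2 ⟨Ne.symm huv, hu⟩), Nat.sub_zero]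
    · rw [if_neg hu, if_neg fun h => hu (mem_erase.1 h).2, Nat.sub_zero]

theorem M0_form (κ : Fin n → Fin (δ + 1)) (ζ : Finset (Fin n) → kk n) (a : Fin n → kk n) (i : Fin (δ + 1))
    (h : ∀ (T' : Finset (Fin n)), ∑ v ∈ univ.filter (fun v => κ v = i ∧ v ∉ T'), a v * ζ (insert v T') = 0)
    (p : MvPolynomial (Fin n) (kk n)) : M0 ζ (p * form κ i a) = 0 := by
  rw [M0_apply]
  have e1 : ∀ T : Finset (Fin n), ζ T * coeff (indE T) (p * form κ i a) =
      ∑ v ∈ univ.filter (fun v => κ v = i), if v ∈ T then ζ T * (coeff (indE (T.erase v)) p * a v) else 0 := by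
    intro T
    rw [coeff_mul_form, mul_sum]
    refine sum_congr rfl fun v _ => ?_
    rw [supp_indE]
    split_ifs with hv
    · rw [indE_erase T v hv]
    · rw [mul_zero]
  rw [sum_congr rfl fun T _ => e1 T, sum_comm]
  have e2 : ∀ v : Fin n, (∑ T : Finset (Fin n), if v ∈ T then ζ T * (coeff (indE (T.erase v)) p * a v) else 0) =
      ∑ T' : Finset (Fin n), if v ∉ T' then coeff (indE T') p * (a v * ζ (insert v T')) else 0 := by
    intro v
    rw [← sum_filter, ← sum_filter]
    refine sum_nbij' (fun T => T.erase v) (fun T' => insert v T') ?_ ?_ ?_ ?_ ?_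
    · intro T _
      simp
    · intro T' _
      simp
    · intro T hT
      rw [mem_filter] at hT
      exact insert_erase hT.2
    · intro T' hT'
      rw [mem_filter] at hT'
      exact erase_insert hT'.2
    · intro T hT
      rw [mem_filter] at hT
      rw [insert_erase hT.2]
      ring
  rw [sum_congr rfl fun v _ => e2 v, sum_comm]
  refine sum_eq_zero fun T' _ => ?_
  have e3 := h T'
  rw [← sum_filter, filter_filter, ← mul_sum, e3, mul_zero]

/-- no top cycles -/
theorem zeta_zero (h1e : StT1E) (hind : StInd) (K : Finset (Finset (Fin n))) (κ : Fin n → Fin (δ + 1))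
    (hK : IsCx K) (hV : VK K (2 * δ + 1 + 1)) (ζ : Finset (Fin n) → kk n)
    (h0 : ∀ T, ζ T ≠ 0 → T ∈ K ∧ T.card = δ + 1 ∧ Set.InjOn κ (T : Set (Fin n)))
    (h1 : ∀ (T' : Finset (Fin n)) (i : Fin (δ + 1)),
      ∑ v ∈ univ.filter (fun v => κ v = i ∧ v ∉ T'), ζ (insert v T') = 0)
    (h2 : ∀ (T' : Finset (Fin n)) (i : Fin (δ + 1)),
      ∑ v ∈ univ.filter (fun v => κ v = i ∧ v ∉ T'), gx v * ζ (insert v T') = 0) : ζ = 0 := by
  classical
  have key : ∀ y ∈ srI (kk n) K ⊔ Ideal.span (Set.range (th κ)), M0 ζ y = 0 := by
    intro y hy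
    obtain ⟨y1, hy1, y2, hy2, rfl⟩ := Submodule.mem_sup.1 hy
    rw [map_add]
    have e1 : M0 ζ y1 = 0 := by
      rw [M0_apply]
      refine sum_eq_zero fun T _ => ?_
      by_cases hT : ζ T = 0
      · rw [hT, zero_mul]
      · rw [coeff_srI hK hy1 _ (by rw [supp_indE]; exact (h0 T hT).1), mul_zero]
    have e2 : ∀ p, M0 ζ (p * y2) = 0 := by
      have hy2' : y2 ∈ Submodule.span (MvPolynomial (Fin n) (kk n)) (Set.range (th κ)) := hy2
      clear hy hy2 hy1
      induction hy2' using Submodule.span_induction with
      | mem x hx =>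
        obtain ⟨ij, rfl⟩ := hx
        intro p
        refine M0_form κ ζ _ ij.1 (fun T' => ?_) p
        by_cases hj : ij.2 = 0
        · simp only [hj, if_true, one_mul]
          exact h1 T' ij.1
        · simp only [hj, if_false]
          exact h2 T' ij.1
      | zero => intro p; rw [mul_zero, map_zero]
      | add x y _ _ hx hy => intro p; rw [mul_add, map_add, hx, hy, add_zero]
      | smul a x _ hx => intro p; rw [smul_eq_mul, ← mul_assoc]; exact hx _
    rw [e1, zero_add]
    simpa using e2 1
  funext T
  by_contra hT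
  obtain ⟨hTK, hTc, hTκ⟩ := h0 T hT
  have hbij : ∀ i : Fin (δ + 1), ∃ v ∈ T, κ v = i := by
    intro i
    have e1 : T.image κ = univ := by
      rw [← card_eq_iff_eq_univ, card_image_of_injOn hTκ, hTc, Fintype.card_fin]
    have e2 : i ∈ T.image κ := by rw [e1]; exact mem_univ _
    obtain ⟨v, hv, hvi⟩ := mem_image.1 e2
    exact ⟨v, hv, hvi⟩
  choose w hw1 hw2 using hbij
  have e3 : univ.image w = T := by
    refine eq_of_subset_of_card_le ?_ ?_
    · intro v hv
      obtain ⟨i, _, rfl⟩ := mem_image.1 hv
      exact hw1 i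
    · rw [hTc, card_image_of_injective, card_univ, Fintype.card_fin]
      intro i j hij
      rw [← hw2 i, ← hw2 j, hij]
  have e4 := key _ (mem_ideal h1e hind K κ hK hV w hw2)
  rw [e3] at e4
  have e5 : (∏ v ∈ T, X v : MvPolynomial (Fin n) (kk n)) = monomial (indE T) 1 := by
    unfold indE
    rw [monomial_sum_one]
    rfl
  rw [e5, M0_apply, sum_eq_single T] at e4
  · rw [coeff_monomial, if_pos rfl, mul_one] at e4
    exact hT e4
  · intro T' _ hne
    rw [coeff_monomial, if_neg, mul_zero]
    intro h
    apply hne
    rw [← supp_indE T', ← h, supp_indE]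
  · intro h
    exact absurd (mem_univ _) h

end Pool.Agent.Q169.RC.St
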