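import Pool.Agent.H7.L.W555_KS_Defs

/-!
# KS-EV and KS-CONE
-/

set_option autoImplicit false

namespace Pool.Agent.W253.KS

open Finset Pool.Agent.W555.KS

/-! ### KS-EV -/

section ev
variable {N : Type} [CommRing N] {m : ℕ} (u : Fin m → N) (y : N)

/-- even part -/
def EE (s : Finset (Fin m)) : N :=
  ∑ t ∈ s.powerset, if Even t.card then (∏ i ∈ t, u i) * y ^ (t.card / 2) else 0

/-- odd part -/
def OO (s : Finset (Fin m)) : N :=
  ∑ t ∈ s.powerset, if Even t.card then 0 else (∏ i ∈ t, u i) * y ^ (t.card / 2)

theorem EE_insert (s : Finset (Fin m)) (a : Fin m) (ha : a ∉ s) :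
    EE u y (insert a s) = EE u y s + u a * y * OO u y s := by
  unfold EE OO
  rw [sum_powerset_insert ha, mul_sum]
  congr 1
  refine sum_congr rfl fun t ht => ?_
  have hat : a ∉ t := fun h => ha (mem_powerset.1 ht h)
  rw [card_insert_of_notMem hat, prod_insert hat]
  by_cases h : Even t.card
  · rw [if_neg (by rw [Nat.even_add_one]; exact fun h' => h' h), if_pos h, mul_zero]
  · rw [if_pos (by rw [Nat.even_add_one]; exact h), if_neg h]
    rw [Nat.not_even_iff_odd] at h
    obtain ⟨c, hc⟩ := h
    rw [hc, show (2 * c + 1 + 1) / 2 = c + 1 by omega, show (2 * c + 1) / 2 = c by omega]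
    ring

theorem OO_insert (s : Finset (Fin m)) (a : Fin m) (ha : a ∉ s) :
    OO u y (insert a s) = OO u y s + u a * EE u y s := by
  unfold EE OO
  rw [sum_powerset_insert ha, mul_sum]
  congr 1
  refine sum_congr rfl fun t ht => ?_
  have hat : a ∉ t := fun h => ha (mem_powerset.1 ht h)
  rw [card_insert_of_notMem hat, prod_insert hat]
  by_cases h : Even t.card
  · rw [if_neg (by rw [Nat.even_add_one]; exact fun h' => h' h), if_pos h]
    obtain ⟨c, hc⟩ := h
    rw [hc, show (c + c + 1) / 2 = c by omega, show (c + c) / 2 = c by omega]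
    ring
  · rw [if_pos (by rw [Nat.even_add_one]; exact h), if_neg h, mul_zero]

theorem sq_sum_zero (h2 : (2 : N) = 0) (hu : ∀ i, u i * u i = 0) (s : Finset (Fin m)) :
    (∑ i ∈ s, u i) * ∑ i ∈ s, u i = 0 := by
  classical
  induction s using Finset.induction_on with
  | empty => simp
  | insert a s ha ih =>
    rw [sum_insert ha]
    linear_combination ih + hu a + (u a * ∑ i ∈ s, u i) * h2

theorem EE_mul (h2 : (2 : N) = 0) (hu : ∀ i, u i * u i = 0) (s : Finset (Fin m)) :
    EE u y s * ∑ i ∈ s, u i = OO u y s := by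
  classical
  induction s using Finset.induction_on with
  | empty => simp [EE, OO]
  | insert a s ha ih =>
    rw [EE_insert u y s a ha, OO_insert u y s a ha, sum_insert ha]
    have h3 := sq_sum_zero u h2 hu s
    rw [← ih]
    linear_combination (y * EE u y s * ∑ i ∈ s, u i) * hu a + (u a * y * EE u y s) * h3

theorem prod_one_add (hu : ∀ i, u i * u i = 0) (s : Finset (Fin m)) (a : Fin m) :
    ∏ i ∈ s, (1 + u i * u a * y) = 1 + u a * y * ∑ i ∈ s, u i := by
  classical
  induction s using Finset.induction_on with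
  | empty => simp
  | insert b s hb ih =>
    rw [prod_insert hb, sum_insert hb, ih]
    linear_combination (u b * y * y * ∑ i ∈ s, u i) * hu a

theorem main_ev (h2 : (2 : N) = 0) (hu : ∀ i, u i * u i = 0) (s : Finset (Fin m)) :
    ∏ p ∈ (s ×ˢ s).filter (fun p => p.1 < p.2), (1 + u p.1 * u p.2 * y) = EE u y s := by
  classical
  induction s using Finset.induction_on_max with
  | empty => simp [EE]
  | insert a s hs ih =>
    have ha : a ∉ s := fun h => lt_irrefl _ (hs a h)
    have hsplit : ((insert a s) ×ˢ (insert a s)).filter (fun p => p.1 < p.2) =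
        (s ×ˢ s).filter (fun p => p.1 < p.2) ∪ s ×ˢ {a} := by
      ext ⟨i, j⟩
      simp only [mem_filter, mem_product, mem_insert, mem_union, mem_singleton]
      constructor
      · rintro ⟨⟨h1 | h1, h3 | h3⟩, h4⟩
        · subst h1; subst h3; exact absurd h4 (lt_irrefl _)
        · subst h1; exact absurd h4 (not_lt_of_gt (hs _ h3))
        · exact Or.inr ⟨h1, h3⟩
        · exact Or.inl ⟨⟨h1, h3⟩, h4⟩
      · rintro (⟨⟨h1, h3⟩, h4⟩ | ⟨h1, h3⟩)
        · exact ⟨⟨Or.inr h1, Or.inr h3⟩, h4⟩
        · subst h3
          exact ⟨⟨Or.inr h1, Or.inl rfl⟩, hs _ h1⟩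
    have hdisj : Disjoint ((s ×ˢ s).filter (fun p => p.1 < p.2)) (s ×ˢ {a}) := by
      rw [disjoint_left]
      rintro ⟨i, j⟩ h1 h3
      rw [mem_filter, mem_product] at h1
      rw [mem_product, mem_singleton] at h3
      have := h1.1.2
      rw [h3.2] at this
      exact ha this
    rw [hsplit, prod_union hdisj, ih, prod_product, EE_insert u y s a ha, ← EE_mul u y h2 hu s]
    simp only [prod_singleton]
    rw [prod_one_add u y hu s a]
    ring

end ev

theorem ev : StEv := by
  intro N _ h2 m e b y he
  have hu : ∀ i, (b i * e i) * (b i * e i) = 0 := by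
    intro i
    linear_combination (b i * b i) * he i
  have h := main_ev (fun i => b i * e i) y h2 hu univ
  rw [← univ_product_univ]
  have h1 : ∀ p : Fin m × Fin m, 1 + e p.1 * e p.2 * (b p.1 * b p.2 * y) =
      1 + (b p.1 * e p.1) * (b p.2 * e p.2) * y := fun p => by ring
  rw [prod_congr rfl fun p _ => h1 p, h, EE, powerset_univ, sum_filter]

/-! ### KS-CONE -/

theorem cone : StCone := by
  classical
  intro n d L hL hF
  refine ⟨⟨?_, ?_⟩, ?_⟩
  · rw [coneCx, mem_filter]
    refine ⟨mem_univ _, ?_⟩
    convert hL.1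
    ext i
    simp
  · intro σ hσ τ hτ
    rw [coneCx, mem_filter] at hσ ⊢
    refine ⟨mem_univ _, hL.2 _ hσ.2 _ ?_⟩
    intro i hi
    rw [mem_filter] at hi ⊢
    exact ⟨mem_univ _, hτ hi.2⟩
  · obtain ⟨F, hFc, hFi⟩ := hF
    have hmem : ∀ x ∈ coneSet (coneCx L), (fun i : Fin n => x i.castSucc) ∈ coneSet L := by
      rintro x ⟨hx, σ, hσ, hxσ⟩
      rw [coneCx, mem_filter] at hσ
      refine ⟨fun i => hx _, _, hσ.2, ?_⟩
      intro i hi
      apply hxσ
      intro h
      exact hi (mem_filter.2 ⟨mem_univ _, h⟩)
    refine ⟨fun x => Fin.snoc (α := fun _ => ℝ) (F (fun i => x i.castSucc)) (x (Fin.last n)), ?_, ?_⟩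
    · rw [continuousOn_pi]
      intro j
      refine Fin.lastCases ?_ (fun j => ?_) j
      · simp only [Fin.snoc_last]
        exact (continuous_apply _).continuousOn
      · simp only [Fin.snoc_castSucc]
        have h1 : ContinuousOn (fun x : Fin (n + 1) → ℝ => F (fun i => x i.castSucc))
            (coneSet (coneCx L)) := by
          refine hFc.comp ?_ hmem
          exact (continuous_pi fun i => continuous_apply _).continuousOn
        exact (continuous_apply j).comp_continuousOn h1
    · intro x hx y hy hxy he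
      have e1 : x (Fin.last n) = y (Fin.last n) := by
        have := congrFun he (Fin.last d)
        simpa using this
      have e2 : F (fun i => x i.castSucc) = F (fun i => y i.castSucc) := by
        funext j
        have := congrFun he j.castSucc
        simpa using this
      obtain ⟨h1, h2⟩ := hFi _ (hmem x hx) _ (hmem y hy) (fun i => hxy _) e2
      have h3 : x (Fin.last n) = 0 ∧ y (Fin.last n) = 0 := by
        rcases hxy (Fin.last n) with h | h
        · exact ⟨h, by rw [← e1, h]⟩
        · exact ⟨by rw [e1, h], h⟩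
      constructor
      · funext i
        refine Fin.lastCases ?_ (fun i => ?_) i
        · exact h3.1
        · exact congrFun h1 i
      · funext i
        refine Fin.lastCases ?_ (fun i => ?_) i
        · exact h3.2
        · exact congrFun h2 i

end Pool.Agent.W253.KS
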