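import Pool.Agent.H7.L.W555_KS_Defs

/-!
# KS-ALG: the main characteristic two identity (helper500)
-/

set_option autoImplicit false

namespace Pool.Agent.W500.KS

open Finset MvPolynomial Pool.Agent.W555.KS
open scoped TensorProduct

lemma prod_one_add {N ι : Type*} [CommRing N] [DecidableEq ι] (s : Finset ι) (c : ι → N) (l : N)
    (hl : l * l = 0) :
    ∏ u ∈ s, (1 + l * c u) = 1 + l * ∑ u ∈ s, c u := by
  induction s using Finset.induction_on with
  | empty => simp
  | insert a s ha ih =>
    rw [Finset.prod_insert ha, Finset.sum_insert ha, ih]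
    linear_combination (c a * ∑ u ∈ s, c u) * hl

/-- the squarefree top monomial -/
noncomputable def d0 (m : ℕ) : Fin m →₀ ℕ := Finsupp.equivFunOnFinite.symm (fun _ => 1)

lemma d0_apply (m : ℕ) (i : Fin m) : d0 m i = 1 := rfl

lemma coeff_top_prod {T : Type*} [CommRing T] (n m : ℕ) (w : Fin n → Finset (Fin m) → T) :
    coeff (d0 m) (∏ v, ∑ S : Finset (Fin m), C (w v S) * ∏ i ∈ S, (X i : MvPolynomial (Fin m) T))
      = ∑ h : Fin m → Fin n, ∏ v, w v (univ.filter (fun i => h i = v)) := by
  classical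
  rw [Finset.prod_univ_sum, Fintype.piFinset_univ, coeff_sum]
  have key : ∀ φ : Fin n → Finset (Fin m),
      coeff (d0 m) (∏ v, (C (w v (φ v)) * ∏ i ∈ φ v, (X i : MvPolynomial (Fin m) T)))
        = if (∑ v, ∑ i ∈ φ v, Finsupp.single i 1 : Fin m →₀ ℕ) = d0 m
            then ∏ v, w v (φ v) else 0 := by
    intro φ
    rw [Finset.prod_mul_distrib, ← map_prod, coeff_C_mul]
    have h1 : (∏ v, ∏ i ∈ φ v, (X i : MvPolynomial (Fin m) T))
        = monomial (∑ v, ∑ i ∈ φ v, Finsupp.single i 1) 1 := by
      rw [monomial_sum_one]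
      refine Finset.prod_congr rfl (fun v _ => ?_)
      rw [monomial_sum_one]
      rfl
    rw [h1, coeff_monomial]
    split_ifs <;> simp
  rw [Finset.sum_congr rfl (fun φ _ => key φ), ← Finset.sum_filter]
  symm
  refine Finset.sum_bij (fun h _ => fun v => univ.filter (fun i => h i = v)) ?_ ?_ ?_ ?_
  · intro h _
    rw [Finset.mem_filter]
    refine ⟨Finset.mem_univ _, ?_⟩
    ext i
    rw [d0_apply, Finsupp.finsetSum_apply, Finset.sum_eq_single (h i)]
    · rw [Finsupp.finsetSum_apply, Finset.sum_eq_single i]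
      · simp
      · intro j _ hj
        simp [hj]
      · intro hi
        simp at hi
    · intro v _ hv
      rw [Finsupp.finsetSum_apply]
      refine Finset.sum_eq_zero (fun j hj => ?_)
      rw [Finset.mem_filter] at hj
      rw [Finsupp.single_apply, if_neg]
      rintro rfl
      exact hv hj.2.symm
    · simp
  · intro h _ h' _ e
    funext i
    have h1 := congrFun e (h i)
    have h2 : i ∈ univ.filter (fun j => h j = h i) := by simp
    rw [h1] at h2
    simp at h2
    exact h2.symm
  · intro φ hφ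
    rw [Finset.mem_filter] at hφ
    have h1 : ∀ i, (univ.filter (fun v => i ∈ φ v)).card = 1 := by
      intro i
      have h2 := DFunLike.congr_fun hφ.2 i
      rw [d0_apply, Finsupp.finsetSum_apply] at h2
      rw [← h2, Finset.card_filter]
      refine Finset.sum_congr rfl (fun v _ => ?_)
      rw [Finsupp.finsetSum_apply]
      split_ifs with hi
      · rw [Finset.sum_eq_single i]
        · simp
        · intro j _ hj
          simp [hj]
        · intro hh
          exact absurd hi hh
      · symm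
        refine Finset.sum_eq_zero (fun j hj => ?_)
        rw [Finsupp.single_apply, if_neg]
        rintro rfl
        exact hi hj
    choose g hg using fun i => Finset.card_eq_one.mp (h1 i)
    refine ⟨g, Finset.mem_univ _, ?_⟩
    funext v
    ext i
    rw [Finset.mem_filter]
    have h3 := Finset.ext_iff.mp (hg i) v
    simp only [Finset.mem_filter, Finset.mem_univ, true_and, Finset.mem_singleton] at h3
    simp only [Finset.mem_univ, true_and]
    rw [h3]
    exact eq_comm
  · intro h _
    rfl

/-- the linear forms `l_v` -/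
noncomputable def lin {T : Type*} [CommRing T] {n m : ℕ} (a : Fin m → Fin n → T) (v : Fin n) :
    MvPolynomial (Fin m) T := ∑ i, C (a i v) * X i

lemma coeff_top_lin {T : Type*} [CommRing T] {n m : ℕ} (a : Fin m → Fin n → T)
    (U : Finset (Fin n)) : coeff (d0 m) (∏ u ∈ U, lin a u) = bra a U := by
  classical
  set w : Fin n → Finset (Fin m) → T := fun v S =>
    if v ∈ U then ∑ i, (if S = {i} then a i v else 0) else (if S = ∅ then 1 else 0) with hw
  have h1 : ∏ u ∈ U, lin a u
      = ∏ v, ∑ S : Finset (Fin m), C (w v S) * ∏ i ∈ S, (X i : MvPolynomial (Fin m) T) := by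
    have h2 : ∏ u ∈ U, lin a u = ∏ v, (if v ∈ U then lin a v else 1) := by
      rw [Finset.prod_ite_mem, Finset.univ_inter]
    rw [h2]
    refine Finset.prod_congr rfl (fun v _ => ?_)
    by_cases hv : v ∈ U
    · simp only [hw, if_pos hv, lin]
      simp only [map_sum, Finset.sum_mul]
      rw [Finset.sum_comm]
      refine Finset.sum_congr rfl (fun i _ => ?_)
      rw [Finset.sum_eq_single {i}]
      · simp
      · intro S _ hS
        rw [if_neg hS]
        simp
      · simp
    · simp only [hw, if_neg hv]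
      rw [Finset.sum_eq_single ∅]
      · simp
      · intro S _ hS
        rw [if_neg hS]
        simp
      · simp
  rw [h1, coeff_top_prod]
  unfold bra
  rw [Finset.sum_filter]
  refine Finset.sum_congr rfl (fun h _ => ?_)
  split_ifs with hh
  · obtain ⟨hinj, him⟩ := hh
    have h3 : ∏ v, w v (univ.filter (fun i => h i = v))
        = ∏ v ∈ U, w v (univ.filter (fun i => h i = v)) := by
      symm
      refine Finset.prod_subset (Finset.subset_univ U) (fun v _ hv => ?_)
      simp only [hw, if_neg hv]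
      rw [if_pos]
      rw [Finset.filter_eq_empty_iff]
      intro i _ hi
      apply hv
      rw [← him, ← hi]
      exact Finset.mem_image_of_mem _ (Finset.mem_univ _)
    rw [h3]
    conv_lhs => rw [← him]
    rw [Finset.prod_image (fun i _ j _ e => hinj e)]
    refine Finset.prod_congr rfl (fun i _ => ?_)
    have h4 : univ.filter (fun j => h j = h i) = {i} := by
      ext j
      simp only [Finset.mem_filter, Finset.mem_univ, true_and, Finset.mem_singleton]
      exact hinj.eq_iff
    rw [h4]
    have h5 : h i ∈ U := by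
      rw [← him]
      exact Finset.mem_image_of_mem _ (Finset.mem_univ _)
    simp only [hw, if_pos h5]
    rw [Finset.sum_eq_single i]
    · simp
    · intro j _ hj
      rw [if_neg]
      intro e
      exact hj (Finset.singleton_inj.mp e).symm
    · simp
  · obtain ⟨v, hv⟩ : ∃ v, w v (univ.filter (fun i => h i = v)) = 0 := by
      by_contra hcon
      push Not at hcon
      have hA : ∀ v ∈ U, ∃ i, univ.filter (fun i => h i = v) = {i} := by
        intro v hv
        by_contra h6
        push Not at h6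
        apply hcon v
        simp only [hw, if_pos hv]
        exact Finset.sum_eq_zero (fun i _ => if_neg (h6 i))
      have hB : ∀ v, v ∉ U → univ.filter (fun i => h i = v) = ∅ := by
        intro v hv
        by_contra h6
        apply hcon v
        simp only [hw, if_neg hv, if_neg h6]
      have hC : ∀ i, h i ∈ U := by
        intro i
        by_contra h6
        have h7 := hB _ h6
        have h8 : i ∈ univ.filter (fun j => h j = h i) := by simp
        rw [h7] at h8
        simp at h8
      apply hh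
      constructor
      · intro i j e
        obtain ⟨l, hl⟩ := hA _ (hC i)
        have h8 : i ∈ univ.filter (fun j => h j = h i) := by simp
        have h9 : j ∈ univ.filter (fun j => h j = h i) := by simp [e]
        rw [hl, Finset.mem_singleton] at h8 h9
        rw [h8, h9]
      · ext v
        rw [Finset.mem_image]
        constructor
        · rintro ⟨i, _, rfl⟩
          exact hC i
        · intro hv
          obtain ⟨l, hl⟩ := hA _ hv
          have h8 : l ∈ univ.filter (fun j => h j = v) := by rw [hl]; simp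
          rw [Finset.mem_filter] at h8
          exact ⟨l, Finset.mem_univ _, h8.2⟩
    exact Finset.prod_eq_zero (Finset.mem_univ v) hv

/-- replacing the factors one at a time -/
lemma repl {P k : Type*} [CommRing P] [Field k] [CharP k 2] (sw : P →+* P)
    (hsw : ∀ z, sw (sw z) = z) (Ψ : P →+ k) (hΨ : ∀ z, Ψ (sw z) = Ψ z) {ι : Type*} [DecidableEq ι]
    (s : Finset ι) (f g : ι → P) (hf : ∀ p ∈ s, sw (f p) = f p) :
    ∀ y, sw y = y → Ψ (y * ∏ p ∈ s, (f p + (g p + sw (g p)))) = Ψ (y * ∏ p ∈ s, f p) := by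
  induction s using Finset.induction_on with
  | empty => intro y _; simp
  | insert a s ha ih =>
    intro y hy
    have hfa := hf a (Finset.mem_insert_self _ _)
    have hfs : ∀ p ∈ s, sw (f p) = f p := fun p hp => hf p (Finset.mem_insert_of_mem hp)
    rw [Finset.prod_insert ha, Finset.prod_insert ha, ← mul_assoc, ih hfs]
    · set F := ∏ p ∈ s, f p with hF
      have hFs : sw F = F := by
        rw [hF, map_prod]
        exact Finset.prod_congr rfl hfs
      have h1 : y * (f a + (g a + sw (g a))) * F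
          = y * (f a * F) + (y * F * g a + sw (y * F * g a)) := by
        rw [map_mul, map_mul, hy, hFs]
        ring
      rw [h1, map_add, map_add, hΨ, CharTwo.add_self_eq_zero, add_zero]
    · rw [map_mul, hy, map_add, hfa, map_add, hsw]
      ring

/-- squares of the variables -/
noncomputable def J (m : ℕ) (T : Type*) [CommRing T] : Ideal (MvPolynomial (Fin m) T) :=
  Ideal.span (Set.range fun i : Fin m => (X i * X i : MvPolynomial (Fin m) T))

lemma coeff_J {m : ℕ} {T : Type*} [CommRing T] {z : MvPolynomial (Fin m) T} (hz : z ∈ J m T) :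
    coeff (d0 m) z = 0 := by
  classical
  obtain ⟨c, hc⟩ := Ideal.mem_span_range_iff_exists_fun.mp hz
  rw [← hc, coeff_sum]
  refine Finset.sum_eq_zero (fun i _ => ?_)
  rw [← mul_assoc, coeff_mul_X', coeff_mul_X']
  split_ifs with h1 h2
  · exfalso
    rw [Finsupp.mem_support_iff, Finsupp.tsub_apply, d0_apply, Finsupp.single_eq_same] at h2
    exact h2 rfl
  · rfl
  · rfl

lemma coeff_congr {m : ℕ} {T : Type*} [CommRing T] {z z' : MvPolynomial (Fin m) T}
    (h : Ideal.Quotient.mk (J m T) z = Ideal.Quotient.mk (J m T) z') :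
    coeff (d0 m) z = coeff (d0 m) z' := by
  have h1 := coeff_J (Ideal.Quotient.eq.mp h)
  rw [coeff_sub] at h1
  exact sub_eq_zero.mp h1

lemma sum_split {A : Type*} [AddCommMonoid A] {n : ℕ} (f : Fin n → Fin n → A) :
    ∑ u, ∑ v, f u v = ∑ v, ∑ u ∈ univ.filter (fun u => u < v), f u v + ∑ v, f v v
      + ∑ v, ∑ u ∈ univ.filter (fun u => u < v), f v u := by
  have h1 : ∀ u v, f u v = (if u < v then f u v else 0) + (if u = v then f u v else 0)
      + (if v < u then f u v else 0) := by
    intro u v
    rcases lt_trichotomy u v with h | h | h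
    · rw [if_pos h, if_neg h.ne, if_neg h.not_gt]; simp
    · subst h; simp
    · rw [if_neg h.not_gt, if_neg h.ne', if_pos h]; simp
  have h2 : ∑ u, ∑ v, f u v = ∑ u, ∑ v, ((if u < v then f u v else 0)
      + (if u = v then f u v else 0) + (if v < u then f u v else 0)) :=
    Finset.sum_congr rfl (fun u _ => Finset.sum_congr rfl (fun v _ => h1 u v))
  rw [h2]
  simp only [Finset.sum_add_distrib]
  congr 1
  · congr 1
    · rw [Finset.sum_comm]
      refine Finset.sum_congr rfl (fun v _ => ?_)
      rw [Finset.sum_filter]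
    · refine Finset.sum_congr rfl (fun v _ => ?_)
      simp
  · refine Finset.sum_congr rfl (fun v _ => ?_)
    rw [Finset.sum_filter]

section tensor

variable {k R : Type} [Field k] [CommRing R] [Algebra k R]

variable (k R) in
/-- left inclusion -/
noncomputable def i1 : R →ₐ[k] R ⊗[k] R := Algebra.TensorProduct.includeLeft

variable (k R) in
/-- right inclusion -/
noncomputable def i2 : R →ₐ[k] R ⊗[k] R := Algebra.TensorProduct.includeRight

variable (k R) in
/-- exchange of the factors -/
noncomputable def swT : R ⊗[k] R →ₐ[k] R ⊗[k] R :=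
  ((Algebra.TensorProduct.comm k R R : R ⊗[k] R ≃ₐ[k] R ⊗[k] R) : R ⊗[k] R →ₐ[k] R ⊗[k] R)

lemma swT_i1 (r : R) : swT k R (i1 k R r) = i2 k R r := by
  simp [swT, i1, i2]

lemma swT_i2 (r : R) : swT k R (i2 k R r) = i1 k R r := by
  simp [swT, i1, i2]

lemma swT_swT (z : R ⊗[k] R) : swT k R (swT k R z) = z := by
  have h : (swT k R).comp (swT k R) = AlgHom.id k _ := by
    apply Algebra.TensorProduct.ext
    · ext r; simp [swT]
    · ext r; simp [swT]
  exact DFunLike.congr_fun h z

/-- the functional `M ⊗ M` -/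
noncomputable def Phi (M : R →ₗ[k] k) : R ⊗[k] R →ₗ[k] k :=
  (LinearMap.mul' k k).comp (TensorProduct.map M M)

lemma Phi_mul (M : R →ₗ[k] k) (r s : R) : Phi M (i1 k R r * i2 k R s) = M r * M s := by
  simp [Phi, i1, i2]

lemma Phi_sw (M : R →ₗ[k] k) (z : R ⊗[k] R) : Phi M (swT k R z) = Phi M z := by
  induction z using TensorProduct.induction_on with
  | zero => simp
  | tmul r s => simp [Phi, swT, mul_comm]
  | add a b ha hb => rw [map_add, map_add, map_add, ha, hb]

end tensor

lemma bra_card {T : Type*} [CommRing T] {n m : ℕ} (a : Fin m → Fin n → T)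
    (U : Finset (Fin n)) (hU : U.card ≠ m) : bra a U = 0 := by
  unfold bra
  rw [Finset.filter_false_of_mem, Finset.sum_empty]
  rintro h _ ⟨hinj, him⟩
  apply hU
  rw [← him, Finset.card_image_of_injective _ hinj]
  simp

lemma stepI {T : Type} [CommRing T] {n m : ℕ} (hm : Even m) (α : Fin m → Fin n → T)
    (Y Y' : Fin n → T) :
    coeff (d0 m) (∑ U ∈ (univ : Finset (Finset (Fin n))).filter (fun U => Even U.card),
      (∏ u ∈ U, lin α u) * (∏ u ∈ evenPart U, C (Y u)) * (∏ u ∈ oddPart U, C (Y' u)))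
    = ∑ U ∈ powersetCard m univ, bra α U * ((∏ u ∈ evenPart U, Y u) * ∏ u ∈ oddPart U, Y' u) := by
  rw [coeff_sum]
  have h1 : ∀ U : Finset (Fin n), coeff (d0 m) ((∏ u ∈ U, lin α u) *
      (∏ u ∈ evenPart U, C (Y u)) * (∏ u ∈ oddPart U, C (Y' u)))
      = bra α U * ((∏ u ∈ evenPart U, Y u) * ∏ u ∈ oddPart U, Y' u) := by
    intro U
    have h3 : (∏ u ∈ U, lin α u) * (∏ u ∈ evenPart U, C (Y u)) * (∏ u ∈ oddPart U, C (Y' u))
        = C ((∏ u ∈ evenPart U, Y u) * ∏ u ∈ oddPart U, Y' u) * ∏ u ∈ U, lin α u := by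
      rw [map_mul, map_prod, map_prod]
      ring
    rw [h3, coeff_C_mul, coeff_top_lin, mul_comm]
  rw [Finset.sum_congr rfl (fun U _ => h1 U)]
  symm
  refine Finset.sum_subset ?_ ?_
  · intro U hU
    rw [Finset.mem_powersetCard] at hU
    rw [Finset.mem_filter]
    exact ⟨Finset.mem_univ _, by rw [hU.2]; exact hm⟩
  · intro U _ hU
    rw [bra_card, zero_mul]
    intro h
    exact hU (Finset.mem_powersetCard.mpr ⟨Finset.subset_univ _, h⟩)

lemma mkX_sq {m : ℕ} {T : Type*} [CommRing T] (i : Fin m) :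
    Ideal.Quotient.mk (J m T) (X i) * Ideal.Quotient.mk (J m T) (X i) = 0 := by
  rw [← map_mul, Ideal.Quotient.eq_zero_iff_mem]
  exact Ideal.subset_span ⟨i, rfl⟩

lemma two_N {m : ℕ} {T : Type*} [CommRing T] (h2 : (2 : T) = 0) :
    (2 : MvPolynomial (Fin m) T ⧸ J m T) = 0 := by
  have h : (2 : MvPolynomial (Fin m) T ⧸ J m T) = Ideal.Quotient.mk (J m T) (C (2 : T)) := by
    rw [map_ofNat, map_ofNat]
  rw [h, h2, map_zero, map_zero]

lemma sum_sq_zero {N : Type*} [CommRing N] (h2 : (2 : N) = 0) {ι : Type*} [DecidableEq ι]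
    (s : Finset ι) (b e : ι → N) (he : ∀ i, e i * e i = 0) :
    (∑ i ∈ s, b i * e i) * (∑ i ∈ s, b i * e i) = 0 := by
  induction s using Finset.induction_on with
  | empty => simp
  | insert a s ha ih =>
    rw [Finset.sum_insert ha]
    linear_combination (b a * b a) * he a + ih + (b a * e a * ∑ i ∈ s, b i * e i) * h2

lemma stepA (hpn : StPn) (hpl : StPl) {T : Type} [CommRing T] (h2 : (2 : T) = 0) {n m : ℕ}
    (α : Fin m → Fin n → T) (Y Y' : Fin n → T) :
    coeff (d0 m) (∑ U ∈ (univ : Finset (Finset (Fin n))).filter (fun U => Even U.card),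
      (∏ u ∈ U, lin α u) * (∏ u ∈ evenPart U, C (Y u)) * (∏ u ∈ oddPart U, C (Y' u)))
    = coeff (d0 m) (∏ p ∈ (univ : Finset (Fin m × Fin m)).filter (fun p => p.1 < p.2),
      (1 + X p.1 * X p.2 * C (∑ v, ∑ u ∈ univ.filter (fun u => u < v),
        (α p.1 u * α p.2 v + α p.2 u * α p.1 v) * (Y u * Y' v)))) := by
  apply coeff_congr
  set π := Ideal.Quotient.mk (J m T) with hπ
  have h2N := two_N (m := m) h2
  set e : Fin m → MvPolynomial (Fin m) T ⧸ J m T := fun i => π (X i) with he
  have hee : ∀ i, e i * e i = 0 := fun i => mkX_sq i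
  have hL : ∀ u, π (lin α u) * π (lin α u) = 0 := by
    intro u
    have h3 : π (lin α u) = ∑ i, π (C (α i u)) * e i := by
      rw [lin, map_sum]
      refine Finset.sum_congr rfl (fun i _ => ?_)
      rw [map_mul]
    rw [h3]
    exact sum_sq_zero h2N _ _ _ hee
  have hA := hpn (MvPolynomial (Fin m) T ⧸ J m T) h2N n (fun u => π (lin α u))
    (fun u => π (C (Y u))) (fun u => π (C (Y' u))) hL
  rw [map_sum, map_prod]
  have hA' : ∀ U : Finset (Fin n), π ((∏ u ∈ U, lin α u) * (∏ u ∈ evenPart U, C (Y u)) *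
      (∏ u ∈ oddPart U, C (Y' u))) = (∏ u ∈ U, π (lin α u)) * (∏ u ∈ evenPart U, π (C (Y u))) *
      (∏ u ∈ oddPart U, π (C (Y' u))) := by
    intro U
    rw [map_mul, map_mul, map_prod, map_prod, map_prod]
  rw [Finset.sum_congr rfl (fun U _ => hA' U), hA]
  have hB : ∀ v, (1 + (∑ u ∈ univ.filter (fun u => u < v), π (lin α u) * π (C (Y u))) *
      (π (lin α v) * π (C (Y' v)))) = ∏ u ∈ univ.filter (fun u => u < v),
        ∏ p ∈ (univ : Finset (Fin m × Fin m)).filter (fun p => p.1 < p.2),
          (1 + e p.1 * e p.2 * π (C ((α p.1 u * α p.2 v + α p.2 u * α p.1 v) * (Y u * Y' v)))) := by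
    intro v
    rw [mul_comm, ← prod_one_add _ _ (π (lin α v) * π (C (Y' v)))]
    · refine Finset.prod_congr rfl (fun u _ => ?_)
      have h3 := hpl (MvPolynomial (Fin m) T ⧸ J m T) h2N m e
        (fun i => π (C (α i u)) * π (C (Y u))) (fun i => π (C (α i v)) * π (C (Y' v))) hee
      have h4 : ∑ i, π (C (α i u)) * π (C (Y u)) * e i = π (lin α u) * π (C (Y u)) := by
        rw [lin, map_sum, Finset.sum_mul]
        refine Finset.sum_congr rfl (fun i _ => ?_)
        rw [map_mul]
        ring
      have h5 : ∑ i, π (C (α i v)) * π (C (Y' v)) * e i = π (lin α v) * π (C (Y' v)) := by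
        rw [lin, map_sum, Finset.sum_mul]
        refine Finset.sum_congr rfl (fun i _ => ?_)
        rw [map_mul]
        ring
      rw [h4, h5] at h3
      rw [mul_comm (π (lin α v) * π (C (Y' v))), ← h3]
      refine Finset.prod_congr rfl (fun p _ => ?_)
      simp only [map_mul, map_add]
      ring
    · have := hL v
      linear_combination (π (C (Y' v)) * π (C (Y' v))) * this
  rw [Finset.prod_congr rfl (fun v _ => hB v)]
  have hC : ∀ v, (∏ u ∈ univ.filter (fun u => u < v),
        ∏ p ∈ (univ : Finset (Fin m × Fin m)).filter (fun p => p.1 < p.2),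
          (1 + e p.1 * e p.2 * π (C ((α p.1 u * α p.2 v + α p.2 u * α p.1 v) * (Y u * Y' v)))))
      = ∏ p ∈ (univ : Finset (Fin m × Fin m)).filter (fun p => p.1 < p.2),
        ∏ u ∈ univ.filter (fun u => u < v),
          (1 + e p.1 * e p.2 * π (C ((α p.1 u * α p.2 v + α p.2 u * α p.1 v) * (Y u * Y' v)))) :=
    fun v => Finset.prod_comm
  rw [Finset.prod_congr rfl (fun v _ => hC v), Finset.prod_comm]
  refine Finset.prod_congr rfl (fun p _ => ?_)
  have hl : (e p.1 * e p.2) * (e p.1 * e p.2) = 0 := by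
    linear_combination (e p.2 * e p.2) * hee p.1
  rw [Finset.prod_congr rfl (fun v _ => prod_one_add (univ.filter (fun u => u < v)) _ _ hl),
    prod_one_add _ _ _ hl, map_add, map_one, map_mul, map_mul, map_sum, map_sum]
  congr 2
  refine Finset.sum_congr rfl (fun v _ => ?_)
  rw [map_sum, map_sum]

lemma stepG (hev : StEv) {T : Type} [CommRing T] (h2 : (2 : T) = 0) {n m : ℕ}
    (α : Fin m → Fin n → T) (y : Fin n → T) :
    coeff (d0 m) (∏ p ∈ (univ : Finset (Fin m × Fin m)).filter (fun p => p.1 < p.2),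
      (1 + X p.1 * X p.2 * C (∑ v, α p.1 v * α p.2 v * y v)))
    = ∑ h ∈ (univ : Finset (Fin m → Fin n)).filter EvenFun,
        (∏ i, α i (h i)) * ∏ v, y v ^ (fib h v / 2) := by
  classical
  set π := Ideal.Quotient.mk (J m T) with hπ
  have h2N := two_N (m := m) h2
  set e : Fin m → MvPolynomial (Fin m) T ⧸ J m T := fun i => π (X i) with he
  have hee : ∀ i, e i * e i = 0 := fun i => mkX_sq i
  set w : Fin n → Finset (Fin m) → T := fun v S =>
    if Even S.card then (∏ i ∈ S, α i v) * y v ^ (S.card / 2) else 0 with hw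
  have h1 : coeff (d0 m) (∏ p ∈ (univ : Finset (Fin m × Fin m)).filter (fun p => p.1 < p.2),
      (1 + X p.1 * X p.2 * C (∑ v, α p.1 v * α p.2 v * y v)))
      = coeff (d0 m) (∏ v, ∑ S : Finset (Fin m), C (w v S) *
        ∏ i ∈ S, (X i : MvPolynomial (Fin m) T)) := by
    apply coeff_congr
    rw [map_prod, map_prod]
    have hA : ∀ v, π (∑ S : Finset (Fin m), C (w v S) *
        ∏ i ∈ S, (X i : MvPolynomial (Fin m) T))
        = ∏ p ∈ (univ : Finset (Fin m × Fin m)).filter (fun p => p.1 < p.2),
            (1 + e p.1 * e p.2 * π (C (α p.1 v * α p.2 v * y v))) := by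
      intro v
      have h3 := hev (MvPolynomial (Fin m) T ⧸ J m T) h2N m e (fun i => π (C (α i v)))
        (π (C (y v))) hee
      have h4 : ∏ p ∈ (univ : Finset (Fin m × Fin m)).filter (fun p => p.1 < p.2),
            (1 + e p.1 * e p.2 * π (C (α p.1 v * α p.2 v * y v)))
          = ∏ p ∈ (univ : Finset (Fin m × Fin m)).filter (fun p => p.1 < p.2),
            (1 + e p.1 * e p.2 * (π (C (α p.1 v)) * π (C (α p.2 v)) * π (C (y v)))) := by
        refine Finset.prod_congr rfl (fun p _ => ?_)
        simp only [map_mul]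
      rw [h4, h3, map_sum, Finset.sum_filter]
      refine Finset.sum_congr rfl (fun S _ => ?_)
      simp only [hw]
      split_ifs with hS
      · rw [Finset.prod_mul_distrib]
        simp only [map_mul, map_prod, map_pow, he]
        ring
      · simp
    rw [Finset.prod_congr rfl (fun v _ => hA v), Finset.prod_comm]
    refine Finset.prod_congr rfl (fun p _ => ?_)
    have hl : (e p.1 * e p.2) * (e p.1 * e p.2) = 0 := by
      linear_combination (e p.2 * e p.2) * hee p.1
    rw [prod_one_add _ _ _ hl, map_add, map_one, map_mul, map_mul, map_sum, map_sum]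
  rw [h1, coeff_top_prod, Finset.sum_filter]
  refine Finset.sum_congr rfl (fun h _ => ?_)
  split_ifs with hh
  · have h5 : ∀ v, w v (univ.filter (fun i => h i = v))
        = (∏ i ∈ univ.filter (fun i => h i = v), α i (h i)) * y v ^ (fib h v / 2) := by
      intro v
      have h6 : Even (univ.filter (fun i => h i = v)).card := hh v
      simp only [hw]
      rw [if_pos h6]
      congr 1
      refine Finset.prod_congr rfl (fun i hi => ?_)
      rw [(Finset.mem_filter.mp hi).2]
    rw [Finset.prod_congr rfl (fun v _ => h5 v), Finset.prod_mul_distrib,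
      Finset.prod_fiberwise]
  · unfold EvenFun at hh
    push Not at hh
    obtain ⟨v, hv⟩ := hh
    refine Finset.prod_eq_zero (Finset.mem_univ v) ?_
    simp only [hw]
    rw [if_neg]
    exact hv

lemma two_k {k T : Type*} [Field k] [CharP k 2] [CommRing T] [Algebra k T] : (2 : T) = 0 := by
  have h : (2 : T) = algebraMap k T 2 := by rw [map_ofNat]
  rw [h, CharTwo.two_eq_zero, map_zero]

lemma Pij_eq {k R : Type} [Field k] [CharP k 2] [CommRing R] [Algebra k R] {n : ℕ}
    (α β : Fin n → k) (x : Fin n → R) (hα : ∑ v, α v • x v = 0) :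
    ∑ v, ∑ u ∈ univ.filter (fun u => u < v),
      (algebraMap k (R ⊗[k] R) (α u) * algebraMap k (R ⊗[k] R) (β v) +
        algebraMap k (R ⊗[k] R) (β u) * algebraMap k (R ⊗[k] R) (α v)) *
        (i1 k R (x u) * i2 k R (x v))
    = (∑ v, algebraMap k (R ⊗[k] R) (α v) * algebraMap k (R ⊗[k] R) (β v) *
        (i1 k R (x v) * i2 k R (x v)))
      + ((∑ v, ∑ u ∈ univ.filter (fun u => u < v),
          algebraMap k (R ⊗[k] R) (α u) * algebraMap k (R ⊗[k] R) (β v) *
          (i1 k R (x u) * i2 k R (x v)))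
        + swT k R (∑ v, ∑ u ∈ univ.filter (fun u => u < v),
          algebraMap k (R ⊗[k] R) (α u) * algebraMap k (R ⊗[k] R) (β v) *
          (i1 k R (x u) * i2 k R (x v)))) := by
  set A : k →+* R ⊗[k] R := algebraMap k (R ⊗[k] R) with hA
  have h2 : (2 : R ⊗[k] R) = 0 := two_k (k := k)
  have h0 : (∑ u, A (α u) * i1 k R (x u)) = 0 := by
    have : ∑ u, A (α u) * i1 k R (x u) = i1 k R (∑ v, α v • x v) := by
      rw [map_sum]
      refine Finset.sum_congr rfl (fun v _ => ?_)
      rw [map_smul, Algebra.smul_def]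
    rw [this, hα, map_zero]
  have h1 : ∑ u, ∑ v, A (α u) * A (β v) * (i1 k R (x u) * i2 k R (x v)) = 0 := by
    have : ∑ u, ∑ v, A (α u) * A (β v) * (i1 k R (x u) * i2 k R (x v))
        = (∑ u, A (α u) * i1 k R (x u)) * ∑ v, A (β v) * i2 k R (x v) := by
      rw [Finset.sum_mul_sum]
      refine Finset.sum_congr rfl (fun u _ => Finset.sum_congr rfl (fun v _ => ?_))
      ring
    rw [this, h0, zero_mul]
  rw [sum_split] at h1
  have hswA : ∀ c, swT k R (A c) = A c := fun c => (swT k R).commutes c
  set G := ∑ v, ∑ u ∈ univ.filter (fun u => u < v),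
    A (α u) * A (β v) * (i1 k R (x u) * i2 k R (x v)) with hG
  set H := ∑ v, ∑ u ∈ univ.filter (fun u => u < v),
    A (β u) * A (α v) * (i1 k R (x u) * i2 k R (x v)) with hH
  set S := ∑ v, A (α v) * A (β v) * (i1 k R (x v) * i2 k R (x v)) with hS
  have hP : ∑ v, ∑ u ∈ univ.filter (fun u => u < v),
      (A (α u) * A (β v) + A (β u) * A (α v)) * (i1 k R (x u) * i2 k R (x v)) = G + H := by
    rw [hG, hH, ← Finset.sum_add_distrib]
    refine Finset.sum_congr rfl (fun v _ => ?_)
    rw [← Finset.sum_add_distrib]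
    refine Finset.sum_congr rfl (fun u _ => ?_)
    ring
  have hK : ∑ v, ∑ u ∈ univ.filter (fun u => u < v),
      A (α v) * A (β u) * (i1 k R (x v) * i2 k R (x u)) = swT k R H := by
    rw [hH, map_sum]
    refine Finset.sum_congr rfl (fun v _ => ?_)
    rw [map_sum]
    refine Finset.sum_congr rfl (fun u _ => ?_)
    rw [map_mul, map_mul, map_mul, hswA, hswA, swT_i1, swT_i2]
    ring
  have hSs : swT k R S = S := by
    rw [hS, map_sum]
    refine Finset.sum_congr rfl (fun v _ => ?_)
    rw [map_mul, map_mul, map_mul, hswA, hswA, swT_i1, swT_i2]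
    ring
  rw [hK] at h1
  have h3 := congrArg (swT k R) h1
  rw [map_add, map_add, hSs, swT_swT, map_zero] at h3
  rw [hP]
  linear_combination h3 - (S + swT k R G) * h2

theorem alg (hpn : StPn) (hpl : StPl) (hev : StEv) : StAlg := by
  classical
  intro k R _ _ _ _ n q a x M ha
  have h2 : (2 : R ⊗[k] R) = 0 := two_k (k := k)
  set A : k →+* R ⊗[k] R := algebraMap k (R ⊗[k] R) with hA
  have hPhiA : ∀ (c : k) (z : R ⊗[k] R), Phi M (A c * z) = c * Phi M z := by
    intro c z
    rw [hA, ← Algebra.smul_def, map_smul, smul_eq_mul]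
  set α : Fin (2 * q) → Fin n → R ⊗[k] R := fun i v => A (a i v) with hα
  set Y : Fin n → R ⊗[k] R := fun v => i1 k R (x v) with hY
  set Y' : Fin n → R ⊗[k] R := fun v => i2 k R (x v) with hY'
  have hI := stepI (m := 2 * q) (by simp) α Y Y'
  have hAA := stepA (m := 2 * q) hpn hpl h2 α Y Y'
  have hG := stepG (m := 2 * q) hev h2 α (fun v => Y v * Y' v)
  -- left side
  have hL : ∑ U ∈ powersetCard (2 * q) univ,
      bra a U * M (∏ v ∈ evenPart U, x v) * M (∏ v ∈ oddPart U, x v)
      = Phi M (∑ U ∈ powersetCard (2 * q) univ,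
        bra α U * ((∏ u ∈ evenPart U, Y u) * ∏ u ∈ oddPart U, Y' u)) := by
    rw [map_sum]
    refine Finset.sum_congr rfl (fun U _ => ?_)
    have h3 : bra α U = A (bra a U) := by
      unfold bra
      rw [map_sum]
      refine Finset.sum_congr rfl (fun h _ => ?_)
      rw [map_prod]
    rw [h3, hPhiA]
    simp only [hY, hY']
    rw [← map_prod, ← map_prod, Phi_mul]
    ring
  -- right side
  have hR : ∑ h ∈ (univ : Finset (Fin (2 * q) → Fin n)).filter EvenFun,
        (∏ i, a i (h i)) * M (halfMon x h) ^ 2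
      = Phi M (∑ h ∈ (univ : Finset (Fin (2 * q) → Fin n)).filter EvenFun,
        (∏ i, α i (h i)) * ∏ v, (Y v * Y' v) ^ (fib h v / 2)) := by
    rw [map_sum]
    refine Finset.sum_congr rfl (fun h _ => ?_)
    have h3 : ∏ v, (Y v * Y' v) ^ (fib h v / 2)
        = i1 k R (halfMon x h) * i2 k R (halfMon x h) := by
      unfold halfMon
      rw [map_prod, map_prod, ← Finset.prod_mul_distrib]
      refine Finset.prod_congr rfl (fun v _ => ?_)
      rw [map_pow, map_pow, mul_pow]
    have h4 : ∏ i, α i (h i) = A (∏ i, a i (h i)) := by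
      rw [map_prod]
    rw [h3, h4, hPhiA, Phi_mul, sq]
  rw [hL, hR, ← hI, ← hG, hAA]
  -- the swap
  set sw : MvPolynomial (Fin (2 * q)) (R ⊗[k] R) →+* MvPolynomial (Fin (2 * q)) (R ⊗[k] R) :=
    MvPolynomial.map ((swT k R : R ⊗[k] R →ₐ[k] R ⊗[k] R) : R ⊗[k] R →+* R ⊗[k] R) with hsw
  have hswC : ∀ z, sw (C z) = C (swT k R z) := by
    intro z
    rw [hsw, map_C]
    rfl
  have hswX : ∀ i, sw (X i) = X i := by
    intro i
    rw [hsw, map_X]
  have hswsw : ∀ z, sw (sw z) = z := by
    intro z
    rw [hsw, MvPolynomial.map_map]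
    have h5 : (((swT k R : R ⊗[k] R →ₐ[k] R ⊗[k] R) : R ⊗[k] R →+* R ⊗[k] R)).comp
        ((swT k R : R ⊗[k] R →ₐ[k] R ⊗[k] R) : R ⊗[k] R →+* R ⊗[k] R) = RingHom.id _ := by
      refine RingHom.ext (fun z => ?_)
      exact swT_swT z
    rw [h5, MvPolynomial.map_id]
  set Ψ : MvPolynomial (Fin (2 * q)) (R ⊗[k] R) →+ k :=
    ((Phi M : R ⊗[k] R →ₗ[k] k).toAddMonoidHom).comp (coeffAddMonoidHom (d0 (2 * q))) with hΨ
  have hΨe : ∀ z, Ψ z = Phi M (coeff (d0 (2 * q)) z) := fun z => rfl
  have hΨsw : ∀ z, Ψ (sw z) = Ψ z := by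
    intro z
    rw [hΨe, hΨe, hsw, coeff_map]
    exact Phi_sw M _
  set f : Fin (2 * q) × Fin (2 * q) → MvPolynomial (Fin (2 * q)) (R ⊗[k] R) := fun p =>
    1 + X p.1 * X p.2 * C (∑ v, α p.1 v * α p.2 v * (Y v * Y' v)) with hf
  set g : Fin (2 * q) × Fin (2 * q) → MvPolynomial (Fin (2 * q)) (R ⊗[k] R) := fun p =>
    X p.1 * X p.2 * C (∑ v, ∑ u ∈ univ.filter (fun u => u < v),
        α p.1 u * α p.2 v * (Y u * Y' v)) with hg
  have hrep := repl sw hswsw Ψ hΨsw
    ((univ : Finset (Fin (2 * q) × Fin (2 * q))).filter (fun p => p.1 < p.2)) f g (by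
      intro p _
      simp only [hf]
      rw [map_add, map_one, map_mul, map_mul, hswX, hswX, hswC, map_sum]
      congr 3
      refine Finset.sum_congr rfl (fun v _ => ?_)
      simp only [hα, hY, hY']
      rw [map_mul, map_mul, map_mul, AlgHom.commutes, AlgHom.commutes, swT_i1, swT_i2,
        mul_comm (i2 k R (x v))]) 1 (map_one _)
  rw [one_mul, one_mul, hΨe, hΨe] at hrep
  rw [← hrep]
  congr 2
  refine Finset.prod_congr rfl (fun p hp => ?_)
  rw [Finset.mem_filter] at hp
  have hlast : ((p.1 : Fin (2 * q)) : ℕ) + 1 < 2 * q := by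
    have h6 : (p.1 : ℕ) < (p.2 : ℕ) := hp.2
    have h7 := p.2.isLt
    omega
  have h8 := Pij_eq (a p.1) (a p.2) x (ha p.1 hlast)
  simp only [hf, hg, hα, hY, hY']
  rw [h8, map_add, map_add, map_mul sw, map_mul sw, hswX, hswX, hswC]
  ring

end Pool.Agent.W500.KS
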