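import Pool.Agent.H7.L.W555_KS_Defs

set_option autoImplicit false

namespace Pool.Agent.W837.KS

open Finset Pool.Agent.W555.KS

section
variable {N : Type*} [CommRing N]

/-- the term of `U` -/
def T {n : ℕ} (l X X' : Fin n → N) (U : Finset (Fin n)) : N :=
  (∏ u ∈ U, l u) * (∏ u ∈ evenPart U, X u) * (∏ u ∈ oddPart U, X' u)

/-- the two kinds of subsets of `Fin (n+1)` -/
theorem sum_split {n : ℕ} (f : Finset (Fin (n + 1)) → N) :
    ∑ U, f U = ∑ V : Finset (Fin n), f (V.map Fin.castSuccEmb) +
      ∑ V : Finset (Fin n), f (insert (Fin.last n) (V.map Fin.castSuccEmb)) := by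
  classical
  have hlast : ∀ V : Finset (Fin n), Fin.last n ∉ V.map Fin.castSuccEmb := by
    intro V h
    obtain ⟨i, _, hi⟩ := Finset.mem_map.1 h
    exact absurd hi (Fin.castSucc_lt_last i).ne
  rw [← Finset.sum_filter_add_sum_filter_not (univ : Finset (Finset (Fin (n + 1))))
    (fun U => Fin.last n ∉ U) f]
  congr 1
  · symm
    refine Finset.sum_bij (fun (V : Finset (Fin n)) _ => V.map Fin.castSuccEmb) ?_ ?_ ?_ ?_
    · intro V _
      exact Finset.mem_filter.2 ⟨Finset.mem_univ _, hlast V⟩
    · intro V _ V' _ h
      exact Finset.map_injective _ h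
    · intro U hU
      have hU := (Finset.mem_filter.1 hU).2
      refine ⟨univ.filter (fun i => i.castSucc ∈ U), Finset.mem_univ _, ?_⟩
      ext x
      rw [Finset.mem_map]
      constructor
      · rintro ⟨i, hi, rfl⟩
        exact (Finset.mem_filter.1 hi).2
      · intro hx
        induction x using Fin.lastCases with
        | last => exact absurd hx hU
        | cast i => exact ⟨i, Finset.mem_filter.2 ⟨Finset.mem_univ _, hx⟩, rfl⟩
    · intro V _
      rfl
  · symm
    refine Finset.sum_bij (fun (V : Finset (Fin n)) _ =>
      insert (Fin.last n) (V.map Fin.castSuccEmb)) ?_ ?_ ?_ ?_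
    · intro V _
      refine Finset.mem_filter.2 ⟨Finset.mem_univ _, ?_⟩
      rw [not_not]
      exact Finset.mem_insert_self _ _
    · intro V _ V' _ h
      have h2 := congrArg (fun s => Finset.erase s (Fin.last n)) h
      simp only [Finset.erase_insert (hlast _)] at h2
      exact Finset.map_injective _ h2
    · intro U hU
      have hU := (Finset.mem_filter.1 hU).2
      rw [not_not] at hU
      refine ⟨univ.filter (fun i => i.castSucc ∈ U), Finset.mem_univ _, ?_⟩
      ext x
      rw [Finset.mem_insert, Finset.mem_map]
      constructor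
      · rintro (rfl | ⟨i, hi, rfl⟩)
        · exact hU
        · exact (Finset.mem_filter.1 hi).2
      · intro hx
        induction x using Fin.lastCases with
        | last => left; rfl
        | cast i => right; exact ⟨i, Finset.mem_filter.2 ⟨Finset.mem_univ _, hx⟩, rfl⟩
    · intro V _
      rfl

theorem rank_map {n : ℕ} (V : Finset (Fin n)) (u : Fin n) :
    ((V.map Fin.castSuccEmb).filter (fun w => w < u.castSucc)).card =
      (V.filter (fun w => w < u)).card := by
  rw [Finset.filter_map, Finset.card_map]
  rfl

theorem rank_insert {n : ℕ} (V : Finset (Fin n)) (u : Fin n) :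
    ((insert (Fin.last n) (V.map Fin.castSuccEmb)).filter (fun w => w < u.castSucc)).card =
      (V.filter (fun w => w < u)).card := by
  rw [Finset.filter_insert, if_neg (not_lt.2 (Fin.le_last _)), rank_map]

theorem rank_last {n : ℕ} (V : Finset (Fin n)) :
    ((insert (Fin.last n) (V.map Fin.castSuccEmb)).filter (fun w => w < Fin.last n)).card =
      V.card := by
  rw [Finset.filter_insert, if_neg (lt_irrefl _), Finset.filter_true_of_mem, Finset.card_map]
  intro x hx
  obtain ⟨i, _, rfl⟩ := Finset.mem_map.1 hx
  exact Fin.castSucc_lt_last i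

theorem evenPart_map {n : ℕ} (V : Finset (Fin n)) :
    evenPart (V.map Fin.castSuccEmb) = (evenPart V).map Fin.castSuccEmb := by
  unfold evenPart
  rw [Finset.filter_map]
  congr 1
  refine Finset.filter_congr fun u _ => ?_
  show Even ((V.map Fin.castSuccEmb).filter (fun w => w < u.castSucc)).card ↔ _
  rw [rank_map]

theorem oddPart_map {n : ℕ} (V : Finset (Fin n)) :
    oddPart (V.map Fin.castSuccEmb) = (oddPart V).map Fin.castSuccEmb := by
  unfold oddPart
  rw [Finset.filter_map]
  congr 1
  refine Finset.filter_congr fun u _ => ?_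
  show ¬ Even ((V.map Fin.castSuccEmb).filter (fun w => w < u.castSucc)).card ↔ _
  rw [rank_map]

theorem evenPart_insert {n : ℕ} (V : Finset (Fin n)) :
    evenPart (insert (Fin.last n) (V.map Fin.castSuccEmb)) =
      if Even V.card then insert (Fin.last n) ((evenPart V).map Fin.castSuccEmb)
        else (evenPart V).map Fin.castSuccEmb := by
  have h : (V.map Fin.castSuccEmb).filter (fun u =>
      Even ((insert (Fin.last n) (V.map Fin.castSuccEmb)).filter (fun w => w < u)).card) =
      (evenPart V).map Fin.castSuccEmb := by
    unfold evenPart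
    rw [Finset.filter_map]
    congr 1
    refine Finset.filter_congr fun u _ => ?_
    show Even ((insert (Fin.last n) (V.map Fin.castSuccEmb)).filter
      (fun w => w < u.castSucc)).card ↔ _
    rw [rank_insert]
  conv_lhs => unfold evenPart
  rw [Finset.filter_insert, rank_last, h]

theorem oddPart_insert {n : ℕ} (V : Finset (Fin n)) :
    oddPart (insert (Fin.last n) (V.map Fin.castSuccEmb)) =
      if Even V.card then (oddPart V).map Fin.castSuccEmb
        else insert (Fin.last n) ((oddPart V).map Fin.castSuccEmb) := by
  have h : (V.map Fin.castSuccEmb).filter (fun u =>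
      ¬ Even ((insert (Fin.last n) (V.map Fin.castSuccEmb)).filter (fun w => w < u)).card) =
      (oddPart V).map Fin.castSuccEmb := by
    unfold oddPart
    rw [Finset.filter_map]
    congr 1
    refine Finset.filter_congr fun u _ => ?_
    show ¬ Even ((insert (Fin.last n) (V.map Fin.castSuccEmb)).filter
      (fun w => w < u.castSucc)).card ↔ _
    rw [rank_insert]
  conv_lhs => unfold oddPart
  rw [Finset.filter_insert, rank_last, h]
  by_cases hV : Even V.card
  · rw [if_neg (not_not.2 hV), if_pos hV]
  · rw [if_pos hV, if_neg hV]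

theorem last_notMem {n : ℕ} (V : Finset (Fin n)) : Fin.last n ∉ V.map Fin.castSuccEmb := by
  intro h
  obtain ⟨i, _, hi⟩ := Finset.mem_map.1 h
  exact absurd hi (Fin.castSucc_lt_last i).ne

theorem T_map {n : ℕ} (l X X' : Fin (n + 1) → N) (V : Finset (Fin n)) :
    T l X X' (V.map Fin.castSuccEmb) =
      T (fun i => l i.castSucc) (fun i => X i.castSucc) (fun i => X' i.castSucc) V := by
  unfold T
  rw [evenPart_map, oddPart_map, Finset.prod_map, Finset.prod_map, Finset.prod_map]
  rfl

theorem T_insert {n : ℕ} (l X X' : Fin (n + 1) → N) (V : Finset (Fin n)) :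
    T l X X' (insert (Fin.last n) (V.map Fin.castSuccEmb)) =
      T (fun i => l i.castSucc) (fun i => X i.castSucc) (fun i => X' i.castSucc) V *
        (l (Fin.last n) * if Even V.card then X (Fin.last n) else X' (Fin.last n)) := by
  unfold T
  rw [evenPart_insert, oddPart_insert, Finset.prod_insert (last_notMem V), Finset.prod_map]
  by_cases hV : Even V.card
  · rw [if_pos hV, if_pos hV, if_pos hV, Finset.prod_insert (last_notMem _), Finset.prod_map,
      Finset.prod_map]
    simp only [Fin.coe_castSuccEmb]
    ring
  · rw [if_neg hV, if_neg hV, if_neg hV, Finset.prod_insert (last_notMem _), Finset.prod_map,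
      Finset.prod_map]
    simp only [Fin.coe_castSuccEmb]
    ring

theorem key (h2 : (2 : N) = 0) (n : ℕ) : ∀ (l X X' : Fin n → N), (∀ u, l u * l u = 0) →
    (∑ U, (if Even U.card then T l X X' U else 0) =
      ∏ v, (1 + (∑ u ∈ univ.filter (fun u => u < v), l u * X u) * (l v * X' v))) ∧
    (∑ U, (if Even U.card then 0 else T l X X' U) = (∑ u, l u * X u) *
      ∑ U, (if Even U.card then T l X X' U else 0)) ∧
    (∑ u, l u * X u) * (∑ u, l u * X u) = 0 := by
  induction n with
  | zero =>
    intro l X X' _
    refine ⟨?_, ?_, by simp⟩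
    · rw [Fintype.sum_unique]
      have : (default : Finset (Fin 0)) = ∅ := Finset.eq_empty_of_isEmpty _
      rw [this]
      simp [T, evenPart, oddPart]
    · rw [Fintype.sum_unique]
      have : (default : Finset (Fin 0)) = ∅ := Finset.eq_empty_of_isEmpty _
      rw [this]
      simp
  | succ n ih =>
    intro l X X' hl
    obtain ⟨hP, hQ, ht⟩ := ih (fun i => l i.castSucc) (fun i => X i.castSucc)
      (fun i => X' i.castSucc) (fun u => hl _)
    set P := ∑ U : Finset (Fin n), (if Even U.card then
      T (fun i => l i.castSucc) (fun i => X i.castSucc) (fun i => X' i.castSucc) U else 0) with hPd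
    set Q := ∑ U : Finset (Fin n), (if Even U.card then 0 else
      T (fun i => l i.castSucc) (fun i => X i.castSucc) (fun i => X' i.castSucc) U) with hQd
    set t := ∑ u : Fin n, l u.castSucc * X u.castSucc with htd
    have e1 : ∑ U, (if Even U.card then T l X X' U else 0) =
        P + Q * (l (Fin.last n) * X' (Fin.last n)) := by
      rw [sum_split, hPd, hQd, Finset.sum_mul]
      congr 1
      · refine Finset.sum_congr rfl fun V _ => ?_
        rw [Finset.card_map, T_map]
      · refine Finset.sum_congr rfl fun V _ => ?_
        rw [Finset.card_insert_of_notMem (last_notMem V), Finset.card_map, T_insert]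
        by_cases hV : Even V.card
        · rw [if_neg (by rw [Nat.even_add_one, not_not]; exact hV), if_pos hV, zero_mul]
        · rw [if_pos (Nat.even_add_one.2 hV), if_neg hV, if_neg hV]
    have e2 : ∑ U, (if Even U.card then 0 else T l X X' U) =
        Q + P * (l (Fin.last n) * X (Fin.last n)) := by
      rw [sum_split, hPd, hQd, Finset.sum_mul]
      congr 1
      · refine Finset.sum_congr rfl fun V _ => ?_
        rw [Finset.card_map, T_map]
      · refine Finset.sum_congr rfl fun V _ => ?_
        rw [Finset.card_insert_of_notMem (last_notMem V), Finset.card_map, T_insert]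
        by_cases hV : Even V.card
        · rw [if_neg (by rw [Nat.even_add_one, not_not]; exact hV), if_pos hV, if_pos hV]
        · rw [if_pos (Nat.even_add_one.2 hV), if_neg hV, zero_mul]
    have e3 : ∑ u, l u * X u = t + l (Fin.last n) * X (Fin.last n) := by
      rw [Fin.sum_univ_castSucc]
    have hll := hl (Fin.last n)
    refine ⟨?_, ?_, ?_⟩
    · rw [e1, hQ, Fin.prod_univ_castSucc]
      have e4 : ∀ v : Fin n, ∑ u ∈ univ.filter (fun u => u < v.castSucc), l u * X u =
          ∑ u ∈ univ.filter (fun u => u < v), l u.castSucc * X u.castSucc := by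
        intro v
        rw [Finset.sum_filter, Fin.sum_univ_castSucc, Finset.sum_filter,
          if_neg (not_lt.2 (Fin.le_last _)), add_zero]
        rfl
      have e5 : ∑ u ∈ univ.filter (fun u => u < Fin.last n), l u * X u = t := by
        rw [Finset.sum_filter, Fin.sum_univ_castSucc, if_neg (lt_irrefl _), add_zero, htd]
        exact Finset.sum_congr rfl fun u _ => if_pos (Fin.castSucc_lt_last u)
      simp only [e4, e5]
      rw [← hP]
      ring
    · rw [e1, e2, e3, hQ]
      have : t * P * (l (Fin.last n) * X (Fin.last n)) * (l (Fin.last n) * X' (Fin.last n)) = 0 := by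
        calc _ = t * P * X (Fin.last n) * X' (Fin.last n) * (l (Fin.last n) * l (Fin.last n)) := by
              ring
          _ = 0 := by rw [hll, mul_zero]
      have h3 : t * (t * P * (l (Fin.last n) * X' (Fin.last n))) = 0 := by
        calc _ = (t * t) * (P * (l (Fin.last n) * X' (Fin.last n))) := by ring
          _ = 0 := by rw [ht, zero_mul]
      linear_combination (-1 : N) * h3 - this
    · rw [e3]
      linear_combination ht + t * (l (Fin.last n) * X (Fin.last n)) * h2 +
        X (Fin.last n) * X (Fin.last n) * hll

end

/-- KS-PN -/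
theorem pn : StPn := by
  intro N _ h2 n l X X' hl
  rw [← (key h2 n l X X' hl).1, Finset.sum_filter]
  rfl

end Pool.Agent.W837.KS
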