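import Pool.Agent.H79.LX.Q24_SG_Codim
import Pool.Agent.H7.L.Y132_SI_Free
import Pool.Agent.H7.L.Y132_SI_Up

/-!
# Few bad links, and growth of Betti numbers
-/

set_option autoImplicit false

namespace Pool.Agent.Q24.SG

open Pool.Agent.W907.SG Pool.Agent.W907.SM Pool.Agent.TH652.Above Pool.Agent.Y132.SI

theorem AR_fewOn {m : ℕ} {V : Type} [Finite V] {G : SimpleGraph V} {B : Set V} (h : CR G B (m + 1)) :
    AR (2 * m) (G.induce B) := by
  classical
  refine AR.few _ fun T hT hc => ?_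
  have h1 := h (T.map ⟨Subtype.val, Subtype.val_injective⟩) (by
      intro a ha b hb hab
      rw [Finset.mem_coe, Finset.mem_map] at ha hb
      obtain ⟨x, hx, rfl⟩ := ha
      obtain ⟨y, hy, rfl⟩ := hb
      exact hT hx hy fun e => hab (by rw [e])) (by
      intro a ha
      rw [Finset.mem_coe, Finset.mem_map] at ha
      obtain ⟨x, _, rfl⟩ := ha
      exact x.2) (by rw [Finset.card_map, hc])
  have h2 : {u : V | u ∈ B ∧ ∀ t ∈ T.map ⟨Subtype.val, Subtype.val_injective⟩, G.Adj t u} =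
      Subtype.val '' {u : ↥B | ∀ t ∈ T, (G.induce B).Adj t u} := by
    ext x
    simp only [Finset.mem_map, Function.Embedding.coeFn_mk, Set.mem_ofPred_eq, Set.mem_image]
    constructor
    · rintro ⟨hx, h3⟩
      exact ⟨⟨x, hx⟩, fun t ht => h3 t.1 ⟨t, ht, rfl⟩, rfl⟩
    · rintro ⟨y, hy, rfl⟩
      refine ⟨y.2, ?_⟩
      rintro t ⟨s, hs, rfl⟩
      exact hy s hs
  rw [h2, Set.ncard_image_of_injective _ Subtype.val_injective] at h1
  rwa [← Nat.card_coe_set_eq] at h1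

/-- the growth of one Betti number, real form -/
theorem growth_real {V : Type} [Fintype V] [LinearOrder V] (G : SimpleGraph V) (i : ℕ) (hL : L2Van G i)
    (ε : ℝ) (hε : 0 < ε) : ∃ E : Finset (W G), (1 : W G) ∉ E ∧
        ∀ H : Subgroup (W G), H.FiniteIndex → (∀ g ∈ E, ∀ x : W G, x * g * x⁻¹ ∉ H) →
          (Module.finrank ℝ (HInv G H i) : ℝ) ≤ ε * H.index := by
  obtain ⟨N, hN⟩ := exists_nat_gt (1 / ε)
  have hN0 : (0 : ℝ) < N := lt_of_le_of_lt (by positivity) hN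
  have hNε : 1 < N * ε := (div_lt_iff₀ hε).1 hN
  obtain ⟨E, h1, h2⟩ := growth_one G i hL N
  refine ⟨E, h1, fun H hfin hE => ?_⟩
  have h3 : ((N * Module.finrank ℝ (HInv G H i) : ℕ) : ℝ) ≤ H.index := by exact_mod_cast h2 H hfin hE
  push_cast at h3
  have h4 : (0 : ℝ) ≤ H.index := Nat.cast_nonneg _
  have h6 : (Module.finrank ℝ (HInv G H i) : ℝ) ≤ H.index / N := by
    rw [le_div_iff₀ hN0]; linarith
  refine h6.trans ?_
  rw [div_le_iff₀ hN0]
  nlinarith

/-- the `i`-cubes vanish above the number of vertices, hence one finite set `E` for all degrees in `J` -/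
theorem growth_set {V : Type} [Fintype V] [LinearOrder V] (G : SimpleGraph V) (J : Set ℕ)
    (hL : ∀ i ∈ J, L2Van G i) (ε : ℝ) (hε : 0 < ε) : ∃ E : Finset (W G), (1 : W G) ∉ E ∧
        ∀ H : Subgroup (W G), H.FiniteIndex → (∀ g ∈ E, ∀ x : W G, x * g * x⁻¹ ∉ H) → ∀ i ∈ J,
          (Module.finrank ℝ (HInv G H i) : ℝ) ≤ ε * H.index := by
  classical
  have h1 : ∀ i : ℕ, ∃ Ei : Finset (W G), (1 : W G) ∉ Ei ∧ (i ∈ J →
      ∀ H : Subgroup (W G), H.FiniteIndex → (∀ g ∈ Ei, ∀ x : W G, x * g * x⁻¹ ∉ H) →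
        (Module.finrank ℝ (HInv G H i) : ℝ) ≤ ε * H.index) := by
    intro i
    by_cases hi : i ∈ J
    · obtain ⟨Ei, h2, h3⟩ := growth_real G i (hL i hi) ε hε
      exact ⟨Ei, h2, fun _ => h3⟩
    · exact ⟨∅, Finset.notMem_empty _, fun h => absurd h hi⟩
  choose Ef hEf1 hEf2 using h1
  refine ⟨(Finset.range (Fintype.card V + 1)).biUnion Ef, ?_, ?_⟩
  · rw [Finset.mem_biUnion]
    rintro ⟨i, _, h⟩
    exact hEf1 i h
  intro H hfin hE i hi
  by_cases hiK : i < Fintype.card V + 1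
  · exact hEf2 i hi H hfin fun g hg => hE g (Finset.mem_biUnion.2 ⟨i, Finset.mem_range.2 hiK, hg⟩)
  · have h2 : HInv G H i = ⊥ := by
      rw [eq_bot_iff]
      intro c hc
      rw [Submodule.mem_bot]
      funext w T
      refine hc.2.1 w T ?_
      rintro ⟨_, h4⟩
      have h5 := Finset.card_le_univ T
      omega
    rw [h2, finrank_bot]
    have h4 : (0 : ℝ) ≤ H.index := Nat.cast_nonneg _
    push_cast
    positivity

end Pool.Agent.Q24.SG
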