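import Pool.Agent.H79.LX.R703_MO_SlopeB

/-!
# Morse theory with flat directions: exactness from the ascending links of the flat cubes
-/

set_option autoImplicit false
set_option linter.unusedSectionVars false

namespace Pool.Agent.R703.MO

open Pool.Agent.W907.SG Module

section
variable {V : Type} [LinearOrder V]

theorem sg_union (v : V) {S P : Finset V} (h : Disjoint S P) : sg v (S ∪ P) = sg v S * sg v P := by
  unfold sg
  rw [Finset.filter_union, Finset.card_union_of_disjoint, pow_add]
  exact Finset.disjoint_filter_filter h

/-- a sign -/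
def es (S P : Finset V) : ℤ := ∏ v ∈ P, sg v S

theorem es_mul_self (S P : Finset V) : es S P * es S P = 1 := by
  unfold es
  rw [← Finset.prod_mul_distrib]
  exact Finset.prod_eq_one fun v _ => sg_mul_self v S

theorem es_insert (S P : Finset V) (u : V) (h : u ∉ P) : es S (insert u P) = sg u S * es S P := by
  unfold es
  rw [Finset.prod_insert h]

end

section
variable {F : Type} [Field F] {V : Type} [Fintype V] [LinearOrder V] {X : Type} {G : SimpleGraph V}

/-- a linear contraction -/
theorem exists_sec {A : Set V} {j : ℕ} (h : beta G (neg F V) A ∅ j = 0) :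
    ∃ s : (Finset V → F) →ₗ[F] (Finset V → F), ∀ c ∈ ZZ G (neg F V) A ∅ j,
      s c ∈ KK G (neg F V) A ∅ (j + 1) ∧ bd F (s c) = c := by
  have h2 : BB G (neg F V) A ∅ j = ZZ G (neg F V) A ∅ j := by
    unfold beta at h
    exact Submodule.eq_of_le_of_finrank_le (BB_le_ZZ _ _ _ _ _) (by omega)
  let φ : KK G (neg F V) A ∅ (j + 1) →ₗ[F] ZZ G (neg F V) A ∅ j :=
    ((bd F).domRestrict (KK G (neg F V) A ∅ (j + 1))).codRestrict _ fun c =>
      BB_le_ZZ _ _ _ _ _ ⟨c.1, c.2, rfl⟩
  have hφ : LinearMap.range φ = ⊤ := by
    rw [LinearMap.range_eq_top]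
    rintro ⟨z, hz⟩
    rw [← h2] at hz
    obtain ⟨w, hw, rfl⟩ := hz
    exact ⟨⟨w, hw⟩, rfl⟩
  obtain ⟨g, hg⟩ := φ.exists_rightInverse_of_surjective hφ
  obtain ⟨s, hs⟩ := LinearMap.exists_extend ((KK G (neg F V) A ∅ (j + 1)).subtype.comp g)
  refine ⟨s, fun c hc => ?_⟩
  have h3 : s c = (g ⟨c, hc⟩).1 := LinearMap.congr_fun hs ⟨c, hc⟩
  have h4 : φ (g ⟨c, hc⟩) = ⟨c, hc⟩ := LinearMap.congr_fun hg ⟨c, hc⟩
  rw [h3]
  exact ⟨(g ⟨c, hc⟩).2, congrArg Subtype.val h4⟩

variable (D : Slope G X)

theorem Slope.asc_flat {S : Finset V} {x : X} {v : V} (hv : v ∈ S) : D.Asc S (D.a v x) = D.Asc S x := by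
  ext u
  constructor
  · rintro ⟨h1, h2⟩
    rw [D.par u v (h2 v hv).symm] at h1
    exact ⟨h1, h2⟩
  · rintro ⟨h1, h2⟩
    refine ⟨?_, h2⟩
    rw [D.par u v (h2 v hv).symm]
    exact h1

/-- exactness of the complex of pieces from the vanishing of the homology of the ascending links of the flat
cubes -/
theorem Slope.exact_of (i : ℕ) (h : ∀ (x : X) (S : Finset V), G.IsClique (S : Set V) → (∀ s ∈ S, D.dir s x = 0) →
    ∀ j, i = j + S.card → beta G (neg F V) (D.Asc S x) ∅ j = 0) : D.Exact F i := by
  classical
  intro c hc hb
  have hsec : ∀ (A : Set V) (j : ℕ), ∃ s : (Finset V → F) →ₗ[F] (Finset V → F), beta G (neg F V) A ∅ j = 0 →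
      ∀ c ∈ ZZ G (neg F V) A ∅ j, s c ∈ KK G (neg F V) A ∅ (j + 1) ∧ bd F (s c) = c := by
    intro A j
    by_cases hA : beta G (neg F V) A ∅ j = 0
    · obtain ⟨s, hs⟩ := exists_sec hA
      exact ⟨s, fun _ => hs⟩
    · exact ⟨0, fun h => absurd h hA⟩
  choose sec hsec using hsec
  have key : ∀ m q : ℕ, q + m = i + 1 → ∃ w : Finset V → X → F, D.InP w (i + 1) ∧
      ∀ (T : Finset V) (x : X), q ≤ (T.filter fun v => D.dir v x = 0).card → (c - bd F w) T x = 0 := by
    intro m
    induction m with
    | zero =>
      intro q hq
      refine ⟨0, Slope.InP.zero D, fun T x hT => ?_⟩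
      rw [map_zero, sub_zero]
      refine hc.supp T x fun h1 => ?_
      have h2 := Finset.card_filter_le T fun v => D.dir v x = 0
      have h3 := h1.2.1
      omega
    | succ m ih =>
      intro q hq
      obtain ⟨w, hw, h1⟩ := ih (q + 1) (by omega)
      obtain ⟨j, hj⟩ : ∃ j, i = j + q := ⟨i - q, by omega⟩
      set c' := c - bd F w with hc'def
      have hc' : D.InP c' i := Slope.InP.sub D hc (Slope.InP.bd D hw)
      have hb' : bd F c' = 0 := by rw [hc'def, map_sub, hb, bd_bd, sub_zero]
      -- the chains on the ascending links
      let cS : Finset V → X → Finset V → F := fun S x P =>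
        if (P : Set V) ⊆ D.Asc S x then es S P • c' (S ∪ P) x else 0
      have cS_pos : ∀ (S : Finset V) (x : X) (P : Finset V), (P : Set V) ⊆ D.Asc S x →
          cS S x P = es S P • c' (S ∪ P) x := fun S x P h => if_pos h
      have cS_neg : ∀ (S : Finset V) (x : X) (P : Finset V), ¬ (P : Set V) ⊆ D.Asc S x → cS S x P = 0 :=
        fun S x P h => if_neg h
      have hdis : ∀ (S : Finset V) (x : X) (P : Finset V), (∀ s ∈ S, D.dir s x = 0) → (P : Set V) ⊆ D.Asc S x →
          Disjoint S P := by
        intro S x P hS hP
        rw [Finset.disjoint_left]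
        intro a ha ha'
        have h2 := (hP ha').1
        rw [hS a ha] at h2
        exact lt_irrefl _ h2
      have hZ : ∀ (S : Finset V) (x : X), G.IsClique (S : Set V) → (∀ s ∈ S, D.dir s x = 0) → S.card = q →
          cS S x ∈ ZZ G (neg F V) (D.Asc S x) ∅ j := by
        intro S x hS hS0 hSq
        refine ⟨mem_KK.2 ⟨fun P hP => ?_, fun P t _ => rfl⟩, ?_⟩
        · by_cases hPA : (P : Set V) ⊆ D.Asc S x
          · rw [cS_pos S x P hPA, hc'.supp, smul_zero]
            rintro ⟨h2, h3, _⟩
            apply hP
            rw [Finset.card_union_of_disjoint (hdis S x P hS0 hPA)] at h3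
            exact ⟨h2.subset (by simp), hPA, by omega⟩
          · exact cS_neg S x P hPA
        · rw [SetLike.mem_coe, LinearMap.mem_ker]
          funext P
          rw [bd_apply]
          by_cases hPA : (P : Set V) ⊆ D.Asc S x
          · have hd := hdis S x P hS0 hPA
            have h2 : (bd F c') (S ∪ P) x = 0 := congrFun (congrFun hb' (S ∪ P)) x
            rw [bd_apply, Finset.sum_apply] at h2
            have h3 : ∑ u ∈ (S ∪ P)ᶜ, sg u P • cS S x (insert u P) = ∑ u ∈ Pᶜ, sg u P • cS S x (insert u P) := by
              refine Finset.sum_subset (by intro a ha; simp at ha ⊢; exact ha.2) fun u hu hu' => ?_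
              have huS : u ∈ S := by
                simp only [Finset.mem_compl, Finset.mem_union, not_or, not_and, not_not] at hu hu'
                by_contra h4
                exact hu (hu' h4)
              rw [cS_neg, smul_zero]
              intro h4
              have h5 := (h4 (by simp : u ∈ ((insert u P : Finset V) : Set V))).1
              rw [hS0 u huS] at h5
              exact lt_irrefl _ h5
            rw [← h3]
            have h4 : ∀ u ∈ (S ∪ P)ᶜ, sg u P • cS S x (insert u P) =
                es S P • (sg u (S ∪ P) • c' (insert u (S ∪ P))) x := by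
              intro u hu
              simp only [Finset.mem_compl, Finset.mem_union, not_or] at hu
              show sg u P • cS S x (insert u P) = es S P • (sg u (S ∪ P) • c' (insert u (S ∪ P)) x)
              by_cases huA : u ∈ D.Asc S x
              · rw [cS_pos S x (insert u P) (by
                  intro a ha
                  rw [Finset.coe_insert] at ha
                  rcases ha with ha | ha
                  · rw [ha]; exact huA
                  · exact hPA ha), es_insert S P u hu.2, sg_union u hd, Finset.union_insert, smul_smul, smul_smul]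
                congr 1
                ring
              · rw [cS_neg S x (insert u P) fun h5 => huA (h5 (by simp)), smul_zero]
                have h5 : c' (insert u (S ∪ P)) x = 0 := by
                  rcases lt_trichotomy (D.dir u x) 0 with h6 | h6 | h6
                  · refine hc'.supp _ _ fun h7 => ?_
                    have := h7.2.2 u (Finset.mem_insert_self _ _)
                    omega
                  · refine h1 _ _ ?_
                    have h7 : insert u S ⊆ (insert u (S ∪ P)).filter fun v => D.dir v x = 0 := by
                      intro a ha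
                      rw [Finset.mem_filter]
                      rcases Finset.mem_insert.1 ha with h8 | h8
                      · rw [h8]; exact ⟨Finset.mem_insert_self _ _, h6⟩
                      · exact ⟨Finset.mem_insert_of_mem (Finset.mem_union_left _ h8), hS0 a h8⟩
                    have h8 := Finset.card_le_card h7
                    rw [Finset.card_insert_of_notMem hu.1, hSq] at h8
                    exact h8
                  · refine hc'.supp _ _ fun h7 => huA ⟨h6, fun s hs => ?_⟩
                    exact h7.1 (by simp [hs]) (by simp) fun e => hu.1 (e ▸ hs)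
                rw [h5, smul_zero, smul_zero]
            rw [Finset.sum_congr rfl h4, ← Finset.smul_sum, h2, smul_zero]; rfl
          · refine Finset.sum_eq_zero fun u _ => ?_
            rw [cS_neg S x (insert u P) fun h2 => hPA fun a ha => h2 (by simp [Finset.mem_coe.1 ha]), smul_zero]
      have hbeta : ∀ (S : Finset V) (x : X), G.IsClique (S : Set V) → (∀ s ∈ S, D.dir s x = 0) → S.card = q →
          beta G (neg F V) (D.Asc S x) ∅ j = 0 := fun S x h2 h3 h4 => h x S h2 h3 j (by rw [h4]; exact hj)
      let Fl : Finset V → X → Finset V := fun T x => T.filter fun v => D.dir v x = 0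
      let Pl : Finset V → X → Finset V := fun T x => T.filter fun v => ¬ D.dir v x = 0
      have hFl : ∀ T x, Fl T x = T.filter fun v => D.dir v x = 0 := fun _ _ => rfl
      have hPl : ∀ T x, Pl T x = T.filter fun v => ¬ D.dir v x = 0 := fun _ _ => rfl
      have hcard : ∀ T x, (Fl T x).card + (Pl T x).card = T.card := fun T x => by
        rw [hFl, hPl, Finset.card_filter_add_card_filter_not]
      have hun : ∀ T x, Fl T x ∪ Pl T x = T := fun T x => by
        rw [hFl, hPl, Finset.filter_union_filter_not_eq]
      have hflat : ∀ T x, ∀ s ∈ Fl T x, D.dir s x = 0 := fun T x s hs => (Finset.mem_filter.1 hs).2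
      let w' : Finset V → X → F := fun T x =>
        if D.Good T x ∧ G.IsClique (T : Set V) ∧ (Fl T x).card = q then
          es (Fl T x) (Pl T x) • sec (D.Asc (Fl T x) x) j (cS (Fl T x) x) (Pl T x) else 0
      have w'_pos : ∀ T x, (D.Good T x ∧ G.IsClique (T : Set V) ∧ (Fl T x).card = q) → w' T x =
          es (Fl T x) (Pl T x) • sec (D.Asc (Fl T x) x) j (cS (Fl T x) x) (Pl T x) := fun T x h => if_pos h
      have w'_neg : ∀ T x, ¬ (D.Good T x ∧ G.IsClique (T : Set V) ∧ (Fl T x).card = q) → w' T x = 0 :=
        fun T x h => if_neg h
      have hFlc : ∀ (T : Finset V) (x : X), G.IsClique (T : Set V) → G.IsClique ((Fl T x : Finset V) : Set V) := fun T x h => h.subset (by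
        intro a ha
        exact (Finset.mem_filter.1 (Finset.mem_coe.1 ha)).1)
      have hw' : D.InP w' (i + 1) := by
        refine ⟨fun T x hT => ?_, fun T x v hv h0 => ?_⟩
        · by_cases hcd : D.Good T x ∧ G.IsClique (T : Set V) ∧ (Fl T x).card = q
          · rw [w'_pos T x hcd]
            have h2 := (hsec _ j (hbeta _ x (hFlc T x hcd.2.1) (hflat T x) hcd.2.2) _
              (hZ _ x (hFlc T x hcd.2.1) (hflat T x) hcd.2.2)).1
            rw [(mem_KK.1 h2).1 (Pl T x), smul_zero]
            rintro ⟨_, _, h3⟩
            refine hT ⟨hcd.2.1, ?_, hcd.1⟩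
            have h4 := hcard T x
            have h5 := hcd.2.2
            omega
          · exact w'_neg T x hcd
        · by_cases hT : G.IsClique (T : Set V)
          · have e0 : ∀ w ∈ T, D.dir w (D.a v x) = D.dir w x := fun w hw => D.good_flat hT hv h0 w hw
            have e1 : Fl T (D.a v x) = Fl T x := Finset.filter_congr fun w hw => by rw [e0 w hw]
            have e2 : Pl T (D.a v x) = Pl T x := Finset.filter_congr fun w hw => by rw [e0 w hw]
            have e3 : D.Good T (D.a v x) ↔ D.Good T x :=
              forall_congr' fun w => forall_congr' fun hw => by rw [e0 w hw]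
            have hvF : v ∈ Fl T x := Finset.mem_filter.2 ⟨hv, h0⟩
            have e4 : cS (Fl T x) (D.a v x) = - cS (Fl T x) x := by
              funext P
              show (if (P : Set V) ⊆ D.Asc (Fl T x) (D.a v x) then es (Fl T x) P • c' (Fl T x ∪ P) (D.a v x) else 0) =
                - (if (P : Set V) ⊆ D.Asc (Fl T x) x then es (Fl T x) P • c' (Fl T x ∪ P) x else 0)
              rw [D.asc_flat hvF, hc'.anti _ x v (Finset.mem_union_left _ hvF) h0]
              split_ifs
              · rw [smul_neg]
              · rw [neg_zero]
            by_cases hcd : D.Good T x ∧ G.IsClique (T : Set V) ∧ (Fl T x).card = q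
            · rw [w'_pos T x hcd, w'_pos T (D.a v x) ⟨e3.2 hcd.1, hT, by rw [e1]; exact hcd.2.2⟩, e1, e2, e4,
                D.asc_flat hvF, map_neg, Pi.neg_apply, smul_neg]
            · rw [w'_neg T x hcd, w'_neg T (D.a v x) fun h2 => hcd ⟨e3.1 h2.1, hT, by rw [← e1]; exact h2.2.2⟩,
                neg_zero]
          · rw [w'_neg T x fun h2 => hT h2.2.1, w'_neg T _ fun h2 => hT h2.2.1, neg_zero]
      refine ⟨w + w', Slope.InP.add D hw hw', fun T x hT => ?_⟩
      rw [map_add, ← sub_sub]
      show c' T x - bd F w' T x = 0
      by_cases hS : G.IsClique (T : Set V) ∧ T.card = i ∧ D.Good T x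
      swap
      · rw [hc'.supp T x hS, (Slope.InP.bd D hw').supp T x hS, sub_zero]
      obtain ⟨hTc, hTi, hTg⟩ := hS
      have hT' : q ≤ (Fl T x).card := hT
      rcases Nat.lt_or_ge q (Fl T x).card with h2 | h2
      · rw [h1 T x h2, bd_apply, Finset.sum_apply, zero_sub, neg_eq_zero]
        refine Finset.sum_eq_zero fun u _ => ?_
        show sg u T • w' (insert u T) x = 0
        rw [w'_neg, smul_zero]
        rintro ⟨_, _, h3⟩
        have h4 : Fl T x ⊆ Fl (insert u T) x := Finset.filter_subset_filter _ (Finset.subset_insert u T)
        have h5 := Finset.card_le_card h4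
        omega
      · have hq' : (Fl T x).card = q := le_antisymm h2 hT'
        have hz := hZ (Fl T x) x (hFlc T x hTc) (hflat T x) hq'
        have hsc := hsec _ j (hbeta _ x (hFlc T x hTc) (hflat T x) hq') _ hz
        obtain ⟨sc, hscd⟩ : ∃ sc, sc = sec (D.Asc (Fl T x) x) j (cS (Fl T x) x) := ⟨_, rfl⟩
        rw [← hscd] at hsc
        have hPA : ((Pl T x : Finset V) : Set V) ⊆ D.Asc (Fl T x) x := by
          intro a ha
          have h3 := Finset.mem_filter.1 (Finset.mem_coe.1 ha)
          have h4 := hTg a h3.1
          refine ⟨lt_of_le_of_ne h4 (Ne.symm h3.2), fun s hs => ?_⟩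
          have h5 := Finset.mem_filter.1 hs
          exact hTc (by exact_mod_cast h5.1) (by exact_mod_cast h3.1) fun e => h3.2 (e ▸ h5.2)
        have hdj : Disjoint (Fl T x) (Pl T x) := hdis _ x _ (hflat T x) hPA
        have hterm : ∀ u ∈ Tᶜ, (sg u T • w' (insert u T)) x =
            es (Fl T x) (Pl T x) • (sg u (Pl T x) • sc (insert u (Pl T x))) := by
          intro u hu
          rw [Finset.mem_compl] at hu
          have huP : u ∉ Pl T x := fun h3 => hu (Finset.mem_filter.1 h3).1
          have h3 : w' (insert u T) x = es (Fl T x) (insert u (Pl T x)) • sc (insert u (Pl T x)) := by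
            have hout : u ∉ D.Asc (Fl T x) x → sc (insert u (Pl T x)) = 0 := fun h4 =>
              (mem_KK.1 hsc.1).1 _ fun h5 => h4 (h5.2.1 (by simp))
            rcases lt_trichotomy (D.dir u x) 0 with h6 | h6 | h6
            · rw [w'_neg, hout fun h7 => by have := h7.1; omega, smul_zero]
              rintro ⟨h7, _, _⟩
              have := h7 u (Finset.mem_insert_self u T)
              omega
            · rw [w'_neg, hout fun h7 => by have := h7.1; omega, smul_zero]
              rintro ⟨_, _, h7⟩
              have h8 : insert u (Fl T x) ⊆ Fl (insert u T) x := by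
                intro a ha
                rcases Finset.mem_insert.1 ha with h9 | h9
                · rw [h9]; exact Finset.mem_filter.2 ⟨Finset.mem_insert_self u T, h6⟩
                · have h10 := Finset.mem_filter.1 h9
                  exact Finset.mem_filter.2 ⟨Finset.mem_insert_of_mem h10.1, h10.2⟩
              have h9 := Finset.card_le_card h8
              rw [Finset.card_insert_of_notMem fun h10 => hu (Finset.mem_filter.1 h10).1] at h9
              omega
            · have e1 : Fl (insert u T) x = Fl T x := by
                rw [hFl, Finset.filter_insert, if_neg (by omega)]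
              have e2 : Pl (insert u T) x = insert u (Pl T x) := by
                rw [hPl, Finset.filter_insert, if_pos (by omega)]
              have e3 : D.Good (insert u T) x := by
                intro a ha
                rcases Finset.mem_insert.1 ha with h9 | h9
                · rw [h9]; exact h6.le
                · exact hTg a h9
              by_cases hcl : G.IsClique ((insert u T : Finset V) : Set V)
              · rw [w'_pos _ x ⟨e3, hcl, by rw [e1]; exact hq'⟩, e1, e2, ← hscd]
              · rw [w'_neg _ x fun h7 => hcl h7.2.1]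
                have h7 : sc (insert u (Pl T x)) = 0 := by
                  refine (mem_KK.1 hsc.1).1 _ fun h8 => hcl ?_
                  rw [Finset.coe_insert, SimpleGraph.isClique_insert]
                  refine ⟨hTc, fun a ha hne => ?_⟩
                  have ha' : a ∈ Fl T x ∪ Pl T x := by rw [hun]; exact ha
                  rcases Finset.mem_union.1 ha' with h9 | h9
                  · exact ((h8.2.1 (by simp : u ∈ ((insert u (Pl T x) : Finset V) : Set V))).2 a h9).symm
                  · exact h8.1 (by simp) (by simp [h9]) hne
                rw [h7, smul_zero]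
          show sg u T • w' (insert u T) x = _
          have h4 : sg u T = sg u (Fl T x) * sg u (Pl T x) := by
            conv_lhs => rw [← hun T x]
            exact sg_union u hdj
          rw [h3, es_insert _ _ u huP, h4, smul_smul, smul_smul]
          congr 1
          have h5 := sg_mul_self u (Fl T x)
          calc sg u (Fl T x) * sg u (Pl T x) * (sg u (Fl T x) * es (Fl T x) (Pl T x))
              = (sg u (Fl T x) * sg u (Fl T x)) * (es (Fl T x) (Pl T x) * sg u (Pl T x)) := by ring
            _ = es (Fl T x) (Pl T x) * sg u (Pl T x) := by rw [h5, one_mul]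
        have h5 : bd F w' T x = es (Fl T x) (Pl T x) • bd F sc (Pl T x) := by
          rw [bd_apply, Finset.sum_apply, Finset.sum_congr rfl hterm, ← Finset.smul_sum, bd_apply]
          congr 1
          refine Finset.sum_subset ?_ fun u hu hu' => ?_
          · intro a ha
            rw [Finset.mem_compl] at ha ⊢
            exact fun h6 => ha (Finset.mem_filter.1 h6).1
          · rw [Finset.mem_compl] at hu hu'
            rw [not_not] at hu'
            have h6 : D.dir u x = 0 := by
              by_contra h7
              exact hu (Finset.mem_filter.2 ⟨hu', h7⟩)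
            rw [(mem_KK.1 hsc.1).1 _ fun h8 => ?_, smul_zero]
            have h9 := (h8.2.1 (by simp : u ∈ ((insert u (Pl T x) : Finset V) : Set V))).1
            omega
        rw [h5, hsc.2, cS_pos _ x _ hPA, smul_smul, es_mul_self, one_smul, hun, sub_self]
  obtain ⟨w, hw, h0⟩ := key (i + 1) 0 (by omega)
  refine ⟨w, hw, ?_⟩
  funext T x
  exact (sub_eq_zero.1 (h0 T x (Nat.zero_le _))).symm

end

/-- **The Morse criterion.** -/
theorem morse_slope {V : Type} [Fintype V] [LinearOrder V] (G : SimpleGraph V) {X : Type} [Finite X] [Nonempty X]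
    (D : Slope G X) (i : ℕ) (h : ∀ (x : X) (S : Finset V), G.IsClique (S : Set V) → (∀ s ∈ S, D.dir s x = 0) →
    ∀ j, i = j + S.card → beta G (neg ℝ V) (D.Asc S x) ∅ j = 0) : L2Van G i := by
  have : Fintype X := Fintype.ofFinite X
  refine slope_van D i fun Y _ b hb1 hb2 => ?_
  exact (D.prod b hb1 hb2).exact_of i fun z S hS h0 j hj => h z.1 S hS h0 j hj

end Pool.Agent.R703.MO
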