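import Pool.Agent.H79.LX.R703_MO_Defs
import Pool.Agent.H7.L.R782_Bal_ClassDef

/-!
# The class `MQ b`
-/

set_option autoImplicit false

namespace Pool.Agent.R703.MO

open Pool.Agent.W907.SG Pool.Agent.W907.SM
open Pool.Agent.TH652.Join (join)
open Pool.Agent.R781.VS (AR con NoSq)
open Pool.Agent.R782.Bal (BR)

/-- The class `MQ b`: a class of finite graphs for which the `ℓ²`-homology vanishes in all the degrees `≥ b`. It is
the closure of the class `BR` under the operations of the class `SQ` and the Morse rule. -/
inductive MQ : ℕ → ∀ {V : Type}, SimpleGraph V → Prop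
  /-- the members of the class `BR n` -/
  | br {n : ℕ} {V : Type} (G : SimpleGraph V) : BR n G → MQ (n / 2 + 1) G
  /-- the Morse rule: `D` is a direction system relative to the set `B` of horizontal vertices on the nonempty finite
  set `X`, `D.U x` consists of the horizontal vertices and of the vertices ascending at `x`. The family `R` of pairs
  `(k, A)` contains the pairs `(b, D.U x)`, and for each of its members with `A ⊆ B` the full subgraph on `A` is in
  the class `k`. The other members are such that a vertex of `A` outside `B` is adjacent to all the other vertices of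
  `A`, or `A` does not meet `B` and has no real homology in the degrees `≥ k - 1`, or for some `v ∈ A` outside
  `B` the family contains `(k, A \ v)` and `(k - 1, (A \ v) ∩ link v)`. -/
  | morse {b : ℕ} {V : Type} [Fintype V] [LinearOrder V] (G : SimpleGraph V) (B : Set V) {X : Type} [Finite X]
      [Nonempty X] (D : Dir G B X) (R : ℕ → Set V → Prop) : (∀ x, R b (D.U x)) →
      (∀ k A, R k A → (∃ v ∈ A, v ∉ B) → Cone G B A ∨ ((∀ v ∈ A, v ∉ B) ∧ ∀ i, k ≤ i → HomZero G A i) ∨
        ∃ v ∈ A, v ∉ B ∧ R k (A \ {v}) ∧ R (k - 1) ((A \ {v}) ∩ G.neighborSet v)) →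
      (∀ k A, R k A → A ⊆ B → MQ k (G.induce A)) → MQ b G
  /-- the Morse rule with flat directions: `D` is a system of slopes on the nonempty finite set `X`, and for each
  clique `S` of flat directions at a point `x` the flag complex on the ascending directions at `x` which are
  adjacent to all the elements of `S` has no real homology in the degrees `≥ b - |S| - 1` -/
  | slope {b : ℕ} {V : Type} [Fintype V] [LinearOrder V] (G : SimpleGraph V) {X : Type} [Finite X] [Nonempty X]
      (D : Slope G X) : (∀ (x : X) (S : Finset V), G.IsClique (S : Set V) → (∀ s ∈ S, D.dir s x = 0) →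
      ∀ j, b ≤ j + S.card → HomZero G (D.Asc S x) j) → MQ b G
  /-- suspensions are in the class `0` -/
  | susp {V : Type} [Finite V] (G : SimpleGraph V) : MQ 0 (susp G)
  /-- odd-dimensional case: homology spheres of dimension `2 m` in the class `m + 1` are in the class `0` -/
  | sph {m : ℕ} {V : Type} [Fintype V] [LinearOrder V] (G : SimpleGraph V) :
      Pool.Agent.TH652.Above.HSph (2 * m + 1) G → MQ (m + 1) G → MQ 0 G
  /-- even-dimensional case: homology spheres of dimension `2 m - 1` in the class `m + 1` with vanishing Euler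
  characteristic `∑_T (-1/2)^|T|` are in the class `0` -/
  | eul {m : ℕ} {V : Type} [Fintype V] [LinearOrder V] (G : SimpleGraph V) :
      Pool.Agent.TH652.Above.HSph (2 * m) G → MQ (m + 1) G → chiW G = 0 → MQ 0 G
  /-- from `b` to `b + 1` -/
  | up {b : ℕ} {V : Type} (G : SimpleGraph V) : MQ b G → MQ (b + 1) G
  /-- relative subdivisions: the vertices of `O` are added one after the other to the full subcomplex spanned by the
  complement of `O`. For `x ∈ O` the set `lo x` consists of neighbours of `x` of smaller height, it spans a member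
  of the class `0`, and all the other neighbours of `x` are adjacent to all the elements of `lo x`. -/
  | sub {b : ℕ} {V : Type} [Finite V] (G : SimpleGraph V) (O : Set V) (lo : V → Set V) (h : V → ℕ) :
      (∀ x ∈ O, ∀ y ∈ lo x, G.Adj x y ∧ h y < h x) →
      (∀ x ∈ O, ∀ w, G.Adj x w → w ∉ lo x → ∀ y ∈ lo x, G.Adj w y) →
      (∀ x ∈ O, MQ 0 (G.induce (lo x))) → MQ b (G.induce Oᶜ) → MQ b G
  /-- adding a vertex -/
  | vert {b : ℕ} {V : Type} [Finite V] (G : SimpleGraph V) (v : V) : MQ b (G.induce {v}ᶜ) →
      MQ (b - 1) (G.induce (G.neighborSet v)) → MQ b G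
  /-- deleting a vertex -/
  | vdel {b : ℕ} {V : Type} [Finite V] (G : SimpleGraph V) (v : V) : MQ b G →
      MQ b (G.induce (G.neighborSet v)) → MQ b (G.induce {v}ᶜ)
  /-- deleting an edge -/
  | del {b : ℕ} {V : Type} [Finite V] (G : SimpleGraph V) (s t : V) : G.Adj s t → MQ b G →
      MQ (b - 1) (G.induce (G.neighborSet s ∩ G.neighborSet t)) → MQ b (G.deleteEdges {s(s, t)})
  /-- vertex splitting -/
  | split {b : ℕ} {V : Type} [Finite V] (G : SimpleGraph V) (s t : V) : G.Adj s t → NoSq G s t →
      MQ b ((con G s t).induce {t}ᶜ) → MQ (b - 1) (G.induce (G.neighborSet s ∩ G.neighborSet t)) → MQ b G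
  /-- gluing along a full subcomplex -/
  | glue {b : ℕ} {V : Type} [Finite V] (G : SimpleGraph V) (A B : Set V) : A ∪ B = Set.univ →
      (∀ a ∈ A, a ∉ B → ∀ b ∈ B, b ∉ A → ¬ G.Adj a b) → MQ b (G.induce A) → MQ b (G.induce B) →
      MQ (b - 1) (G.induce (A ∩ B)) → MQ b G
  /-- joins -/
  | join {a b : ℕ} {V U : Type} (G : SimpleGraph V) (H : SimpleGraph U) : MQ a G → MQ (b + 1) H →
      MQ (a + b) (join G H)
  /-- isomorphic graphs -/
  | iso {b : ℕ} {V U : Type} (G : SimpleGraph V) (H : SimpleGraph U) : Nonempty (G ≃g H) → MQ b G → MQ b H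

end Pool.Agent.R703.MO
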