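import Pool.Agent.H79.LX.R703_MO_Class
import Pool.Agent.H7.L.R781_VS_Growth

/-!
# Growth of Betti numbers
-/

set_option autoImplicit false

namespace Pool.Agent.R703.MO

open Module Pool.Agent.W907.SG Pool.Agent.W907.SM Pool.Agent.W461.SGN Pool.Agent.W397.SG
  Pool.Agent.TH652.Above Pool.Agent.Y132.SI

/-- Growth in a set of degrees, from the vanishing of the `ℓ²`-homology. -/
theorem growth_set {V : Type} [Fintype V] [LinearOrder V] (G : SimpleGraph V) (S : ℕ → Prop)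
    (hA : ∀ i : ℕ, S i → L2Van G i) (ε : ℝ) (hε : 0 < ε) :
    ∃ E : Finset (W G), (1 : W G) ∉ E ∧ ∀ H : Subgroup (W G), H.FiniteIndex →
      (∀ g ∈ E, ∀ x : W G, x * g * x⁻¹ ∉ H) → ∀ i : ℕ, S i →
        (finrank ℝ (HInv G H i) : ℝ) ≤ ε * H.index := by
  classical
  obtain ⟨K, hK⟩ : ∃ K : ℕ, K = Fintype.card V + 1 := ⟨_, rfl⟩
  obtain ⟨N, hN⟩ := exists_nat_gt (1 / ε)
  have hN0 : (0 : ℝ) < N := lt_of_le_of_lt (by positivity) hN
  have hNε : 1 < N * ε := (div_lt_iff₀ hε).1 hN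
  have h1 : ∀ i : ℕ, ∃ Ei : Finset (W G), (1 : W G) ∉ Ei ∧ (S i →
      ∀ H : Subgroup (W G), H.FiniteIndex → (∀ g ∈ Ei, ∀ x : W G, x * g * x⁻¹ ∉ H) →
        N * finrank ℝ (HInv G H i) ≤ H.index) := by
    intro i
    by_cases hi : S i
    · obtain ⟨Ei, h2, h3⟩ := growth_one G i (hA i hi) N
      exact ⟨Ei, h2, fun _ => h3⟩
    · exact ⟨∅, Finset.notMem_empty _, fun h => absurd h hi⟩
  choose Ef hEf1 hEf2 using h1
  refine ⟨(Finset.range K).biUnion Ef, ?_, ?_⟩
  · rw [Finset.mem_biUnion]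
    rintro ⟨i, _, h⟩
    exact hEf1 i h
  intro H hfin hE i hi
  have hidx : (0 : ℝ) ≤ H.index := Nat.cast_nonneg _
  by_cases hiK : i < K
  · have h2 := hEf2 i hi H hfin fun g hg x =>
      hE g (Finset.mem_biUnion.2 ⟨i, Finset.mem_range.2 hiK, hg⟩) x
    have h3 : (N : ℝ) * (finrank ℝ (HInv G H i) : ℝ) ≤ H.index := by exact_mod_cast h2
    have h4 : (finrank ℝ (HInv G H i) : ℝ) ≤ N * ε * (finrank ℝ (HInv G H i) : ℝ) := by
      have h5 : (0 : ℝ) ≤ (finrank ℝ (HInv G H i) : ℝ) := Nat.cast_nonneg _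
      nlinarith
    nlinarith
  · haveI : Finite (Quotient (QuotientGroup.rightRel H)) :=
      Finite.of_equiv _ (QuotientGroup.quotientRightRelEquivQuotientLeftRel H).symm
    letI : Fintype (Quotient (QuotientGroup.rightRel H)) := Fintype.ofFinite _
    rw [finrank_HInv, beta_big G _ Set.univ ∅ (by omega), Nat.cast_zero]
    positivity

/-- The Morse criterion in the degrees `i > n / 2` for homology spheres. -/
theorem singer_slopes {n : ℕ} {V : Type} [Fintype V] [LinearOrder V] {G : SimpleGraph V} (hS : HSph n G)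
    (h : ∀ i : ℕ, n < 2 * i → ∃ (X : Type) (_ : Finite X) (_ : Nonempty X) (D : Slope G X), ∀ (x : X) (S : Finset V),
      G.IsClique (S : Set V) → (∀ s ∈ S, D.dir s x = 0) → ∀ j, i = j + S.card → HomZero G (D.Asc S x) j) (i : ℕ)
    (hi : 2 * i ≠ n) : L2Van G i := by
  refine singer_of_above hS (fun i hi => ?_) i hi
  obtain ⟨X, _, _, D, hD⟩ := h i hi
  exact morse_slope G D i hD

end Pool.Agent.R703.MO
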