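import Pool.Agent.H79.LX.R703_MO_Defs
import Pool.Agent.H7.L.R781_VS_Conv
import Pool.Agent.H7.L.W907_SG_All

/-!
# Morse theory for chains of right-angled Coxeter groups: pieces of chains
-/

set_option autoImplicit false
set_option linter.unusedSectionVars false

namespace Pool.Agent.R703.MO

open Pool.Agent.W907.SG Classical

section
variable {V X Y : Type} {G : SimpleGraph V} {B : Set V}

/-- the action on the product of the cyclic covering with `Y` -/
noncomputable def Dir.aN (D : Dir G B X) (N : ℕ) (b : V → Y → Y) (v : V) (z : X × ZMod N × Y) : X × ZMod N × Y :=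
  (D.a v z.1, (if v ∈ B then z.2.1 else if D.up v z.1 then z.2.1 + 1 else z.2.1 - 1), b v z.2.2)

/-- the representation in which the vertices outside `B` act by `-1` -/
noncomputable def rr (F : Type) [Field F] (B : Set V) (b : V → Y → Y) (v : V) : (Y → F) →ₗ[F] (Y → F) :=
  if v ∈ B then pull F b v else -LinearMap.id

theorem rr_neg {F : Type} [Field F] {b : V → Y → Y} {v : V} (h : v ∉ B) (m : Y → F) : rr F B b v m = - m := by
  unfold rr
  rw [if_neg h]; rfl

theorem rr_pos {F : Type} [Field F] {b : V → Y → Y} {v : V} (h : v ∈ B) (m : Y → F) (y : Y) :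
    rr F B b v m y = m (b v y) := by
  unfold rr
  rw [if_pos h]; rfl

end

section
variable {F : Type} [Field F] {V : Type} [Fintype V] [LinearOrder V] {X Y : Type} {G : SimpleGraph V} {B : Set V}
  (D : Dir G B X) {N : ℕ} {b : V → Y → Y}

theorem Dir.aN_inv (hb : ∀ v y, b v (b v y) = y) (v : V) (z : X × ZMod N × Y) :
    D.aN N b v (D.aN N b v z) = z := by
  obtain ⟨x, t, y⟩ := z
  unfold Dir.aN
  by_cases hv : v ∈ B
  · simp only [hv, if_true, D.inv, hb]
  · simp only [hv, if_false, D.inv, hb, D.flip v hv]
    cases h : D.up v x <;> simp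

theorem Dir.aN_comm (hb : ∀ u v, G.Adj u v → ∀ y, b u (b v y) = b v (b u y)) (u v : V) (h : G.Adj u v)
    (z : X × ZMod N × Y) : D.aN N b u (D.aN N b v z) = D.aN N b v (D.aN N b u z) := by
  obtain ⟨x, t, y⟩ := z
  unfold Dir.aN
  refine Prod.ext (D.comm u v h x) (Prod.ext ?_ (hb u v h y))
  show (if u ∈ B then (if v ∈ B then t else if D.up v x then t + 1 else t - 1) else
      if D.up u (D.a v x) then (if v ∈ B then t else if D.up v x then t + 1 else t - 1) + 1 else
        (if v ∈ B then t else if D.up v x then t + 1 else t - 1) - 1) =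
    (if v ∈ B then (if u ∈ B then t else if D.up u x then t + 1 else t - 1) else
      if D.up v (D.a u x) then (if u ∈ B then t else if D.up u x then t + 1 else t - 1) + 1 else
        (if u ∈ B then t else if D.up u x then t + 1 else t - 1) - 1)
  by_cases hu : u ∈ B
  · by_cases hv : v ∈ B
    · simp [hu, hv]
    · simp [hu, hv, D.fix u hu]
  · by_cases hv : v ∈ B
    · simp [hu, hv, D.fix v hv]
    · simp only [hu, hv, if_false, D.par u hu v h, D.par v hv u h.symm]
      cases D.up u x <;> cases D.up v x <;> simp

/-- the part of a chain which belongs to the cubes with bottom `(x, t)` -/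
noncomputable def Dir.pc (D : Dir G B X) (c : Finset V → X × ZMod N × Y → F) (x : X) (t : ZMod N) :
    Finset V → Y → F := fun T y => if (T : Set V) ⊆ D.U x then c T (x, t, y) else 0

theorem Dir.pc_pos {c : Finset V → X × ZMod N × Y → F} {x : X} {t : ZMod N} {T : Finset V}
    (h : (T : Set V) ⊆ D.U x) (y : Y) : D.pc c x t T y = c T (x, t, y) := if_pos h

theorem Dir.pc_neg {c : Finset V → X × ZMod N × Y → F} {x : X} {t : ZMod N} {T : Finset V}
    (h : ¬ (T : Set V) ⊆ D.U x) : D.pc c x t T = 0 := funext fun _ => if_neg h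

theorem Dir.pc_zero (x : X) (t : ZMod N) : D.pc (0 : Finset V → X × ZMod N × Y → F) x t = 0 := by
  funext T y
  unfold Dir.pc
  split_ifs <;> rfl

theorem Dir.pc_sub (c c' : Finset V → X × ZMod N × Y → F) (x : X) (t : ZMod N) :
    D.pc (c - c') x t = D.pc c x t - D.pc c' x t := by
  funext T y
  show D.pc (c - c') x t T y = D.pc c x t T y - D.pc c' x t T y
  unfold Dir.pc
  split_ifs
  · rfl
  · simp

theorem Dir.pc_add (c c' : Finset V → X × ZMod N × Y → F) (x : X) (t : ZMod N) :
    D.pc (c + c') x t = D.pc c x t + D.pc c' x t := by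
  funext T y
  show D.pc (c + c') x t T y = D.pc c x t T y + D.pc c' x t T y
  unfold Dir.pc
  split_ifs
  · rfl
  · simp

theorem Dir.pc_smul (k : F) (c : Finset V → X × ZMod N × Y → F) (x : X) (t : ZMod N) :
    D.pc (k • c) x t = k • D.pc c x t := by
  funext T y
  show D.pc (k • c) x t T y = k • D.pc c x t T y
  unfold Dir.pc
  split_ifs
  · rfl
  · simp

/-- anti-invariance -/
theorem Dir.anti {c : Finset V → X × ZMod N × Y → F} {i : ℕ} (hc : c ∈ KK G (pull F (D.aN N b)) Set.univ ∅ i)
    (T : Finset V) (u : V) (hu : u ∈ T) (z : X × ZMod N × Y) : c T (D.aN N b u z) = - c T z := by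
  rw [mem_KK] at hc
  exact congrFun (hc.2 T u (Or.inl hu)) z

theorem Dir.flat {x : X} {u : V} (h : u ∈ B) (t : ZMod N) (y : Y) : D.aN N b u (x, t, y) = (x, t, b u y) := by
  unfold Dir.aN
  simp [h, D.fix u h]

theorem Dir.down {x : X} {u : V} (hu : u ∉ B) (h : D.up u x = false) (t : ZMod N) (y : Y) :
    D.aN N b u (x, t, y) = (D.a u x, t - 1, b u y) := by
  unfold Dir.aN
  simp [h, hu]

theorem Dir.pc_mem {c : Finset V → X × ZMod N × Y → F} {i : ℕ} (hc : c ∈ KK G (pull F (D.aN N b)) Set.univ ∅ i)
    (x : X) (t : ZMod N) : D.pc c x t ∈ KK G (rr F B b) (D.U x) ∅ i := by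
  have hc' := mem_KK.1 hc
  rw [mem_KK]
  refine ⟨fun T hT => ?_, fun T v hv => ?_⟩
  · by_cases h : (T : Set V) ⊆ D.U x
    · funext y
      rw [D.pc_pos h, hc'.1 T fun h1 => hT ⟨h1.1, h, h1.2.2⟩]; rfl
    · exact D.pc_neg h
  · rcases hv with hv | hv
    · by_cases hB : v ∈ B
      · funext y
        rw [rr_pos hB]
        by_cases h : (T : Set V) ⊆ D.U x
        · have h1 := D.anti hc T v hv (x, t, y)
          rw [D.flat hB] at h1
          show D.pc c x t T (b v y) = - D.pc c x t T y
          rw [D.pc_pos h, D.pc_pos h, h1]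
        · rw [D.pc_neg h]; simp
      · exact rr_neg hB _
    · exact absurd hv (Set.notMem_empty v)

/-- the piece of a boundary -/
theorem Dir.pc_bd {c : Finset V → X × ZMod N × Y → F} {i : ℕ} (hc : c ∈ KK G (pull F (D.aN N b)) Set.univ ∅ i)
    (t : ZMod N) (h0 : ∀ y, D.pc c y (t - 1) = 0) (x : X) : D.pc (bd F c) x t = bd F (D.pc c x t) := by
  funext T y
  rw [bd_apply, Finset.sum_apply]
  by_cases hT : (T : Set V) ⊆ D.U x
  · rw [D.pc_pos hT, bd_apply, Finset.sum_apply]
    refine Finset.sum_congr rfl fun u hu => ?_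
    rw [Finset.mem_compl] at hu
    show sg u T • c (insert u T) (x, t, y) = sg u T • D.pc c x t (insert u T) y
    congr 1
    by_cases h2 : u ∈ D.U x
    · rw [D.pc_pos]
      intro v hv
      rw [Finset.coe_insert] at hv
      rcases hv with h3 | h3
      · rw [h3]; exact h2
      · exact hT h3
    · have hu2 : u ∉ B := fun h => h2 (Or.inl h)
      have h2' : D.up u x = false := by
        have : ¬ D.up u x = true := fun h => h2 (Or.inr h)
        simpa using this
      rw [D.pc_neg fun h => h2 (h (by simp))]
      by_cases h4 : G.IsClique ((insert u T : Finset V) : Set V)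
      · have h5 := D.anti hc (insert u T) u (Finset.mem_insert_self u T) (x, t, y)
        rw [D.down hu2 h2'] at h5
        have h6 := congrFun (congrFun (h0 (D.a u x)) (insert u T)) (b u y)
        rw [D.pc_pos] at h6
        · rw [h6] at h5
          exact neg_eq_zero.1 h5.symm
        · intro w hw
          have hw' := hw
          rw [Finset.coe_insert] at hw'
          rcases hw' with h7 | h7
          · right
            rw [h7, D.flip u hu2, h2']; rfl
          · rcases hT h7 with h8 | h8
            · exact Or.inl h8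
            · by_cases hwB : w ∈ B
              · exact Or.inl hwB
              · right
                have h9 : G.Adj w u := h4 hw (by simp) (fun e => hu (e ▸ h7))
                rw [D.par w hwB u h9]
                exact h8
      · rw [(mem_KK.1 hc).1 (insert u T) fun h => h4 h.1]; rfl
  · rw [D.pc_neg hT]
    symm
    refine Finset.sum_eq_zero fun u _ => ?_
    show sg u T • D.pc c x t (insert u T) y = 0
    rw [D.pc_neg fun h => hT fun v hv => h (by simp [Finset.mem_coe.1 hv])]
    simp

/-- a chain all of whose pieces vanish is zero -/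
theorem Dir.eq_zero {c : Finset V → X × ZMod N × Y → F} {i : ℕ}
    (hc : c ∈ KK G (pull F (D.aN N b)) Set.univ ∅ i) (h0 : ∀ x t, D.pc c x t = 0) : c = 0 := by
  funext T
  by_cases hT : G.IsClique (T : Set V)
  · have key : ∀ (n : ℕ) (x : X) (t : ZMod N) (y : Y), (T.filter fun v => v ∉ B ∧ D.up v x = false).card = n →
        c T (x, t, y) = 0 := by
      intro n
      induction n with
      | zero =>
        intro x t y hn
        have h1 := congrFun (congrFun (h0 x t) T) y
        rw [D.pc_pos] at h1
        · exact h1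
        · intro v hv
          by_contra h2
          have h3 : v ∈ T.filter fun v => v ∉ B ∧ D.up v x = false := by
            refine Finset.mem_filter.2 ⟨hv, fun h => h2 (Or.inl h), ?_⟩
            have : ¬ D.up v x = true := fun h => h2 (Or.inr h)
            simpa using this
          rw [Finset.card_eq_zero.1 hn] at h3
          simp at h3
      | succ n ih =>
        intro x t y hn
        have h1 : (T.filter fun v => v ∉ B ∧ D.up v x = false).Nonempty := by
          rw [← Finset.card_pos]; omega
        obtain ⟨u, hu⟩ := h1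
        have hu2 := Finset.mem_filter.1 hu
        have h5 := D.anti hc T u hu2.1 (x, t, y)
        rw [D.down hu2.2.1 hu2.2.2] at h5
        have h6 : (T.filter fun v => v ∉ B ∧ D.up v (D.a u x) = false) =
            (T.filter fun v => v ∉ B ∧ D.up v x = false).erase u := by
          ext w
          simp only [Finset.mem_filter, Finset.mem_erase]
          constructor
          · rintro ⟨h7, h8, h8'⟩
            have h9 : w ≠ u := by
              rintro rfl
              rw [D.flip w hu2.2.1, hu2.2.2] at h8'
              simp at h8'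
            refine ⟨h9, h7, h8, ?_⟩
            rwa [D.par w h8 u (hT (by exact_mod_cast h7) (by exact_mod_cast hu2.1) h9)] at h8'
          · rintro ⟨h9, h7, h8, h8'⟩
            refine ⟨h7, h8, ?_⟩
            rwa [D.par w h8 u (hT (by exact_mod_cast h7) (by exact_mod_cast hu2.1) h9)]
        have h7 := ih (D.a u x) (t - 1) (b u y) (by rw [h6, Finset.card_erase_of_mem hu, hn]; rfl)
        rw [h7] at h5
        exact neg_eq_zero.1 h5.symm
    funext z
    exact key _ z.1 z.2.1 z.2.2 rfl
  · exact (mem_KK.1 hc).1 T fun h => hT h.1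

/-- extension of a family of pieces at one height -/
theorem Dir.extend (hb1 : ∀ v y, b v (b v y) = y) (hb2 : ∀ u v, G.Adj u v → ∀ y, b u (b v y) = b v (b u y))
    (t0 : ZMod N) (w : X → Finset V → Y → F) (i : ℕ) (hw : ∀ x, w x ∈ KK G (rr F B b) (D.U x) ∅ i) :
    ∃ W ∈ KK G (pull F (D.aN N b)) Set.univ ∅ i, (∀ x, D.pc W x t0 = w x) ∧ ∀ x s, s ≠ t0 → D.pc W x s = 0 := by
  have key : ∀ T : Finset V, G.IsClique (T : Set V) → ∀ S : Finset V, S ⊆ T → ∃ g : X × ZMod N × Y → F,
      (∀ u ∈ T, (u ∈ S ∨ u ∈ B) → ∀ z, g (D.aN N b u z) = - g z) ∧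
      (∀ x s y, (T : Set V) ⊆ D.U x → g (x, s, y) = if s = t0 then w x T y else 0) ∧
      (∀ x s y, ∀ v ∈ T, v ∉ S → v ∉ B → D.up v x = false → g (x, s, y) = 0) := by
    intro T hT S
    induction S using Finset.induction_on with
    | empty =>
      intro _
      refine ⟨fun z => if (T : Set V) ⊆ D.U z.1 then (if z.2.1 = t0 then w z.1 T z.2.2 else 0) else 0, ?_, ?_, ?_⟩
      · rintro u hu (h | h) ⟨x, s, y⟩
        · simp at h
        · rw [D.flat h]
          show (if (T : Set V) ⊆ D.U x then (if s = t0 then w x T (b u y) else 0) else 0) =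
            -(if (T : Set V) ⊆ D.U x then (if s = t0 then w x T y else 0) else 0)
          have h1 := congrFun ((mem_KK.1 (hw x)).2 T u (Or.inl hu)) y
          rw [rr_pos h] at h1
          rw [h1]
          split_ifs <;> simp
      · intro x s y h
        show (if (T : Set V) ⊆ D.U x then _ else _) = _
        rw [if_pos h]
      · intro x s y v hv _ hvB h
        show (if (T : Set V) ⊆ D.U x then _ else _) = _
        rw [if_neg]
        intro h1
        rcases h1 hv with h2 | h2
        · exact hvB h2
        · rw [h2] at h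
          simp at h
    | insert u S hu ih =>
      intro hS
      have huT : u ∈ T := hS (Finset.mem_insert_self u S)
      obtain ⟨g, g1, g2, g3⟩ := ih fun v hv => hS (Finset.mem_insert_of_mem hv)
      by_cases huB : u ∈ B
      · refine ⟨g, fun v hv h => g1 v hv ?_, g2, fun x s y v hv hvS => g3 x s y v hv fun h =>
          hvS (Finset.mem_insert_of_mem h)⟩
        rcases h with h | h
        · rcases Finset.mem_insert.1 h with h' | h'
          · exact Or.inr (h' ▸ huB)
          · exact Or.inl h'
        · exact Or.inr h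
      · refine ⟨fun z => g z - g (D.aN N b u z), ?_, ?_, ?_⟩
        · intro v hv h z
          by_cases hvu : v = u
          · subst hvu
            show g (D.aN N b v z) - g (D.aN N b v (D.aN N b v z)) = -(g z - g (D.aN N b v z))
            rw [D.aN_inv hb1]; ring
          · have h' : v ∈ S ∨ v ∈ B := h.imp (fun h => (Finset.mem_insert.1 h).resolve_left hvu) id
            have hadj : G.Adj u v := hT (by exact_mod_cast huT) (by exact_mod_cast hv) (Ne.symm hvu)
            show g (D.aN N b v z) - g (D.aN N b u (D.aN N b v z)) = -(g z - g (D.aN N b u z))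
            rw [D.aN_comm hb2 u v hadj, g1 v hv h', g1 v hv h']; ring
        · intro x s y h
          show g (x, s, y) - g (D.aN N b u (x, s, y)) = _
          have h1 : g (D.aN N b u (x, s, y)) = 0 := by
            refine g3 _ _ _ u huT hu huB ?_
            show D.up u (D.a u x) = false
            rw [D.flip u huB]
            rcases h huT with h2 | h2
            · exact absurd h2 huB
            · rw [h2]; rfl
          rw [h1, sub_zero, g2 x s y h]
        · intro x s y v hv hvS hvB h
          have hvu : v ≠ u := fun e => hvS (by rw [e]; exact Finset.mem_insert_self u S)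
          have hvS' : v ∉ S := fun e => hvS (Finset.mem_insert_of_mem e)
          show g (x, s, y) - g (D.aN N b u (x, s, y)) = 0
          rw [g3 x s y v hv hvS' hvB h, g3 _ _ _ v hv hvS' hvB (by
            show D.up v (D.a u x) = false
            rw [D.par v hvB u (hT (by exact_mod_cast hv) (by exact_mod_cast huT) hvu)]
            exact h), sub_zero]
  have key2 : ∀ T : Finset V, ∃ g : X × ZMod N × Y → F, (¬ (G.IsClique (T : Set V) ∧ T.card = i) → g = 0) ∧
      (∀ u ∈ T, ∀ z, g (D.aN N b u z) = - g z) ∧
      (∀ x s y, (T : Set V) ⊆ D.U x → g (x, s, y) = if s = t0 then w x T y else 0) := by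
    intro T
    by_cases h : G.IsClique (T : Set V) ∧ T.card = i
    · obtain ⟨g, g1, g2, _⟩ := key T h.1 T (Finset.Subset.refl T)
      exact ⟨g, fun h1 => absurd h h1, fun u hu => g1 u hu (Or.inl hu), g2⟩
    · refine ⟨0, fun _ => rfl, fun u _ z => by simp, fun x s y _ => ?_⟩
      have h1 : w x T = 0 := ((mem_KK.1 (hw x)).1 T fun h2 => h ⟨h2.1, h2.2.2⟩)
      rw [h1]; simp
  choose g g0 g1 g2 using key2
  refine ⟨g, mem_KK.2 ⟨fun T hT => g0 T fun h => hT ⟨h.1, Set.subset_univ _, h.2⟩, ?_⟩, ?_, ?_⟩
  · intro T u hu
    rcases hu with hu | hu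
    · funext z
      exact g1 T u hu z
    · exact absurd hu (Set.notMem_empty u)
  · intro x
    funext T
    by_cases h : (T : Set V) ⊆ D.U x
    · funext y
      rw [D.pc_pos h, g2 T x t0 y h, if_pos rfl]
    · rw [D.pc_neg h]
      symm
      exact (mem_KK.1 (hw x)).1 T fun h2 => h h2.2.1
  · intro x s hs
    funext T
    by_cases h : (T : Set V) ⊆ D.U x
    · funext y
      rw [D.pc_pos h, g2 T x s y h, if_neg hs]; rfl
    · rw [D.pc_neg h]; rfl

end

end Pool.Agent.R703.MO
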