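import Pool.Agent.H79.LX.W497_FS_Root

set_option autoImplicit false
set_option linter.unusedSectionVars false
set_option linter.unusedVariables false

/-! # Gal's conjecture for defect at most one -/

namespace Pool.Agent.W497.FS

open Polynomial

variable {α : Type} [DecidableEq α]

theorem lkF_triple {H : SimpleGraph α} {W : Finset α} {a b c : α} :
    lkF H W {a, b, c} = lk H (lkF H W {a, b}) c := by
  have : ({a, b, c} : Finset α) = insert c {a, b} := by
    ext z; simp only [Finset.mem_insert, Finset.mem_singleton]; tauto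
  rw [this, lkF_insert]

theorem mem_lkF_pair {H : SimpleGraph α} {W : Finset α} {a b u : α} :
    u ∈ lkF H W {a, b} ↔ u ∈ W ∧ H.Adj a u ∧ H.Adj b u := by
  rw [mem_lkF]; simp

/-- the sphere `Σ_a` -/
theorem root_sphere (hDel : StmDel) {H : SimpleGraph α} {d : ℕ} {W : Finset α}
    (h : NP H (d + 2) W) (hE : Eul H (d + 2) W) {v a b c : α} (hv : v ∈ W)
    (hM : ∀ u, u ∈ nn H W v ↔ u = a ∨ u = b ∨ u = c)
    (hab : H.Adj a b) (hac : H.Adj a c) (hbc : H.Adj b c) :
    NP (glueG H (KK H (lk H W v) a b) (KK H (lk H W v) a c)) d (SS H (lk H W v) a b c) ∧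
    Eul (glueG H (KK H (lk H W v) a b) (KK H (lk H W v) a c)) d (SS H (lk H W v) a b c) ∧
    FP (glueG H (KK H (lk H W v) a b) (KK H (lk H W v) a c)) (SS H (lk H W v) a b c) =
      FP H (lkF H W {a, b}) + FP H (lkF H W {a, c}) - y * FP H (lkF H W {a, b, c}) ∧
    (SS H (lk H W v) a b c).card < W.card := by
  obtain ⟨haW, hav, hva⟩ := mem_nn.1 ((hM a).2 (Or.inl rfl))
  obtain ⟨hbW, hbv, hvb⟩ := mem_nn.1 ((hM b).2 (Or.inr (Or.inl rfl)))
  obtain ⟨hcW, hcv, hvc⟩ := mem_nn.1 ((hM c).2 (Or.inr (Or.inr rfl)))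
  have inL : ∀ u ∈ W, u ≠ v → u ≠ a → u ≠ b → u ≠ c → H.Adj v u := by
    intro u hu huv h1 h2 h3
    by_contra hn
    have := (hM u).1 (mem_nn.2 ⟨hu, huv, hn⟩)
    tauto
  have e1 : (lkF H W {a, b}).erase c = KK H (lk H W v) a b := by
    ext u
    rw [Finset.mem_erase, mem_lkF_pair, mem_KK, mem_lk]
    constructor
    · rintro ⟨h1, h2, h3, h4⟩
      exact ⟨⟨h2, inL u h2 (fun h => hva (h ▸ h3).symm) h3.ne.symm h4.ne.symm h1⟩, h3, h4⟩
    · rintro ⟨⟨h1, h2⟩, h3, h4⟩
      exact ⟨fun h => hvc (h ▸ h2), h1, h3, h4⟩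
  have e2 : (lkF H W {a, c}).erase b = KK H (lk H W v) a c := by
    ext u
    rw [Finset.mem_erase, mem_lkF_pair, mem_KK, mem_lk]
    constructor
    · rintro ⟨h1, h2, h3, h4⟩
      exact ⟨⟨h2, inL u h2 (fun h => hva (h ▸ h3).symm) h3.ne.symm h1 h4.ne.symm⟩, h3, h4⟩
    · rintro ⟨⟨h1, h2⟩, h3, h4⟩
      exact ⟨fun h => hvb (h ▸ h2), h1, h3, h4⟩
  have hg : GlueData H (lkF H W {a, b}) (lkF H W {a, c}) c b := by
    refine ⟨mem_lkF_pair.2 ⟨hcW, hac, hbc⟩, mem_lkF_pair.2 ⟨hbW, hab, hbc.symm⟩, ?_, ?_⟩
    · rw [e1, e2]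
      ext u
      rw [mem_lk, mem_lkF_pair, Finset.mem_inter, mem_KK, mem_KK, mem_lk]
      constructor
      · rintro ⟨⟨h1, h2, h3⟩, h4⟩
        have := inL u h1 (fun h => hva (h ▸ h2).symm) h2.ne.symm h3.ne.symm h4.ne.symm
        tauto
      · tauto
    · rw [e1, e2]
      ext u
      rw [mem_lk, mem_lkF_pair, Finset.mem_inter, mem_KK, mem_KK, mem_lk]
      constructor
      · rintro ⟨⟨h1, h2, h3⟩, h4⟩
        have := inL u h1 (fun h => hva (h ▸ h2).symm) h2.ne.symm h4.ne.symm h3.ne.symm
        tauto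
      · tauto
  have hpair : ∀ p q : α, p ∈ W → q ∈ W → H.Adj p q → ({p, q} : Finset α) ∈ cl H W := by
    intro p q hp hq hpq
    rw [mem_cl]
    refine ⟨fun z hz => ?_, fun x hx z hz hxz => ?_⟩
    · rcases Finset.mem_insert.1 hz with h | h
      · rwa [h]
      · rwa [Finset.mem_singleton.1 h]
    · rw [Finset.mem_insert, Finset.mem_singleton] at hx hz
      rcases hx with rfl | rfl <;> rcases hz with rfl | rfl
      · exact absurd rfl hxz
      · exact hpq
      · exact hpq.symm
      · exact absurd rfl hxz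
  have n1 : NP H d (lkF H W {a, b}) ∧ Eul H d (lkF H W {a, b}) := by
    obtain ⟨e, he, hNP, -, -⟩ := h.lkF (hpair a b haW hbW hab)
    have hc := Finset.card_pair hab.ne
    obtain rfl : e = d := by omega
    exact ⟨hNP, hE.lkF_rank (hpair a b haW hbW hab) he⟩
  have n2 : NP H d (lkF H W {a, c}) ∧ Eul H d (lkF H W {a, c}) := by
    obtain ⟨e, he, hNP, -, -⟩ := h.lkF (hpair a c haW hcW hac)
    have hc := Finset.card_pair hac.ne
    obtain rfl : e = d := by omega
    exact ⟨hNP, hE.lkF_rank (hpair a c haW hcW hac) he⟩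
  rw [SS, ← e1, ← e2]
  refine ⟨glue_np hDel hg n1.1 n2.1, glue_eul hg n1.1 n2.1 n1.2 n2.2, ?_, ?_⟩
  · rw [FP_glue hg, lkF_triple]
  · apply Finset.card_lt_card
    refine ⟨fun u hu => ?_, fun hsub => ?_⟩
    · rcases Finset.mem_union.1 hu with h | h
      · exact (mem_lkF_pair.1 (Finset.mem_of_mem_erase h)).1
      · exact (mem_lkF_pair.1 (Finset.mem_of_mem_erase h)).1
    · rcases Finset.mem_union.1 (hsub hv) with h | h
      · exact hva (mem_lkF_pair.1 (Finset.mem_of_mem_erase h)).2.1.symm
      · exact hva (mem_lkF_pair.1 (Finset.mem_of_mem_erase h)).2.1.symm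

theorem Bk_triangle {H : SimpleGraph α} {W : Finset α} {v a b c : α} (hM : nn H W v = {a, b, c})
    (hab : H.Adj a b) (hac : H.Adj a c) (hbc : H.Adj b c) :
    Bk H W v = FP H (lkF H W {a, b}) + FP H (lkF H W {a, c}) + FP H (lkF H W {b, c}) -
      y * FP H (lkF H W {a, b, c}) := by
  have hcl : cl H ({a, b, c} : Finset α) = ({a, b, c} : Finset α).powerset := by
    ext σ
    rw [mem_cl, Finset.mem_powerset]
    refine ⟨fun h => h.1, fun h => ⟨h, fun x hx z hz hxz => ?_⟩⟩
    have hx' := h hx
    have hz' := h hz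
    simp only [Finset.mem_insert, Finset.mem_singleton] at hx' hz'
    rcases hx' with rfl | rfl | rfl <;> rcases hz' with rfl | rfl | rfl
    · exact absurd rfl hxz
    · exact hab
    · exact hac
    · exact hab.symm
    · exact absurd rfl hxz
    · exact hbc
    · exact hac.symm
    · exact hbc.symm
    · exact absurd rfl hxz
  have h1 : a ∉ ({b, c} : Finset α) := by simp [hab.ne, hac.ne]
  have h2 : b ∉ ({c} : Finset α) := by simp [hbc.ne]
  have h3 : ({c} : Finset α) = insert c ∅ := by simp
  rw [Bk, hM, hcl]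
  have e1 : ({a, b, c} : Finset α) = insert a (insert b {c}) := rfl
  rw [e1, Finset.sum_powerset_insert h1, Finset.sum_powerset_insert h2,
    Finset.sum_powerset_insert h2, h3, Finset.sum_powerset_insert (Finset.notMem_empty c),
    Finset.sum_powerset_insert (Finset.notMem_empty c),
    Finset.sum_powerset_insert (Finset.notMem_empty c),
    Finset.sum_powerset_insert (Finset.notMem_empty c)]
  simp only [Finset.powerset_empty, Finset.sum_singleton]
  have c0 : (insert b (insert c (∅ : Finset α))).card = 2 := by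
    rw [← h3, Finset.card_insert_of_notMem h2]; simp
  have c1 : (insert a (insert c (∅ : Finset α))).card = 2 := by
    rw [Finset.card_insert_of_notMem (by simp [hac.ne])]; simp
  have c2 : (insert a (insert b (∅ : Finset α))).card = 2 := by
    rw [Finset.card_insert_of_notMem (by simp [hab.ne])]; simp
  have c3 : (insert a (insert b (insert c (∅ : Finset α)))).card = 3 := by
    rw [Finset.card_insert_of_notMem (by simp [hab.ne, hac.ne]), c0]
  have c4 : ∀ z : α, (insert z (∅ : Finset α)).card = 1 := fun z => by simp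
  have c5 : (insert b (∅ : Finset α)) = {b} := by simp
  rw [c0, c1, c2, c3, c4 a, c4 b, c4 c, Finset.card_empty]
  simp only [Nat.zero_sub, Nat.sub_self, show 2 - 1 = 1 from rfl, show 3 - 1 = 2 from rfl,
    sj_zero, sj_one, sj_two, y, c5]
  ring

/-- **Gal's conjecture for defect at most one** -/
theorem gal_defect_le_one (hDel : StmDel) {H : SimpleGraph α} {d : ℕ} {W : Finset α}
    (h : NP H d W) (hE : Eul H d W) (hδ : W.card + (comps H W).card ≤ 3 * d + 1) :
    FP H W ∈ GT ⊤ d := by
  induction hn : W.card using Nat.strong_induction_on generalizing H d W with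
  | _ n ih =>
    subst hn
    rcases W.eq_empty_or_nonempty with rfl | hne
    · obtain rfl : d = 0 := h.rank_unique (d' := 0) rfl
      rw [FP_empty]
      exact one_mem_GT _
    by_cases hp : Prm H W
    swap
    · obtain ⟨A, B, hA, hB, hAB, rfl⟩ := split_of_not_prm hne hp
      obtain ⟨d₁, d₂, rfl, h1, h2⟩ := h.split hAB
      have e1 := hE.left hAB h2
      have e2 := hE.right hAB h1
      have hc := Finset.card_union_of_disjoint hAB.disjoint
      have hA' := Finset.card_pos.2 hA
      have hB' := Finset.card_pos.2 hB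
      rw [card_comps_union hAB, hc] at hδ
      have k1 := h1.three_mul_le
      have k2 := h2.three_mul_le
      rw [FP_join hAB]
      exact GT_mul (ih A.card (by omega) h1 e1 (by omega) rfl)
        (ih B.card (by omega) h2 e2 (by omega) rfl)
    obtain ⟨v₀, hv₀⟩ := hne
    obtain ⟨d, rfl⟩ := h.rank_pos hv₀
    rcases d with _ | d
    · exact GT_of_lt (t := 2) (by norm_num) ⊤ (FP_mem_two h hE)
    have hδ' := hδ
    rw [comps_prm hp, Finset.card_singleton] at hδ
    obtain ⟨v, hv, hpv, hm⟩ := exists_small (k := 1) h hp (by omega)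
    have hlc := card_eq_lk_nn (H := H) hv
    have hdl := h.defect_lk v hv
    have hL := ih (lk H W v).card (by omega) (h.lk hv) (hE.lk_succ hv) (by omega) rfl
    rw [FP_vertex hE hv]
    refine add_mem (GT_y hL) ?_
    have htop : (⊤ : ℕ∞) + 1 = ⊤ := rfl
    have hw : ∀ p ∈ GT ⊤ d, w * p ∈ GT ⊤ (d + 2) := fun p hp => by
      have := GT_w hp
      rwa [htop] at this
    refine hw _ ?_
    have hedge : ∀ κ ∈ cl H W, κ.card = 2 → FP H (lkF H W κ) ∈ GT ⊤ d := by
      intro κ hκ hc
      obtain ⟨e, he, hNP, hdef, hcard⟩ := h.lkF hκ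
      obtain rfl : e = d := by omega
      exact ih _ (by omega) hNP (hE.lkF_rank hκ he) (by omega) rfl
    by_cases htri : (nn H W v).card = 3 ∧ nn H W v ∈ cl H W
    · obtain ⟨h3, hcl⟩ := htri
      obtain ⟨a, b, c, hab', hac', hbc', hM⟩ := Finset.card_eq_three.1 h3
      have haM : a ∈ nn H W v := by rw [hM]; simp
      have hbM : b ∈ nn H W v := by rw [hM]; simp
      have hcM : c ∈ nn H W v := by rw [hM]; simp
      have hcl' := (mem_cl.1 hcl).2
      have hab := hcl' a haM b hbM hab'
      have hac := hcl' a haM c hcM hac'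
      have hbc := hcl' b hbM c hcM hbc'
      have hpair : ∀ p q : α, p ∈ nn H W v → q ∈ nn H W v → H.Adj p q →
          FP H (lkF H W {p, q}) ∈ GT ⊤ d := by
        intro p q hp hq hpq
        refine hedge _ (cl_of_subset hcl ?_) (Finset.card_pair hpq.ne)
        intro z hz
        rcases Finset.mem_insert.1 hz with h | h
        · rwa [h]
        · rwa [Finset.mem_singleton.1 h]
      have hM' : ∀ u, u ∈ nn H W v ↔ u = a ∨ u = b ∨ u = c := fun u => by
        rw [hM]; simp
      have hBk := Bk_triangle hM hab hac hbc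
      have hp1 : ({b, a} : Finset α) = {a, b} := Finset.pair_comm b a
      have hp2 : ({c, a} : Finset α) = {a, c} := Finset.pair_comm c a
      have hp3 : ({c, b} : Finset α) = {b, c} := Finset.pair_comm c b
      have hp4 : ({b, a, c} : Finset α) = {a, b, c} := by
        ext z; simp only [Finset.mem_insert, Finset.mem_singleton]; tauto
      have hp5 : ({c, a, b} : Finset α) = {a, b, c} := by
        ext z; simp only [Finset.mem_insert, Finset.mem_singleton]; tauto
      rcases exists_root h hp (by omega) hv hM hab hac hbc with hr | hr | hr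
      · obtain ⟨k1, k2, k3, k4⟩ := root_sphere hDel h hE hv hM' hab hac hbc
        have := ih _ k4 k1 k2 (by omega) rfl
        rw [k3] at this
        have e : Bk H W v = FP H (lkF H W {b, c}) + (FP H (lkF H W {a, b}) +
            FP H (lkF H W {a, c}) - y * FP H (lkF H W {a, b, c})) := by rw [hBk]; ring
        rw [e]
        exact add_mem (hpair b c hbM hcM hbc) this
      · obtain ⟨k1, k2, k3, k4⟩ := root_sphere hDel h hE hv (a := b) (b := a) (c := c)
          (fun u => by rw [hM']; tauto) hab.symm hbc hac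
        have := ih _ k4 k1 k2 (by omega) rfl
        rw [k3, hp1, hp4] at this
        have e : Bk H W v = FP H (lkF H W {a, c}) + (FP H (lkF H W {a, b}) +
            FP H (lkF H W {b, c}) - y * FP H (lkF H W {a, b, c})) := by rw [hBk]; ring
        rw [e]
        exact add_mem (hpair a c haM hcM hac) this
      · obtain ⟨k1, k2, k3, k4⟩ := root_sphere hDel h hE hv (a := c) (b := a) (c := b)
          (fun u => by rw [hM']; tauto) hac.symm hbc.symm hab
        have := ih _ k4 k1 k2 (by omega) rfl
        rw [k3, hp2, hp3, hp5] at this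
        have e : Bk H W v = FP H (lkF H W {a, b}) + (FP H (lkF H W {a, c}) +
            FP H (lkF H W {b, c}) - y * FP H (lkF H W {a, b, c})) := by rw [hBk]; ring
        rw [e]
        exact add_mem (hpair a b haM hbM hab) this
    · refine Bk_mem_of_card_le_three h hE (by omega) (fun κ hκ hc =>
        hedge κ (cl_mono nn_subset hκ) hc) (fun hcl h3 => absurd ⟨h3, hcl⟩ htri)

end Pool.Agent.W497.FS
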