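import Pool.Agent.H79.LX.W497_FS_Few
import Pool.Agent.H79.LX.W497_FS_Stms3

set_option autoImplicit false
set_option linter.unusedSectionVars false
set_option linter.unusedVariables false

/-! # Gluing two spheres with a vertex removed from each -/

namespace Pool.Agent.W497.FS

open Polynomial

variable {α : Type} [DecidableEq α]

/-! ### Dependence on the graph -/

theorem lk_congr {H H' : SimpleGraph α} {W : Finset α} {v : α}
    (h : ∀ x ∈ W, H.Adj v x ↔ H'.Adj v x) : lk H W v = lk H' W v := by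
  ext x
  rw [mem_lk, mem_lk]
  constructor
  · rintro ⟨h1, h2⟩; exact ⟨h1, (h x h1).1 h2⟩
  · rintro ⟨h1, h2⟩; exact ⟨h1, (h x h1).2 h2⟩

theorem NP_congr {H H' : SimpleGraph α} {d : ℕ} {W : Finset α}
    (hc : ∀ x ∈ W, ∀ z ∈ W, H.Adj x z ↔ H'.Adj x z) (h : NP H d W) : NP H' d W := by
  induction d generalizing W with
  | zero => exact h
  | succ d ih =>
    rcases d with _ | d
    · have h' : W.card = 2 ∧ ∀ x ∈ W, ∀ y ∈ W, ¬ H.Adj x y := h
      exact ⟨h'.1, fun x hx z hz hxz => h'.2 x hx z hz ((hc x hx z hz).2 hxz)⟩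
    · refine ⟨h.nonempty, fun A hA hne hneq => ?_, fun v hv => ?_⟩
      · obtain ⟨a, ha, b, hb, hbA, hab⟩ := h.2.1 A hA hne hneq
        exact ⟨a, ha, b, hb, hbA, (hc a (hA ha) b hb).1 hab⟩
      · rw [← lk_congr (H := H) (H' := H') (fun x hx => hc v hv x hx)]
        exact ih (fun x hx z hz => hc x (lk_subset hx) z (lk_subset hz)) (h.lk hv)

theorem cl_congr {H H' : SimpleGraph α} {W : Finset α}
    (hc : ∀ x ∈ W, ∀ z ∈ W, H.Adj x z ↔ H'.Adj x z) : cl H W = cl H' W := by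
  ext σ
  rw [mem_cl, mem_cl]
  constructor
  · rintro ⟨h1, h2⟩
    exact ⟨h1, fun x hx z hz hxz => (hc x (h1 hx) z (h1 hz)).1 (h2 x hx z hz hxz)⟩
  · rintro ⟨h1, h2⟩
    exact ⟨h1, fun x hx z hz hxz => (hc x (h1 hx) z (h1 hz)).2 (h2 x hx z hz hxz)⟩

theorem Eul_congr {H H' : SimpleGraph α} {d : ℕ} {W : Finset α}
    (hc : ∀ x ∈ W, ∀ z ∈ W, H.Adj x z ↔ H'.Adj x z) (h : Eul H d W) : Eul H' d W := by
  rw [eul_def] at h ⊢
  rw [← cl_congr hc]
  exact h

theorem lkF_empty' {H : SimpleGraph α} {W : Finset α} : lkF H W ∅ = W := by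
  ext x; rw [mem_lkF]; simp

theorem eul_rec {H : SimpleGraph α} {d : ℕ} {W : Finset α} :
    Eul H d W ↔ fe H W (-1 : ℤ) = (-1) ^ d ∧ ∀ v ∈ W, Eul H (d + 1) (lk H W v) := by
  constructor
  · intro h
    refine ⟨?_, fun v hv => h.lk hv⟩
    have := eul_iff.1 h ∅ empty_mem_cl
    rwa [lkF_empty', Finset.card_empty, add_zero] at this
  · rintro ⟨h1, h2⟩
    rw [eul_iff]
    intro κ hκ
    rcases κ.eq_empty_or_nonempty with rfl | ⟨v, hv⟩
    · rw [lkF_empty', Finset.card_empty, add_zero]; exact h1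
    · have hvW : v ∈ W := (mem_cl.1 hκ).1 hv
      have h3 := eul_iff.1 (h2 v hvW) (κ.erase v) (by
        rw [mem_cl] at hκ ⊢
        refine ⟨fun z hz => mem_lk.2 ⟨hκ.1 (Finset.mem_of_mem_erase hz), ?_⟩, fun x hx z hz =>
          hκ.2 x (Finset.mem_of_mem_erase hx) z (Finset.mem_of_mem_erase hz)⟩
        exact hκ.2 v hv z (Finset.mem_of_mem_erase hz) (Finset.ne_of_mem_erase hz).symm)
      rw [← lkF_singleton, lkF_lkF, ← Finset.insert_eq, Finset.insert_erase hv,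
        Finset.card_erase_of_mem hv] at h3
      rw [h3]
      have : 0 < κ.card := Finset.card_pos.2 ⟨v, hv⟩
      congr 1
      omega

/-- deleting a vertex -/
theorem fe_erase {H : SimpleGraph α} {R : Type*} [CommRing R] {W : Finset α} {c : α}
    (hc : c ∈ W) (x : R) :
    fe H W x = fe H (W.erase c) x + x * fe H (lk H W c) x := by
  have h1 : (cl H W).filter (fun σ => {c} ⊆ σ) ∪ (cl H W).filter (fun σ => ¬ {c} ⊆ σ) = cl H W :=
    Finset.filter_union_filter_not_eq _ _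
  have h2 : (cl H W).filter (fun σ => ¬ {c} ⊆ σ) = cl H (W.erase c) := by
    ext σ
    rw [Finset.mem_filter, mem_cl, mem_cl, Finset.singleton_subset_iff]
    constructor
    · rintro ⟨⟨ha, hb⟩, hn⟩
      exact ⟨fun z hz => Finset.mem_erase.2 ⟨fun h => hn (h ▸ hz), ha hz⟩, hb⟩
    · rintro ⟨ha, hb⟩
      exact ⟨⟨ha.trans (Finset.erase_subset _ _), hb⟩, fun hn =>
        (Finset.mem_erase.1 (ha hn)).1 rfl⟩
  have h3 := sum_sup (H := H) (singleton_mem_cl hc) (fun n => x ^ n)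
  rw [lkF_singleton, Finset.card_singleton] at h3
  rw [fe, ← Finset.sum_filter_add_sum_filter_not (cl H W) (fun σ => {c} ⊆ σ), h3, h2, fe, fe,
    Finset.mul_sum, add_comm]
  congr 1
  refine Finset.sum_congr rfl (fun σ _ => ?_)
  rw [pow_succ]; ring

/-! ### The glued graph -/

/-- keep the edges inside `K₁` or inside `K₂` -/
def glueG (H : SimpleGraph α) (K₁ K₂ : Finset α) : SimpleGraph α where
  Adj p q := H.Adj p q ∧ ((p ∈ K₁ ∧ q ∈ K₁) ∨ (p ∈ K₂ ∧ q ∈ K₂))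
  symm := ⟨fun p q h => ⟨h.1.symm, by rcases h.2 with h | h <;> tauto⟩⟩
  loopless := ⟨fun p h => h.1.ne rfl⟩

theorem glueG_adj {H : SimpleGraph α} {K₁ K₂ : Finset α} {p q : α} :
    (glueG H K₁ K₂).Adj p q ↔ H.Adj p q ∧ ((p ∈ K₁ ∧ q ∈ K₁) ∨ (p ∈ K₂ ∧ q ∈ K₂)) := Iff.rfl

theorem cl_glue {H : SimpleGraph α} {K₁ K₂ : Finset α} :
    cl (glueG H K₁ K₂) (K₁ ∪ K₂) = cl H K₁ ∪ cl H K₂ := by
  ext σ
  rw [Finset.mem_union, mem_cl, mem_cl, mem_cl]
  constructor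
  · rintro ⟨h1, h2⟩
    by_cases hK1 : σ ⊆ K₁
    · exact Or.inl ⟨hK1, fun x hx z hz hxz => (h2 x hx z hz hxz).1⟩
    · right
      obtain ⟨p, hp, hp1⟩ := Finset.not_subset.1 hK1
      refine ⟨fun z hz => ?_, fun x hx z hz hxz => (h2 x hx z hz hxz).1⟩
      by_cases hzp : z = p
      · rw [hzp]
        exact (Finset.mem_union.1 (h1 hp)).resolve_left hp1
      · rcases (h2 z hz p hp hzp).2 with h3 | h3
        · exact absurd h3.2 hp1
        · exact h3.1
  · rintro (⟨h1, h2⟩ | ⟨h1, h2⟩)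
    · exact ⟨h1.trans Finset.subset_union_left, fun x hx z hz hxz =>
        ⟨h2 x hx z hz hxz, Or.inl ⟨h1 hx, h1 hz⟩⟩⟩
    · exact ⟨h1.trans Finset.subset_union_right, fun x hx z hz hxz =>
        ⟨h2 x hx z hz hxz, Or.inr ⟨h1 hx, h1 hz⟩⟩⟩

theorem fe_glue {H : SimpleGraph α} {R : Type*} [CommRing R] {K₁ K₂ : Finset α} (x : R) :
    fe (glueG H K₁ K₂) (K₁ ∪ K₂) x = fe H K₁ x + fe H K₂ x - fe H (K₁ ∩ K₂) x := by
  have h1 : cl H K₁ ∩ cl H K₂ = cl H (K₁ ∩ K₂) := by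
    ext σ
    rw [Finset.mem_inter, mem_cl, mem_cl, mem_cl]
    constructor
    · rintro ⟨⟨a, b⟩, ⟨c, _⟩⟩; exact ⟨Finset.subset_inter a c, b⟩
    · rintro ⟨a, b⟩
      exact ⟨⟨a.trans Finset.inter_subset_left, b⟩, ⟨a.trans Finset.inter_subset_right, b⟩⟩
  have h2 := Finset.sum_union_inter (s₁ := cl H K₁) (s₂ := cl H K₂) (f := fun σ => x ^ σ.card)
  rw [fe, cl_glue, fe, fe, fe, ← h1]
  linear_combination h2

/-- the gluing hypotheses -/
structure GlueData (H : SimpleGraph α) (X₁ X₂ : Finset α) (c₁ c₂ : α) : Prop where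
  mem₁ : c₁ ∈ X₁
  mem₂ : c₂ ∈ X₂
  lk₁ : lk H X₁ c₁ = X₁.erase c₁ ∩ X₂.erase c₂
  lk₂ : lk H X₂ c₂ = X₁.erase c₁ ∩ X₂.erase c₂

theorem GlueData.symm {H : SimpleGraph α} {X₁ X₂ : Finset α} {c₁ c₂ : α}
    (h : GlueData H X₁ X₂ c₁ c₂) : GlueData H X₂ X₁ c₂ c₁ where
  mem₁ := h.mem₂
  mem₂ := h.mem₁
  lk₁ := by rw [h.lk₂, Finset.inter_comm]
  lk₂ := by rw [h.lk₁, Finset.inter_comm]

theorem glueG_comm {H : SimpleGraph α} {K₁ K₂ : Finset α} : glueG H K₁ K₂ = glueG H K₂ K₁ := by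
  ext p q
  rw [glueG_adj, glueG_adj]
  tauto

theorem GlueData.link {H : SimpleGraph α} {X₁ X₂ : Finset α} {c₁ c₂ u : α}
    (h : GlueData H X₁ X₂ c₁ c₂) (hu1 : u ∈ X₁.erase c₁) (hu2 : u ∈ X₂.erase c₂) :
    GlueData H (lk H X₁ u) (lk H X₂ u) c₁ c₂ ∧
    (lk H X₁ u).erase c₁ = lk H (X₁.erase c₁) u ∧ (lk H X₂ u).erase c₂ = lk H (X₂.erase c₂) u := by
  have hu : u ∈ X₁.erase c₁ ∩ X₂.erase c₂ := Finset.mem_inter.2 ⟨hu1, hu2⟩
  have a1 : H.Adj c₁ u := by
    rw [← h.lk₁] at hu; exact (mem_lk.1 hu).2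
  have a2 : H.Adj c₂ u := by
    rw [← h.lk₂] at hu; exact (mem_lk.1 hu).2
  have e1 : (lk H X₁ u).erase c₁ = lk H (X₁.erase c₁) u := by
    ext z; simp only [Finset.mem_erase, mem_lk]; tauto
  have e2 : (lk H X₂ u).erase c₂ = lk H (X₂.erase c₂) u := by
    ext z; simp only [Finset.mem_erase, mem_lk]; tauto
  refine ⟨⟨mem_lk.2 ⟨h.mem₁, a1.symm⟩, mem_lk.2 ⟨h.mem₂, a2.symm⟩, ?_, ?_⟩, e1, e2⟩
  · rw [e1, e2]
    ext z
    have hz : z ∈ lk H X₁ c₁ ↔ z ∈ X₁.erase c₁ ∩ X₂.erase c₂ := by rw [h.lk₁]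
    simp only [mem_lk, Finset.mem_inter] at hz ⊢
    tauto
  · rw [e1, e2]
    ext z
    have hz : z ∈ lk H X₂ c₂ ↔ z ∈ X₁.erase c₁ ∩ X₂.erase c₂ := by rw [h.lk₂]
    simp only [mem_lk, Finset.mem_inter] at hz ⊢
    tauto

theorem lk_glue_both {H : SimpleGraph α} {K₁ K₂ : Finset α} {u : α} (h1 : u ∈ K₁) (h2 : u ∈ K₂) :
    lk (glueG H K₁ K₂) (K₁ ∪ K₂) u = lk H K₁ u ∪ lk H K₂ u := by
  ext z
  simp only [mem_lk, Finset.mem_union, glueG_adj]
  tauto

theorem lk_glue_one {H : SimpleGraph α} {K₁ K₂ : Finset α} {u : α} (h1 : u ∈ K₁) (h2 : u ∉ K₂) :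
    lk (glueG H K₁ K₂) (K₁ ∪ K₂) u = lk H K₁ u := by
  ext z
  simp only [mem_lk, Finset.mem_union, glueG_adj]
  tauto

theorem GlueData.lk_one {H : SimpleGraph α} {X₁ X₂ : Finset α} {c₁ c₂ u : α}
    (h : GlueData H X₁ X₂ c₁ c₂) (hu1 : u ∈ X₁.erase c₁) (hu2 : u ∉ X₂.erase c₂) :
    lk H (X₁.erase c₁) u = lk H X₁ u := by
  ext z
  have hu : ¬ H.Adj c₁ u := by
    intro hadj
    have : u ∈ lk H X₁ c₁ := mem_lk.2 ⟨Finset.mem_of_mem_erase hu1, hadj⟩
    rw [h.lk₁] at this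
    exact hu2 (Finset.mem_inter.1 this).2
  simp only [mem_lk, Finset.mem_erase]
  constructor
  · rintro ⟨⟨_, h1⟩, h2⟩; exact ⟨h1, h2⟩
  · rintro ⟨h1, h2⟩
    exact ⟨⟨fun hz => hu (hz ▸ h2.symm), h1⟩, h2⟩

theorem glue_np (hDel : StmDel) {H : SimpleGraph α} {r : ℕ} {X₁ X₂ : Finset α} {c₁ c₂ : α}
    (h : GlueData H X₁ X₂ c₁ c₂) (h1 : NP H r X₁) (h2 : NP H r X₂) :
    NP (glueG H (X₁.erase c₁) (X₂.erase c₂)) r (X₁.erase c₁ ∪ X₂.erase c₂) := by
  induction r generalizing X₁ X₂ with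
  | zero =>
    have h0 : X₁ = ∅ := h1
    have := h.mem₁
    rw [h0] at this
    exact absurd this (Finset.notMem_empty _)
  | succ r ih =>
    rcases r with _ | r
    · have h1' : X₁.card = 2 ∧ ∀ x ∈ X₁, ∀ y ∈ X₁, ¬ H.Adj x y := h1
      have h2' : X₂.card = 2 ∧ ∀ x ∈ X₂, ∀ y ∈ X₂, ¬ H.Adj x y := h2
      have h0 : lk H X₁ c₁ = ∅ := h1.lk h.mem₁
      have hint : X₁.erase c₁ ∩ X₂.erase c₂ = ∅ := by rw [← h.lk₁]; exact h0
      refine ⟨?_, fun x hx z hz hxz => ?_⟩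
      · rw [Finset.card_union_of_disjoint (Finset.disjoint_iff_inter_eq_empty.2 hint),
          Finset.card_erase_of_mem h.mem₁, Finset.card_erase_of_mem h.mem₂, h1'.1, h2'.1]
      · rcases hxz.2 with h3 | h3
        · exact h1'.2 x (Finset.mem_of_mem_erase h3.1) z (Finset.mem_of_mem_erase h3.2) hxz.1
        · exact h2'.2 x (Finset.mem_of_mem_erase h3.1) z (Finset.mem_of_mem_erase h3.2) hxz.1
    · have hs1 := hDel α inferInstance H r X₁ c₁ h1 h.mem₁
      have hs2 := hDel α inferInstance H r X₂ c₂ h2 h.mem₂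
      obtain ⟨o, ho⟩ := (h1.lk h.mem₁).nonempty
      rw [h.lk₁, Finset.mem_inter] at ho
      refine ⟨⟨o, Finset.mem_union_left _ ho.1⟩, fun A hA hne hneq => ?_, fun u hu => ?_⟩
      · by_contra hcon
        have k1 : ∀ z ∈ A, z ∈ X₁.erase c₁ → X₁.erase c₁ ⊆ A := by
          intro z hz hz1
          by_contra hn
          obtain ⟨a, ha, b, hb, hbn, hab⟩ := hs1 (A ∩ X₁.erase c₁) Finset.inter_subset_right
            ⟨z, Finset.mem_inter.2 ⟨hz, hz1⟩⟩ (fun hEq => hn (fun q hq => by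
              rw [← hEq] at hq
              exact (Finset.mem_inter.1 hq).1))
          rw [Finset.mem_inter] at ha hbn
          exact hcon ⟨a, ha.1, b, Finset.mem_union_left _ hb, fun h => hbn ⟨h, hb⟩,
            hab, Or.inl ⟨ha.2, hb⟩⟩
        have k2 : ∀ z ∈ A, z ∈ X₂.erase c₂ → X₂.erase c₂ ⊆ A := by
          intro z hz hz1
          by_contra hn
          obtain ⟨a, ha, b, hb, hbn, hab⟩ := hs2 (A ∩ X₂.erase c₂) Finset.inter_subset_right
            ⟨z, Finset.mem_inter.2 ⟨hz, hz1⟩⟩ (fun hEq => hn (fun q hq => by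
              rw [← hEq] at hq
              exact (Finset.mem_inter.1 hq).1))
          rw [Finset.mem_inter] at ha hbn
          exact hcon ⟨a, ha.1, b, Finset.mem_union_right _ hb, fun h => hbn ⟨h, hb⟩,
            hab, Or.inr ⟨ha.2, hb⟩⟩
        obtain ⟨z, hz⟩ := hne
        have hoA : o ∈ A := by
          rcases Finset.mem_union.1 (hA hz) with h3 | h3
          · exact k1 z hz h3 ho.1
          · exact k2 z hz h3 ho.2
        exact hneq (Finset.Subset.antisymm hA (Finset.union_subset (k1 o hoA ho.1)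
          (k2 o hoA ho.2)))
      · by_cases hu1 : u ∈ X₁.erase c₁
        · by_cases hu2 : u ∈ X₂.erase c₂
          · obtain ⟨hg, e1, e2⟩ := h.link hu1 hu2
            have := ih hg (h1.lk (Finset.mem_of_mem_erase hu1))
              (h2.lk (Finset.mem_of_mem_erase hu2))
            rw [e1, e2] at this
            rw [lk_glue_both hu1 hu2]
            refine NP_congr (fun x hx z hz => ?_) this
            simp only [glueG_adj, Finset.mem_union, mem_lk] at hx hz ⊢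
            tauto
          · rw [lk_glue_one hu1 hu2, h.lk_one hu1 hu2]
            refine NP_congr (fun x hx z hz => ?_) (h1.lk (Finset.mem_of_mem_erase hu1))
            rw [← h.lk_one hu1 hu2, mem_lk] at hx hz
            rw [glueG_adj]
            tauto
        · have hu2 : u ∈ X₂.erase c₂ := (Finset.mem_union.1 hu).resolve_left hu1
          rw [glueG_comm, Finset.union_comm, lk_glue_one hu2 hu1, h.symm.lk_one hu2 hu1]
          refine NP_congr (fun x hx z hz => ?_) (h2.lk (Finset.mem_of_mem_erase hu2))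
          rw [← h.symm.lk_one hu2 hu1, mem_lk] at hx hz
          rw [glueG_adj]
          tauto

theorem fe_glue_data {H : SimpleGraph α} {R : Type*} [CommRing R] {X₁ X₂ : Finset α} {c₁ c₂ : α}
    (h : GlueData H X₁ X₂ c₁ c₂) (x : R) :
    fe (glueG H (X₁.erase c₁) (X₂.erase c₂)) (X₁.erase c₁ ∪ X₂.erase c₂) x =
      fe H X₁ x + fe H X₂ x - (1 + 2 * x) * fe H (lk H X₁ c₁) x := by
  have h1 := fe_erase (H := H) h.mem₁ x
  have h2 := fe_erase (H := H) h.mem₂ x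
  have h3 : lk H X₂ c₂ = lk H X₁ c₁ := by rw [h.lk₁, h.lk₂]
  rw [h3] at h2
  rw [fe_glue, ← h.lk₁]
  linear_combination -h1 - h2

theorem FP_glue {H : SimpleGraph α} {X₁ X₂ : Finset α} {c₁ c₂ : α}
    (h : GlueData H X₁ X₂ c₁ c₂) :
    FP (glueG H (X₁.erase c₁) (X₂.erase c₂)) (X₁.erase c₁ ∪ X₂.erase c₂) =
      FP H X₁ + FP H X₂ - y * FP H (lk H X₁ c₁) := by
  rw [y]
  exact fe_glue_data h X

theorem glue_eul {H : SimpleGraph α} {r : ℕ} {X₁ X₂ : Finset α} {c₁ c₂ : α}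
    (h : GlueData H X₁ X₂ c₁ c₂) (h1 : NP H r X₁) (h2 : NP H r X₂) (e1 : Eul H r X₁)
    (e2 : Eul H r X₂) :
    Eul (glueG H (X₁.erase c₁) (X₂.erase c₂)) r (X₁.erase c₁ ∪ X₂.erase c₂) := by
  induction r generalizing X₁ X₂ with
  | zero =>
    have h0 : X₁ = ∅ := h1
    have := h.mem₁
    rw [h0] at this
    exact absurd this (Finset.notMem_empty _)
  | succ r ih =>
    have hpar : ∀ n : ℕ, (-1 : ℤ) ^ (n + 1 + 1) = (-1) ^ n := fun n => by
      rw [pow_succ, pow_succ]; ring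
    rw [eul_rec]
    refine ⟨?_, fun u hu => ?_⟩
    · rw [fe_glue_data h, (eul_rec.1 e1).1, (eul_rec.1 e2).1,
        (eul_rec.1 (e1.lk_succ h.mem₁)).1, pow_succ]
      ring
    · by_cases hu1 : u ∈ X₁.erase c₁
      · by_cases hu2 : u ∈ X₂.erase c₂
        · obtain ⟨hg, q1, q2⟩ := h.link hu1 hu2
          have := ih hg (h1.lk (Finset.mem_of_mem_erase hu1))
            (h2.lk (Finset.mem_of_mem_erase hu2)) (e1.lk_succ (Finset.mem_of_mem_erase hu1))
            (e2.lk_succ (Finset.mem_of_mem_erase hu2))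
          rw [q1, q2] at this
          rw [lk_glue_both hu1 hu2]
          refine (Eul_congr (fun x hx z hz => ?_) this).of_parity (hpar r).symm
          simp only [glueG_adj, Finset.mem_union, mem_lk] at hx hz ⊢
          tauto
        · rw [lk_glue_one hu1 hu2, h.lk_one hu1 hu2]
          refine Eul_congr (fun x hx z hz => ?_) (e1.lk (Finset.mem_of_mem_erase hu1))
          rw [← h.lk_one hu1 hu2, mem_lk] at hx hz
          rw [glueG_adj]
          tauto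
      · have hu2 : u ∈ X₂.erase c₂ := (Finset.mem_union.1 hu).resolve_left hu1
        rw [glueG_comm, Finset.union_comm, lk_glue_one hu2 hu1, h.symm.lk_one hu2 hu1]
        refine Eul_congr (fun x hx z hz => ?_) (e2.lk (Finset.mem_of_mem_erase hu2))
        rw [← h.symm.lk_one hu2 hu1, mem_lk] at hx hz
        rw [glueG_adj]
        tauto

end Pool.Agent.W497.FS
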