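import Pool.Agent.H79.LX.W497_FS_Fact

set_option autoImplicit false
set_option linter.unusedVariables false

/-! # Charney-Davis for complexes with nice vertices -/

namespace Pool.Agent.W497.FS

variable {α : Type} [DecidableEq α] {H : SimpleGraph α}

/-- every link of an even face, of rank at least `2`, has a vertex `v` such that every face with four
vertices contains `v` or a neighbour of `v` -/
def Nice (H : SimpleGraph α) (d : ℕ) (W : Finset α) : Prop :=
  ∀ κ ∈ cl H W, Even κ.card → κ.card < d → ∃ v ∈ lkF H W κ,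
    ∀ G ∈ cl H (lkF H W κ), G.card = 4 → ∃ g ∈ G, g = v ∨ H.Adj v g

theorem Nice.lkF {d : ℕ} {W κ : Finset α} (h : Nice H (d + 2) W) (hκ : κ ∈ cl H W)
    (hc : κ.card = 2) : Nice H d (lkF H W κ) := by
  intro σ hσ he hd
  obtain ⟨v, hv, h2⟩ := h (κ ∪ σ) (union_mem_cl hκ hσ) (by
    rw [Finset.card_union_of_disjoint (disjoint_of_mem_cl_lkF hσ), hc]
    exact even_two.add he) (by
    rw [Finset.card_union_of_disjoint (disjoint_of_mem_cl_lkF hσ), hc]
    omega)
  rw [← lkF_lkF] at hv h2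
  exact ⟨v, hv, h2⟩

theorem cd_nice : ∀ (n : ℕ) {W : Finset α}, Eul H (2 * n) W → (∀ κ ∈ cl H W, κ.card ≤ 2 * n) →
    Nice H (2 * n) W → 0 ≤ (-1) ^ n * lam H W := by
  intro n
  induction n with
  | zero =>
    intro W hE hc hW
    have hW0 : W = ∅ := by
      apply Finset.eq_empty_of_forall_notMem
      intro x hx
      have := hc _ (singleton_mem_cl hx)
      rw [Finset.card_singleton] at this
      omega
    rw [hW0, lam_empty]; norm_num
  | succ n ih =>
    intro W hE hc hW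
    obtain ⟨v, hv, h4⟩ := hW ∅ empty_mem_cl (by simp) (by simp)
    rw [lkF_empty'] at hv h4
    have hm : ∀ κ ∈ cl H (nn H W v), κ.card ≤ 3 := by
      intro κ hκ
      by_contra hlt
      obtain ⟨τ, hτ, hτc⟩ := Finset.exists_subset_card_eq (n := 4) (s := κ) (by omega)
      have hτ' := cl_of_subset hκ hτ
      obtain ⟨g, hg, hgv⟩ := h4 τ (cl_mono nn_subset hτ') hτc
      have := mem_nn.1 ((mem_cl.1 hτ').1 hg)
      rcases hgv with h | h
      · exact this.2.1 h
      · exact this.2.2 h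
    rw [lam_vertex_small hE hv hm]
    have e1 : (-1 : ℚ) ^ (n + 1) * (-1 / 4 * ∑ κ ∈ (cl H (nn H W v)).filter
        (fun κ => κ.card = 2), lam H (lkF H W κ)) =
        1 / 4 * ∑ κ ∈ (cl H (nn H W v)).filter (fun κ => κ.card = 2),
          (-1) ^ n * lam H (lkF H W κ) := by
      rw [← Finset.mul_sum, pow_succ]; ring
    rw [e1]
    refine mul_nonneg (by norm_num) (Finset.sum_nonneg (fun κ hκ => ?_))
    obtain ⟨hκ1, hκ2⟩ := Finset.mem_filter.1 hκ
    have hκW := cl_mono nn_subset hκ1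
    refine ih ?_ ?_ ?_
    · exact (hE.lkF hκW).of_parity (by
        rw [hκ2, show 2 * (n + 1) + 2 = 2 * n + 2 * 2 by ring, pow_add]
        norm_num)
    · intro σ hσ
      have h5 := hc _ (union_mem_cl hκW hσ)
      rw [Finset.card_union_of_disjoint (disjoint_of_mem_cl_lkF hσ), hκ2] at h5
      omega
    · exact Nice.lkF (by rwa [show 2 * (n + 1) = 2 * n + 2 by ring] at hW) hκW hκ2

variable {k : Type} [Field k] {n : ℕ} {S : Finset (Finset (Fin n))}

/-- Charney-Davis for spheres with nice vertices -/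
theorem cd_four {m : ℕ} (h : IsFlagSphere k (2 * m) S)
    (hN : ∀ F ∈ S, Even F.card → F.card < 2 * m → ∃ v, v ∉ F ∧ insert v F ∈ S ∧
      ∀ G ∈ S, G.card = 4 → Disjoint G F → G ∪ F ∈ S → ∃ g ∈ G, ({v, g} : Finset (Fin n)) ∈ S) :
    0 ≤ (-1) ^ m * FS.omega S := by
  rw [h.omega_eq]
  refine cd_nice m h.eul (fun κ hκ => h.np.card_le hκ) ?_
  intro κ hκ he hc
  have hκS : κ ∈ S := by rwa [h.cl_eq] at hκ
  obtain ⟨v, hvκ, hvS, h4⟩ := hN κ hκS he hc
  have hsub : ∀ {A B : Finset (Fin n)}, B ∈ S → A ⊆ B → A ∈ S := fun {A B} hB hAB => by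
    rw [← h.cl_eq] at hB ⊢
    exact cl_of_subset hB hAB
  have hv : v ∈ lkF (skel S) (vert S) κ := by
    rw [mem_lkF]
    refine ⟨mem_vert.2 (hsub hvS (Finset.singleton_subset_iff.2 (Finset.mem_insert_self _ _))),
      fun y hy => ⟨fun h => hvκ (h ▸ hy), hsub hvS ?_⟩⟩
    intro z hz
    rcases Finset.mem_insert.1 hz with h | h
    · rw [h]; exact Finset.mem_insert_of_mem hy
    · rw [Finset.mem_singleton.1 h]; exact Finset.mem_insert_self _ _
  refine ⟨v, hv, fun G hG hGc => ?_⟩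
  have hU := union_mem_cl hκ hG
  rw [h.cl_eq] at hU
  obtain ⟨g, hg, hgv⟩ := h4 G (hsub hU Finset.subset_union_right) hGc
    (disjoint_of_mem_cl_lkF hG).symm (by rwa [Finset.union_comm])
  refine ⟨g, hg, ?_⟩
  by_cases hgv' : g = v
  · exact Or.inl hgv'
  · exact Or.inr ⟨fun h => hgv' h.symm, hgv⟩

end Pool.Agent.W497.FS
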