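import Pool.Agent.H79.LX.W497_FS_Top
import Pool.Agent.H79.LX.W497_FS_Stms2

set_option autoImplicit false
set_option linter.unusedSectionVars false
set_option linter.unusedVariables false

/-! # Few vertices: `γ₁ ≤ 6` -/

namespace Pool.Agent.W497.FS

open Polynomial

variable {α : Type} {H : SimpleGraph α} [DecidableEq α]

/-- the excess of the link of an edge -/
noncomputable def ex (H : SimpleGraph α) (W κ : Finset α) : ℕ := (lkF H W κ).card - 4

theorem lkF_card_ge {W κ : Finset α} (h : NP H 4 W) (hκ : κ ∈ cl H W) (hc : κ.card = 2) :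
    4 ≤ (lkF H W κ).card := by
  obtain ⟨e, he, hNP, -, -⟩ := h.lkF hκ
  obtain rfl : e = 2 := by omega
  have := hNP.two_mul_le
  omega

/-- the rank-4 bracket -/
theorem Bk_four {W : Finset α} (h : NP H 4 W) (hE : Eul H 4 W) {v : α} (hv : v ∈ W) :
    Bk H W v = C (((nn H W v).card : ℤ) - 1) * y ^ 2 +
      w * C (∑ κ ∈ (cl H (nn H W v)).filter (fun κ => κ.card = 2), (ex H W κ : ℤ) -
        ((cl H (nn H W v)).filter (fun κ => κ.card = 4)).card) := by
  have hterm : ∀ κ ∈ cl H (nn H W v), (-1) ^ κ.card * sj (X : ℤ[X]) (κ.card - 1) *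
      FP H (lkF H W κ) = C ((-1 : ℤ) ^ κ.card - (if κ.card = 0 then 1 else 0)
        + (if κ.card = 1 then 1 else 0)) * y ^ 2 + w * (C (if κ.card = 2 then (ex H W κ : ℤ) else 0)
        - C (if κ.card = 4 then 1 else 0)) := by
    intro κ hκ
    have hκW := cl_mono nn_subset hκ
    have h4 := cl_nn_card_le h hκ
    obtain ⟨e, he, hNP, -, -⟩ := h.lkF hκW
    have hEκ := hE.lkF_rank hκW he
    have hcases : κ.card = 0 ∨ κ.card = 1 ∨ κ.card = 2 ∨ κ.card = 3 ∨ κ.card = 4 := by omega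
    rcases hcases with hc | hc | hc | hc | hc
    · rw [hc]; simp [sj_zero]
    · rw [hc]; simp [sj_zero]
    · obtain rfl : e = 2 := by omega
      have h5 := lkF_card_ge h hκW hc
      have h6 : (ex H W κ : ℤ) = ((lkF H W κ).card : ℤ) - 4 := by
        rw [ex]; push_cast [Nat.cast_sub h5]; ring
      rw [FP_rank_two hNP hEκ, hc, h6]
      simp [sj_one]
      ring
    · obtain rfl : e = 1 := by omega
      rw [FP_rank_one hNP hEκ, hc]
      simp only [show 3 - 1 = 2 from rfl, sj_two]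
      simp [y]
      ring
    · obtain rfl : e = 0 := by omega
      have h0 : lkF H W κ = ∅ := hNP
      rw [h0, FP_empty, hc]
      simp only [show 4 - 1 = 3 from rfl, sj_three]
      simp [y, w]
      ring
  have hev : ∑ κ ∈ cl H (nn H W v), ((-1 : ℤ) ^ κ.card - (if κ.card = 0 then 1 else 0)
        + (if κ.card = 1 then 1 else 0)) = (nn H W v).card - 1 := by
    have h1 := Bk_eval_zero hE hv
    rw [Bk, Finset.sum_congr rfl hterm, eval_finsetSum] at h1
    rw [← h1]
    refine Finset.sum_congr rfl (fun κ _ => ?_)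
    rw [eval_add, eval_mul, eval_C, eval_mul, eval_pow, w_eval_zero, y_eval_zero, one_pow,
      mul_one, zero_mul, add_zero]
  rw [Bk, Finset.sum_congr rfl hterm, Finset.sum_add_distrib, ← Finset.sum_mul, ← Finset.mul_sum,
    ← map_sum, hev, Finset.sum_sub_distrib, ← map_sum, ← map_sum, ← map_sub]
  congr 3
  rw [Finset.sum_filter, Finset.card_filter]
  push_cast
  rfl

theorem gal_four_of {W : Finset α} (h : NP H 4 W) (hE : Eul H 4 W) {v : α} (hv : v ∈ W)
    (hq : ((cl H (nn H W v)).filter (fun κ => κ.card = 4)).card ≤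
      ∑ κ ∈ (cl H (nn H W v)).filter (fun κ => κ.card = 2), ex H W κ) : FP H W ∈ GT ⊤ 4 := by
  rw [FP_vertex hE hv, Bk_four h hE hv]
  have hL : FP H (lk H W v) ∈ GT ⊤ 3 :=
    GT_of_lt (t := 2) (by norm_num) ⊤ (FP_mem_two (h.lk hv) (hE.lk_succ hv))
  refine add_mem (GT_y hL) ?_
  have hm := Finset.card_pos.2 (h.nn_nonempty hv)
  obtain ⟨m, hm'⟩ : ∃ m : ℕ, (nn H W v).card = m + 1 := ⟨(nn H W v).card - 1, by omega⟩
  obtain ⟨q, hq'⟩ := Nat.exists_eq_add_of_le hq
  have e1 : w * (C (((nn H W v).card : ℤ) - 1) * y ^ 2 +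
      w * C (∑ κ ∈ (cl H (nn H W v)).filter (fun κ => κ.card = 2), (ex H W κ : ℤ) -
        ((cl H (nn H W v)).filter (fun κ => κ.card = 4)).card)) =
      m • (w ^ 1 * y ^ 2) + q • (w ^ 2 * y ^ 0) := by
    have e2 : (∑ κ ∈ (cl H (nn H W v)).filter (fun κ => κ.card = 2), (ex H W κ : ℤ)) =
        (((cl H (nn H W v)).filter (fun κ => κ.card = 4)).card : ℤ) + q := by
      exact_mod_cast hq'
    rw [e2, hm', nsmul_eq_mul, nsmul_eq_mul]
    push_cast
    simp only [map_add, map_sub, map_natCast, map_one]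
    ring
  rw [e1]
  exact add_mem (AddSubmonoid.nsmul_mem _ (gen_mem _ (by norm_num)) m)
    (AddSubmonoid.nsmul_mem _ (gen_mem _ (by norm_num)) q)

theorem lkF_pair {W : Finset α} {a b : α} : lkF H W {a, b} = lk H (lk H W a) b := by
  have : ({a, b} : Finset α) = insert b {a} := Finset.pair_comm a b
  rw [this, lkF_insert, lkF_singleton]

/-- rank four, at most fourteen vertices -/
theorem gal_four (hF : StmF) (hF2 : StmF2) {W : Finset α} (h : NP H 4 W) (hE : Eul H 4 W)
    (hN : W.card ≤ 14) (hp : Prm H W) : FP H W ∈ GT ⊤ 4 := by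
  have hge := Prm.three_mul_le h hp
  by_contra hcon
  -- every vertex fails the criterion
  have hfail : ∀ v ∈ W, ∑ κ ∈ (cl H (nn H W v)).filter (fun κ => κ.card = 2), ex H W κ <
      ((cl H (nn H W v)).filter (fun κ => κ.card = 4)).card := by
    intro v hv
    by_contra hle
    push Not at hle
    exact hcon (gal_four_of h hE hv hle)
  -- a face with four vertices has an edge of positive excess
  have hface : ∀ κ ∈ cl H W, κ.card = 4 → ∃ e ∈ cl H W, e ⊆ κ ∧ e.card = 2 ∧ 0 < ex H W e := by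
    intro κ hκ h4
    by_contra hno
    push Not at hno
    have : W.card = 8 := by
      refine hF α H W κ h hκ h4 (fun a ha b hb hab => ?_)
      have hsub : ({a, b} : Finset α) ⊆ κ := by
        intro z hz
        rcases Finset.mem_insert.1 hz with h | h
        · rwa [h]
        · rwa [Finset.mem_singleton.1 h]
      have hcl := cl_of_subset hκ hsub
      have h1 := hno _ hcl hsub (Finset.card_pair hab)
      have h2 := lkF_card_ge h hcl (Finset.card_pair hab)
      rw [ex] at h1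
      rw [← lkF_pair]
      omega
    omega
  obtain ⟨v, hv, hpv⟩ := exists_prime_link h hp
  have h8 := Prm.three_mul_le (h.lk hv) hpv
  have hsum := card_eq_lk_nn (H := H) hv
  have hm5 : (nn H W v).card ≤ 5 := by omega
  have hf := hfail v hv
  set M := nn H W v with hMdef
  have hMW : M ⊆ W := nn_subset
  -- M itself is not a face of size five
  have hM5 : M.card = 5 → M ∉ cl H W := by
    intro h5 hM
    have := h.card_le hM
    omega
  have hpos : 0 < ((cl H M).filter (fun κ => κ.card = 4)).card := by omega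
  obtain ⟨κ, hκ⟩ := Finset.card_pos.1 hpos
  obtain ⟨hκM, hκ4⟩ := Finset.mem_filter.1 hκ
  have hκW : κ ∈ cl H W := cl_mono hMW hκM
  obtain ⟨e, heW, heκ, he2, hex⟩ := hface κ hκW hκ4
  have heM : e ∈ (cl H M).filter (fun κ => κ.card = 2) :=
    Finset.mem_filter.2 ⟨cl_of_subset hκM heκ, he2⟩
  have hS1 : 1 ≤ ∑ κ ∈ (cl H M).filter (fun κ => κ.card = 2), ex H W κ :=
    le_trans hex (Finset.single_le_sum (f := fun κ => ex H W κ) (fun _ _ => Nat.zero_le _) heM)
  have hq2 : 2 ≤ ((cl H M).filter (fun κ => κ.card = 4)).card := by omega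
  obtain ⟨κ₁, hκ₁, κ₂, hκ₂, hne⟩ := Finset.one_lt_card.1 (show 1 < _ from hq2)
  obtain ⟨hκ₁M, hκ₁4⟩ := Finset.mem_filter.1 hκ₁
  obtain ⟨hκ₂M, hκ₂4⟩ := Finset.mem_filter.1 hκ₂
  have hsub1 := (mem_cl.1 hκ₁M).1
  have hsub2 := (mem_cl.1 hκ₂M).1
  have hM5' : M.card = 5 := by
    have h1 := Finset.card_le_card hsub1
    have h2 : M.card ≠ 4 := by
      intro h4
      apply hne
      rw [Finset.eq_of_subset_of_card_le hsub1 (by omega),
        Finset.eq_of_subset_of_card_le hsub2 (by omega)]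
    omega
  -- the missing vertices s, t
  have hmiss : ∀ κ ⊆ M, κ.card = 4 → ∃ s ∈ M, κ = M.erase s := by
    intro κ hκ h4
    have h1 : (M \ κ).card = 1 := by
      rw [Finset.card_sdiff_of_subset hκ]; omega
    obtain ⟨s, hs⟩ := Finset.card_eq_one.1 h1
    have hsM : s ∈ M \ κ := by rw [hs]; exact Finset.mem_singleton_self s
    refine ⟨s, (Finset.mem_sdiff.1 hsM).1, ?_⟩
    apply Finset.eq_of_subset_of_card_le
    · intro z hz
      exact Finset.mem_erase.2 ⟨fun h => (Finset.mem_sdiff.1 hsM).2 (h ▸ hz), hκ hz⟩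
    · rw [Finset.card_erase_of_mem (Finset.mem_sdiff.1 hsM).1]; omega
  obtain ⟨s, hsM, rfl⟩ := hmiss κ₁ hsub1 hκ₁4
  obtain ⟨t, htM, rfl⟩ := hmiss κ₂ hsub2 hκ₂4
  have hst : s ≠ t := fun h => hne (by rw [h])
  -- adjacency inside M except possibly s,t
  have hadj1 : ∀ a ∈ M, ∀ b ∈ M, a ≠ b → a ≠ s → b ≠ s → H.Adj a b := fun a ha b hb hab h1 h2 =>
    (mem_cl.1 hκ₁M).2 a (Finset.mem_erase.2 ⟨h1, ha⟩) b (Finset.mem_erase.2 ⟨h2, hb⟩) hab
  have hadj2 : ∀ a ∈ M, ∀ b ∈ M, a ≠ b → a ≠ t → b ≠ t → H.Adj a b := fun a ha b hb hab h1 h2 =>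
    (mem_cl.1 hκ₂M).2 a (Finset.mem_erase.2 ⟨h1, ha⟩) b (Finset.mem_erase.2 ⟨h2, hb⟩) hab
  have hnst : ¬ H.Adj s t := by
    intro hadj
    apply hM5 hM5'
    rw [mem_cl]
    refine ⟨hMW, fun a ha b hb hab => ?_⟩
    by_cases h1 : a = s ∨ b = s
    · by_cases h2 : a = t ∨ b = t
      · rcases h1 with rfl | rfl
        · rcases h2 with h2 | rfl
          · exact absurd h2 hst
          · exact hadj
        · rcases h2 with rfl | h2
          · exact hadj.symm
          · exact absurd h2 hst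
      · push Not at h2
        exact hadj2 a ha b hb hab h2.1 h2.2
    · push Not at h1
      exact hadj1 a ha b hb hab h1.1 h1.2
  -- at most two 4-faces
  have hq2' : ((cl H M).filter (fun κ => κ.card = 4)) ⊆ {M.erase s, M.erase t} := by
    intro κ hκ
    obtain ⟨hκM, hκ4⟩ := Finset.mem_filter.1 hκ
    obtain ⟨z, hz, rfl⟩ := hmiss κ (mem_cl.1 hκM).1 hκ4
    rw [Finset.mem_insert, Finset.mem_singleton]
    by_contra hno
    push Not at hno
    have hzs : z ≠ s := fun h => hno.1 (by rw [h])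
    have hzt : z ≠ t := fun h => hno.2 (by rw [h])
    exact hnst ((mem_cl.1 hκM).2 s (Finset.mem_erase.2 ⟨hzs.symm, hsM⟩) t
      (Finset.mem_erase.2 ⟨hzt.symm, htM⟩) hst)
  have hq3 : ((cl H M).filter (fun κ => κ.card = 4)).card ≤ 2 :=
    (Finset.card_le_card hq2').trans Finset.card_le_two
  have hS : ∑ κ ∈ (cl H M).filter (fun κ => κ.card = 2), ex H W κ = 1 := by omega
  -- the exceptional edge e; all others have excess zero
  have hexe : ex H W e = 1 := by
    have := Finset.single_le_sum (f := fun κ => ex H W κ) (fun _ _ => Nat.zero_le _) heM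
    omega
  have huniq : ∀ e' ∈ (cl H M).filter (fun κ => κ.card = 2), e' ≠ e → ex H W e' = 0 := by
    intro e' he' hne'
    have h1 := Finset.add_sum_erase _ (fun κ => ex H W κ) heM
    have h2 : ex H W e' ≤ ∑ κ ∈ ((cl H M).filter (fun κ => κ.card = 2)).erase e, ex H W κ :=
      Finset.single_le_sum (f := fun κ => ex H W κ) (fun _ _ => Nat.zero_le _)
        (Finset.mem_erase.2 ⟨hne', he'⟩)
    omega
  -- e lies in both 4-faces
  have hboth : ∀ κ ∈ cl H M, κ.card = 4 → e ⊆ κ := by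
    intro κ hκ h4
    obtain ⟨e', he'W, he'κ, he'2, hex'⟩ := hface κ (cl_mono hMW hκ) h4
    by_contra hno
    have : ex H W e' = 0 := huniq e' (Finset.mem_filter.2 ⟨cl_of_subset hκ he'κ, he'2⟩)
      (fun h => hno (h ▸ he'κ))
    omega
  have hes : s ∉ e := fun h => (Finset.mem_erase.1 (hboth _ hκ₁M hκ₁4 h)).1 rfl
  have het : t ∉ e := fun h => (Finset.mem_erase.1 (hboth _ hκ₂M hκ₂4 h)).1 rfl
  obtain ⟨p, q, hpq, rfl⟩ := Finset.card_eq_two.1 he2
  have heMsub := (mem_cl.1 (Finset.mem_filter.1 heM).1).1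
  have hpM : p ∈ M := heMsub (by simp)
  have hqM : q ∈ M := heMsub (by simp)
  have hps : p ≠ s := fun h => hes (by rw [← h]; simp)
  have hqs : q ≠ s := fun h => hes (by rw [← h]; simp)
  have hpt : p ≠ t := fun h => het (by rw [← h]; simp)
  have hqt : q ≠ t := fun h => het (by rw [← h]; simp)
  -- the fifth vertex
  have hr : ∃ r ∈ M, r ≠ p ∧ r ≠ q ∧ r ≠ s ∧ r ≠ t := by
    have hc : (({p, q, s, t} : Finset α)).card ≤ 4 := Finset.card_le_four
    have : ¬ M ⊆ {p, q, s, t} := fun h => by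
      have := Finset.card_le_card h
      omega
    obtain ⟨r, hr, hr'⟩ := Finset.not_subset.1 this
    refine ⟨r, hr, ?_⟩
    simp only [Finset.mem_insert, Finset.mem_singleton, not_or] at hr'
    exact hr'
  obtain ⟨r, hrM, hrp, hrq, hrs, hrt⟩ := hr
  have hfour : ∀ a b : α, a ∈ M → b ∈ M → H.Adj a b → ({a, b} : Finset α) ≠ {p, q} →
      (lk H (lk H W a) b).card = 4 := by
    intro a b ha hb hab hne'
    have hcl : ({a, b} : Finset α) ∈ cl H M := by
      rw [mem_cl]
      refine ⟨fun z hz => ?_, fun x hx z hz hxz => ?_⟩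
      · rcases Finset.mem_insert.1 hz with h | h
        · rwa [h]
        · rwa [Finset.mem_singleton.1 h]
      · rw [Finset.mem_insert, Finset.mem_singleton] at hx hz
        rcases hx with rfl | rfl <;> rcases hz with rfl | rfl
        · exact absurd rfl hxz
        · exact hab
        · exact hab.symm
        · exact absurd rfl hxz
    have hc := Finset.card_pair hab.ne
    have h1 := huniq _ (Finset.mem_filter.2 ⟨hcl, hc⟩) hne'
    have h2 := lkF_card_ge h (cl_mono hMW hcl) hc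
    rw [ex] at h1
    rw [← lkF_pair]
    omega
  have hfive : (lk H (lk H W p) q).card = 5 := by
    have h2 := lkF_card_ge h heW he2
    rw [ex] at hexe
    rw [← lkF_pair]
    omega
  have hnepq : ∀ a b : α, (a ≠ p ∧ a ≠ q) ∨ (b ≠ p ∧ b ≠ q) → ({a, b} : Finset α) ≠ {p, q} := by
    intro a b hor hEq
    rcases hor with ⟨h1, h2⟩ | ⟨h1, h2⟩
    · have : a ∈ ({p, q} : Finset α) := by rw [← hEq]; simp
      rw [Finset.mem_insert, Finset.mem_singleton] at this
      tauto
    · have : b ∈ ({p, q} : Finset α) := by rw [← hEq]; simp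
      rw [Finset.mem_insert, Finset.mem_singleton] at this
      tauto
  have apq := hadj1 p hpM q hqM hpq hps hqs
  have apr := hadj1 p hpM r hrM hrp.symm hps hrs
  have aqr := hadj1 q hqM r hrM hrq.symm hqs hrs
  have aps := hadj2 p hpM s hsM hps hpt hst
  have aqs := hadj2 q hqM s hsM hqs hqt hst
  have ars := hadj2 r hrM s hsM hrs hrt hst
  have apt := hadj1 p hpM t htM hpt hps hst.symm
  have aqt := hadj1 q hqM t htM hqt hqs hst.symm
  have art := hadj1 r hrM t htM hrt hrs hst.symm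
  have h9 : W.card = 9 := hF2 α H W p q r s t h (hMW hpM) (hMW hqM) (hMW hrM) (hMW hsM) (hMW htM)
    apq apr aqr aps aqs ars apt aqt art hst hnst hfive
    (hfour p r hpM hrM apr (hnepq p r (Or.inr ⟨hrp, hrq⟩)))
    (hfour q r hqM hrM aqr (hnepq q r (Or.inr ⟨hrp, hrq⟩)))
    (hfour p s hpM hsM aps (hnepq p s (Or.inr ⟨hps.symm, hqs.symm⟩)))
    (hfour q s hqM hsM aqs (hnepq q s (Or.inr ⟨hps.symm, hqs.symm⟩)))
    (hfour r s hrM hsM ars (hnepq r s (Or.inr ⟨hps.symm, hqs.symm⟩)))
    (hfour p t hpM htM apt (hnepq p t (Or.inr ⟨hpt.symm, hqt.symm⟩)))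
    (hfour q t hqM htM aqt (hnepq q t (Or.inr ⟨hpt.symm, hqt.symm⟩)))
    (hfour r t hrM htM art (hnepq r t (Or.inr ⟨hpt.symm, hqt.symm⟩)))
  omega

end Pool.Agent.W497.FS
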