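import Pool.Agent.H79.LX.W497_FS_Basic

set_option autoImplicit false
set_option linter.unusedSectionVars false

/-! # Join factors and toughness of the complement graph -/

namespace Pool.Agent.W497.FS

variable {α : Type*} {H : SimpleGraph α} [DecidableEq α]

open scoped Classical in
/-- the join factors of the complex on `W` (the components of the complement graph) -/
noncomputable def comps (H : SimpleGraph α) (W : Finset α) : Finset (Finset α) :=
  W.powerset.filter (fun C => Prm H C ∧ ∀ c ∈ C, ∀ x ∈ W, x ∉ C → H.Adj c x)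

theorem mem_comps {W C : Finset α} :
    C ∈ comps H W ↔ C ⊆ W ∧ Prm H C ∧ ∀ c ∈ C, ∀ x ∈ W, x ∉ C → H.Adj c x := by
  classical
  simp [comps]

theorem comps_subset_of_inter {W C D : Finset α} (hC : C ∈ comps H W) (hD : D ∈ comps H W)
    {x : α} (hxC : x ∈ C) (hxD : x ∈ D) : C ⊆ D := by
  by_contra hcon
  obtain ⟨h1, h2, h3⟩ := mem_comps.1 hC
  obtain ⟨k1, k2, k3⟩ := mem_comps.1 hD
  obtain ⟨a, ha, b, hb, hbn, hab⟩ := h2.2 (C ∩ D) Finset.inter_subset_left
    ⟨x, Finset.mem_inter.2 ⟨hxC, hxD⟩⟩ (fun h => hcon (fun z hz => by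
      rw [← h] at hz
      exact (Finset.mem_inter.1 hz).2))
  have hbD : b ∉ D := fun h => hbn (Finset.mem_inter.2 ⟨hb, h⟩)
  exact hab (k3 a (Finset.mem_inter.1 ha).2 b (h1 hb) hbD)

theorem comps_eq_of_inter {W C D : Finset α} (hC : C ∈ comps H W) (hD : D ∈ comps H W)
    {x : α} (hxC : x ∈ C) (hxD : x ∈ D) : C = D :=
  Finset.Subset.antisymm (comps_subset_of_inter hC hD hxC hxD)
    (comps_subset_of_inter hD hC hxD hxC)

theorem exists_comp {W : Finset α} {x : α} (hx : x ∈ W) : ∃ C ∈ comps H W, x ∈ C := by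
  classical
  let 𝒞 : Finset (Finset α) := W.powerset.filter (fun C => Prm H C ∧ x ∈ C)
  have h𝒞 : 𝒞.Nonempty := ⟨{x}, Finset.mem_filter.2 ⟨Finset.mem_powerset.2
    (Finset.singleton_subset_iff.2 hx), Prm.singleton x, Finset.mem_singleton_self x⟩⟩
  obtain ⟨C, hC, hmax⟩ := Finset.exists_max_image 𝒞 Finset.card h𝒞
  obtain ⟨hCW, hCp, hxC⟩ := Finset.mem_filter.1 hC
  rw [Finset.mem_powerset] at hCW
  refine ⟨C, mem_comps.2 ⟨hCW, hCp, fun c hc z hz hzC => ?_⟩, hxC⟩
  by_contra hcz
  have hmem : insert z C ∈ 𝒞 := Finset.mem_filter.2 ⟨Finset.mem_powerset.2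
    (Finset.insert_subset hz hCW), hCp.insert hc hzC hcz, Finset.mem_insert_of_mem hxC⟩
  have := hmax _ hmem
  rw [Finset.card_insert_of_notMem hzC] at this
  omega

theorem comps_union {A B : Finset α} (hAB : Full H A B) :
    comps H (A ∪ B) = comps H A ∪ comps H B := by
  ext C
  rw [Finset.mem_union]
  constructor
  · intro hC
    obtain ⟨h1, h2, h3⟩ := mem_comps.1 hC
    by_cases hCA : C ⊆ A
    · exact Or.inl (mem_comps.2 ⟨hCA, h2, fun c hc x hx hxC =>
        h3 c hc x (Finset.mem_union_left B hx) hxC⟩)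
    · right
      have hCB : C ⊆ B := by
        by_contra hCB
        obtain ⟨z, hzC, hzA⟩ := Finset.not_subset.1 hCA
        have hzB : z ∈ B := (Finset.mem_union.1 (h1 hzC)).resolve_left hzA
        obtain ⟨u, huC, huB⟩ := Finset.not_subset.1 hCB
        have huA : u ∈ A := (Finset.mem_union.1 (h1 huC)).resolve_right huB
        obtain ⟨a, ha, b, hb, hbn, hab⟩ := h2.2 (C ∩ A) Finset.inter_subset_left
          ⟨u, Finset.mem_inter.2 ⟨huC, huA⟩⟩ (fun h => hzA (by
            rw [← h] at hzC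
            exact (Finset.mem_inter.1 hzC).2))
        have hbA : b ∉ A := fun h => hbn (Finset.mem_inter.2 ⟨hb, h⟩)
        have hbB : b ∈ B := (Finset.mem_union.1 (h1 hb)).resolve_left hbA
        exact hab (hAB a (Finset.mem_inter.1 ha).2 b hbB)
      exact mem_comps.2 ⟨hCB, h2, fun c hc x hx hxC =>
        h3 c hc x (Finset.mem_union_right A hx) hxC⟩
  · rintro (hC | hC)
    · obtain ⟨h1, h2, h3⟩ := mem_comps.1 hC
      refine mem_comps.2 ⟨h1.trans Finset.subset_union_left, h2, fun c hc x hx hxC => ?_⟩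
      rcases Finset.mem_union.1 hx with hx | hx
      · exact h3 c hc x hx hxC
      · exact hAB c (h1 hc) x hx
    · obtain ⟨h1, h2, h3⟩ := mem_comps.1 hC
      refine mem_comps.2 ⟨h1.trans Finset.subset_union_right, h2, fun c hc x hx hxC => ?_⟩
      rcases Finset.mem_union.1 hx with hx | hx
      · exact (hAB x hx c (h1 hc)).symm
      · exact h3 c hc x hx hxC

theorem comps_disjoint {A B : Finset α} (hAB : Full H A B) :
    Disjoint (comps H A) (comps H B) := by
  rw [Finset.disjoint_left]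
  intro C hA hB
  obtain ⟨h1, h2, -⟩ := mem_comps.1 hA
  obtain ⟨k1, -, -⟩ := mem_comps.1 hB
  obtain ⟨x, hx⟩ := h2.1
  exact (hAB x (h1 hx) x (k1 hx)).ne rfl

theorem card_comps_union {A B : Finset α} (hAB : Full H A B) :
    (comps H (A ∪ B)).card = (comps H A).card + (comps H B).card := by
  rw [comps_union hAB, Finset.card_union_of_disjoint (comps_disjoint hAB)]

theorem comps_empty : comps H (∅ : Finset α) = ∅ := by
  apply Finset.eq_empty_of_forall_notMem
  intro C hC
  obtain ⟨h1, h2, -⟩ := mem_comps.1 hC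
  obtain ⟨x, hx⟩ := h2.1
  exact absurd (h1 hx) (Finset.notMem_empty x)

theorem comps_prm {W : Finset α} (hp : Prm H W) : comps H W = {W} := by
  ext C
  rw [Finset.mem_singleton]
  constructor
  · intro hC
    obtain ⟨h1, h2, h3⟩ := mem_comps.1 hC
    by_contra hne
    obtain ⟨a, ha, b, hb, hbn, hab⟩ := hp.2 C h1 h2.1 hne
    exact hab (h3 a ha b hb hbn)
  · rintro rfl
    exact mem_comps.2 ⟨Finset.Subset.refl _, hp, fun c _ x hx hxC => absurd hx hxC⟩

theorem split_of_not_prm {W : Finset α} (hne : W.Nonempty) (hp : ¬ Prm H W) :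
    ∃ A B : Finset α, A.Nonempty ∧ B.Nonempty ∧ Full H A B ∧ A ∪ B = W := by
  have h1 : ∃ A ⊆ W, A.Nonempty ∧ A ≠ W ∧ ∀ a ∈ A, ∀ b ∈ W, b ∉ A → H.Adj a b := by
    by_contra hcon
    apply hp
    refine ⟨hne, fun A hA hAne hneq => ?_⟩
    by_contra h2
    apply hcon
    refine ⟨A, hA, hAne, hneq, fun a ha b hb hbA => ?_⟩
    by_contra h3
    exact h2 ⟨a, ha, b, hb, hbA, h3⟩
  obtain ⟨A, hA, hAne, hneq, hadj⟩ := h1
  refine ⟨A, W \ A, hAne, ?_, fun a ha b hb => ?_, Finset.union_sdiff_of_subset hA⟩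
  · rw [Finset.sdiff_nonempty]
    exact fun h => hneq (Finset.Subset.antisymm hA h)
  · rw [Finset.mem_sdiff] at hb
    exact hadj a ha b hb.1 hb.2

/-- induction principle over join decompositions -/
theorem join_induction {P : ℕ → Finset α → Prop} (h0 : P 0 ∅)
    (hprm : ∀ d W, NP H (d + 1) W → Prm H W →
      (∀ e V, NP H e V → V.card < W.card → P e V) → P (d + 1) W)
    (hjoin : ∀ d₁ d₂ A B, NP H (d₁ + 1) A → NP H (d₂ + 1) B → NP H (d₁ + 1 + (d₂ + 1)) (A ∪ B) →
      Full H A B → P (d₁ + 1) A → P (d₂ + 1) B → P (d₁ + 1 + (d₂ + 1)) (A ∪ B))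
    {d : ℕ} {W : Finset α} (h : NP H d W) : P d W := by
  induction hn : W.card using Nat.strong_induction_on generalizing d W with
  | _ n ih =>
    subst hn
    rcases W.eq_empty_or_nonempty with rfl | hne
    · have : d = 0 := h.rank_unique (d' := 0) rfl
      rw [this]; exact h0
    by_cases hp : Prm H W
    · obtain ⟨v, hv⟩ := hne
      obtain ⟨e, rfl⟩ := h.rank_pos hv
      exact hprm e W h hp (fun e V hV hc => ih V.card hc hV rfl)
    · obtain ⟨A, B, hA, hB, hAB, rfl⟩ := split_of_not_prm hne hp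
      obtain ⟨d₁, d₂, rfl, h1, h2⟩ := h.split hAB
      have hc := Finset.card_union_of_disjoint hAB.disjoint
      have hA' := Finset.card_pos.2 hA
      have hB' := Finset.card_pos.2 hB
      obtain ⟨a, ha⟩ := hA
      obtain ⟨b, hb⟩ := hB
      obtain ⟨e₁, rfl⟩ := h1.rank_pos ha
      obtain ⟨e₂, rfl⟩ := h2.rank_pos hb
      exact hjoin e₁ e₂ A B h1 h2 h hAB (ih A.card (by omega) h1 rfl) (ih B.card (by omega) h2 rfl)

/-- **lower bound**: rank `d`, `c` join factors, then at least `3 d - c` vertices -/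
theorem NP.three_mul_le {d : ℕ} {W : Finset α} (h : NP H d W) :
    3 * d ≤ W.card + (comps H W).card := by
  refine join_induction (H := H) (P := fun d W => 3 * d ≤ W.card + (comps H W).card) ?_ ?_ ?_ h
  · simp
  · intro d W hW hp _
    have := Prm.three_mul_le hW hp
    rw [comps_prm hp, Finset.card_singleton]
    exact this
  · intro d₁ d₂ A B _ _ _ hAB h1 h2
    rw [card_comps_union hAB, Finset.card_union_of_disjoint hAB.disjoint]
    omega

/-- `A` is touched by `X`: some non-adjacent pair -/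
def Touch (H : SimpleGraph α) (X A : Finset α) : Prop := ∃ a ∈ A, ∃ x ∈ X, ¬ H.Adj a x

open scoped Classical in
/-- the components of `W \ X` touched by `X` -/
noncomputable def tcomps (H : SimpleGraph α) (W X : Finset α) : Finset (Finset α) :=
  (comps H (W \ X)).filter (Touch H X)

theorem mem_tcomps {W X A : Finset α} :
    A ∈ tcomps H W X ↔ A ∈ comps H (W \ X) ∧ Touch H X A := by
  classical
  simp [tcomps]

theorem tcomps_union {A B X : Finset α} (hAB : Full H A B) (hX : X ⊆ A ∪ B) :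
    (tcomps H (A ∪ B) X).card ≤ (tcomps H A (X ∩ A)).card + (tcomps H B (X ∩ B)).card := by
  have hsub : tcomps H (A ∪ B) X ⊆ tcomps H A (X ∩ A) ∪ tcomps H B (X ∩ B) := by
    intro C hC
    obtain ⟨h1, h2⟩ := mem_tcomps.1 hC
    have e1 : (A ∪ B) \ X = (A \ (X ∩ A)) ∪ (B \ (X ∩ B)) := by
      ext z; simp only [Finset.mem_sdiff, Finset.mem_union, Finset.mem_inter]; tauto
    rw [e1, comps_union (hAB.mono Finset.sdiff_subset Finset.sdiff_subset), Finset.mem_union] at h1
    obtain ⟨a, ha, x, hx, hax⟩ := h2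
    rw [Finset.mem_union]
    rcases h1 with h1 | h1
    · left
      have haA := (Finset.mem_sdiff.1 ((mem_comps.1 h1).1 ha)).1
      refine mem_tcomps.2 ⟨h1, a, ha, x, ?_, hax⟩
      rcases Finset.mem_union.1 (hX hx) with h | h
      · exact Finset.mem_inter.2 ⟨hx, h⟩
      · exact absurd (hAB a haA x h) hax
    · right
      have haB := (Finset.mem_sdiff.1 ((mem_comps.1 h1).1 ha)).1
      refine mem_tcomps.2 ⟨h1, a, ha, x, ?_, hax⟩
      rcases Finset.mem_union.1 (hX hx) with h | h
      · exact absurd (hAB x h a haB).symm hax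
      · exact Finset.mem_inter.2 ⟨hx, h⟩
  exact (Finset.card_le_card hsub).trans (Finset.card_union_le _ _)

/-- **toughness**: removing `X` leaves at most `|X|` components touched by `X` -/
theorem tough {d : ℕ} {W X : Finset α} (h : NP H d W) (hX : X ⊆ W) :
    (tcomps H W X).card ≤ X.card := by
  classical
  induction hn : W.card using Nat.strong_induction_on generalizing d W X with
  | _ n ihW =>
  induction hm : X.card using Nat.strong_induction_on generalizing X with
  | _ m ihX =>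
  subst hn hm
  rcases W.eq_empty_or_nonempty with rfl | hne
  · obtain rfl : X = ∅ := Finset.subset_empty.1 hX
    have : tcomps H (∅ : Finset α) ∅ = ∅ := by
      apply Finset.eq_empty_of_forall_notMem
      intro C hC
      obtain ⟨-, a, -, x, hx, -⟩ := mem_tcomps.1 hC
      exact absurd hx (Finset.notMem_empty x)
    rw [this]
    simp
  by_cases hp : Prm H W
  swap
  · obtain ⟨A, B, hA, hB, hAB, rfl⟩ := split_of_not_prm hne hp
    obtain ⟨d₁, d₂, rfl, h1, h2⟩ := h.split hAB
    have hc := Finset.card_union_of_disjoint hAB.disjoint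
    have hA' := Finset.card_pos.2 hA
    have hB' := Finset.card_pos.2 hB
    have k1 := ihW A.card (by omega) h1 (X := X ∩ A) Finset.inter_subset_right rfl
    have k2 := ihW B.card (by omega) h2 (X := X ∩ B) Finset.inter_subset_right rfl
    have k3 := tcomps_union hAB hX
    have k4 : (X ∩ A).card + (X ∩ B).card = X.card := by
      rw [← Finset.card_union_of_disjoint]
      · congr 1
        rw [← Finset.inter_union_distrib_left]
        exact Finset.inter_eq_left.2 hX
      · exact hAB.disjoint.mono Finset.inter_subset_right Finset.inter_subset_right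
    omega
  by_contra hcon
  push Not at hcon
  -- basic facts about the components
  have hcomp : ∀ A ∈ tcomps H W X, A ∈ comps H (W \ X) := fun A hA => (mem_tcomps.1 hA).1
  have hdisj : ∀ A ∈ tcomps H W X, ∀ B ∈ tcomps H W X, A ≠ B → ∀ a ∈ A, a ∉ B :=
    fun A hA B hB hAB a ha hb => hAB (comps_eq_of_inter (hcomp A hA) (hcomp B hB) ha hb)
  -- every touching vertex of a component is non-adjacent to all of `X`
  have key : ∀ A ∈ tcomps H W X, ∀ a ∈ A, (∃ x ∈ X, ¬ H.Adj a x) → ∀ x ∈ X, ¬ H.Adj a x := by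
    intro A hA a ha hax
    obtain ⟨x₀, hx₀, hax₀⟩ := hax
    obtain ⟨hAsub, hAp, hAadj⟩ := mem_comps.1 (hcomp A hA)
    have haW : a ∈ W := (Finset.mem_sdiff.1 (hAsub ha)).1
    have haX : a ∉ X := (Finset.mem_sdiff.1 (hAsub ha)).2
    by_contra hex
    push Not at hex
    obtain ⟨x₁, hx₁, hax₁⟩ := hex
    set X' := lk H X a with hX'
    set Y := X \ X' with hY
    have hX'X : X' ⊆ X := lk_subset
    have hx₁' : x₁ ∈ X' := mem_lk.2 ⟨hx₁, hax₁⟩
    have hx₀' : x₀ ∈ Y := Finset.mem_sdiff.2 ⟨hx₀, fun h => hax₀ (mem_lk.1 h).2⟩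
    have hYcard : Y.card + X'.card = X.card := by
      have h1 : Y.card = X.card - X'.card := Finset.card_sdiff_of_subset hX'X
      have := Finset.card_le_card hX'X
      omega
    have hX'pos : 0 < X'.card := Finset.card_pos.2 ⟨x₁, hx₁'⟩
    obtain ⟨e, rfl, hlk⟩ := h.lk' haW
    have hX'sub : X' ⊆ lk H W a := lk_mono hX a
    have hlt : (lk H W a).card < W.card := by
      apply Finset.card_lt_card
      refine ⟨lk_subset, fun hh => not_mem_lk_self (hh haW)⟩
    have k1 := ihW _ hlt hlk hX'sub rfl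
    -- the other components, those touched by X'
    have k2 : (((tcomps H W X).erase A).filter (Touch H X')).card ≤ X'.card := by
      refine le_trans (Finset.card_le_card ?_) k1
      intro B hB
      obtain ⟨hB1, hB2⟩ := Finset.mem_filter.1 hB
      obtain ⟨hBA, hB3⟩ := Finset.mem_erase.1 hB1
      obtain ⟨hBsub, hBp, hBadj⟩ := mem_comps.1 (hcomp B hB3)
      refine mem_tcomps.2 ⟨mem_comps.2 ⟨?_, hBp, ?_⟩, hB2⟩
      · intro b hb
        have hbWX := hBsub hb
        have hbA : b ∉ A := fun h => hdisj B hB3 A hA hBA b hb h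
        refine Finset.mem_sdiff.2 ⟨mem_lk.2 ⟨(Finset.mem_sdiff.1 hbWX).1,
          hAadj a ha b hbWX hbA⟩, fun h => (Finset.mem_sdiff.1 hbWX).2 (hX'X h)⟩
      · intro b hb z hz hzB
        obtain ⟨hz1, hz2⟩ := Finset.mem_sdiff.1 hz
        refine hBadj b hb z (Finset.mem_sdiff.2 ⟨lk_subset hz1, fun hzX => ?_⟩) hzB
        exact hz2 (mem_lk.2 ⟨hzX, (mem_lk.1 hz1).2⟩)
    set J := ((tcomps H W X).erase A).filter (fun B => ¬ Touch H X' B) with hJ
    have k3 : ((tcomps H W X).erase A).card =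
        (((tcomps H W X).erase A).filter (Touch H X')).card + J.card :=
      (Finset.card_filter_add_card_filter_not _).symm
    have k4 : ((tcomps H W X).erase A).card = (tcomps H W X).card - 1 :=
      Finset.card_erase_of_mem hA
    have k5 : (tcomps H W Y).card ≤ Y.card :=
      ihX Y.card (by omega) (X := Y) (Finset.sdiff_subset.trans hX) rfl
    -- the component of W \ Y containing a
    have haY : a ∈ W \ Y := Finset.mem_sdiff.2 ⟨haW, fun h => haX (Finset.mem_sdiff.1 h).1⟩
    obtain ⟨D, hD, haD⟩ := exists_comp (H := H) haY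
    have hJsub : J ⊆ tcomps H W Y := by
      intro B hB
      obtain ⟨hB1, hB2⟩ := Finset.mem_filter.1 hB
      obtain ⟨hBA, hB3⟩ := Finset.mem_erase.1 hB1
      obtain ⟨hBsub, hBp, hBadj⟩ := mem_comps.1 (hcomp B hB3)
      refine mem_tcomps.2 ⟨mem_comps.2 ⟨?_, hBp, ?_⟩, ?_⟩
      · intro b hb
        have hbWX := Finset.mem_sdiff.1 (hBsub hb)
        exact Finset.mem_sdiff.2 ⟨hbWX.1, fun h => hbWX.2 (Finset.mem_sdiff.1 h).1⟩
      · intro b hb z hz hzB
        obtain ⟨hz1, hz2⟩ := Finset.mem_sdiff.1 hz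
        by_cases hzX : z ∈ X
        · have hzX' : z ∈ X' := by
            by_contra hzn
            exact hz2 (Finset.mem_sdiff.2 ⟨hzX, hzn⟩)
          by_contra hbz
          exact hB2 ⟨b, hb, z, hzX', hbz⟩
        · exact hBadj b hb z (Finset.mem_sdiff.2 ⟨hz1, hzX⟩) hzB
      · obtain ⟨b, hb, x, hx, hbx⟩ := (mem_tcomps.1 hB3).2
        refine ⟨b, hb, x, Finset.mem_sdiff.2 ⟨hx, fun hx' => hB2 ⟨b, hb, x, hx', hbx⟩⟩, hbx⟩
    have hDmem : D ∈ tcomps H W Y := mem_tcomps.2 ⟨hD, a, haD, x₀, hx₀', hax₀⟩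
    have hDJ : D ∉ J := by
      intro hDJ
      obtain ⟨hB1, -⟩ := Finset.mem_filter.1 hDJ
      obtain ⟨hBA, hB3⟩ := Finset.mem_erase.1 hB1
      exact hdisj D hB3 A hA hBA a haD ha
    have k6 : (insert D J).card ≤ (tcomps H W Y).card :=
      Finset.card_le_card (Finset.insert_subset hDmem hJsub)
    rw [Finset.card_insert_of_notMem hDJ] at k6
    omega
  -- two touched components
  have hXne : X.Nonempty := by
    have : (tcomps H W X).Nonempty := Finset.card_pos.1 (by omega)
    obtain ⟨A, hA⟩ := this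
    obtain ⟨-, a, -, x, hx, -⟩ := mem_tcomps.1 hA
    exact ⟨x, hx⟩
  have h2 : 1 < (tcomps H W X).card := by
    have := Finset.card_pos.2 hXne
    omega
  obtain ⟨A, hA, B, hB, hAB⟩ := Finset.one_lt_card.1 h2
  obtain ⟨hAsub, hAp, hAadj⟩ := mem_comps.1 (hcomp A hA)
  obtain ⟨hBsub, hBp, hBadj⟩ := mem_comps.1 (hcomp B hB)
  obtain ⟨a, ha, hax⟩ := (mem_tcomps.1 hA).2
  obtain ⟨b, hb, hbx⟩ := (mem_tcomps.1 hB).2
  have haX := key A hA a ha hax
  have hbX := key B hB b hb hbx
  have haW : a ∈ W := (Finset.mem_sdiff.1 (hAsub ha)).1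
  have hbW : b ∈ W := (Finset.mem_sdiff.1 (hBsub hb)).1
  set R := (W \ X) \ A with hR
  have hfull : Full H A R := by
    intro u hu z hz
    obtain ⟨hz1, hz2⟩ := Finset.mem_sdiff.1 hz
    exact hAadj u hu z hz1 hz2
  have hAR : A ∪ R = W \ X := Finset.union_sdiff_of_subset hAsub
  have hbR : b ∈ R := Finset.mem_sdiff.2 ⟨hBsub hb, fun h => hdisj A hA B hB hAB b h hb⟩
  have hlk : ∀ u ∈ W, (∀ x ∈ X, ¬ H.Adj u x) → lk H W u = lk H (A ∪ R) u := by
    intro u _ huX
    rw [hAR]
    ext z
    rw [mem_lk, mem_lk, Finset.mem_sdiff]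
    constructor
    · rintro ⟨h1, h2⟩
      exact ⟨⟨h1, fun h3 => huX z h3 h2⟩, h2⟩
    · rintro ⟨⟨h1, -⟩, h2⟩
      exact ⟨h1, h2⟩
  obtain ⟨e, rfl, hlka⟩ := h.lk' haW
  have hlkb := h.lk hbW
  rw [hlk a haW haX, hfull.lk_left ha] at hlka
  rw [hlk b hbW hbX, hfull.lk_right hbR] at hlkb
  obtain ⟨d₁, d₂, hd, hd₁, hd₂⟩ := hlka.split (hfull.mono lk_subset (Finset.Subset.refl _))
  obtain ⟨e₁, e₂, he, he₁, he₂⟩ := hlkb.split (hfull.mono (Finset.Subset.refl _) lk_subset)
  obtain ⟨e₁', rfl, he1'⟩ := he₁.lk' ha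
  have h3 := he1'.rank_unique hd₁
  have hq := he₁.q.join hd₂.q hfull
  rw [hAR] at hq
  have hde : e₁' + 1 + d₂ = e + 1 := by omega
  rw [hde] at hq
  have := closed_eq h Finset.sdiff_subset hq
  obtain ⟨x, hx⟩ := hXne
  have hxW := hX hx
  rw [← this] at hxW
  exact (Finset.mem_sdiff.1 hxW).2 hx

/-- in a prime complex of rank at least two, the link of `v` has fewer join factors than `v` has
non-neighbours -/
theorem comps_lk_lt {d : ℕ} {W : Finset α} (h : NP H (d + 2) W) (hp : Prm H W) {v : α}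
    (hv : v ∈ W) : (comps H (lk H W v)).card + 1 ≤ (nn H W v).card := by
  have hX : nn H W v ⊆ W := fun x hx => (mem_nn.1 hx).1
  refine le_trans ?_ (tough h hX)
  have hfull : Full H {v} (lk H W v) := by
    intro a ha b hb
    rw [Finset.mem_singleton.1 ha]
    exact (mem_lk.1 hb).2
  have hW : W \ nn H W v = {v} ∪ lk H W v := by
    ext z
    rw [Finset.mem_sdiff, mem_nn, Finset.mem_union, Finset.mem_singleton, mem_lk]
    by_cases hz : z = v
    · subst hz; simp [hv]
    · simp only [hz, ne_eq, not_false_eq_true, true_and, false_or]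
      tauto
  have hall : tcomps H W (nn H W v) = comps H (W \ nn H W v) := by
    ext C
    rw [mem_tcomps]
    refine ⟨fun h => h.1, fun hC => ⟨hC, ?_⟩⟩
    obtain ⟨h1, h2, h3⟩ := mem_comps.1 hC
    obtain ⟨u, hu⟩ := h.nn_nonempty hv
    obtain ⟨a, ha, b, hb, hbn, hab⟩ := hp.2 C (h1.trans Finset.sdiff_subset) h2.1
      (fun hCW => (Finset.mem_sdiff.1 (h1 (hCW ▸ hX hu))).2 hu)
    refine ⟨a, ha, b, ?_, hab⟩
    by_contra hbX
    exact hab (h3 a ha b (Finset.mem_sdiff.2 ⟨hb, hbX⟩) hbn)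
  rw [hall, hW, card_comps_union hfull, comps_prm (Prm.singleton v), Finset.card_singleton]
  omega

/-- **the defect does not increase under links** -/
theorem NP.defect_lk {d : ℕ} {W : Finset α} (h : NP H d W) :
    ∀ v ∈ W, (FS.lk H W v).card + (comps H (FS.lk H W v)).card + 3 ≤ W.card + (comps H W).card := by
  refine join_induction (H := H) (P := fun _ W => ∀ v ∈ W, (FS.lk H W v).card +
    (comps H (FS.lk H W v)).card + 3 ≤ W.card + (comps H W).card) ?_ ?_ ?_ h
  · intro v hv
    exact absurd hv (Finset.notMem_empty v)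
  · intro d W hW hp _ v hv
    rw [comps_prm hp, Finset.card_singleton]
    have h1 := card_eq_lk_nn (H := H) hv
    rcases d with _ | d
    · have h' : W.card = 2 ∧ ∀ x ∈ W, ∀ y ∈ W, ¬ H.Adj x y := hW
      have h0 : FS.lk H W v = ∅ := hW.lk hv
      rw [h0, comps_empty, Finset.card_empty, Finset.card_empty]
      omega
    · have h2 := comps_lk_lt hW hp hv
      omega
  · intro d₁ d₂ A B hA hB _ hAB h1 h2 v hv
    rw [card_comps_union hAB, Finset.card_union_of_disjoint hAB.disjoint]
    rcases Finset.mem_union.1 hv with hv | hv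
    · have hf : Full H (FS.lk H A v) B := hAB.mono lk_subset (Finset.Subset.refl B)
      rw [hAB.lk_left hv, card_comps_union hf, Finset.card_union_of_disjoint hf.disjoint]
      have := h1 v hv
      omega
    · have hf : Full H A (FS.lk H B v) := hAB.mono (Finset.Subset.refl A) lk_subset
      rw [hAB.lk_right hv, card_comps_union hf, Finset.card_union_of_disjoint hf.disjoint]
      have := h2 v hv
      omega

end Pool.Agent.W497.FS
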