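import Pool.Agent.H79.LX.W5h83_FS_Comb
import Pool.Agent.H79.LX.R703_CW_Link
import Pool.Agent.H79.LX.R703_MO_Small
import Pool.Agent.H7.L.TH652_Dual7

/-!
# Flag homology spheres are sphere-like: Alexander duality for the star of a vertex
-/

set_option autoImplicit false

namespace Pool.Agent.W5h83.FS

open Finset Classical
open Pool.Agent.W907.SG Pool.Agent.W907.SM
open Pool.Agent.TH652.Above (HSph)
open Pool.Agent.TH652.Dual (triv duality mem_KK_triv exact_of_beta)

section conn

variable {U : Type} [Fintype U] [LinearOrder U] {H : SimpleGraph U}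

/-- the set of the non-neighbours -/
def M (H : SimpleGraph U) (v x : U) : Prop := x ≠ v ∧ ¬ H.Adj v x

/-- the action: the non-neighbours of `v` act by exchanging the two points -/
noncomputable def act (H : SimpleGraph U) (v : U) (u : U) (b : Bool) : Bool :=
  if M H v u then !b else b

theorem act_inv (v u : U) (b : Bool) : act H v u (act H v u b) = b := by
  unfold act
  split_ifs
  · simp
  · rfl

theorem act_comm (v u w : U) (b : Bool) : act H v u (act H v w b) = act H v w (act H v u b) := by
  unfold act
  split_ifs <;> simp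

theorem hsph_ne {n : ℕ} (hS : HSph (n + 1) H) (v : U) : ∃ x, M H v x := by
  by_contra hcon
  push Not at hcon
  have h1 := hS ∅ (by simp) (n + 1)
  rw [if_pos (by simp)] at h1
  have h2 : lk H ∅ = Set.univ := by
    ext x
    simp [lk]
  rw [h2] at h1
  have h3 := Pool.Agent.R703.MO.beta_cone (F := ℝ) (G := H) (ρ := triv U) (A := Set.univ) (u := v)
    (Set.mem_univ _) (fun w _ hw => by
      by_contra h4
      exact hcon w ⟨hw, h4⟩) (fun m => rfl) (n + 1)
  have h4 : (0 : ℕ) = 1 := h3.symm.trans h1
  omega

/-- the right side of the duality vanishes -/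
theorem rhs_zero {n : ℕ} (hS : HSph (n + 1) H) (v : U) :
    beta H (fun u => - pull ℝ (act H v) u) Set.univ ∅ n = 0 := by
  refine Pool.Agent.R703.MO.beta_zero_of fun z hz hb => ?_
  have hz' := mem_KK.1 hz
  have hinv : ∀ T : Finset U, ∀ t ∈ T, ∀ b, z T (act H v t b) = z T b := by
    intro T t ht b
    have h1 := hz'.2 T t (Or.inl ht)
    have h2 := congrFun h1 b
    have h3 : -(z T (act H v t b)) = -(z T b) := h2
    exact neg_injective h3
  have hbd : ∀ T b, ∑ u ∈ Tᶜ, sg u T • z (insert u T) b = 0 := by
    intro T b
    have h1 := congrFun (congrFun hb T) b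
    rw [bd_apply] at h1
    rw [Finset.sum_apply] at h1
    exact h1
  -- the constant part
  set f : Finset U → ℝ := fun T => (1 / 2 : ℝ) * (z T true + z T false) with hf
  set g : Finset U → ℝ := fun T => (1 / 2 : ℝ) * (z T true - z T false) with hg
  have hfZ : f ∈ ZZ H (triv U) (lk H ∅) ∅ n := by
    refine ⟨mem_KK_triv.2 fun T hT => ?_, LinearMap.mem_ker.2 ?_⟩
    · have h1 := hz'.1 T (fun h => hT ⟨h.1, by
        intro x _ u hu
        exact absurd hu (notMem_empty u), h.2.2⟩)
      rw [hf]
      simp only
      rw [h1]
      simp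
    · funext T
      rw [bd_apply, Pi.zero_apply]
      have h1 := hbd T true
      have h2 := hbd T false
      have h3 : ∀ u ∈ Tᶜ, sg u T • f (insert u T) = (1 / 2 : ℝ) * (sg u T • z (insert u T) true) +
          (1 / 2 : ℝ) * (sg u T • z (insert u T) false) := by
        intro u _
        rw [hf]
        simp only [zsmul_eq_mul]
        ring
      rw [sum_congr rfl h3, sum_add_distrib, ← mul_sum, ← mul_sum, h1, h2]
      simp
  have hbeta : beta H (triv U) (lk H ∅) ∅ n = 0 := by
    have h1 := hS ∅ (by simp) n
    rw [if_neg (by simp)] at h1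
    exact h1
  rw [← exact_of_beta hbeta] at hfZ
  obtain ⟨y, hy, hyf⟩ := hfZ
  -- the antisymmetric part
  set z2 : Finset U → Bool → ℝ := fun T b => if b then g T else - g T with hz2
  have hzz : ∀ T b, z T b = f T + z2 T b := by
    intro T b
    rw [hf, hz2, hg]
    cases b
    · simp only [Bool.false_eq_true, if_false]
      ring
    · simp only [if_true]
      ring
  set A : Set U := {x | ¬ M H v x} with hA
  have hg0 : ∀ T : Finset U, ∀ t ∈ T, M H v t → g T = 0 := by
    intro T t ht hM
    have h1 := hinv T t ht true
    unfold act at h1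
    rw [if_pos hM] at h1
    rw [hg]
    simp only
    have h2 : z T (!true) = z T true := h1
    rw [Bool.not_true] at h2
    rw [h2, sub_self, mul_zero]
  have hz2K : z2 ∈ KK H (fun u => - pull ℝ (act H v) u) A ∅ n := by
    refine mem_KK.2 ⟨fun T hT => ?_, fun T t ht => ?_⟩
    · by_cases h1 : ∃ t ∈ T, M H v t
      · obtain ⟨t, ht, hM⟩ := h1
        funext b
        rw [hz2]
        simp only
        rw [hg0 T t ht hM]
        simp
      · push Not at h1
        have h2 := hz'.1 T (fun h => hT ⟨h.1, fun t ht => h1 t ht, h.2.2⟩)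
        funext b
        rw [hz2, hg]
        simp only
        rw [h2]
        simp
    · rcases ht with ht | ht
      · funext b
        change -(z2 T (act H v t b)) = -(z2 T b)
        congr 1
        by_cases hM : M H v t
        · rw [hz2]
          simp only
          rw [hg0 T t ht hM]
          simp
        · unfold act
          rw [if_neg hM]
      · exact absurd ht (Set.notMem_empty t)
  have hz2b : bd ℝ z2 = 0 := by
    funext T
    funext b
    rw [bd_apply, Finset.sum_apply]
    change ∑ u ∈ Tᶜ, sg u T • z2 (insert u T) b = 0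
    have h1 : ∀ u ∈ Tᶜ, sg u T • z2 (insert u T) b = sg u T • z (insert u T) b -
        sg u T • f (insert u T) := by
      intro u _
      rw [hzz (insert u T) b, smul_add]
      ring
    rw [sum_congr rfl h1, sum_sub_distrib, hbd T b]
    have h2 := congrFun hyf
    have h3 : bd ℝ f = 0 := by
      rw [← hyf]
      exact bd_bd y
    have h4 := congrFun h3 T
    rw [bd_apply, Pi.zero_apply] at h4
    rw [h4, sub_zero]
  have hcone := Pool.Agent.R703.MO.beta_cone (F := ℝ) (G := H)
    (ρ := fun u => - pull ℝ (act H v) u) (A := A) (u := v) (fun h => h.1 rfl) (fun w hw hwv => by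
      by_contra h4
      exact hw ⟨hwv, h4⟩) (fun m => by
      funext b
      change -(m (act H v v b)) = -(m b)
      unfold act
      rw [if_neg (fun h : M H v v => h.1 rfl)]) n
  have hex : z2 ∈ BB H (fun u => - pull ℝ (act H v) u) A ∅ n := by
    have h1 : BB H (fun u => - pull ℝ (act H v) u) A ∅ n =
        ZZ H (fun u => - pull ℝ (act H v) u) A ∅ n := by
      refine Submodule.eq_of_le_of_finrank_le (BB_le_ZZ _ _ _ _ _) ?_
      unfold beta at hcone
      omega
    rw [h1]
    exact ⟨hz2K, LinearMap.mem_ker.2 hz2b⟩
  obtain ⟨w2, hw2, hw2z⟩ := hex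
  refine ⟨(fun T _ => y T) + w2, ?_, ?_⟩
  · refine Submodule.add_mem _ ?_ ?_
    · refine mem_KK.2 ⟨fun T hT => ?_, fun T t ht => ?_⟩
      · have h1 := (mem_KK_triv.1 hy) T (fun h => hT ⟨h.1, Set.subset_univ _, h.2.2⟩)
        funext b
        exact h1
      · funext b
        rfl
    · have h1 := mem_KK.1 hw2
      exact mem_KK.2 ⟨fun T hT => h1.1 T fun h => hT ⟨h.1, Set.subset_univ _, h.2.2⟩, h1.2⟩
  · rw [map_add, hw2z]
    funext T b
    rw [Pi.add_apply, Pi.add_apply, bd_apply, Finset.sum_apply]
    have h1 := congrFun hyf T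
    rw [bd_apply] at h1
    rw [hzz T b, ← h1]
    rfl

/-- **The non-neighbours of a vertex span a connected graph.** -/
theorem hsph_conn {n : ℕ} (hS : HSph (n + 1) H) (v : U) (C : Finset U) (hC : ∀ c ∈ C, M H v c)
    (hne : C.Nonempty) (y : U) (hy : M H v y) (hyC : y ∉ C) :
    ∃ c ∈ C, ∃ d, d ∉ C ∧ M H v d ∧ H.Adj c d := by
  by_contra hcon
  push Not at hcon
  obtain ⟨x, hx⟩ := hne
  have h0 : beta H (pull ℝ (act H v)) Set.univ ∅ 1 = 0 := by
    have h1 := duality (G := H) (a := act H v) (n := n + 1) (act_inv v)
      (fun u w _ b => act_comm v u w b) hS (i := 1) (j := n) (by omega)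
    rw [rhs_zero hS v] at h1
    omega
  set e : Bool → ℝ := fun b => if b then 1 else -1 with he
  set z : Finset U → Bool → ℝ := fun T => if T = {x} then e else if T = {y} then -e else 0 with hz
  have hxy : x ≠ y := by
    rintro rfl
    exact hyC hx
  have hzZ : z ∈ ZZ H (pull ℝ (act H v)) Set.univ ∅ 1 := by
    refine ⟨mem_KK.2 ⟨fun T hT => ?_, fun T t ht => ?_⟩, LinearMap.mem_ker.2 ?_⟩
    · rw [hz]
      simp only
      rw [if_neg, if_neg]
      · rintro rfl
        exact hT ⟨by simp, Set.subset_univ _, card_singleton y⟩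
      · rintro rfl
        exact hT ⟨by simp, Set.subset_univ _, card_singleton x⟩
    · rcases ht with ht | ht
      · have key : ∀ t, M H v t → pull ℝ (act H v) t e = - e := by
          intro t hM
          funext b
          change e (act H v t b) = -(e b)
          unfold act
          rw [if_pos hM, he]
          cases b <;> simp
        rw [hz]
        simp only
        by_cases h1 : T = {x}
        · rw [if_pos h1]
          rw [h1, mem_singleton] at ht
          rw [ht]
          exact key x (hC x hx)
        · rw [if_neg h1]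
          by_cases h2 : T = {y}
          · rw [if_pos h2]
            rw [h2, mem_singleton] at ht
            rw [ht, map_neg, key y hy]
          · rw [if_neg h2]
            simp
      · exact absurd ht (Set.notMem_empty t)
    · funext T
      rw [bd_apply]
      by_cases hT : T = ∅
      · subst hT
        have h1 : ∀ u ∈ (∅ : Finset U)ᶜ, sg u ∅ • z (insert u ∅) =
            (if u = x then e else 0) + (if u = y then -e else 0) := by
          intro u _
          have hsg : sg u (∅ : Finset U) = 1 := by
            unfold sg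
            simp
          rw [hsg, one_smul]
          change (if ({u} : Finset U) = {x} then e else if ({u} : Finset U) = {y} then -e else 0) = _
          by_cases h2 : u = x
          · rw [if_pos (by rw [h2]), if_pos h2, if_neg (by rw [h2]; exact hxy), add_zero]
          · rw [if_neg (fun h => h2 (singleton_injective h)), if_neg h2, zero_add]
            by_cases h3 : u = y
            · rw [if_pos (by rw [h3]), if_pos h3]
            · rw [if_neg (fun h => h3 (singleton_injective h)), if_neg h3]
        rw [sum_congr rfl h1, sum_add_distrib, sum_ite_eq', sum_ite_eq']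
        simp
      · refine sum_eq_zero fun u hu => ?_
        rw [mem_compl] at hu
        have h1 : ∀ w : U, insert u T ≠ {w} := by
          intro w hw
          obtain ⟨t, ht⟩ := nonempty_iff_ne_empty.2 hT
          have h2 : u ∈ ({w} : Finset U) := hw ▸ mem_insert_self u T
          have h3 : t ∈ ({w} : Finset U) := hw ▸ mem_insert_of_mem ht
          rw [mem_singleton] at h2 h3
          rw [h2, ← h3] at hu
          exact hu ht
        rw [hz]
        simp only
        rw [if_neg (h1 x), if_neg (h1 y), smul_zero]
  have hzB : z ∈ BB H (pull ℝ (act H v)) Set.univ ∅ 1 := by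
    have h1 : BB H (pull ℝ (act H v)) Set.univ ∅ 1 = ZZ H (pull ℝ (act H v)) Set.univ ∅ 1 := by
      refine Submodule.eq_of_le_of_finrank_le (BB_le_ZZ _ _ _ _ _) ?_
      unfold beta at h0
      omega
    rw [h1]
    exact hzZ
  obtain ⟨w, hw, hwz⟩ := hzB
  have hw' := mem_KK.1 hw
  -- the sum over `C`
  have e1 : ∑ u ∈ C, z {u} true = 1 := by
    rw [sum_eq_single x]
    · rw [hz]
      simp [he]
    · intro u hu hux
      rw [hz]
      simp only
      rw [if_neg (by rw [singleton_inj]; exact hux), if_neg (by
        rw [singleton_inj]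
        rintro rfl
        exact hyC hu)]
      rfl
    · intro h
      exact absurd hx h
  set F : U → U → ℝ := fun u t => if u = t then 0 else sg t {u} • w {t, u} true with hF
  have hFa : ∀ u t, F u t = - F t u := by
    intro u t
    rw [hF]
    simp only
    by_cases h1 : u = t
    · rw [if_pos h1, if_pos h1.symm, neg_zero]
    · rw [if_neg h1, if_neg (Ne.symm h1)]
      have h2 := sg_swap t u ∅ (Ne.symm h1) (notMem_empty _) (notMem_empty _)
      have hsg : ∀ a : U, sg a (∅ : Finset U) = 1 := by
        intro a
        unfold sg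
        simp
      rw [hsg, hsg, mul_one, mul_one] at h2
      have h3 : sg t {u} = - sg u {t} := h2
      rw [h3, pair_comm u t, neg_smul]
  have e2 : ∑ u ∈ C, z {u} true = ∑ u ∈ C, ∑ t ∈ C, F u t := by
    refine sum_congr rfl fun u hu => ?_
    rw [← hwz, bd_apply, Finset.sum_apply]
    have h1 : ∀ t ∈ ({u} : Finset U)ᶜ, (sg t {u} • w (insert t {u})) true =
        if t ∈ C then F u t else 0 := by
      intro t ht
      rw [mem_compl, mem_singleton] at ht
      change sg t {u} • w {t, u} true = _
      by_cases htC : t ∈ C
      · rw [if_pos htC, hF]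
        simp only
        rw [if_neg (Ne.symm ht)]
      · rw [if_neg htC]
        have h2 : w {t, u} true = 0 := by
          by_cases hadj : H.Adj u t
          · by_cases hM : M H v t
            · exact absurd hadj (hcon u hu t htC hM)
            · have h3 := hw'.2 {t, u} t (Or.inl (mem_insert_self _ _))
              have h4 := congrFun h3 true
              have h5 : w {t, u} (act H v t true) = - w {t, u} true := h4
              unfold act at h5
              rw [if_neg hM] at h5
              linarith
          · have h3 := hw'.1 {t, u} (by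
              rintro ⟨h4, -, -⟩
              exact hadj (h4 (by simp) (by simp) (Ne.symm ht)))
            rw [h3]
            rfl
        rw [h2, smul_zero]
    rw [sum_congr rfl h1, ← sum_filter]
    have h2 : ∑ t ∈ C, F u t = ∑ t ∈ C.erase u, F u t := by
      rw [← add_sum_erase C _ hu]
      have : F u u = 0 := by
        rw [hF]
        simp
      rw [this, zero_add]
    rw [h2]
    refine sum_congr ?_ fun _ _ => rfl
    ext t
    simp only [mem_filter, mem_compl, mem_singleton, mem_erase]
  have e3 : ∑ u ∈ C, ∑ t ∈ C, F u t = 0 := by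
    have h1 : ∑ u ∈ C, ∑ t ∈ C, F u t = - ∑ u ∈ C, ∑ t ∈ C, F u t := by
      conv_lhs => rw [sum_comm]
      rw [← sum_neg_distrib]
      refine sum_congr rfl fun t _ => ?_
      rw [← sum_neg_distrib]
      exact sum_congr rfl fun u _ => hFa u t
    linarith
  rw [e2, e3] at e1
  exact zero_ne_one e1

end conn

/-- the common neighbours of `T` -/
noncomputable def lkF {V : Type} [Fintype V] (G : SimpleGraph V) (T : Finset V) : Finset V :=
  @Finset.filter V (fun x => ∀ u ∈ T, G.Adj x u) (Classical.decPred _) univ

theorem mem_lkF {V : Type} [Fintype V] (G : SimpleGraph V) (T : Finset V) (x : V) :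
    x ∈ lkF G T ↔ ∀ u ∈ T, G.Adj x u := by
  unfold lkF
  rw [@mem_filter V _ (Classical.decPred _)]
  exact ⟨fun h => h.2, fun h => ⟨mem_univ _, h⟩⟩

theorem sp_of_hsph {V : Type} [Fintype V] [LinearOrder V] {G : SimpleGraph V} {n : ℕ}
    (hS : HSph n G) : ∀ (k : ℕ) (T : Finset V), G.IsClique (T : Set V) → T.card + k = n →
      Sp G k (lkF G T) := by
  have hmem : ∀ (T : Finset V) (x : V), x ∈ lkF G T ↔ ∀ u ∈ T, G.Adj x u := mem_lkF G
  intro k
  induction k with
  | zero =>
    intro T hT hk
    change lkF G T = ∅
    rw [eq_empty_iff_forall_notMem]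
    intro x hx
    rw [hmem] at hx
    have hxT : x ∉ T := fun h => (hx x h).ne rfl
    have h1 : G.IsClique ((insert x T : Finset V) : Set V) := by
      rw [coe_insert]
      exact hT.insert fun u hu _ => hx u hu
    have h2 := Pool.Agent.R703.CW.card_le_of_hsph hS _ h1
    rw [card_insert_of_notMem hxT] at h2
    omega
  | succ k ih =>
    intro T hT hk
    refine ⟨?_, fun v hv => ?_⟩
    · obtain ⟨S, hTS, hSc, hSn⟩ := Pool.Agent.R703.CW.exists_facet hS T hT
      have h1 : (S \ T).Nonempty := by
        rw [← card_pos, card_sdiff_of_subset hTS]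
        omega
      obtain ⟨x, hx⟩ := h1
      rw [mem_sdiff] at hx
      refine ⟨x, (hmem T x).2 fun u hu => hSc hx.1 (hTS hu) ?_⟩
      rintro rfl
      exact hx.2 hu
    · have hvT : ∀ u ∈ T, G.Adj v u := (hmem T v).1 hv
      have hv' : v ∉ T := fun h => (hvT v h).ne rfl
      have hcl : G.IsClique ((insert v T : Finset V) : Set V) := by
        rw [coe_insert]
        exact hT.insert fun u hu _ => hvT u hu
      have hnbe : nb G (lkF G T) v = lkF G (insert v T) := by
        ext x
        rw [mem_nb, hmem, hmem]
        constructor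
        · rintro ⟨h1, h2⟩ u hu
          rcases mem_insert.1 hu with rfl | hu
          · exact h2.symm
          · exact h1 u hu
        · intro h
          exact ⟨fun u hu => h u (mem_insert_of_mem hu), (h v (mem_insert_self v T)).symm⟩
      have hfin : Fintype ↥(lk G T) := Fintype.ofFinite _
      have hL : HSph (k + 1) (G.induce (lk G T)) := by
        have h1 := Pool.Agent.R703.CW.hsph_link hS T hT
        rwa [show n - T.card = k + 1 by omega] at h1
      let v0 : ↥(lk G T) := ⟨v, hvT⟩
      refine ⟨?_, ?_, ?_⟩
      · rw [hnbe]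
        refine ih _ hcl ?_
        rw [card_insert_of_notMem hv']
        omega
      · obtain ⟨⟨x, hx⟩, hx1, hx2⟩ := hsph_ne hL v0
        exact ⟨x, mem_mn.2 ⟨(hmem T x).2 hx, fun h => hx1 (Subtype.ext h), hx2⟩⟩
      · intro C hC hne hCne
        obtain ⟨y, hy, hyC⟩ : ∃ y ∈ mn G (lkF G T) v, y ∉ C := by
          by_contra h1
          push Not at h1
          exact hCne (Subset.antisymm hC h1)
        obtain ⟨hy1, hy2, hy3⟩ := mem_mn.1 hy
        have hyl : y ∈ lk G T := (hmem T y).1 hy1
        let C' : Finset ↥(lk G T) := univ.filter fun x => x.1 ∈ C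
        have hC' : ∀ x, x ∈ C' ↔ x.1 ∈ C := by
          intro x
          simp [C']
        obtain ⟨c0, hc0⟩ := hne
        have hc1 := mem_mn.1 (hC hc0)
        obtain ⟨c, hc, d, hd, hd1, hadj⟩ := hsph_conn hL v0 C' (by
          intro c hc
          rw [hC'] at hc
          have h1 := mem_mn.1 (hC hc)
          exact ⟨fun h => h1.2.1 (congrArg Subtype.val h), h1.2.2⟩)
          ⟨⟨c0, (hmem T c0).1 hc1.1⟩, (hC' _).2 hc0⟩ ⟨y, hyl⟩
          ⟨fun h => hy2 (congrArg Subtype.val h), hy3⟩ (fun h => hyC ((hC' _).1 h))
        refine ⟨c.1, (hC' c).1 hc, d.1, mem_mn.2 ⟨(hmem T d.1).2 d.2, ?_, hd1.2⟩, ?_, hadj⟩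
        · intro h
          exact hd1.1 (Subtype.ext h)
        · intro h
          exact hd ((hC' d).2 h)

theorem sp_univ {V : Type} [Fintype V] [LinearOrder V] {G : SimpleGraph V} {n : ℕ}
    (hS : HSph n G) : Sp G n univ := by
  have h1 := sp_of_hsph hS n ∅ (by simp) (by simp)
  have h2 : lkF G (∅ : Finset V) = univ := by
    ext x
    rw [mem_lkF]
    simp
  rwa [h2] at h1

end Pool.Agent.W5h83.FS
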