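import Pool.Agent.H79.LX.W5h83_GT_Word

/-!
# Shortest expressions in terms of one generator and the others
-/

set_option autoImplicit false

namespace Pool.Agent.W5h83.GT

open Module Pool.Agent.W907.SG
open Pool.Agent.W461.SGN (simple_mul_self simple_comm)

theorem exists_expr {V : Type} (G : SimpleGraph V) (v0 : V) (g : W G) : ∃ (b0 : W G) (l : List (W G)),
    b0 ∈ Subgroup.closure {x : W G | ∃ v, v ≠ v0 ∧ x = (cox G).simple v} ∧
    (∀ b ∈ l, b ∈ Subgroup.closure {x : W G | ∃ v, v ≠ v0 ∧ x = (cox G).simple v}) ∧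
    g = b0 * (l.map fun b => (cox G).simple v0 * b).prod := by
  classical
  refine (cox G).toCoxeterSystem.simple_induction_right (p := fun g => ∃ (b0 : W G) (l : List (W G)),
    b0 ∈ Subgroup.closure {x : W G | ∃ v, v ≠ v0 ∧ x = (cox G).simple v} ∧
    (∀ b ∈ l, b ∈ Subgroup.closure {x : W G | ∃ v, v ≠ v0 ∧ x = (cox G).simple v}) ∧
    g = b0 * (l.map fun b => (cox G).simple v0 * b).prod) g ?_ ?_
  · exact ⟨1, [], Subgroup.one_mem _, by simp, by simp⟩
  · rintro g v ⟨b0, l, h1, h2, h3⟩
    have hs : (cox G).toCoxeterSystem.simple v = (cox G).simple v := rfl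
    rw [hs]
    by_cases hv : v = v0
    · refine ⟨b0, l ++ [1], h1, ?_, ?_⟩
      · intro b hb
        rcases List.mem_append.1 hb with hb | hb
        · exact h2 b hb
        · rw [List.mem_singleton.1 hb]; exact Subgroup.one_mem _
      · rw [List.map_append, List.prod_append, List.map_singleton, List.prod_singleton, mul_one, ← mul_assoc, ← h3, hv]
    · have hm : (cox G).simple v ∈ Subgroup.closure {x : W G | ∃ v, v ≠ v0 ∧ x = (cox G).simple v} :=
        Subgroup.subset_closure ⟨v, hv, rfl⟩
      rcases List.eq_nil_or_concat l with hl | ⟨l', b, hl⟩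
      · refine ⟨b0 * (cox G).simple v, [], Subgroup.mul_mem _ h1 hm, by simp, ?_⟩
        rw [h3, hl]; simp
      · rw [List.concat_eq_append] at hl
        refine ⟨b0, l' ++ [b * (cox G).simple v], h1, ?_, ?_⟩
        · intro c hc
          rcases List.mem_append.1 hc with hc | hc
          · exact h2 c (by rw [hl]; exact List.mem_append_left _ hc)
          · rw [List.mem_singleton.1 hc]
            exact Subgroup.mul_mem _ (h2 b (by rw [hl]; simp)) hm
        · rw [h3, hl]
          simp only [List.map_append, List.prod_append, List.map_singleton, List.prod_singleton, mul_assoc]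

theorem expr0 : S_EXPR := by
  classical
  intro V G v0 g
  obtain ⟨W1, hW1⟩ : ∃ H, H = Subgroup.closure {x : W G | ∃ v, v ≠ v0 ∧ x = (cox G).simple v} := ⟨_, rfl⟩
  obtain ⟨s0, hs0⟩ : ∃ s, s = (cox G).simple v0 := ⟨_, rfl⟩
  have hss : s0 * s0 = 1 := by rw [hs0]; exact simple_mul_self G v0
  have hex : ∃ n, ∃ (b0 : W G) (l : List (W G)), b0 ∈ W1 ∧ (∀ b ∈ l, b ∈ W1) ∧
      g = b0 * (l.map fun b => s0 * b).prod ∧ l.length = n := by
    obtain ⟨b0, l, h1, h2, h3⟩ := exists_expr G v0 g
    rw [← hW1] at h1 h2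
    rw [← hs0] at h3
    exact ⟨_, b0, l, h1, h2, h3, rfl⟩
  obtain ⟨b0, l, h1, h2, h3, h4⟩ := Nat.find_spec hex
  rw [← hs0, ← hW1]
  refine ⟨b0, l, h1, h2, h3, fun b hb hb1 => ?_⟩
  have hcomm : s0 * b * s0 = b := by
    have e1 : b * s0 = s0 * b := by
      have e2 : b * s0 * b⁻¹ = s0 := by
        have := congrArg (fun x => x * s0) hb1
        simp only [one_mul] at this
        rw [mul_assoc, hss, mul_one] at this
        exact this
      exact mul_inv_eq_iff_eq_mul.1 e2
    rw [mul_assoc, e1, ← mul_assoc, hss, one_mul]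
  have hl : l ≠ [] := by
    rintro rfl
    simp at hb
  obtain ⟨l1, l2, hl12⟩ := List.append_of_mem hb
  have hdec : l = l1 ++ b :: (l2 ++ [l.getLast hl]) := by
    conv_lhs => rw [← List.dropLast_append_getLast hl, hl12]
    simp
  obtain ⟨c, r, hcr⟩ : ∃ c r, l2 ++ [l.getLast hl] = c :: r := by
    cases l2 with
    | nil => exact ⟨_, _, rfl⟩
    | cons c t => exact ⟨_, _, rfl⟩
  rw [hcr] at hdec
  have hbc : b ∈ W1 ∧ c ∈ W1 := ⟨h2 b (by rw [hdec]; simp), h2 c (by rw [hdec]; simp)⟩
  have hr : ∀ x ∈ r, x ∈ W1 := fun x hx => h2 x (by rw [hdec]; simp [hx])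
  have hprod : ∀ (k : W G), k * ((b :: c :: r).map fun b => s0 * b).prod =
      k * (b * c) * (r.map fun b => s0 * b).prod := by
    intro k
    rw [List.map_cons, List.map_cons, List.prod_cons, List.prod_cons]
    calc k * (s0 * b * (s0 * c * (r.map fun b => s0 * b).prod))
        = k * (s0 * b * s0 * c) * (r.map fun b => s0 * b).prod := by simp only [mul_assoc]
      _ = _ := by rw [hcomm]
  rcases List.eq_nil_or_concat l1 with hl1 | ⟨l1', d, hl1⟩
  · refine Nat.find_min hex (m := r.length) ?_ ⟨b0 * (b * c), r, Subgroup.mul_mem _ h1 (Subgroup.mul_mem _ hbc.1 hbc.2),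
      hr, ?_, rfl⟩
    · rw [← h4, hdec, hl1]
      simp only [List.nil_append, List.length_cons]
      omega
    · rw [← hprod, h3]
      conv_lhs => rw [hdec, hl1]
      rfl
  · rw [List.concat_eq_append] at hl1
    refine Nat.find_min hex (m := (l1' ++ (d * (b * c)) :: r).length) ?_ ⟨b0, l1' ++ (d * (b * c)) :: r, h1, ?_, ?_, rfl⟩
    · rw [← h4, hdec, hl1]
      simp only [List.length_append, List.length_cons, List.length_nil]
      omega
    · intro x hx
      rcases List.mem_append.1 hx with hx | hx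
      · exact h2 x (by rw [hdec, hl1]; simp [hx])
      · rcases List.mem_cons.1 hx with hx | hx
        · rw [hx]
          exact Subgroup.mul_mem _ (h2 d (by rw [hdec, hl1]; simp)) (Subgroup.mul_mem _ hbc.1 hbc.2)
        · exact hr x hx
    · rw [h3]
      conv_lhs => rw [hdec, hl1]
      have e4 : b0 * ((l1' ++ [d] ++ b :: c :: r).map fun b => s0 * b).prod =
          b0 * (l1'.map fun b => s0 * b).prod * (s0 * d) * ((b :: c :: r).map fun b => s0 * b).prod := by
        rw [List.map_append, List.prod_append, List.map_append, List.prod_append, List.map_singleton,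
          List.prod_singleton]
        simp only [mul_assoc]
      rw [e4, hprod, List.map_append, List.prod_append, List.map_cons, List.prod_cons]
      simp only [mul_assoc]

end Pool.Agent.W5h83.GT
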