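import Pool.Agent.H7.L.R781_VS_Conv

/-!
# The free product of groups of order two: normal forms and the tree lemma
-/

set_option autoImplicit false

namespace Pool.Agent.W5h83.GT

open Pool.Agent.W907.SG
open Pool.Agent.R781.VS (exists_ev)
open Pool.Agent.W461.SGN (simple_mul_self)

/-- the free product of groups of order two -/
abbrev FP (E : Type) : Type := W (⊥ : SimpleGraph E)

/-- the generators -/
noncomputable abbrev sf {E : Type} (e : E) : FP E := (cox (⊥ : SimpleGraph E)).simple e

theorem sf_sf {E : Type} (e : E) : sf e * sf e = 1 := simple_mul_self (⊥ : SimpleGraph E) e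

section
variable {E : Type} [DecidableEq E]

/-- reduced words -/
def Red : List E → Prop
  | [] => True
  | [_] => True
  | a :: b :: l => a ≠ b ∧ Red (b :: l)

theorem Red.tail {a : E} {l : List E} (h : Red (a :: l)) : Red l := by
  cases l with
  | nil => trivial
  | cons b t => exact h.2

/-- multiplication by a generator -/
def st (e : E) : List E → List E
  | [] => [e]
  | a :: t => if a = e then t else e :: a :: t

theorem st_red (e : E) (l : List E) (h : Red l) : Red (st e l) := by
  cases l with
  | nil => trivial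
  | cons a t =>
    show Red (if a = e then t else e :: a :: t)
    split_ifs with h1
    · exact h.tail
    · exact ⟨fun h2 => h1 h2.symm, h⟩

theorem st_st (e : E) (l : List E) (h : Red l) : st e (st e l) = l := by
  cases l with
  | nil => simp [st]
  | cons a t =>
    by_cases h1 : a = e
    · subst h1
      have e1 : st a (a :: t) = t := by simp [st]
      rw [e1]
      cases t with
      | nil => rfl
      | cons b t' =>
        have h2 : ¬ b = a := fun h2 => h.1 h2.symm
        simp [st, h2]
    · have e1 : st e (a :: t) = e :: a :: t := by simp [st, h1]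
      rw [e1]
      simp [st]

theorem exists_L : ∃ L : FP E → List E, L 1 = [] ∧ (∀ g e, L (g * sf e) = st e (L g)) ∧ (∀ g, Red (L g)) ∧
    ∀ g, L g = [] → g = 1 := by
  obtain ⟨ev, h1, h2, h3⟩ := exists_ev (X := {l : List E // Red l}) (⊥ : SimpleGraph E)
    (fun e l => ⟨st e l.1, st_red e l.1 l.2⟩) (fun e l => Subtype.ext (st_st e l.1 l.2))
    (fun u v h => absurd h (by simp))
  let L : FP E → List E := fun g => (ev ⟨[], trivial⟩ g).1
  have hL : ∀ g e, L (g * sf e) = st e (L g) := by
    intro g e
    show (ev ⟨[], trivial⟩ (g * (cox (⊥ : SimpleGraph E)).simple e)).1 = _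
    rw [h2, h3]
  have hL1 : L 1 = [] := by
    show (ev ⟨[], trivial⟩ 1).1 = []
    rw [h1]
  let wp : List E → FP E := fun l => l.foldr (fun e g => g * sf e) 1
  have hwp : ∀ (e : E) (l : List E), wp (st e l) = wp l * sf e := by
    intro e l
    cases l with
    | nil => rfl
    | cons a t =>
      by_cases h4 : a = e
      · subst h4
        have e1 : st a (a :: t) = t := by simp [st]
        rw [e1]
        show wp t = wp t * sf a * sf a
        rw [mul_assoc, sf_sf, mul_one]
      · have e1 : st e (a :: t) = e :: a :: t := by simp [st, h4]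
        rw [e1]
        rfl
  have hid : ∀ g, wp (L g) = g := by
    intro g
    refine (cox (⊥ : SimpleGraph E)).toCoxeterSystem.simple_induction_right (p := fun g => wp (L g) = g) g ?_ ?_
    · rw [hL1]; rfl
    · intro g e hg
      show wp (L (g * sf e)) = g * sf e
      rw [hL, hwp, hg]
  refine ⟨L, hL1, hL, fun g => (ev ⟨[], trivial⟩ g).2, fun g hg => ?_⟩
  rw [← hid g, hg]
  rfl

theorem summable_mul {α : Type} {g : α → ℝ} (hg : Summable g) (χ : α → ℝ) (hχ : ∀ x, |χ x| ≤ 1) :
    Summable fun x => χ x * g x := by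
  refine Summable.of_norm_bounded hg.norm fun x => ?_
  rw [norm_mul, Real.norm_eq_abs]
  exact mul_le_of_le_one_left (norm_nonneg _) (hχ x)

theorem par_last (e e0 : E) (l : List E) :
    ((st e l).length % 2 = 1 ∧ (st e l).getLast? = some e0) ↔
      (l.length % 2 = 0 ∧ l.getLast? = some e0) ∨ (l = [] ∧ e = e0) := by
  cases l with
  | nil => simp [st]
  | cons a t =>
    by_cases h1 : a = e
    · subst h1
      have e1 : st a (a :: t) = t := by simp [st]
      rw [e1]
      cases t with
      | nil => simp
      | cons b t' =>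
        simp only [List.length_cons, List.getLast?_cons_cons, reduceCtorEq, false_and, or_false]
        constructor
        · rintro ⟨h2, h3⟩; exact ⟨by omega, h3⟩
        · rintro ⟨h2, h3⟩; exact ⟨by omega, h3⟩
    · have e1 : st e (a :: t) = e :: a :: t := by simp [st, h1]
      rw [e1]
      simp only [List.length_cons, List.getLast?_cons_cons, reduceCtorEq, false_and, or_false]
      constructor
      · rintro ⟨h2, h3⟩; exact ⟨by omega, h3⟩
      · rintro ⟨h2, h3⟩; exact ⟨by omega, h3⟩

variable [Fintype E]

theorem tree_one (f : E → FP E → ℝ) (hs : ∀ e, Summable (f e)) (h1 : ∀ g, ∑ e, f e g = 0)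
    (h2 : ∀ g, ∑ e, f e (g * sf e) = 0) (e0 : E) : f e0 1 = 0 := by
  classical
  obtain ⟨L, hL1, hL2, hL3, hL4⟩ := exists_L (E := E)
  let χ1 : FP E → ℝ := fun g => if (L g).length % 2 = 0 ∧ (L g).getLast? = some e0 then 1 else 0
  let χ2 : FP E → ℝ := fun g => if (L g).length % 2 = 1 ∧ (L g).getLast? = some e0 then 1 else 0
  have b1 : ∀ g, |χ1 g| ≤ 1 := by
    intro g
    simp only [χ1]
    split_ifs <;> simp
  have b2 : ∀ g, |χ2 g| ≤ 1 := by
    intro g
    simp only [χ2]
    split_ifs <;> simp
  have key : ∀ e g, χ2 (g * sf e) = χ1 g + if g = 1 ∧ e = e0 then 1 else 0 := by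
    intro e g
    simp only [χ1, χ2]
    rw [hL2]
    have h3 := par_last e e0 (L g)
    have h4 : L g = [] ↔ g = 1 := ⟨hL4 g, fun h => by rw [h, hL1]⟩
    rw [h4] at h3
    by_cases h5 : g = 1 ∧ e = e0
    · have h6 : ¬ ((L g).length % 2 = 0 ∧ (L g).getLast? = some e0) := by
        rw [h5.1, hL1]
        simp
      rw [if_pos (h3.2 (Or.inr h5)), if_neg h6, if_pos h5, zero_add]
    · by_cases h6 : (L g).length % 2 = 0 ∧ (L g).getLast? = some e0
      · rw [if_pos (h3.2 (Or.inl h6)), if_pos h6, if_neg h5, add_zero]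
      · rw [if_neg (fun h7 => (h3.1 h7).elim h6 h5), if_neg h6, if_neg h5, add_zero]
  have hs' : ∀ e, Summable fun g => f e (g * sf e) := fun e =>
    (Equiv.summable_iff (Equiv.mulRight (sf e)) (f := f e)).2 (hs e)
  have t1 : ∑ e, ∑' g, χ2 g * f e (g * sf e) = 0 := by
    rw [← Summable.tsum_finsetSum fun e _ => summable_mul (hs' e) χ2 b2]
    have : ∀ g, ∑ e, χ2 g * f e (g * sf e) = 0 := fun g => by rw [← Finset.mul_sum, h2, mul_zero]
    simp only [this, tsum_zero]
  have t2 : ∑ e, ∑' g, χ1 g * f e g = 0 := by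
    rw [← Summable.tsum_finsetSum fun e _ => summable_mul (hs e) χ1 b1]
    have : ∀ g, ∑ e, χ1 g * f e g = 0 := fun g => by rw [← Finset.mul_sum, h1, mul_zero]
    simp only [this, tsum_zero]
  have t3 : ∀ e, ∑' g, χ2 g * f e (g * sf e) = ∑' g, χ1 g * f e g + if e = e0 then f e0 1 else 0 := by
    intro e
    have e1 : ∑' g, χ2 g * f e (g * sf e) = ∑' g, χ2 (g * sf e) * f e g := by
      rw [← Equiv.tsum_eq (Equiv.mulRight (sf e)) (fun g => χ2 (g * sf e) * f e g)]
      refine tsum_congr fun g => ?_
      show χ2 g * f e (g * sf e) = χ2 (g * sf e * sf e) * f e (g * sf e)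
      rw [mul_assoc, sf_sf, mul_one]
    rw [e1]
    have e2 : ∀ g, χ2 (g * sf e) * f e g = χ1 g * f e g + (if g = 1 then (if e = e0 then f e0 1 else 0) else 0) := by
      intro g
      rw [key, add_mul]
      congr 1
      by_cases h5 : g = 1
      · by_cases h6 : e = e0
        · rw [if_pos ⟨h5, h6⟩, if_pos h5, if_pos h6, one_mul, h5, h6]
        · rw [if_neg (fun h => h6 h.2), if_pos h5, if_neg h6, zero_mul]
      · rw [if_neg (fun h => h5 h.1), if_neg h5, zero_mul]
    simp only [e2]
    rw [Summable.tsum_add (summable_mul (hs e) χ1 b1) (summable_of_ne_finset_zero (s := {1}) fun g hg => by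
      rw [if_neg (by simpa using hg)]), tsum_ite_eq]
  rw [Finset.sum_congr rfl fun e _ => t3 e, Finset.sum_add_distrib, t2, zero_add,
    Finset.sum_ite_eq' Finset.univ e0, if_pos (Finset.mem_univ _)] at t1
  exact t1

/-- **Tree lemma.** A summable function on the edges of the tree whose sums at the vertices vanish is zero. -/
theorem tree (f : E → FP E → ℝ) (hs : ∀ e, Summable (f e)) (h1 : ∀ g, ∑ e, f e g = 0)
    (h2 : ∀ g, ∑ e, f e (g * sf e) = 0) (e0 : E) (g0 : FP E) : f e0 g0 = 0 := by
  have h := tree_one (fun e g => f e (g0 * g)) (fun e =>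
    (Equiv.summable_iff (Equiv.mulLeft g0) (f := f e)).2 (hs e)) (fun g => h1 _) (fun g => by
      have := h2 (g0 * g)
      simpa only [mul_assoc] using this) e0
  simpa using h

end

end Pool.Agent.W5h83.GT
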