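import Pool.Agent.H7.L.W907_SG_Stmts2

/-!
# `ℓ²`-Betti numbers of right-angled Coxeter groups
-/

set_option autoImplicit false

namespace Pool.Agent.W5h83.GT

open Pool.Agent.W907.SG
open scoped ENNReal

/-- The `ℓ²` harmonic `i`-chains of the Davis complex of `W G`: the square-summable functions `c` on
`W G × Finset V` such that `c` is zero outside the cliques with `i` elements, `c (w t, T) = - c (w, T)` for `t ∈ T`,
and the boundary and the coboundary of `c` are zero (`c (w, T)` is the coefficient of the cube `w W_T`). -/
def harm {V : Type} [Fintype V] [LinearOrder V] (G : SimpleGraph V) (i : ℕ) :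
    Set (lp (fun _ : W G × Finset V => ℝ) 2) :=
  {c | HarmSet G (fun v w => w * (cox G).simple v) i fun w T => c (w, T)}

open Classical in
/-- The `i`-th `ℓ²`-Betti number of `W G`: the von Neumann dimension of the space of the harmonic `i`-chains, a
closed invariant subspace of the free Hilbert module with basis the sets `T` of vertices, that is the sum over the
basis of one minus the squared distance of the basis element to the subspace. -/
noncomputable def l2b {V : Type} [Fintype V] [LinearOrder V] (G : SimpleGraph V) (i : ℕ) : ℝ :=
  ∑ T : Finset V, (1 - Metric.infDist (lp.single 2 ((1 : W G), T) (1 : ℝ) :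
    lp (fun _ : W G × Finset V => ℝ) 2) (harm G i) ^ 2)

end Pool.Agent.W5h83.GT
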