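import Pool.Agent.H79.LX.W5h83_GT_Proj
import Pool.Agent.H79.LX.W5h83_GT_Free

/-!
# Local operators
-/

set_option autoImplicit false

namespace Pool.Agent.W5h83.GT

open Module Pool.Agent.W907.SG

section ops
variable {ι E Z : Type} (a : E → Z → Z) (c : ι → E)

/-- pointwise operators -/
def o1 (Z : Type) {ι : Type} (p : (ι → ℝ) →ₗ[ℝ] (ι → ℝ)) : Module.End ℝ (Z × ι → ℝ) where
  toFun x z := p (fun j => x (z.1, j)) z.2
  map_add' x y := by
    funext z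
    have : (fun j => (x + y) (z.1, j)) = (fun j => x (z.1, j)) + fun j => y (z.1, j) := rfl
    rw [this, map_add]; rfl
  map_smul' r x := by
    funext z
    have : (fun j => (r • x) (z.1, j)) = r • fun j => x (z.1, j) := rfl
    rw [this, map_smul]; rfl

theorem o1_apply (p : (ι → ℝ) →ₗ[ℝ] (ι → ℝ)) (x : Z × ι → ℝ) (z : Z × ι) :
    o1 Z p x z = p (fun j => x (z.1, j)) z.2 := rfl

/-- the change of vertices -/
def th : Module.End ℝ (Z × ι → ℝ) where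
  toFun x z := x (a (c z.2) z.1, z.2)
  map_add' _ _ := rfl
  map_smul' _ _ := rfl

theorem th_apply (x : Z × ι → ℝ) (z : Z × ι) : th a c x z = x (a (c z.2) z.1, z.2) := rfl

/-- pointwise operators at the vertices of the second type -/
def o2 (p : (ι → ℝ) →ₗ[ℝ] (ι → ℝ)) : Module.End ℝ (Z × ι → ℝ) := th a c * o1 Z p * th a c

theorem o2_apply (p : (ι → ℝ) →ₗ[ℝ] (ι → ℝ)) (x : Z × ι → ℝ) (z : Z × ι) :
    o2 a c p x z = p (fun j => x (a (c j) (a (c z.2) z.1), j)) z.2 := rfl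

theorem th_th (ha : ∀ e z, a e (a e z) = z) : th a c * th a c = 1 := by
  refine LinearMap.ext fun x => funext fun z => ?_
  show x (a (c z.2) (a (c z.2) z.1), z.2) = x z
  rw [ha]

theorem o1_mul (p q : Module.End ℝ (ι → ℝ)) : o1 Z p * o1 Z q = o1 Z (p * q) := rfl

theorem o2_mul (ha : ∀ e z, a e (a e z) = z) (p q : Module.End ℝ (ι → ℝ)) :
    o2 a c p * o2 a c q = o2 a c (p * q) := by
  unfold o2
  rw [← o1_mul]
  calc th a c * o1 Z p * th a c * (th a c * o1 Z q * th a c)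
      = th a c * o1 Z p * (th a c * th a c) * o1 Z q * th a c := by simp only [mul_assoc]
    _ = _ := by rw [th_th a c ha, mul_one]; simp only [mul_assoc]

end ops

section fin
variable {ι E F : Type} [Fintype ι] [Fintype F] (a : E → F → F) (c : ι → E)

theorem dp_o1 (p q : (ι → ℝ) →ₗ[ℝ] (ι → ℝ)) (x y : F × ι → ℝ) (h : ∀ u v : ι → ℝ, p u ⬝ᵥ v = u ⬝ᵥ q v) :
    o1 F p x ⬝ᵥ y = x ⬝ᵥ o1 F q y := by
  unfold dotProduct
  rw [Fintype.sum_prod_type, Fintype.sum_prod_type]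
  exact Finset.sum_congr rfl fun f _ => h (fun j => x (f, j)) (fun j => y (f, j))

theorem dp_th (ha : ∀ e z, a e (a e z) = z) (x y : F × ι → ℝ) : th a c x ⬝ᵥ y = x ⬝ᵥ th a c y := by
  unfold dotProduct
  let θ : F × ι ≃ F × ι := ⟨fun z => (a (c z.2) z.1, z.2), fun z => (a (c z.2) z.1, z.2),
    fun z => by simp [ha], fun z => by simp [ha]⟩
  refine Fintype.sum_equiv θ _ _ fun z => ?_
  show x (a (c z.2) z.1, z.2) * y z = x (a (c z.2) z.1, z.2) * y (a (c z.2) (a (c z.2) z.1), z.2)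
  rw [ha]

theorem dp_o2 (ha : ∀ e z, a e (a e z) = z) (p q : (ι → ℝ) →ₗ[ℝ] (ι → ℝ)) (x y : F × ι → ℝ)
    (h : ∀ u v : ι → ℝ, p u ⬝ᵥ v = u ⬝ᵥ q v) : o2 a c p x ⬝ᵥ y = x ⬝ᵥ o2 a c q y := by
  show th a c (o1 F p (th a c x)) ⬝ᵥ y = x ⬝ᵥ th a c (o1 F q (th a c y))
  rw [dp_th a c ha, dp_o1 p q _ _ h, dp_th a c ha]

theorem dp_nonneg {κ : Type} [Fintype κ] (x : κ → ℝ) : 0 ≤ x ⬝ᵥ x :=
  Finset.sum_nonneg fun _ _ => mul_self_nonneg _

theorem pos_o1 (p : (ι → ℝ) →ₗ[ℝ] (ι → ℝ)) (x : F × ι → ℝ) (h : ∀ u : ι → ℝ, 0 ≤ u ⬝ᵥ p u) :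
    0 ≤ x ⬝ᵥ o1 F p x := by
  unfold dotProduct
  rw [Fintype.sum_prod_type]
  exact Finset.sum_nonneg fun f _ => h (fun j => x (f, j))

theorem pos_o2 (ha : ∀ e z, a e (a e z) = z) (p : (ι → ℝ) →ₗ[ℝ] (ι → ℝ)) (x : F × ι → ℝ)
    (h : ∀ u : ι → ℝ, 0 ≤ u ⬝ᵥ p u) : 0 ≤ x ⬝ᵥ o2 a c p x := by
  show 0 ≤ x ⬝ᵥ th a c (o1 F p (th a c x))
  rw [← dp_th a c ha]
  exact pos_o1 p _ h

/-- the solutions -/
def Sol (K1 K2 : Submodule ℝ (ι → ℝ)) : Submodule ℝ (F × ι → ℝ) where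
  carrier := {x | (∀ f, (fun j => x (f, j)) ∈ K1) ∧ ∀ f, (fun j => x (a (c j) f, j)) ∈ K2}
  add_mem' h h' := ⟨fun f => K1.add_mem (h.1 f) (h'.1 f), fun f => K2.add_mem (h.2 f) (h'.2 f)⟩
  zero_mem' := ⟨fun _ => K1.zero_mem, fun _ => K2.zero_mem⟩
  smul_mem' r _ h := ⟨fun f => K1.smul_mem r (h.1 f), fun f => K2.smul_mem r (h.2 f)⟩

theorem mem_Sol {K1 K2 : Submodule ℝ (ι → ℝ)} {x : F × ι → ℝ} :
    x ∈ Sol a c K1 K2 ↔ (∀ f, (fun j => x (f, j)) ∈ K1) ∧ ∀ f, (fun j => x (a (c j) f, j)) ∈ K2 := Iff.rfl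

/-- the operator of the solutions -/
noncomputable def oC {Z : Type} (a : E → Z → Z) (p1 p2 : (ι → ℝ) →ₗ[ℝ] (ι → ℝ)) : Module.End ℝ (Z × ι → ℝ) :=
  (1 / 2 : ℝ) • (o1 Z p1 + o2 a c p2)

variable [DecidableEq F] [DecidableEq ι]

theorem sol_le (ha : ∀ e z, a e (a e z) = z) {K1 K2 : Submodule ℝ (ι → ℝ)} {p1 p2 : (ι → ℝ) →ₗ[ℝ] (ι → ℝ)}
    (h1 : IsPr K1 p1) (h2 : IsPr K2 p2) (k : ℕ) :
    (finrank ℝ (Sol a c K1 K2) : ℝ) ≤ LinearMap.trace ℝ (F × ι → ℝ) (oC c a p1 p2 ^ k) := by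
  have hpos : ∀ {K : Submodule ℝ (ι → ℝ)} {p : (ι → ℝ) →ₗ[ℝ] (ι → ℝ)}, IsPr K p → ∀ u : ι → ℝ, 0 ≤ u ⬝ᵥ p u := by
    intro K p hp u
    rw [← hp.idem, ← hp.symm]
    exact dp_nonneg _
  refine kaz _ _ (fun x y => ?_) (fun x => ?_) (fun x hx => ?_) k
  · show ((1 / 2 : ℝ) • (o1 F p1 x + o2 a c p2 x)) ⬝ᵥ y = x ⬝ᵥ ((1 / 2 : ℝ) • (o1 F p1 y + o2 a c p2 y))
    rw [smul_dotProduct, dotProduct_smul, add_dotProduct, dotProduct_add, dp_o1 p1 p1 x y h1.symm,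
      dp_o2 a c ha p2 p2 x y h2.symm]
  · show 0 ≤ x ⬝ᵥ ((1 / 2 : ℝ) • (o1 F p1 x + o2 a c p2 x))
    rw [dotProduct_smul, dotProduct_add]
    have e1 := pos_o1 (F := F) p1 x (hpos h1)
    have e2 := pos_o2 a c ha p2 x (hpos h2)
    show 0 ≤ (1 / 2 : ℝ) * _
    positivity
  · have e1 : o1 F p1 x = x := by
      funext z
      rw [o1_apply, h1.of_mem (hx.1 z.1)]
    have e2 : o2 a c p2 x = x := by
      funext z
      rw [o2_apply, h2.of_mem (hx.2 (a (c z.2) z.1))]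
      show x (a (c z.2) (a (c z.2) z.1), z.2) = x z
      rw [ha]
    show (1 / 2 : ℝ) • (o1 F p1 x + o2 a c p2 x) = x
    rw [e1, e2, ← two_smul ℝ x, smul_smul]
    norm_num

end fin

section loc
open Classical

variable {ι E : Type} [Fintype ι] [Fintype E] (c : ι → E)

/-- the elements of length at most `2` used by one step -/
noncomputable def Dn (E : Type) [Fintype E] : Finset (FP E) :=
  insert 1 (Finset.univ.image fun x : E × E => sf x.1 * sf x.2)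

noncomputable def Rn (E : Type) [Fintype E] : ℕ → Finset (FP E)
  | 0 => {1}
  | n + 1 => (Rn E n).biUnion fun h => (Dn E).image fun d => h * d

theorem one_mem_Rn (n : ℕ) : (1 : FP E) ∈ Rn E n := by
  induction n with
  | zero => exact Finset.mem_singleton_self _
  | succ n ih =>
    refine Finset.mem_biUnion.2 ⟨1, ih, Finset.mem_image.2 ⟨1, Finset.mem_insert_self _ _, mul_one _⟩⟩

theorem Rn_succ (n : ℕ) : Rn E n ⊆ Rn E (n + 1) := by
  intro h hh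
  exact Finset.mem_biUnion.2 ⟨h, hh, Finset.mem_image.2 ⟨1, Finset.mem_insert_self _ _, mul_one _⟩⟩

theorem Rn_mono {n m : ℕ} (h : n ≤ m) : Rn E n ⊆ Rn E m := by
  induction h with
  | refl => exact Finset.Subset.refl _
  | step _ ih => exact ih.trans (Rn_succ _)

/-- the action of the generators on the group -/
noncomputable def aU (e : E) (g : FP E) : FP E := g * sf e

theorem aU_aU (e : E) (g : FP E) : aU e (aU e g) = g := by
  unfold aU
  rw [mul_assoc, sf_sf, mul_one]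

/-- locality -/
def Loc (n : ℕ) (T : Module.End ℝ (FP E × ι → ℝ)) : Prop :=
  ∀ (x y : FP E × ι → ℝ) (g : FP E) (i : ι), (∀ h ∈ Rn E n, ∀ j, x (g * h, j) = y (g * h, j)) →
    T x (g, i) = T y (g, i)

/-- one step -/
def One (T : Module.End ℝ (FP E × ι → ℝ)) : Prop :=
  ∀ (x y : FP E × ι → ℝ) (g : FP E) (i : ι), (∀ h ∈ Dn E, ∀ j, x (g * h, j) = y (g * h, j)) →
    T x (g, i) = T y (g, i)

theorem Loc.one : Loc (E := E) (ι := ι) 0 1 := by
  intro x y g i h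
  have := h 1 (Finset.mem_singleton_self _) i
  rwa [mul_one] at this

theorem Loc.mul {n : ℕ} {T T' : Module.End ℝ (FP E × ι → ℝ)} (h : Loc n T) (h' : One T') : Loc (n + 1) (T * T') := by
  intro x y g i hxy
  show T (T' x) (g, i) = T (T' y) (g, i)
  refine h _ _ g i fun u hu j => h' _ _ _ _ fun d hd k => ?_
  rw [mul_assoc]
  exact hxy _ (Finset.mem_biUnion.2 ⟨u, hu, Finset.mem_image.2 ⟨d, hd, rfl⟩⟩) k

theorem Loc.pow {T : Module.End ℝ (FP E × ι → ℝ)} (h : One T) (n : ℕ) : Loc n (T ^ n) := by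
  induction n with
  | zero => exact Loc.one
  | succ n ih => rw [pow_succ]; exact ih.mul h

theorem Loc.pow2 {T T' : Module.End ℝ (FP E × ι → ℝ)} (h : One T) (h' : One T') (n : ℕ) :
    Loc (2 * n) ((T * T') ^ n) := by
  induction n with
  | zero => exact Loc.one
  | succ n ih =>
    rw [pow_succ, ← mul_assoc]
    exact (ih.mul h).mul h'

theorem One.o1 (p : (ι → ℝ) →ₗ[ℝ] (ι → ℝ)) : One (E := E) (GT.o1 (FP E) p) := by
  intro x y g i h
  rw [o1_apply, o1_apply]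
  refine congrFun (congrArg p (funext fun j => ?_)) _
  have := h 1 (Finset.mem_insert_self _ _) j
  rwa [mul_one] at this

theorem One.o2 (p : (ι → ℝ) →ₗ[ℝ] (ι → ℝ)) : One (GT.o2 aU c p) := by
  intro x y g i h
  rw [o2_apply, o2_apply]
  refine congrFun (congrArg p (funext fun j => ?_)) _
  have := h (sf (c i) * sf (c j)) (Finset.mem_insert_of_mem (Finset.mem_image.2 ⟨(c i, c j), Finset.mem_univ _, rfl⟩)) j
  rwa [← mul_assoc] at this

theorem One.add {T T' : Module.End ℝ (FP E × ι → ℝ)} (h : One T) (h' : One T') : One (T + T') :=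
  fun x y g i hxy => by
    show T x (g, i) + T' x (g, i) = T y (g, i) + T' y (g, i)
    rw [h x y g i hxy, h' x y g i hxy]

theorem One.smul {T : Module.End ℝ (FP E × ι → ℝ)} (r : ℝ) (h : One T) : One (r • T) :=
  fun x y g i hxy => by
    show r * T x (g, i) = r * T y (g, i)
    rw [h x y g i hxy]

variable {F : Type} (ev : F → FP E → F)

/-- naturality -/
def Nt (T : Module.End ℝ (FP E × ι → ℝ)) (T' : Module.End ℝ (F × ι → ℝ)) : Prop :=
  ∀ (x : F × ι → ℝ) (f : F), T (fun w => x (ev f w.1, w.2)) = fun w => T' x (ev f w.1, w.2)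

variable {ev}

theorem Nt.one : Nt (ι := ι) ev 1 1 := fun _ _ => rfl

theorem Nt.mul {T S : Module.End ℝ (FP E × ι → ℝ)} {T' S' : Module.End ℝ (F × ι → ℝ)} (h : Nt ev T T')
    (h' : Nt ev S S') : Nt ev (T * S) (T' * S') := fun x f => by
  show T (S (fun w => x (ev f w.1, w.2))) = _
  rw [h' x f, h (S' x) f]; rfl

theorem Nt.pow {T : Module.End ℝ (FP E × ι → ℝ)} {T' : Module.End ℝ (F × ι → ℝ)} (h : Nt ev T T') (n : ℕ) :
    Nt ev (T ^ n) (T' ^ n) := by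
  induction n with
  | zero => exact Nt.one
  | succ n ih => rw [pow_succ, pow_succ]; exact ih.mul h

theorem Nt.add {T S : Module.End ℝ (FP E × ι → ℝ)} {T' S' : Module.End ℝ (F × ι → ℝ)} (h : Nt ev T T')
    (h' : Nt ev S S') : Nt ev (T + S) (T' + S') := fun x f => by
  show T (fun w => x (ev f w.1, w.2)) + S (fun w => x (ev f w.1, w.2)) = _
  rw [h x f, h' x f]; rfl

theorem Nt.smul {T : Module.End ℝ (FP E × ι → ℝ)} {T' : Module.End ℝ (F × ι → ℝ)} (r : ℝ) (h : Nt ev T T') :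
    Nt ev (r • T) (r • T') := fun x f => by
  show r • T (fun w => x (ev f w.1, w.2)) = _
  rw [h x f]; rfl

theorem Nt.o1 (p : (ι → ℝ) →ₗ[ℝ] (ι → ℝ)) : Nt (E := E) ev (GT.o1 (FP E) p) (GT.o1 F p) := fun _ _ => rfl

theorem Nt.o2 {a : E → F → F} (hev2 : ∀ f g h, ev f (g * h) = ev (ev f g) h)
    (hev3 : ∀ f e, ev f (sf e) = a e f) (p : (ι → ℝ) →ₗ[ℝ] (ι → ℝ)) : Nt ev (GT.o2 aU c p) (GT.o2 a c p) := by
  intro x f
  funext w
  rw [o2_apply, o2_apply]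
  refine congrFun (congrArg p (funext fun j => ?_)) _
  show x (ev f (w.1 * sf (c w.2) * sf (c j)), j) = _
  rw [hev2, hev2, hev3, hev3]

/-- the normalised trace -/
noncomputable def nt (T : Module.End ℝ (FP E × ι → ℝ)) : ℝ := ∑ i, T (Pi.single (1, i) 1) (1, i)

theorem trace_eq [Fintype F] {T : Module.End ℝ (FP E × ι → ℝ)} {T' : Module.End ℝ (F × ι → ℝ)} {n : ℕ}
    (hev1 : ∀ f, ev f 1 = f) (hl : Loc n T) (hn : Nt ev T T') (hfree : ∀ h ∈ Rn E n, h ≠ 1 → ∀ f, ev f h ≠ f) :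
    LinearMap.trace ℝ (F × ι → ℝ) T' = Fintype.card F * nt T := by
  rw [tr_eq, Fintype.sum_prod_type]
  have h1 : ∀ (f : F) (i : ι), T' (Pi.single (f, i) 1) (f, i) = T (Pi.single (1, i) 1) (1, i) := by
    intro f i
    have h2 := congrFun (hn (Pi.single (f, i) 1) f) (1, i)
    simp only [hev1] at h2
    rw [← h2]
    refine hl _ _ 1 i fun h hh j => ?_
    rw [one_mul]
    show (Pi.single (f, i) 1 : F × ι → ℝ) (ev f h, j) = (Pi.single (1, i) 1 : FP E × ι → ℝ) (h, j)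
    by_cases h3 : h = 1
    · rw [h3, hev1]
      by_cases h4 : j = i
      · rw [h4, Pi.single_eq_same, Pi.single_eq_same]
      · rw [Pi.single_eq_of_ne (fun e => h4 (congrArg Prod.snd e)),
          Pi.single_eq_of_ne (fun e => h4 (congrArg Prod.snd e))]
    · rw [Pi.single_eq_of_ne (fun e => hfree h hh h3 f (congrArg Prod.fst e)),
        Pi.single_eq_of_ne (fun e => h3 (congrArg Prod.fst e))]
  simp only [h1]
  rw [Finset.sum_const, Finset.card_univ, nsmul_eq_mul]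
  rfl

end loc

end Pool.Agent.W5h83.GT
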