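import Pool.Agent.H79.LX.W5h83_GT_NumS
import Pool.Agent.H79.LX.W5h83_GT_L2bDef
import Pool.Agent.H7.L.R781_VS_Conv

/-!
# `ℓ²`-Betti numbers and finite sets
-/

set_option autoImplicit false

namespace Pool.Agent.W5h83.GT

open Module Pool.Agent.W907.SG Pool.Agent.W334.SG Pool.Agent.W372.SG.FIN
open Pool.Agent.R781.VS (exists_ev)
open Pool.Agent.W338.SG (inA inA_ne inA_simple)
open scoped ENNReal

variable {V : Type} [Fintype V] [LinearOrder V]

theorem KerL_eq (G : SimpleGraph V) (i : ℕ) :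
    KerL (gam G) (fun j τ' τ => bb G i τ' (j, τ)) = harm G i := by
  ext c
  have h1 := mem_KS G i (fun x g : W G => x * g) (fun w T => c (w, T))
  have h2 := mem_KS' G i (fun v w => w * (cox G).simple v) (fun x g : W G => x * g) (fun x => mul_one x)
    (fun _ _ => rfl) (fun w T => c (w, T))
  exact h1.symm.trans h2

theorem dimL_eq (G : SimpleGraph V) (i : ℕ) :
    dimL (gam G) (fun j τ' τ => bb G i τ' (j, τ)) = l2b G i := by
  unfold dimL l2b
  rw [KerL_eq]
  refine Finset.sum_congr rfl fun T _ => ?_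
  refine congrArg (fun u : lp (fun _ : W G × Finset V => ℝ) 2 => 1 - Metric.infDist u (harm G i) ^ 2) ?_
  exact congrArg (fun d : DecidableEq (W G × Finset V) =>
    (@lp.single (W G × Finset V) (fun _ => ℝ) _ d 2 ((1 : W G), T) (1 : ℝ))) (Subsingleton.elim _ _)

/-- the numerical form of `small` -/
theorem smallN (hK : S_KAZN) (G : SimpleGraph V) (i : ℕ) (ε : ℝ) (hε : 0 < ε) :
    ∃ E : Finset (W G), (1 : W G) ∉ E ∧ ∀ (X : Type) [Fintype X] (a : V → X → X) (ev : X → W G → X),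
      (∀ v x, a v (a v x) = x) → (∀ u v, G.Adj u v → ∀ x, a u (a v x) = a v (a u x)) →
      (∀ x, ev x 1 = x) → (∀ x g h, ev x (g * h) = ev (ev x g) h) → (∀ x v, ev x ((cox G).simple v) = a v x) →
      (∀ g ∈ E, ∀ x, ev x g ≠ x) → (beta G (pull ℝ a) Set.univ ∅ i : ℝ) ≤ (l2b G i + ε) * Fintype.card X := by
  classical
  obtain ⟨E, hE1, hE⟩ := hK (W G) (Finset V) (TT V) (Option V) (gam G) (fun j τ' τ => bb G i τ' (j, τ)) ε hε
  refine ⟨E, hE1, ?_⟩
  intro X _ a ev ha hco h1 h2 h3 h4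
  have hf := hE X ev h1 h2 h4 (KS G i ev) (fun c => Iff.rfl)
  rw [hodr V X G a ha hco i (KS G i ev) (mem_KS' G i a ev h1 h3), dimL_eq] at hf
  exact hf

theorem smallN_restrict (hK : S_KAZN) (G : SimpleGraph V) (A : Set V) [Fintype A] (i : ℕ) (ε : ℝ) (hε : 0 < ε) :
    ∃ E : Finset (W G), (1 : W G) ∉ E ∧ ∀ (X : Type) [Fintype X] (a : V → X → X)
      (ev : X → W G → X), (∀ v x, a v (a v x) = x) →
      (∀ u v, G.Adj u v → ∀ x, a u (a v x) = a v (a u x)) →
      (∀ x, ev x 1 = x) → (∀ x g h, ev x (g * h) = ev (ev x g) h) →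
      (∀ x v, ev x ((cox G).simple v) = a v x) →
      (∀ g ∈ E, ∀ x, ev x g ≠ x) → (beta G (pull ℝ a) A ∅ i : ℝ) ≤ (l2b (G.induce A) i + ε) * Fintype.card X := by
  classical
  obtain ⟨E1, h1, h2⟩ := smallN hK (G.induce A) i ε hε
  refine ⟨E1.image (inA G A), fun h => ?_, fun X _ a ev k1 k2 k3 k4 k5 k6 => ?_⟩
  · obtain ⟨g, hg, hg'⟩ := Finset.mem_image.1 h
    exact inA_ne G A (fun he => h1 (he ▸ hg)) hg'
  · have h3 := tr A V ℝ (X → ℝ) G (G.induce A) (pull ℝ a) (fun u => (u : V))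
      (Subtype.strictMono_coe _) (fun u u' => Iff.rfl) i
    rw [Subtype.range_coe] at h3
    rw [h3]
    refine h2 X (fun u => a (u : V)) (fun x g => ev x (inA G A g)) (fun v x => k1 _ x)
      (fun u v huv x => k2 _ _ huv x) (fun x => ?_) (fun x g h => ?_) (fun x v => ?_)
      (fun g hg x => k6 _ (Finset.mem_image_of_mem _ hg) x)
    · rw [map_one, k3]
    · rw [map_mul, k4]
    · rw [inA_simple, k5]

/-- the numerical form of `large`, for sets with signs -/
theorem l2b_le (hL : S_LUEN) (G : SimpleGraph V) (i : ℕ) (r : ℝ)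
    (h : ∀ ε : ℝ, 0 < ε → ∃ (X : Type) (_ : Fintype X) (_ : Nonempty X) (a : V → X → X) (sgn : V → X → Bool),
      (∀ v x, a v (a v x) = x) ∧ (∀ u v, G.Adj u v → ∀ x, a u (a v x) = a v (a u x)) ∧
      (∀ v x, sgn v (a v x) = !(sgn v x)) ∧ (∀ u v, u ≠ v → ∀ x, sgn u (a v x) = sgn u x) ∧
      (beta G (pull ℝ a) Set.univ ∅ i : ℝ) ≤ (r + ε) * Fintype.card X) : l2b G i ≤ r := by
  classical
  rw [← dimL_eq]
  refine hL (W G) (Finset V) (TT V) (Option V) (gam G) (fun j τ' τ => bb G i τ' (j, τ)) r fun ε hε E hE => ?_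
  obtain ⟨X, i1, i2, a, sgn, k1, k2, k3, k4, k5⟩ := h ε hε
  obtain ⟨ev, e1, e2, e3⟩ := exists_ev G a k1 k2
  obtain ⟨-, P0, hP0⟩ := charT V X G a sgn k1 k2 k3 k4 i
  obtain ⟨p, hp, hpp⟩ := Nat.exists_infinite_primes (max P0 3)
  have hF : Fact p.Prime := ⟨hpp⟩
  have hp2 : p ≠ 2 := by
    have := (le_max_right P0 3).trans hp
    omega
  obtain ⟨Y, _, _, Q, ev', f1, f2, f3, f4⟩ := nilp p V G E hp2 hE
  have hev1 : ∀ z : X × Y, (ev z.1 1, ev' z.2 1) = z := fun z => by rw [e1, f1]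
  have hev3 : ∀ (z : X × Y) v, (ev z.1 ((cox G).simple v), ev' z.2 ((cox G).simple v)) = (a v z.1, Q.a v z.2) :=
    fun z v => by rw [e3, f3]
  refine ⟨X × Y, inferInstance, inferInstance, fun z g => (ev z.1 g, ev' z.2 g), hev1, fun z g h => ?_,
    fun g hg z => ?_, KS G i (fun (z : X × Y) g => (ev z.1 g, ev' z.2 g)), fun c => Iff.rfl, ?_⟩
  · simp only [e2, f2]
  · intro h
    exact f4 g hg z.2 (congrArg Prod.snd h)
  · rw [hodr V (X × Y) G (fun v z => (a v z.1, Q.a v z.2)) (fun v z => by simp only [k1, Q.inv])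
      (fun u v h z => by simp only [k2 u v h, Q.comm u v h]) i _ (mem_KS' G i _ _ hev1 hev3)]
    have c1 := (charT V (X × Y) G (fun v z => (a v z.1, Q.a v z.2))
      (fun v z => sgn v z.1) (fun v z => by simp only [k1, Q.inv])
      (fun u v h z => by simp only [k2 u v h, Q.comm u v h])
      (fun v z => k3 v z.1) (fun u v h z => k4 u v h z.1) i).1 p hp2
    have c2 := mlp p V X Y G a sgn Q.a hp2 k1 k2 k3 k4 Q.inv Q.comm Q.ptype i
    have c3 := hP0 p ((le_max_left _ _).trans hp)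
    have c4 : (beta G (pull ℝ (fun v (z : X × Y) => (a v z.1, Q.a v z.2))) Set.univ ∅ i : ℝ) ≤
        Fintype.card Y * beta G (pull ℝ a) Set.univ ∅ i := by
      exact_mod_cast c1.trans (c2.trans (Nat.mul_le_mul_left _ c3))
    rw [Fintype.card_prod]
    push_cast
    have hY : (0 : ℝ) ≤ Fintype.card Y := Nat.cast_nonneg _
    nlinarith [mul_le_mul_of_nonneg_left k5 hY]

end Pool.Agent.W5h83.GT
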