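import Pool.Agent.H79.LX.W5h83_GT_Num2
import Pool.Agent.H79.LX.W5h83_GT_Num1
import Pool.Agent.H79.LX.W5h83_GT_Half
import Pool.Agent.H79.LX.W5h83_GT_Expr

/-!
# The numerical gluing inequality
-/

set_option autoImplicit false
set_option linter.unusedSectionVars false

namespace Pool.Agent.W5h83.GT

open Module Pool.Agent.W907.SG
open Pool.Agent.TH652.Glue (KK_mono BB_mono)
open Pool.Agent.R781.VS (exists_ev)

section slice
variable {V X F : Type} [Fintype V] [LinearOrder V] {G : SimpleGraph V} {v0 : V} {a : V → X → X}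
  {b : V → X × F → X × F}

theorem ZZ_slice (hb : ∀ v, v ≠ v0 → ∀ z, b v z = (a v z.1, z.2)) {A S : Set V} (hA : v0 ∉ A) (hS : v0 ∉ S) {i : ℕ}
    {y : Finset V → X × F → ℝ} :
    y ∈ ZZ G (pull ℝ b) A S i ↔ ∀ f, (fun T x => y T (x, f)) ∈ ZZ G (pull ℝ a) A S i := by
  constructor
  · intro h f
    refine ⟨(KK_slice hb hA hS).1 h.1 f, ?_⟩
    show bd ℝ (fun T x => y T (x, f)) = 0
    have h2 : bd ℝ y = 0 := h.2
    rw [← bd_slice, h2]; rfl
  · intro h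
    refine ⟨(KK_slice hb hA hS).2 fun f => (h f).1, ?_⟩
    show bd ℝ y = 0
    funext T z
    have h1 := congrFun (congrFun (bd_slice y z.2) T) z.1
    have h2 : bd ℝ (fun T x => y T (x, z.2)) = 0 := (h z.2).2
    rw [h2] at h1
    exact h1

variable [Fintype X] [Fintype F]

theorem finrank_BB_prod (hb : ∀ v, v ≠ v0 → ∀ z, b v z = (a v z.1, z.2)) {A : Set V} (hA : v0 ∉ A) (i : ℕ) :
    finrank ℝ (BB G (pull ℝ b) A ∅ i) = Fintype.card F * finrank ℝ (BB G (pull ℝ a) A ∅ i) := by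
  rw [← finrank_sw, ← finrank_uc (BB G (pull ℝ a) A ∅ i), ← finrank_PV]
  have : (BB G (pull ℝ b) A ∅ i).comap (sw V X F).toLinearMap = PV F (uc (BB G (pull ℝ a) A ∅ i)) := by
    ext w
    exact BB_slice (y := sw V X F w) hb hA (by simp)
  rw [this]

theorem finrank_ZZ_prod (hb : ∀ v, v ≠ v0 → ∀ z, b v z = (a v z.1, z.2)) {A : Set V} (hA : v0 ∉ A) (i : ℕ) :
    finrank ℝ (ZZ G (pull ℝ b) A ∅ i) = Fintype.card F * finrank ℝ (ZZ G (pull ℝ a) A ∅ i) := by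
  rw [← finrank_sw, ← finrank_uc (ZZ G (pull ℝ a) A ∅ i), ← finrank_PV]
  have : (ZZ G (pull ℝ b) A ∅ i).comap (sw V X F).toLinearMap = PV F (uc (ZZ G (pull ℝ a) A ∅ i)) := by
    ext w
    exact ZZ_slice (y := sw V X F w) hb hA (by simp)
  rw [this]

end slice

section
variable {V X E : Type} [Fintype V] [LinearOrder V] [Fintype X] [Fintype E] {G : SimpleGraph V} {a : V → X → X}
  {e : X → E} {S : Set V}

open Classical in
theorem ZZ_hom (he : ∀ v ∈ S, ∀ x, e (a v x) = e x) (i : ℕ) : Hom (cl V e) (uc (ZZ G (pull ℝ a) S ∅ i)) := by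
  intro u hu e0
  refine ⟨KK_hom (G := G) he i u hu.1 e0, ?_⟩
  have h1 : bd ℝ (fun T x => u (T, x)) = 0 := hu.2
  show bd ℝ (fun (T : Finset V) (x : X) => if e x = e0 then u (T, x) else 0) = 0
  funext T x
  have h2 := congrFun (congrFun h1 T) x
  rw [bd_apply, Finset.sum_apply] at h2 ⊢
  show ∑ v ∈ Tᶜ, sg v T • (if e x = e0 then u (insert v T, x) else 0) = 0
  have h3 : ∑ v ∈ Tᶜ, sg v T • u (insert v T, x) = 0 := h2
  split_ifs
  · exact h3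
  · simp

end

section main
variable {V X F E : Type} [Fintype V] [LinearOrder V] [Fintype X] [Fintype F] [Fintype E]
  {G : SimpleGraph V} {v0 : V} {a : V → X → X} {b : V → X × F → X × F} {τ : E → F → F} {e : X → E}

theorem hdN (hb : ∀ v, v ≠ v0 → ∀ z, b v z = (a v z.1, z.2))
    (hb0 : ∀ z, b v0 z = (z.1, τ (e z.1) z.2)) (hτ : ∀ e f, τ e (τ e f) = f) (sgn : E → F → Bool)
    (hsgn : ∀ e f, sgn e (τ e f) = !(sgn e f)) {A S : Set V} (hA : v0 ∉ A) (hS : A ∩ G.neighborSet v0 = S) (i : ℕ)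
    (V' : Submodule ℝ (Finset V × X → ℝ)) (hV : Hom (cl V e) V') :
    2 * (Fintype.card F * finrank ℝ ↥(uc (BB G (pull ℝ a) A ∅ i ⊓ KK G (pull ℝ a) S ∅ i) ⊓ V')) ≤
      Fintype.card F * finrank ℝ V' + 2 * finrank ℝ ↥(BB G (pull ℝ b) A ∅ i ⊓ KK G (pull ℝ b) S {v0} i) := by
  have hvS : v0 ∉ S := fun h => hA (by rw [← hS] at h; exact h.1)
  have p1 : finrank ℝ (PV F (uc (BB G (pull ℝ a) A ∅ i ⊓ KK G (pull ℝ a) S ∅ i) ⊓ V')) = _ := finrank_PV _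
  have p2 := half (Finset V × X) E F τ (cl V e) sgn hτ hsgn V' hV
  have q1 := Submodule.finrank_sup_add_finrank_inf_eq
    (PV F (uc (BB G (pull ℝ a) A ∅ i ⊓ KK G (pull ℝ a) S ∅ i) ⊓ V')) (PV F V' ⊓ An τ (cl V e))
  have q2 : finrank ℝ ↥(PV F (uc (BB G (pull ℝ a) A ∅ i ⊓ KK G (pull ℝ a) S ∅ i) ⊓ V') ⊔
      (PV F V' ⊓ An τ (cl V e))) ≤ finrank ℝ (PV F V') :=
    Submodule.finrank_mono (sup_le (fun w hw f => (hw f).2) inf_le_left)
  have q3 : finrank ℝ ↥(PV F (uc (BB G (pull ℝ a) A ∅ i ⊓ KK G (pull ℝ a) S ∅ i) ⊓ V') ⊓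
      (PV F V' ⊓ An τ (cl V e))) ≤
      finrank ℝ ↥(PV F (uc (BB G (pull ℝ a) A ∅ i ⊓ KK G (pull ℝ a) S ∅ i)) ⊓ An τ (cl V e)) :=
    Submodule.finrank_mono fun w hw => ⟨fun f => (hw.1 f).1, hw.2.2⟩
  have q4 := Submodule.finrank_mono (lemI (G := G) (A := A) (S := S) (i := i) (V := V) hb hb0 hA hvS)
  rw [finrank_sw] at q4
  omega

theorem sideN (hb : ∀ v, v ≠ v0 → ∀ z, b v z = (a v z.1, z.2))
    (hb0 : ∀ z, b v0 z = (z.1, τ (e z.1) z.2)) (hτ : ∀ e f, τ e (τ e f) = f) (sgn : E → F → Bool)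
    (hsgn : ∀ e f, sgn e (τ e f) = !(sgn e f)) {A S : Set V} (hA : v0 ∉ A) (hS : A ∩ G.neighborSet v0 = S)
    (he : ∀ v ∈ S, ∀ x, e (a v x) = e x) (j : ℕ) :
    2 * (Fintype.card F * finrank ℝ (ZZ G (pull ℝ a) A ∅ (j + 1))) +
      2 * finrank ℝ ↥(BB G (pull ℝ b) A ∅ j ⊓ KK G (pull ℝ b) S {v0} j) +
      2 * finrank ℝ ↥(BB G (pull ℝ b) A ∅ (j + 1) ⊓ KK G (pull ℝ b) S {v0} (j + 1)) ≤
    2 * beta G (pull ℝ b) (insert v0 A) ∅ (j + 1) + Fintype.card F * finrank ℝ (BB G (pull ℝ a) S ∅ j) +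
      Fintype.card F * finrank ℝ (ZZ G (pull ℝ a) S ∅ (j + 1)) +
      2 * (Fintype.card F * finrank ℝ (BB G (pull ℝ a) A ∅ (j + 1))) := by
  have hvS : v0 ∉ S := fun h => hA (by rw [← hS] at h; exact h.1)
  have c1 := cone_exact G (pull ℝ b) A v0 hA j
  rw [hS, finrank_BB_prod hb hA, finrank_ZZ_prod hb hA] at c1
  have p3 := (half (Finset V × X) E F τ (cl V e) sgn hτ hsgn _ (BB_hom (G := G) he j)).2
  rw [finrank_uc] at p3
  have q6 := Submodule.finrank_mono (lemII (G := G) (S := S) (i := j) (V := V) hb hb0 hvS)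
  rw [finrank_sw] at q6
  have p4 := (half (Finset V × X) E F τ (cl V e) sgn hτ hsgn _ (ZZ_hom (G := G) he (j + 1))).2
  rw [finrank_uc] at p4
  have q7 : (ZZ G (pull ℝ b) S {v0} (j + 1)).comap (sw V X F).toLinearMap ≤
      PV F (uc (ZZ G (pull ℝ a) S ∅ (j + 1))) ⊓ An τ (cl V e) := by
    intro w hw
    have h0 : sw V X F w ∈ ZZ G (pull ℝ b) S {v0} (j + 1) := hw
    refine ⟨fun f => ?_, ?_⟩
    · have h1 : sw V X F w ∈ ZZ G (pull ℝ b) S ∅ (j + 1) :=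
        ⟨⟨h0.1.1, fun T t ht => h0.1.2 T t (ht.elim Or.inl fun h => absurd h (by simp))⟩, h0.2⟩
      exact (ZZ_slice hb hvS (by simp)).1 h1 f
    · exact (an_iff hb0 w).2 fun T => h0.1.2 T v0 (Or.inr rfl)
  have q8 := Submodule.finrank_mono q7
  rw [finrank_sw] at q8
  omega

end main

section conj
variable {V Y : Type} [Fintype V] [LinearOrder V] {G : SimpleGraph V}

theorem ZZ_conj {b1 b2 : V → Y → Y} (Θ : Y → Y) {A S : Set V}
    (h : ∀ v ∈ A ∪ S, ∀ z, Θ (b1 v z) = b2 v (Θ z)) {i : ℕ} {y : Finset V → Y → ℝ}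
    (hy : y ∈ ZZ G (pull ℝ b2) A S i) : (fun T z => y T (Θ z)) ∈ ZZ G (pull ℝ b1) A S i := by
  refine ⟨KK_conj Θ h hy.1, ?_⟩
  show bd ℝ (fun T z => y T (Θ z)) = 0
  have h2 : bd ℝ y = 0 := hy.2
  funext T z
  have h3 := congrFun (congrFun h2 T) (Θ z)
  rw [bd_apply, Finset.sum_apply] at h3 ⊢
  exact h3

theorem ZZ_congr {b1 b2 : V → Y → Y} {A S : Set V} (h : ∀ v ∈ A ∪ S, b1 v = b2 v) (i : ℕ) :
    ZZ G (pull ℝ b1) A S i = ZZ G (pull ℝ b2) A S i := by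
  unfold ZZ
  rw [KK_congr h]

theorem finrank_conj (Θ : Y → Y) (hΘ : ∀ z, Θ (Θ z) = z) {P Q : Submodule ℝ (Finset V → Y → ℝ)}
    (h1 : ∀ y ∈ P, (fun T z => y T (Θ z)) ∈ Q) (h2 : ∀ y ∈ Q, (fun T z => y T (Θ z)) ∈ P) :
    finrank ℝ P = finrank ℝ Q := by
  let e : P ≃ₗ[ℝ] Q :=
    { toFun := fun y => ⟨fun T z => y.1 T (Θ z), h1 _ y.2⟩
      invFun := fun y => ⟨fun T z => y.1 T (Θ z), h2 _ y.2⟩
      map_add' := fun _ _ => rfl
      map_smul' := fun _ _ => rfl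
      left_inv := fun y => Subtype.ext (funext fun T => funext fun z => congrArg (y.1 T) (hΘ z))
      right_inv := fun y => Subtype.ext (funext fun T => funext fun z => congrArg (y.1 T) (hΘ z)) }
  exact e.finrank_eq

end conj

end Pool.Agent.W5h83.GT
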