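import Pool.Agent.H79.LX.W5h83_GT_Num3
import Pool.Agent.H79.LX.W5h83_GT_Kazn
import Pool.Agent.H79.LX.W5h83_GT_Luen

/-!
# The numerical gluing inequality
-/

set_option autoImplicit false
set_option linter.unusedSectionVars false

namespace Pool.Agent.W5h83.GT

open Module Pool.Agent.W907.SG
open Pool.Agent.TH652.Glue (KK_mono BB_mono)
open Pool.Agent.R781.VS (exists_ev)

set_option maxHeartbeats 4000000 in
/-- **The gluing inequality.** -/
theorem glue_num {V : Type} [Fintype V] [LinearOrder V] (G : SimpleGraph V)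
    (v0 : V) (A B : Set V) [Fintype ↥(insert v0 A)] [Fintype ↥(insert v0 B)]
    [Fintype ↥({v0}ᶜ : Set V)] (hA : v0 ∉ A) (hB : v0 ∉ B) (hAB : A ∪ B = {v0}ᶜ)
    (hno : ∀ x ∈ A, x ∉ B → ∀ y ∈ B, y ∉ A → ¬ G.Adj x y) (hS : G.neighborSet v0 = A ∩ B) (j : ℕ) :
    l2b (G.induce ({v0}ᶜ : Set V)) (j + 1) ≤
      l2b (G.induce (insert v0 A)) (j + 1) + l2b (G.induce (insert v0 B)) (j + 1) := by
  classical
  refine l2b_le luen _ _ _ fun ε hε => ?_
  obtain ⟨δ, hδ⟩ : ∃ δ, δ = ε / 4 := ⟨_, rfl⟩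
  have hδ0 : 0 < δ := by rw [hδ]; positivity
  have h3' : Nat.Prime 3 := Nat.prime_three
  have : Fact (Nat.Prime 3) := ⟨h3'⟩
  obtain ⟨E3, hE3, hX3⟩ := smallN_restrict kazn G (insert v0 A) (j + 1) δ hδ0
  obtain ⟨E4, hE4, hX4⟩ := smallN_restrict kazn G (insert v0 B) (j + 1) δ hδ0
  obtain ⟨X, iX, iXn, a, sgn, E, iE, e, R, k1, k2, k3, k4, k5, k6, k7, k8⟩ :=
    word expr0 V G v0 (E3 ∪ E4) (by
      rw [Finset.mem_union]
      exact fun h => h.elim hE3 hE4)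
  have hvS : v0 ∉ A ∩ B := fun h => hA h.1
  have heS : ∀ v ∈ A ∩ B, ∀ x, e (a v x) = e x := fun v hv => k5 v (by
    have : v ∈ G.neighborSet v0 := by rw [hS]; exact hv
    exact this)
  have hAN : A ∩ G.neighborSet v0 = A ∩ B := by rw [hS]; ext x; simp only [Set.mem_inter_iff]; tauto
  have hBN : B ∩ G.neighborSet v0 = A ∩ B := by rw [hS]; ext x; simp only [Set.mem_inter_iff]; tauto
  -- the auxiliary set
  obtain ⟨F1, iF1, iF1n, P1, eF, f1, f2, f3, f4⟩ := nilp 3 E (⊥ : SimpleGraph E) R (by decide) k6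
  obtain ⟨b, hb, hb0⟩ : ∃ b : V → X × F1 → X × F1, (∀ v, v ≠ v0 → ∀ z, b v z = (a v z.1, z.2)) ∧
      ∀ z, b v0 z = (z.1, P1.a (e z.1) z.2) :=
    ⟨fun v z => if v = v0 then (z.1, P1.a (e z.1) z.2) else (a v z.1, z.2), fun v hv z => if_neg hv,
      fun z => if_pos rfl⟩
  have hbi : ∀ v z, b v (b v z) = z := by
    intro v z
    by_cases hv : v = v0
    · rw [hv, hb0, hb0, P1.inv]
    · rw [hb v hv, hb v hv, k1]
  have hbc : ∀ u v, G.Adj u v → ∀ z, b u (b v z) = b v (b u z) := by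
    intro u v huv z
    by_cases hu : u = v0
    · have hv : v ≠ v0 := fun h => huv.ne (hu.trans h.symm)
      rw [hu] at huv ⊢
      rw [hb v hv, hb0, hb0, hb v hv, k5 v huv]
    · by_cases hv : v = v0
      · rw [hv] at huv ⊢
        rw [hb u hu, hb0, hb0, hb u hu, k5 u huv.symm]
      · rw [hb v hv, hb u hu, hb u hu, hb v hv, k2 u v huv]
  obtain ⟨evb, g1, g2, g3⟩ := exists_ev G b hbi hbc
  have hfree := k8 F1 P1.a eF f1 f2 f3 f4 b hb hb0 evb g1 g2 g3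
  have s3 := hX3 (X × F1) b evb hbi hbc g1 g2 g3 (fun g hg => hfree g (Finset.mem_union_left _ hg))
  have s4 := hX4 (X × F1) b evb hbi hbc g1 g2 g3 (fun g hg => hfree g (Finset.mem_union_right _ hg))
  have sA := sideN (V := V) (G := G) hb hb0 P1.inv P1.sgn P1.sgn_self hA hAN heS j
  have sB := sideN (V := V) (G := G) hb hb0 P1.inv P1.sgn P1.sgn_self hB hBN heS j
  have hcX : (0 : ℝ) < Fintype.card X := by
    rw [Nat.cast_pos]
    exact Fintype.card_pos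
  have hcF1 : (0 : ℝ) < Fintype.card F1 := by
    rw [Nat.cast_pos]
    exact Fintype.card_pos
  -- the bound for the solutions in degree i
  have hfb : ∀ i : ℕ, ∃ n : ℕ, ∀ (F : Type) [Fintype F] (τ : E → F → F) (ev : F → FP E → F), (∀ e x, τ e (τ e x) = x) →
      (∀ f, ev f 1 = f) → (∀ f g h, ev f (g * h) = ev (ev f g) h) → (∀ f e, ev f (sf e) = τ e f) →
      (∀ h ∈ Rn E n, h ≠ 1 → ∀ f, ev f h ≠ f) →
      (finrank ℝ (Sol τ (cl V e) (uc (BB G (pull ℝ a) A ∅ i ⊓ KK G (pull ℝ a) (A ∩ B) ∅ i))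
        (uc (BB G (pull ℝ a) B ∅ i ⊓ KK G (pull ℝ a) (A ∩ B) ∅ i))) : ℝ) ≤ Fintype.card F *
        (((finrank ℝ ↥(BB G (pull ℝ b) A ∅ i ⊓ KK G (pull ℝ b) (A ∩ B) {v0} i) : ℝ) +
          finrank ℝ ↥(BB G (pull ℝ b) B ∅ i ⊓ KK G (pull ℝ b) (A ∩ B) {v0} i)) / Fintype.card F1 +
            δ * Fintype.card X) := by
    intro i
    refine free_bound (cl V e) (uc (KK G (pull ℝ a) (A ∩ B) ∅ i))
      (uc (BB G (pull ℝ a) A ∅ i ⊓ KK G (pull ℝ a) (A ∩ B) ∅ i))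
      (uc (BB G (pull ℝ a) B ∅ i ⊓ KK G (pull ℝ a) (A ∩ B) ∅ i)) (uc (BB G (pull ℝ a) (A ∩ B) ∅ i))
      (fun u hu => hu.2) (KK_hom heS i) (BB_hom heS i)
      (fun u hu => ⟨BB_mono Set.inter_subset_left _ hu, (BB_le_ZZ _ _ _ _ _ hu).1⟩)
      (fun u hu => ⟨BB_mono Set.inter_subset_right _ hu, (BB_le_ZZ _ _ _ _ _ hu).1⟩) _ ?_ _ (by positivity)
    intro V' hV' _ _
    have d1 := hdN (V := V) (G := G) hb hb0 P1.inv P1.sgn P1.sgn_self hA hAN i V' hV'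
    have d2 := hdN (V := V) (G := G) hb hb0 P1.inv P1.sgn P1.sgn_self hB hBN i V' hV'
    generalize finrank ℝ ↥(uc (BB G (pull ℝ a) A ∅ i ⊓ KK G (pull ℝ a) (A ∩ B) ∅ i) ⊓ V') = p at d1 ⊢
    generalize finrank ℝ ↥(uc (BB G (pull ℝ a) B ∅ i ⊓ KK G (pull ℝ a) (A ∩ B) ∅ i) ⊓ V') = q at d2 ⊢
    generalize finrank ℝ ↥(BB G (pull ℝ b) A ∅ i ⊓ KK G (pull ℝ b) (A ∩ B) {v0} i) = r at d1 ⊢
    generalize finrank ℝ ↥(BB G (pull ℝ b) B ∅ i ⊓ KK G (pull ℝ b) (A ∩ B) {v0} i) = s at d2 ⊢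
    have d1' : 2 * ((Fintype.card F1 : ℝ) * p) ≤ Fintype.card F1 * finrank ℝ V' + 2 * r := by exact_mod_cast d1
    have d2' : 2 * ((Fintype.card F1 : ℝ) * q) ≤ Fintype.card F1 * finrank ℝ V' + 2 * s := by exact_mod_cast d2
    refine le_of_mul_le_mul_left (a := (Fintype.card F1 : ℝ)) ?_ hcF1
    have e1 : (Fintype.card F1 : ℝ) * (((r : ℝ) + s) / Fintype.card F1) = r + s := by field_simp
    rw [mul_add, mul_add, e1]
    linarith
  obtain ⟨n0, hn0⟩ := hfb j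
  obtain ⟨n1, hn1⟩ := hfb (j + 1)
  obtain ⟨F, iF, iFn, τ, eF', sgF, t1, t2, t3, t4, t5, t6⟩ := exists_free (E := E) (max n0 n1)
  have hsol0 := hn0 F τ eF' t1 t2 t3 t4 (fun h hh => t5 h (Rn_mono (le_max_left _ _) hh))
  have hsol1 := hn1 F τ eF' t1 t2 t3 t4 (fun h hh => t5 h (Rn_mono (le_max_right _ _) hh))
  -- the final set
  let bA : V → X × F → X × F := fun v z => (a v z.1, z.2)
  let bB : V → X × F → X × F := fun v z => (a v z.1, τ (e (a v z.1)) (τ (e z.1) z.2))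
  let bY : V → X × F → X × F := fun v z => if v ∈ A then bA v z else bB v z
  let Θ : X × F → X × F := fun z => (z.1, τ (e z.1) z.2)
  have hΘ : ∀ v z, Θ (bA v z) = bB v (Θ z) := by
    intro v z
    show (a v z.1, τ (e (a v z.1)) z.2) = (a v z.1, τ (e (a v z.1)) (τ (e z.1) (τ (e z.1) z.2)))
    rw [t1]
  have hΘΘ : ∀ z, Θ (Θ z) = z := by
    intro z
    show (z.1, τ (e z.1) (τ (e z.1) z.2)) = z
    rw [t1]
  have hYA : ∀ v ∈ A, bY v = bA v := fun v hv => funext fun z => if_pos hv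
  have hYB : ∀ v ∈ B, bY v = bB v := by
    intro v hv
    funext z
    by_cases hvA : v ∈ A
    · rw [hYA v hvA]
      show (a v z.1, z.2) = (a v z.1, τ (e (a v z.1)) (τ (e z.1) z.2))
      rw [heS v ⟨hvA, hv⟩, t1]
    · exact if_neg hvA
  have iA : ∀ v z, bA v (bA v z) = z := fun v z => by
    show (a v (a v z.1), z.2) = z
    rw [k1]
  have cA : ∀ u v, G.Adj u v → ∀ z, bA u (bA v z) = bA v (bA u z) := fun u v h z => by
    show (a u (a v z.1), z.2) = (a v (a u z.1), z.2)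
    rw [k2 u v h]
  have bBe : ∀ v z, bB v z = Θ (bA v (Θ z)) := fun v z => by
    rw [hΘ, hΘΘ]
  have hΘ' : ∀ v z, Θ (bB v z) = bA v (Θ z) := fun v z => by
    rw [bBe, hΘΘ]
  have iB : ∀ v z, bB v (bB v z) = z := fun v z => by
    rw [bBe, bBe, hΘΘ, iA, hΘΘ]
  have cB : ∀ u v, G.Adj u v → ∀ z, bB u (bB v z) = bB v (bB u z) := fun u v h z => by
    rw [bBe, bBe, bBe, bBe, hΘΘ, hΘΘ, cA u v h]
  have hmv := mv_exact G (pull ℝ bY) A B ({v0}ᶜ) (by rw [← hAB]; exact Set.subset_union_left)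
    (by rw [← hAB]; exact Set.subset_union_right) (fun T hT hTU => by
      by_contra hcon
      push Not at hcon
      obtain ⟨c1, c2⟩ := hcon
      obtain ⟨y, hy, hyA⟩ := Set.not_subset.1 c1
      obtain ⟨x, hx, hxB⟩ := Set.not_subset.1 c2
      have hxA : x ∈ A := by
        have : x ∈ A ∪ B := by rw [hAB]; exact hTU hx
        exact this.resolve_right hxB
      have hyB : y ∈ B := by
        have : y ∈ A ∪ B := by rw [hAB]; exact hTU hy
        exact this.resolve_left hyA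
      exact hno x hxA hxB y hyB hyA (hT hx hy (fun h => hyA (h ▸ hxA)))) j
  have hbA : ∀ v, v ≠ v0 → ∀ z : X × F, bA v z = (a v z.1, z.2) := fun _ _ _ => rfl
  have uA : ∀ v ∈ A ∪ (∅ : Set V), bY v = bA v := fun v hv => hYA v (by simpa using hv)
  have uB : ∀ v ∈ B ∪ (∅ : Set V), bY v = bB v := fun v hv => hYB v (by simpa using hv)
  have uSA : ∀ v ∈ (A ∩ B) ∪ (∅ : Set V), bY v = bA v := fun v hv => hYA v (by
    have : v ∈ A ∩ B := by simpa using hv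
    exact this.1)
  have uSB : ∀ v ∈ (A ∩ B) ∪ (∅ : Set V), bY v = bB v := fun v hv => hYB v (by
    have : v ∈ A ∩ B := by simpa using hv
    exact this.2)
  -- dimensions of the pieces
  have w1 : finrank ℝ (BB G (pull ℝ bY) A ∅ (j + 1)) = Fintype.card F * finrank ℝ (BB G (pull ℝ a) A ∅ (j + 1)) := by
    rw [BB_congr uA, finrank_BB_prod hbA hA]
  have w2 : finrank ℝ (ZZ G (pull ℝ bY) A ∅ (j + 1)) = Fintype.card F * finrank ℝ (ZZ G (pull ℝ a) A ∅ (j + 1)) := by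
    rw [ZZ_congr uA, finrank_ZZ_prod hbA hA]
  have w3 : finrank ℝ (BB G (pull ℝ bY) B ∅ (j + 1)) = Fintype.card F * finrank ℝ (BB G (pull ℝ a) B ∅ (j + 1)) := by
    rw [BB_congr uB, ← finrank_BB_prod hbA hB]
    exact finrank_conj Θ hΘΘ (fun y hy => BB_conj Θ (fun v _ z => hΘ v z) hy)
      (fun y hy => BB_conj Θ (fun v _ z => hΘ' v z) hy)
  have w4 : finrank ℝ (ZZ G (pull ℝ bY) B ∅ (j + 1)) = Fintype.card F * finrank ℝ (ZZ G (pull ℝ a) B ∅ (j + 1)) := by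
    rw [ZZ_congr uB, ← finrank_ZZ_prod hbA hB]
    exact finrank_conj Θ hΘΘ (fun y hy => ZZ_conj Θ (fun v _ z => hΘ v z) hy)
      (fun y hy => ZZ_conj Θ (fun v _ z => hΘ' v z) hy)
  have w5 : finrank ℝ (ZZ G (pull ℝ bY) (A ∩ B) ∅ (j + 1)) =
      Fintype.card F * finrank ℝ (ZZ G (pull ℝ a) (A ∩ B) ∅ (j + 1)) := by
    rw [ZZ_congr uSA, finrank_ZZ_prod hbA hvS]
  have w6 : finrank ℝ (BB G (pull ℝ bY) (A ∩ B) ∅ j) =
      Fintype.card F * finrank ℝ (BB G (pull ℝ a) (A ∩ B) ∅ j) := by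
    rw [BB_congr uSA, finrank_BB_prod hbA hvS]
  have w7 : ∀ i, finrank ℝ ↥((BB G (pull ℝ bY) A ∅ i ⊓ BB G (pull ℝ bY) B ∅ i) ⊓ KK G (pull ℝ bY) (A ∩ B) ∅ i) ≤
      finrank ℝ (Sol τ (cl V e) (uc (BB G (pull ℝ a) A ∅ i ⊓ KK G (pull ℝ a) (A ∩ B) ∅ i))
        (uc (BB G (pull ℝ a) B ∅ i ⊓ KK G (pull ℝ a) (A ∩ B) ∅ i))) := by
    intro i
    rw [← finrank_sw]
    refine Submodule.finrank_mono fun w hw => ?_
    obtain ⟨⟨y1, y2⟩, y3⟩ := hw
    have z1 : sw V X F w ∈ BB G (pull ℝ bA) A ∅ i := by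
      rw [← BB_congr uA]
      exact y1
    have z3 : sw V X F w ∈ KK G (pull ℝ bA) (A ∩ B) ∅ i := by
      rw [← KK_congr uSA]
      exact y3
    have z2 : sw V X F w ∈ BB G (pull ℝ bB) B ∅ i := by
      rw [← BB_congr uB]
      exact y2
    have z4 : sw V X F w ∈ KK G (pull ℝ bB) (A ∩ B) ∅ i := by
      rw [← KK_congr uSB]
      exact y3
    have z5 := BB_conj (b1 := bA) (b2 := bB) Θ (fun v _ z => hΘ v z) z2
    have z6 := KK_conj (b1 := bA) (b2 := bB) Θ (fun v _ z => hΘ v z) z4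
    exact ⟨fun f => ⟨(BB_slice hbA hA (by simp)).1 z1 f, (KK_slice hbA hvS (by simp)).1 z3 f⟩,
      fun f => ⟨(BB_slice hbA hB (by simp)).1 z5 f, (KK_slice hbA hvS (by simp)).1 z6 f⟩⟩
  have v0' := w7 j
  have v1' := w7 (j + 1)
  rw [w1, w2, w3, w4, w5, w6] at hmv
  refine ⟨X × F, inferInstance, inferInstance, fun u => bY (u : V), fun u z => sgn (u : V) z.1, ?_, ?_, ?_, ?_, ?_⟩
  · intro u z
    show bY (u : V) (bY (u : V) z) = z
    by_cases hu : (u : V) ∈ A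
    · rw [hYA _ hu, iA]
    · have : bY (u : V) = bB u := funext fun z => if_neg hu
      rw [this, iB]
  · intro u v huv z
    show bY (u : V) (bY (v : V) z) = bY (v : V) (bY (u : V) z)
    have huv' : G.Adj (u : V) v := huv
    have hu : (u : V) ∈ A ∪ B := by rw [hAB]; exact u.2
    have hv : (v : V) ∈ A ∪ B := by rw [hAB]; exact v.2
    by_cases huA : (u : V) ∈ A
    · by_cases hvA : (v : V) ∈ A
      · rw [hYA _ huA, hYA _ hvA, cA _ _ huv']
      · have hvB := hv.resolve_left hvA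
        by_cases huB : (u : V) ∈ B
        · rw [hYB _ huB, hYB _ hvB, cB _ _ huv']
        · exact absurd huv' (hno _ huA huB _ hvB hvA)
    · have huB := hu.resolve_left huA
      by_cases hvB : (v : V) ∈ B
      · rw [hYB _ huB, hYB _ hvB, cB _ _ huv']
      · have hvA := hv.resolve_right hvB
        exact absurd huv'.symm (hno _ hvA hvB _ huB huA)
  · intro u z
    show sgn (u : V) (bY (u : V) z).1 = !(sgn (u : V) z.1)
    have : (bY (u : V) z).1 = a u z.1 := by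
      show (if (u : V) ∈ A then bA u z else bB u z).1 = _
      split_ifs <;> rfl
    rw [this, k3]
  · intro u v huv z
    show sgn (u : V) (bY (v : V) z).1 = sgn (u : V) z.1
    have : (bY (v : V) z).1 = a v z.1 := by
      show (if (v : V) ∈ A then bA v z else bB v z).1 = _
      split_ifs <;> rfl
    rw [this, k4 _ _ (fun h => huv (Subtype.ext h))]
  · have h5 := tr ↥({v0}ᶜ : Set V) V ℝ (X × F → ℝ) G (G.induce ({v0}ᶜ : Set V)) (pull ℝ bY) (fun u => (u : V))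
      (Subtype.strictMono_coe _) (fun u u' => Iff.rfl) (j + 1)
    rw [Subtype.range_coe] at h5
    have h6 : beta (G.induce ({v0}ᶜ : Set V)) (pull ℝ (fun u : ↥({v0}ᶜ : Set V) => bY (u : V))) Set.univ ∅ (j + 1) =
        beta G (pull ℝ bY) ({v0}ᶜ) ∅ (j + 1) := h5.symm
    rw [h6]
    -- arithmetic
    rw [Fintype.card_prod] at s3 s4 ⊢
    generalize finrank ℝ ↥((BB G (pull ℝ bY) A ∅ j ⊓ BB G (pull ℝ bY) B ∅ j) ⊓
        KK G (pull ℝ bY) (A ∩ B) ∅ j) = I0 at hmv v0'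
    generalize finrank ℝ ↥((BB G (pull ℝ bY) A ∅ (j + 1) ⊓ BB G (pull ℝ bY) B ∅ (j + 1)) ⊓
        KK G (pull ℝ bY) (A ∩ B) ∅ (j + 1)) = I1 at hmv v1'
    have hI0 : (I0 : ℝ) ≤ _ := le_trans (by exact_mod_cast v0') hsol0
    have hI1 : (I1 : ℝ) ≤ _ := le_trans (by exact_mod_cast v1') hsol1
    generalize l2b (G.induce (insert v0 A)) (j + 1) = lA at s3 ⊢
    generalize l2b (G.induce (insert v0 B)) (j + 1) = lB at s4 ⊢
    generalize beta G (pull ℝ bY) ({v0}ᶜ) ∅ (j + 1) = β at hmv ⊢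
    generalize beta G (pull ℝ b) (insert v0 A) ∅ (j + 1) = β1 at sA s3
    generalize beta G (pull ℝ b) (insert v0 B) ∅ (j + 1) = β2 at sB s4
    generalize finrank ℝ ↥(BB G (pull ℝ b) A ∅ j ⊓ KK G (pull ℝ b) (A ∩ B) {v0} j) = p0 at sA hI0
    generalize finrank ℝ ↥(BB G (pull ℝ b) B ∅ j ⊓ KK G (pull ℝ b) (A ∩ B) {v0} j) = q0 at sB hI0
    generalize finrank ℝ ↥(BB G (pull ℝ b) A ∅ (j + 1) ⊓ KK G (pull ℝ b) (A ∩ B) {v0} (j + 1)) = p1 at sA hI1
    generalize finrank ℝ ↥(BB G (pull ℝ b) B ∅ (j + 1) ⊓ KK G (pull ℝ b) (A ∩ B) {v0} (j + 1)) = q1 at sB hI1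
    generalize finrank ℝ (ZZ G (pull ℝ a) A ∅ (j + 1)) = zA at sA hmv
    generalize finrank ℝ (ZZ G (pull ℝ a) B ∅ (j + 1)) = zB at sB hmv
    generalize finrank ℝ (BB G (pull ℝ a) A ∅ (j + 1)) = cA' at sA hmv
    generalize finrank ℝ (BB G (pull ℝ a) B ∅ (j + 1)) = cB' at sB hmv
    generalize finrank ℝ (BB G (pull ℝ a) (A ∩ B) ∅ j) = d0 at sA sB hmv
    generalize finrank ℝ (ZZ G (pull ℝ a) (A ∩ B) ∅ (j + 1)) = d1 at sA sB hmv
    have hcF : (0 : ℝ) < Fintype.card F := by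
      rw [Nat.cast_pos]
      exact Fintype.card_pos
    generalize (Fintype.card X) = x at *
    generalize (Fintype.card F1) = y at *
    generalize (Fintype.card F) = z at *
    have sA' : 2 * ((y : ℝ) * zA) + 2 * p0 + 2 * p1 ≤ 2 * β1 + y * d0 + y * d1 + 2 * (y * cA') := by exact_mod_cast sA
    have sB' : 2 * ((y : ℝ) * zB) + 2 * q0 + 2 * q1 ≤ 2 * β2 + y * d0 + y * d1 + 2 * (y * cB') := by exact_mod_cast sB
    have hmv' : (β : ℝ) + (z * cA' + z * cB') + (z * d1 + z * d0) ≤ (z * zA + z * zB) + (I1 + I0) := by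
      exact_mod_cast hmv
    push_cast at s3 s4 ⊢
    refine le_of_mul_le_mul_left (a := (y : ℝ)) ?_ hcF1
    have e0 : (y : ℝ) * (z * (((p0 : ℝ) + q0) / y + δ * x)) = z * (p0 + q0) + y * z * (δ * x) := by field_simp
    have e1 : (y : ℝ) * (z * (((p1 : ℝ) + q1) / y + δ * x)) = z * (p1 + q1) + y * z * (δ * x) := by field_simp
    have i0 := mul_le_mul_of_nonneg_left hI0 hcF1.le
    have i1 := mul_le_mul_of_nonneg_left hI1 hcF1.le
    rw [e0] at i0
    rw [e1] at i1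
    have m0 := mul_le_mul_of_nonneg_left hmv' hcF1.le
    have mA := mul_le_mul_of_nonneg_left sA' hcF.le
    have mB := mul_le_mul_of_nonneg_left sB' hcF.le
    have m3 := mul_le_mul_of_nonneg_left s3 hcF.le
    have m4 := mul_le_mul_of_nonneg_left s4 hcF.le
    have hε4 : ε = 4 * δ := by rw [hδ]; ring
    rw [hε4]
    nlinarith [i0, i1, m0, mA, mB, m3, m4]

end Pool.Agent.W5h83.GT
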