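import Pool.Agent.H79.LX.W5h83_GT_Num4
import Pool.Agent.H79.LX.W5h83_GT_ConeDef
import Pool.Agent.H79.LX.W5h83_GT_Sum
import Pool.Agent.H7.L.W460_SG_ORD

/-!
# Invariance under isomorphisms; the inequality for unions
-/

set_option autoImplicit false
set_option linter.unusedSectionVars false

namespace Pool.Agent.W5h83.GT

open Module Pool.Agent.W907.SG Pool.Agent.W334.SG
open Pool.Agent.R781.VS (exists_ev)
open Pool.Agent.W460.SG (gg gg_sq gg_ne sg_map)

section iso
variable {V U X : Type} [Fintype V] [Fintype U] [LinearOrder V] [LinearOrder U]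

theorem harmSet_map (G : SimpleGraph V) (H : SimpleGraph U) (e : G ≃g H) (a : V → X → X) (a' : U → X → X)
    (ha : ∀ v x, a v x = a' (e v) x) (i : ℕ) (c : X → Finset U → ℝ) (hc : HarmSet H a' i c) :
    HarmSet G a i (fun x T => gg e.toEquiv T * c x (T.map e.toEquiv.toEmbedding)) := by
  obtain ⟨E, hE⟩ : ∃ E : V ≃ U, E = e.toEquiv := ⟨_, rfl⟩
  have hEe : ∀ v, E v = e v := fun v => by rw [hE]; rfl
  rw [← hE]
  have hcl : ∀ T : Finset V, H.IsClique ((T.map E.toEmbedding : Finset U) : Set U) ↔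
      G.IsClique (T : Set V) := by
    intro T
    constructor
    · intro h a ha b hb hab
      have h1 := h (x := E a) (by simpa using ha) (y := E b) (by simpa using hb)
        (fun h2 => hab (E.injective h2))
      rw [hEe, hEe] at h1
      exact e.map_adj_iff.1 h1
    · intro h a ha b hb hab
      obtain ⟨x, hx, rfl⟩ := Finset.mem_map.1 (Finset.mem_coe.1 ha)
      obtain ⟨y, hy, rfl⟩ := Finset.mem_map.1 (Finset.mem_coe.1 hb)
      show H.Adj (E x) (E y)
      rw [hEe, hEe]
      exact e.map_adj_iff.2 (h hx hy (fun h2 => hab (by rw [h2])))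
  obtain ⟨hc1, hc2, hc3, hc4⟩ := hc
  refine ⟨fun w T h => ?_, fun w T t ht => ?_, fun w T => ?_, fun w T hT => ?_⟩
  · show gg E T * c w (T.map E.toEmbedding) = 0
    rw [hc1 _ _ (fun h1 => h ⟨(hcl T).1 h1.1, by rw [← h1.2, Finset.card_map]⟩), mul_zero]
  · show gg E T * c (a t w) (T.map E.toEmbedding) = - (gg E T * c w (T.map E.toEmbedding))
    rw [ha, ← hEe, hc2 _ _ (E t) (Finset.mem_map_of_mem E.toEmbedding ht)]
    ring
  · have h1 : ∀ v ∈ Tᶜ, (sg v T : ℝ) * (gg E (insert v T) * c w ((insert v T).map E.toEmbedding)) =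
        gg E T * ((sg (E v) (T.map E.toEmbedding) : ℝ) *
          c w (insert (E v) (T.map E.toEmbedding))) := by
      intro v hv
      rw [← mul_assoc, sg_map E v T (Finset.mem_compl.1 hv), Finset.map_insert, mul_assoc]
      rfl
    show ∑ v ∈ Tᶜ, (sg v T : ℝ) * (gg E (insert v T) * c w ((insert v T).map E.toEmbedding)) = 0
    rw [Finset.sum_congr rfl h1, ← Finset.mul_sum]
    have h2 := hc3 w (T.map E.toEmbedding)
    rw [← Finset.sum_equiv E (s := Tᶜ)
      (f := fun v => (sg (E v) (T.map E.toEmbedding) : ℝ) *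
          c w (insert (E v) (T.map E.toEmbedding))) (fun v => by simp) (fun v _ => rfl)] at h2
    rw [h2, mul_zero]
  · have h1 : ∀ t ∈ T, (sg t (T.erase t) : ℝ) *
        (gg E (T.erase t) * c w ((T.erase t).map E.toEmbedding) -
          gg E (T.erase t) * c (a t w) ((T.erase t).map E.toEmbedding)) =
        gg E T * ((sg (E t) ((T.map E.toEmbedding).erase (E t)) : ℝ) *
          (c w ((T.map E.toEmbedding).erase (E t)) -
            c (a' (E t) w) ((T.map E.toEmbedding).erase (E t)))) := by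
      intro t ht
      have h2 := sg_map E t (T.erase t) (Finset.notMem_erase t T)
      rw [Finset.insert_erase ht] at h2
      have h3 : (T.erase t).map E.toEmbedding = (T.map E.toEmbedding).erase (E t) :=
        Finset.map_erase E.toEmbedding T t
      rw [h3] at h2
      rw [ha, ← hEe, h3, ← mul_sub, ← mul_assoc, ← mul_assoc]
      congr 1
      have h4 := gg_sq E T
      have h5 := gg_sq E (T.erase t)
      linear_combination (gg E (T.erase t) * gg E T) * h2 -
        ((sg t (T.erase t) : ℝ) * gg E (T.erase t)) * h4 +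
        (gg E T * (sg (E t) ((T.map E.toEmbedding).erase (E t)) : ℝ)) * h5
    show ∑ t ∈ T, (sg t (T.erase t) : ℝ) *
        (gg E (T.erase t) * c w ((T.erase t).map E.toEmbedding) -
          gg E (T.erase t) * c (a t w) ((T.erase t).map E.toEmbedding)) = 0
    rw [Finset.sum_congr rfl h1, ← Finset.mul_sum]
    have h2 := hc4 w (T.map E.toEmbedding) ((hcl T).2 hT)
    rw [Finset.sum_map] at h2
    have h3 : ∑ t ∈ T, ((sg (E t) ((T.map E.toEmbedding).erase (E t)) : ℝ) *
          (c w ((T.map E.toEmbedding).erase (E t)) -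
            c (a' (E t) w) ((T.map E.toEmbedding).erase (E t)))) = 0 := h2
    rw [h3, mul_zero]

theorem beta_iso [Fintype X] (G : SimpleGraph V) (H : SimpleGraph U) (e : G ≃g H) (a : V → X → X) (a' : U → X → X)
    (ha : ∀ v x, a v x = a' (e v) x) (h1 : ∀ v x, a v (a v x) = x)
    (h2 : ∀ u v, G.Adj u v → ∀ x, a u (a v x) = a v (a u x)) (h1' : ∀ v x, a' v (a' v x) = x)
    (h2' : ∀ u v, H.Adj u v → ∀ x, a' u (a' v x) = a' v (a' u x)) (i : ℕ) :
    beta H (pull ℝ a') Set.univ ∅ i ≤ beta G (pull ℝ a) Set.univ ∅ i := by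
  obtain ⟨ev, e1, e2, e3⟩ := exists_ev G a h1 h2
  obtain ⟨ev', e1', e2', e3'⟩ := exists_ev H a' h1' h2'
  rw [← hodr V X G a h1 h2 i (KS G i ev) (mem_KS' G i a ev e1 e3),
    ← hodr U X H a' h1' h2' i (KS H i ev') (mem_KS' H i a' ev' e1' e3')]
  let Ψ : (X → Finset U → ℝ) →ₗ[ℝ] (X → Finset V → ℝ) :=
    { toFun := fun c x T => gg e.toEquiv T * c x (T.map e.toEquiv.toEmbedding)
      map_add' := fun c d => by
        funext x T
        exact mul_add _ _ _
      map_smul' := fun r c => by
        funext x T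
        show gg e.toEquiv T * (r * c x _) = r * (gg e.toEquiv T * c x _)
        ring }
  have hΨ : Function.Injective Ψ := by
    intro c d h
    funext x S
    have h3 := congrFun (congrFun h x) (S.map e.toEquiv.symm.toEmbedding)
    have h4 : (S.map e.toEquiv.symm.toEmbedding).map e.toEquiv.toEmbedding = S := by
      ext u
      simp
    have h5 : gg e.toEquiv (S.map e.toEquiv.symm.toEmbedding) * c x ((S.map e.toEquiv.symm.toEmbedding).map e.toEquiv.toEmbedding) =
      gg e.toEquiv (S.map e.toEquiv.symm.toEmbedding) * d x ((S.map e.toEquiv.symm.toEmbedding).map e.toEquiv.toEmbedding) := h3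
    rw [h4] at h5
    exact mul_left_cancel₀ (gg_ne _ _) h5
  rw [(Submodule.equivMapOfInjective Ψ hΨ (KS H i ev')).finrank_eq]
  refine Submodule.finrank_mono ?_
  rintro _ ⟨c, hc, rfl⟩
  exact (mem_KS' G i a ev e1 e3 _).2 (harmSet_map G H e a a' ha i c ((mem_KS' H i a' ev' e1' e3' c).1 hc))

theorem l2b_iso_le (G : SimpleGraph V) (H : SimpleGraph U) (e : G ≃g H) (i : ℕ) : l2b H i ≤ l2b G i := by
  refine l2b_le luen H i _ fun ε hε => ?_
  obtain ⟨E, hE, hX⟩ := smallN kazn G i ε hε
  have h3' : Nat.Prime 3 := Nat.prime_three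
  have : Fact (Nat.Prime 3) := ⟨h3'⟩
  obtain ⟨X, i1, i2, P, ev, f1, f2, f3, f4⟩ := nilp 3 V G E (by decide) hE
  have h2' : ∀ u v, H.Adj u v → ∀ x, P.a (e.symm u) (P.a (e.symm v) x) = P.a (e.symm v) (P.a (e.symm u) x) :=
    fun u v h x => P.comm _ _ (e.symm.map_adj_iff.2 h) x
  refine ⟨X, i1, i2, fun u => P.a (e.symm u), fun u => P.sgn (e.symm u), fun u x => P.inv _ x, h2',
    fun u x => P.sgn_self _ x, fun u v h x => P.sgn_other _ _ (fun h1 => h (e.symm.injective h1)) x, ?_⟩
  have h5 := beta_iso G H e P.a (fun u => P.a (e.symm u)) (fun v x => by simp) P.inv P.comm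
    (fun u x => P.inv _ x) h2' i
  have h6 := hX X P.a ev P.inv P.comm f1 f2 f3 f4
  exact le_trans (by exact_mod_cast h5) h6

end iso

theorem l2b_iso {V U : Type} [Fintype V] [Fintype U] [LinearOrder V] [LinearOrder U] (G : SimpleGraph V)
    (H : SimpleGraph U) (e : G ≃g H) (i : ℕ) : l2b G i = l2b H i :=
  le_antisymm (l2b_iso_le H G e.symm i) (l2b_iso_le G H e i)

/-- the inequality for unions -/
theorem l2b_sum {V : Type} [Fintype V] [LinearOrder V] (G : SimpleGraph V) (A B : Set V) [Fintype ↥A] [Fintype ↥B]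
    [LinearOrder (Option ↥A)] [LinearOrder (Option ↥B)] (hAB : A ∪ B = Set.univ)
    (hno : ∀ a ∈ A, a ∉ B → ∀ b ∈ B, b ∉ A → ¬ G.Adj a b) (j : ℕ) :
    l2b G (j + 1) ≤ l2b (cone (G.induce A) {a | (a : V) ∈ B}) (j + 1) +
      l2b (cone (G.induce B) {b | (b : V) ∈ A}) (j + 1) := by
  classical
  letI o1 : LinearOrder (Option V) := LinearOrder.lift' (Fintype.equivFin (Option V)) (Fintype.equivFin _).injective
  have hc : ∀ (A B : Set V), Nonempty (cone (G.induce A) {a | (a : V) ∈ B} ≃g
      (cone G (A ∩ B)).induce (insert none (some '' A))) := by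
    intro A B
    let f : Option ↥A → ↥(insert (none : Option V) (some '' A)) := fun x => match x with
      | none => ⟨none, Or.inl rfl⟩
      | some a => ⟨some (a : V), Or.inr ⟨a, a.2, rfl⟩⟩
    have hf : Function.Bijective f := by
      constructor
      · intro x y hxy
        have h0 := congrArg Subtype.val hxy
        cases x <;> cases y
        · rfl
        · exact absurd h0 (Option.some_ne_none _).symm
        · exact absurd h0 (Option.some_ne_none _)
        · exact congrArg some (Subtype.ext (Option.some_injective _ h0))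
      · rintro ⟨x, hx⟩
        rcases hx with rfl | ⟨a, ha, rfl⟩
        · exact ⟨none, rfl⟩
        · exact ⟨some ⟨a, ha⟩, rfl⟩
    refine ⟨⟨Equiv.ofBijective f hf, ?_⟩⟩
    intro x y
    cases x with
    | none =>
      cases y with
      | none => exact Iff.rfl
      | some b => exact ⟨fun h => h.2, fun h => ⟨b.2, h⟩⟩
    | some a =>
      cases y with
      | none => exact ⟨fun h => h.2, fun h => ⟨a.2, h⟩⟩
      | some b => exact Iff.rfl
  letI fA : Fintype ↥(insert (none : Option V) (some '' A)) := Fintype.ofFinite _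
  letI fB : Fintype ↥(insert (none : Option V) (some '' B)) := Fintype.ofFinite _
  letI fC : Fintype ↥({none}ᶜ : Set (Option V)) := Fintype.ofFinite _
  have key := glue_num (cone G (A ∩ B)) none (some '' A) (some '' B) (by rintro ⟨a, _, ha⟩; exact Option.some_ne_none _ ha)
    (by rintro ⟨a, _, ha⟩; exact Option.some_ne_none _ ha)
    (by
      ext x
      cases x with
      | none =>
        simp
      | some a =>
        have : a ∈ A ∪ B := by rw [hAB]; trivial
        simpa using this)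
    (by
      rintro _ ⟨a, ha, rfl⟩ haB _ ⟨b, hb, rfl⟩ hbA
      exact hno a ha (fun h => haB ⟨a, h, rfl⟩) b hb (fun h => hbA ⟨b, h, rfl⟩))
    (by
      ext x
      cases x with
      | none =>
        simp [cone]
      | some a =>
        simp [cone])
    j
  let f : V → ↥({none}ᶜ : Set (Option V)) := fun a => ⟨some a, by simp⟩
  have hf : Function.Bijective f := by
    constructor
    · intro x y hxy
      exact Option.some_injective _ (congrArg Subtype.val hxy)
    · rintro ⟨x, hx⟩
      cases x with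
      | none => exact absurd rfl hx
      | some a => exact ⟨a, rfl⟩
  have e0 : G ≃g (cone G (A ∩ B)).induce ({none}ᶜ : Set (Option V)) := ⟨Equiv.ofBijective f hf, Iff.rfl⟩
  rw [l2b_iso G _ e0, l2b_iso _ _ (hc A B).some]
  have e1 : Nonempty (cone (G.induce B) {b | (b : V) ∈ A} ≃g
      (cone G (A ∩ B)).induce (insert none (some '' B))) := by
    rw [Set.inter_comm]
    exact hc B A
  rw [l2b_iso _ _ e1.some]
  exact key

/-- vanishing and `ℓ²`-Betti numbers -/
theorem van_of_l2b {V : Type} [Fintype V] [LinearOrder V] (G : SimpleGraph V) (i : ℕ) (h : l2b G i ≤ 0) :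
    L2Van G i := by
  classical
  refine large V G i fun N E hE => ?_
  have h3' : Nat.Prime 3 := Nat.prime_three
  have : Fact (Nat.Prime 3) := ⟨h3'⟩
  have hN : (0 : ℝ) < 1 / (N + 1) := by positivity
  obtain ⟨E1, hE1, hX⟩ := smallN kazn G i (1 / (N + 1)) hN
  obtain ⟨X, i1, i2, P, ev, f1, f2, f3, f4⟩ := nilp 3 V G (E ∪ E1) (by decide) (by
    rw [Finset.mem_union]
    exact fun h => h.elim hE hE1)
  refine ⟨X, i1, i2, P.a, ev, P.inv, P.comm, f1, f2, f3, fun g hg => f4 g (Finset.mem_union_left _ hg), ?_⟩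
  have h6 := hX X P.a ev P.inv P.comm f1 f2 f3 (fun g hg => f4 g (Finset.mem_union_right _ hg))
  have hcX : (0 : ℝ) ≤ Fintype.card X := Nat.cast_nonneg _
  have h7 : (beta G (pull ℝ P.a) Set.univ ∅ i : ℝ) ≤ 1 / (N + 1) * Fintype.card X := by
    refine h6.trans (mul_le_mul_of_nonneg_right ?_ hcX)
    linarith
  have h8 : ((N * beta G (pull ℝ P.a) Set.univ ∅ i : ℕ) : ℝ) ≤ Fintype.card X := by
    push_cast
    have h9 := mul_le_mul_of_nonneg_left h7 (Nat.cast_nonneg N : (0 : ℝ) ≤ N)
    refine h9.trans ?_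
    have h10 : (N : ℝ) * (1 / (N + 1) * Fintype.card X) = (N / (N + 1)) * Fintype.card X := by ring
    rw [h10]
    refine mul_le_of_le_one_left hcX ?_
    rw [div_le_one (by positivity)]
    linarith
  exact_mod_cast h8

theorem l2b_of_van {V : Type} [Fintype V] [LinearOrder V] (G : SimpleGraph V) (i : ℕ) (h : L2Van G i) :
    l2b G i ≤ 0 := by
  classical
  refine l2b_le luen G i 0 fun ε hε => ?_
  obtain ⟨N, hN⟩ := exists_nat_gt (1 / ε)
  have hN0 : (0 : ℝ) < N := lt_of_le_of_lt (by positivity) hN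
  have hNε : 1 < N * ε := (div_lt_iff₀ hε).1 hN
  have h3' : Nat.Prime 3 := Nat.prime_three
  have : Fact (Nat.Prime 3) := ⟨h3'⟩
  obtain ⟨E1, hE1, hX⟩ := small V G i h N
  obtain ⟨X, i1, i2, P, ev, f1, f2, f3, f4⟩ := nilp 3 V G E1 (by decide) hE1
  refine ⟨X, i1, i2, P.a, P.sgn, P.inv, P.comm, P.sgn_self, P.sgn_other, ?_⟩
  have h6 := hX X P.a ev P.inv P.comm f1 f2 f3 f4
  have h7 : (N : ℝ) * beta G (pull ℝ P.a) Set.univ ∅ i ≤ Fintype.card X := by exact_mod_cast h6
  have hcX : (0 : ℝ) ≤ Fintype.card X := Nat.cast_nonneg _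
  refine le_of_mul_le_mul_left (a := (N : ℝ)) ?_ hN0
  refine h7.trans ?_
  nlinarith

/-- gluing, vanishing -/
theorem van_sum {V : Type} [Fintype V] [LinearOrder V] (G : SimpleGraph V) (A B : Set V) [Fintype ↥A] [Fintype ↥B]
    [LinearOrder (Option ↥A)] [LinearOrder (Option ↥B)] (hAB : A ∪ B = Set.univ)
    (hno : ∀ a ∈ A, a ∉ B → ∀ b ∈ B, b ∉ A → ¬ G.Adj a b) (i : ℕ) (hi : 1 ≤ i)
    (h1 : L2Van (cone (G.induce A) {a | (a : V) ∈ B}) i) (h2 : L2Van (cone (G.induce B) {b | (b : V) ∈ A}) i) :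
    L2Van G i := by
  obtain ⟨j, rfl⟩ : ∃ j, i = j + 1 := ⟨i - 1, by omega⟩
  refine van_of_l2b G _ ((l2b_sum G A B hAB hno j).trans ?_)
  have e1 := l2b_of_van _ _ h1
  have e2 := l2b_of_van _ _ h2
  linarith

end Pool.Agent.W5h83.GT
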