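import Mathlib

/-!
# Projections in finite-dimensional spaces of functions
-/

set_option autoImplicit false

namespace Pool.Agent.W5h83.GT

open Module

section proj
variable {ι : Type} [Fintype ι]

/-- `p` is the orthogonal projection onto `K` -/
structure IsPr (K : Submodule ℝ (ι → ℝ)) (p : (ι → ℝ) →ₗ[ℝ] (ι → ℝ)) : Prop where
  mem : ∀ h, p h ∈ K
  orth : ∀ h, ∀ v ∈ K, (h - p h) ⬝ᵥ v = 0

theorem exists_pr (K : Submodule ℝ (ι → ℝ)) : ∃ p : (ι → ℝ) →ₗ[ℝ] (ι → ℝ), IsPr K p := by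
  let e : EuclideanSpace ℝ ι ≃ₗ[ℝ] (ι → ℝ) := WithLp.linearEquiv 2 ℝ (ι → ℝ)
  let K' : Submodule ℝ (EuclideanSpace ℝ ι) := K.comap e.toLinearMap
  refine ⟨e.toLinearMap ∘ₗ K'.starProjection.toLinearMap ∘ₗ e.symm.toLinearMap, fun h => ?_, fun h v hv => ?_⟩
  · have h1 : K'.starProjection (e.symm h) ∈ K' := Submodule.starProjection_apply_mem K' _
    exact h1
  · have h1 : e.symm h - K'.starProjection (e.symm h) ∈ K'ᗮ := Submodule.sub_starProjection_mem_orthogonal _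
    have h2 : e.symm v ∈ K' := by
      show e (e.symm v) ∈ K
      rw [e.apply_symm_apply]
      exact hv
    have h3 := (Submodule.mem_orthogonal K' _).1 h1 _ h2
    rw [PiLp.inner_apply] at h3
    rw [← h3]
    unfold dotProduct
    refine Finset.sum_congr rfl fun i _ => ?_
    rfl

variable {K : Submodule ℝ (ι → ℝ)} {p : (ι → ℝ) →ₗ[ℝ] (ι → ℝ)}

theorem IsPr.uniq (hp : IsPr K p) {h y : ι → ℝ} (hy : y ∈ K) (ho : ∀ v ∈ K, (h - y) ⬝ᵥ v = 0) : p h = y := by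
  have h1 : p h - y ∈ K := K.sub_mem (hp.mem h) hy
  have h2 := hp.orth h _ h1
  have h3 := ho _ h1
  have h4 : (p h - y) ⬝ᵥ (p h - y) = 0 := by
    have : p h - y = (h - y) - (h - p h) := by abel
    calc (p h - y) ⬝ᵥ (p h - y) = ((h - y) - (h - p h)) ⬝ᵥ (p h - y) := by rw [← this]
      _ = 0 := by rw [sub_dotProduct, h2, h3, sub_zero]
  exact sub_eq_zero.1 (dotProduct_self_eq_zero.1 h4)

theorem IsPr.of_mem (hp : IsPr K p) {v : ι → ℝ} (hv : v ∈ K) : p v = v :=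
  hp.uniq hv fun w _ => by rw [sub_self, zero_dotProduct]

theorem IsPr.dp (hp : IsPr K p) (h : ι → ℝ) {v : ι → ℝ} (hv : v ∈ K) : p h ⬝ᵥ v = h ⬝ᵥ v := by
  have := hp.orth h v hv
  rw [sub_dotProduct] at this
  linarith

theorem IsPr.symm (hp : IsPr K p) (x y : ι → ℝ) : p x ⬝ᵥ y = x ⬝ᵥ p y := by
  have h1 := hp.dp y (hp.mem x)
  have h2 := hp.dp x (hp.mem y)
  rw [← h2, ← dotProduct_comm y (p x), ← h1, dotProduct_comm]

theorem IsPr.idem (hp : IsPr K p) (x : ι → ℝ) : p (p x) = p x := hp.of_mem (hp.mem x)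

theorem IsPr.trace (hp : IsPr K p) : LinearMap.trace ℝ (ι → ℝ) p = finrank ℝ K :=
  LinearMap.IsProj.trace ⟨hp.mem, fun _ hx => hp.of_mem hx⟩

end proj

section trace
variable {κ : Type} [Fintype κ] [DecidableEq κ]

theorem tr_eq (M : (κ → ℝ) →ₗ[ℝ] (κ → ℝ)) :
    LinearMap.trace ℝ (κ → ℝ) M = ∑ k, M (Pi.single k 1) k := by
  rw [LinearMap.trace_eq_matrix_trace ℝ (Pi.basisFun ℝ κ) M]
  unfold Matrix.trace
  refine Finset.sum_congr rfl fun k _ => ?_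
  rw [Matrix.diag_apply, LinearMap.toMatrix_apply]
  simp

theorem tr_nonneg (M : (κ → ℝ) →ₗ[ℝ] (κ → ℝ)) (h : ∀ x, 0 ≤ x ⬝ᵥ M x) :
    0 ≤ LinearMap.trace ℝ (κ → ℝ) M := by
  rw [tr_eq]
  refine Finset.sum_nonneg fun k _ => ?_
  have := h (Pi.single k 1)
  rwa [single_dotProduct, one_mul] at this

/-- the space fixed by a positive symmetric operator is bounded by the traces of the powers -/
theorem kaz (S : Submodule ℝ (κ → ℝ)) (C : Module.End ℝ (κ → ℝ)) (hs : ∀ x y, C x ⬝ᵥ y = x ⬝ᵥ C y)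
    (hp : ∀ x, 0 ≤ x ⬝ᵥ C x) (hf : ∀ x ∈ S, C x = x) (k : ℕ) :
    (finrank ℝ S : ℝ) ≤ LinearMap.trace ℝ (κ → ℝ) (C ^ k) := by
  obtain ⟨p, hpr⟩ := exists_pr S
  have hTs : ∀ (k : ℕ) x y, (C ^ k) x ⬝ᵥ y = x ⬝ᵥ (C ^ k) y := by
    intro k
    induction k with
    | zero => intro x y; rfl
    | succ k ih =>
      intro x y
      rw [pow_succ, Module.End.mul_apply, ih, hs, ← Module.End.mul_apply, ← pow_succ', pow_succ]
  have hTf : ∀ x ∈ S, (C ^ k) x = x := by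
    induction k with
    | zero => intro x _; rfl
    | succ k ih =>
      intro x hx
      rw [pow_succ, Module.End.mul_apply, hf x hx, ih x hx]
  have hTp : ∀ x, 0 ≤ x ⬝ᵥ (C ^ k) x := by
    intro x
    rcases Nat.even_or_odd' k with ⟨m, rfl | rfl⟩
    · rw [two_mul, pow_add, Module.End.mul_apply, ← hTs]
      exact Finset.sum_nonneg fun i _ => mul_self_nonneg _
    · rw [two_mul, pow_succ, pow_add, mul_assoc, Module.End.mul_apply, ← hTs,
        Module.End.mul_apply, ← Module.End.mul_apply, ← pow_succ, pow_succ', Module.End.mul_apply]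
      exact hp _
  have h1 : C ^ k = p + (1 - p) * (C ^ k) * (1 - p) + (C ^ k - p - (1 - p) * (C ^ k) * (1 - p)) := by abel
  have h2 : (C ^ k) * (p : Module.End ℝ (κ → ℝ)) = p := LinearMap.ext fun x => hTf _ (hpr.mem x)
  have h3 : (p : Module.End ℝ (κ → ℝ)) * p = p := LinearMap.ext fun x => hpr.idem x
  have h4 : LinearMap.trace ℝ (κ → ℝ) ((1 - p : Module.End ℝ (κ → ℝ)) * (C ^ k) * (1 - p)) =
      LinearMap.trace ℝ (κ → ℝ) ((C ^ k) * (1 - p)) := by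
    rw [mul_assoc, LinearMap.trace_mul_comm, mul_assoc]
    congr 2
    rw [mul_sub, sub_mul, sub_mul, h3]
    simp
  have h5 : (C ^ k) * (1 - p : Module.End ℝ (κ → ℝ)) = C ^ k - p := by
    rw [mul_sub, mul_one, h2]
  have h6 : 0 ≤ LinearMap.trace ℝ (κ → ℝ) ((1 - p : Module.End ℝ (κ → ℝ)) * (C ^ k) * (1 - p)) := by
    refine tr_nonneg _ fun x => ?_
    show 0 ≤ x ⬝ᵥ ((1 - p : Module.End ℝ (κ → ℝ)) ((C ^ k) ((1 - p : Module.End ℝ (κ → ℝ)) x)))
    have h7 : ∀ x y : κ → ℝ, x ⬝ᵥ ((1 - p : Module.End ℝ (κ → ℝ)) y) = ((1 - p : Module.End ℝ (κ → ℝ)) x) ⬝ᵥ y := by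
      intro x y
      show x ⬝ᵥ (y - p y) = (x - p x) ⬝ᵥ y
      rw [dotProduct_sub, sub_dotProduct, hpr.symm]
    rw [h7]
    exact hTp _
  rw [h4, h5, map_sub] at h6
  rw [hpr.trace] at h6
  linarith

/-- traces of words in two reflections of a subspace -/
theorem tr_refl (R1 R2 Q : Module.End ℝ (κ → ℝ)) (h11 : R1 * R1 = Q) (h22 : R2 * R2 = Q)
    (h1Q : R1 * Q = R1) (h2Q : R2 * Q = R2) (k : ℕ) :
    LinearMap.trace ℝ (κ → ℝ) ((R1 * R2) ^ (2 * k) * R1) = LinearMap.trace ℝ (κ → ℝ) R1 ∧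
    LinearMap.trace ℝ (κ → ℝ) ((R1 * R2) ^ (2 * k + 1) * R1) = LinearMap.trace ℝ (κ → ℝ) R2 := by
  have step : ∀ m : ℕ, LinearMap.trace ℝ (κ → ℝ) ((R1 * R2) ^ (m + 2) * R1) =
      LinearMap.trace ℝ (κ → ℝ) ((R1 * R2) ^ m * R1) := by
    intro m
    have e1 : (R1 * R2) ^ (m + 2) * R1 = (R1 * R2) * ((R1 * R2) ^ m * (R1 * R2) * R1) := by
      rw [pow_succ, pow_succ']
      simp only [mul_assoc]
    have e2 : (R1 * R2) ^ m * (R1 * R2) * R1 * (R1 * R2) = (R1 * R2) ^ m * R1 := by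
      have : R1 * R2 * R1 * (R1 * R2) = R1 := by
        calc R1 * R2 * R1 * (R1 * R2) = R1 * (R2 * (R1 * R1) * R2) := by simp only [mul_assoc]
          _ = R1 * Q := by rw [h11, h2Q, h22]
          _ = R1 := h1Q
      rw [mul_assoc, mul_assoc, ← mul_assoc (R1 * R2), this]
    rw [e1, LinearMap.trace_mul_comm, e2]
  have base : LinearMap.trace ℝ (κ → ℝ) ((R1 * R2) ^ 1 * R1) = LinearMap.trace ℝ (κ → ℝ) R2 := by
    rw [pow_one, LinearMap.trace_mul_comm, ← mul_assoc, h11, LinearMap.trace_mul_comm, h2Q]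
  induction k with
  | zero =>
    refine ⟨?_, base⟩
    rw [mul_zero, pow_zero, one_mul]
  | succ k ih =>
    refine ⟨?_, ?_⟩
    · rw [show 2 * (k + 1) = 2 * k + 2 by ring, step, ih.1]
    · rw [show 2 * (k + 1) + 1 = (2 * k + 1) + 2 by ring, step, ih.2]

end trace

end Pool.Agent.W5h83.GT
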