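import Pool.Agent.H7.L.TH652_Glue

/-!
# Coning off and a refined Mayer–Vietoris inequality
-/

set_option autoImplicit false
set_option linter.unusedSectionVars false

namespace Pool.Agent.W5h83.GT

open Module Pool.Agent.W907.SG
open Pool.Agent.W347.SGV (qq qq_of_mem qq_of_not qq_bd qq_mem lift lift_mem qq_lift)
open Pool.Agent.TH652.Glue (res res_of_sub res_of_not res_mem inter_mem KK_mono BB_mono finrank_prod_sub)

section
variable {V : Type} [Fintype V] [LinearOrder V]
variable {F M : Type} [Field F] [AddCommGroup M] [Module F M]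

theorem map_bound {F E1 E2 : Type} [Field F] [AddCommGroup E1] [Module F E1] [FiniteDimensional F E1]
    [AddCommGroup E2] [Module F E2] [FiniteDimensional F E2] (f : E1 →ₗ[F] E2) {B Z : Submodule F E1} (h : B ≤ Z) :
    finrank F (Z.map f) ≤ finrank F (B.map f) + (finrank F Z - finrank F B) := by
  have key := mid F E1 E2 E2 f 0 B Z (B.map f) (Z.map f) ⊥ ⊥ h (Submodule.map_mono h) le_rfl le_rfl
    (by rintro _ ⟨z, _, rfl⟩; rw [LinearMap.zero_apply]; exact Submodule.zero_mem _)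
    (fun z hz _ => by
      obtain ⟨z1, h1, rfl⟩ := hz
      exact ⟨z1, h1, 0, Submodule.zero_mem _, (add_zero _).symm⟩)
  rw [finrank_bot, Nat.sub_self, add_zero] at key
  omega

theorem bd_lift (v : V) (z : Finset V → M) (h0 : bd F z = 0) (hz : ∀ T, v ∈ T → z T = 0) :
    bd F (lift v z) = z := by
  have hq : qq F v (lift v z) = z := by
    funext T
    by_cases hv : v ∈ T
    · rw [qq_of_mem _ hv, hz T hv]
    · rw [qq_of_not _ hv]
      unfold lift
      rw [if_pos (Finset.mem_insert_self _ _), Finset.erase_insert hv, smul_smul, sg_mul_self, one_smul]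
  funext T
  by_cases hv : v ∈ T
  · have h1 := congrFun (qq_bd (F := F) v (lift v z)) (T.erase v)
    rw [hq, h0, Pi.neg_apply, qq_of_not _ (Finset.notMem_erase _ _), Finset.insert_erase hv, Pi.zero_apply] at h1
    have h2 : sg v (T.erase v) • sg v (T.erase v) • bd F (lift v z) T = 0 := by
      rw [neg_eq_zero.1 h1.symm, smul_zero]
    rw [smul_smul, sg_mul_self, one_smul] at h2
    rw [h2, hz T hv]
  · rw [bd_apply, Finset.sum_eq_single v]
    · rw [← qq_of_not (F := F) _ hv, hq]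
    · intro u hu huv
      have : v ∉ insert u T := by
        rw [Finset.mem_insert]
        rintro (h | h)
        · exact huv h.symm
        · exact hv h
      unfold lift
      rw [if_neg this, smul_zero]
    · intro h
      exact absurd (by simpa using hv) h

/-- **The cone bound.** -/
theorem cone_bound [FiniteDimensional F M] (G : SimpleGraph V) (ρ : V → M →ₗ[F] M) (A : Set V) (v : V)
    (hvA : v ∉ A) (j : ℕ) :
    finrank F ↥(BB G ρ A ∅ j ⊓ KK G ρ (A ∩ G.neighborSet v) {v} j) ≤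
      beta G ρ (insert v A) ∅ (j + 1) + finrank F (BB G ρ (A ∩ G.neighborSet v) {v} j) := by
  have e0 : (insert v (∅ : Set V)) = {v} := insert_empty_eq v
  have h1 : BB G ρ A ∅ j ⊓ KK G ρ (A ∩ G.neighborSet v) {v} j ≤
      (ZZ G ρ (insert v A) ∅ (j + 1)).map (qq F v) := by
    rintro z ⟨⟨y, hy, hyz⟩, hz⟩
    have hz' : z ∈ KK G ρ (A ∩ G.neighborSet v) (insert v ∅) j := by rw [e0]; exact hz
    have hq := qq_lift hvA hz'
    have hl := lift_mem (A := A) hz'
    have hb : bd F (lift v z) = z := by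
      refine bd_lift v z ?_ fun T hT => (mem_KK.1 hz').1 T fun h => hvA (h.2.1 (by simpa using hT)).1
      rw [← hyz, bd_bd]
    have hy0 : qq F v y = 0 := by
      funext T
      by_cases hv : v ∈ T
      · rw [qq_of_mem _ hv]; rfl
      · rw [qq_of_not _ hv, (mem_KK.1 hy).1 (insert v T) fun h => hvA (h.2.1 (by simp)), smul_zero]; rfl
    refine ⟨lift v z - y, ⟨Submodule.sub_mem _ hl (KK_mono (Set.subset_insert _ _) _ hy), ?_⟩, ?_⟩
    · show bd F (lift v z - y) = 0
      rw [map_sub, hb, hyz, sub_self]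
    · rw [map_sub, hq, hy0, sub_zero]
  have h2 : (BB G ρ (insert v A) ∅ (j + 1)).map (qq F v) ≤ BB G ρ (A ∩ G.neighborSet v) {v} j := by
    rintro _ ⟨_, ⟨w, hw, rfl⟩, rfl⟩
    have hw' := qq_mem (F := F) hw
    rw [e0] at hw'
    refine ⟨- qq F v w, Submodule.neg_mem _ hw', ?_⟩
    rw [map_neg, qq_bd, neg_neg]
  have h3 := map_bound (qq F v) (BB_le_ZZ G ρ (insert v A) ∅ (j + 1))
  have h4 := Submodule.finrank_mono h1
  have h5 := Submodule.finrank_mono h2
  unfold beta
  omega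

/-- **The refined Mayer–Vietoris inequality.** -/
theorem glue_fine [FiniteDimensional F M] (G : SimpleGraph V) (ρ : V → M →ₗ[F] M) (A B U : Set V)
    (hA : A ⊆ U) (hB : B ⊆ U)
    (hcl : ∀ T : Finset V, G.IsClique (T : Set V) → (T : Set V) ⊆ U → (T : Set V) ⊆ A ∨ (T : Set V) ⊆ B) (i : ℕ) :
    beta G ρ U ∅ (i + 1) ≤ beta G ρ A ∅ (i + 1) + beta G ρ B ∅ (i + 1) +
      (finrank F ↥((BB G ρ A ∅ i ⊓ BB G ρ B ∅ i) ⊓ KK G ρ (A ∩ B) ∅ i) - finrank F (BB G ρ (A ∩ B) ∅ i)) := by
  have hrc : ∀ {n : ℕ} {c : Finset V → M}, c ∈ KK G ρ U ∅ n → c - res F A c ∈ KK G ρ B ∅ n := by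
    intro n c h
    rw [mem_KK] at h ⊢
    refine ⟨fun T hT => ?_, fun T t ht => ?_⟩
    · by_cases hA : (T : Set V) ⊆ A
      · rw [Pi.sub_apply, res_of_sub c hA, sub_self]
      · rw [Pi.sub_apply, res_of_not c hA, sub_zero]
        refine h.1 T fun h1 => hT ⟨h1.1, ?_, h1.2.2⟩
        exact (hcl T h1.1 h1.2.1).resolve_left hA
    · by_cases hA : (T : Set V) ⊆ A
      · rw [Pi.sub_apply, res_of_sub c hA, sub_self, map_zero, neg_zero]
      · rw [Pi.sub_apply, res_of_not c hA, sub_zero]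
        exact h.2 T t ht
  have hra : ∀ {n : ℕ} {c : Finset V → M}, c ∈ KK G ρ U ∅ n → res F A c ∈ KK G ρ A ∅ n := fun h =>
    res_mem (KK_mono (Set.subset_univ _) _ h)
  have key := mid F ((Finset V → M) × (Finset V → M)) (Finset V → M) (Finset V → M)
    (LinearMap.coprod LinearMap.id LinearMap.id) ((bd F).comp (res F A))
    ((BB G ρ A ∅ (i + 1)).prod (BB G ρ B ∅ (i + 1))) ((ZZ G ρ A ∅ (i + 1)).prod (ZZ G ρ B ∅ (i + 1)))
    (BB G ρ U ∅ (i + 1)) (ZZ G ρ U ∅ (i + 1)) (BB G ρ (A ∩ B) ∅ i)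
    ((BB G ρ A ∅ i ⊓ BB G ρ B ∅ i) ⊓ KK G ρ (A ∩ B) ∅ i)
    (Submodule.prod_mono (BB_le_ZZ _ _ _ _ _) (BB_le_ZZ _ _ _ _ _)) (BB_le_ZZ _ _ _ _ _)
    (le_inf (le_inf (BB_mono Set.inter_subset_left _) (BB_mono Set.inter_subset_right _))
      ((BB_le_ZZ _ _ _ _ _).trans inf_le_left))
    (by
      rintro _ ⟨⟨a, b⟩, ⟨ha, hb⟩, rfl⟩
      exact Submodule.add_mem _ (BB_mono hA _ ha) (BB_mono hB _ hb))
    (by
      rintro _ ⟨z, hz, rfl⟩
      have h1 : bd F z = 0 := hz.2
      have h2 : bd F (res F A z) = - bd F (z - res F A z) := by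
        rw [map_sub, h1, zero_sub, neg_neg]
      refine ⟨⟨⟨_, hra hz.1, rfl⟩, ?_⟩, inter_mem (bd_mem_KK (hra hz.1)) ?_⟩
      · show bd F (res F A z) ∈ _
        rw [h2]
        exact Submodule.neg_mem _ ⟨_, hrc hz.1, rfl⟩
      · show bd F (res F A z) ∈ _
        rw [h2]
        exact Submodule.neg_mem _ (bd_mem_KK (hrc hz.1)))
    (by
      rintro z hz ⟨e, he, hez⟩
      have h1 : bd F z = 0 := hz.2
      have h0 : bd F e = bd F (res F A z) := hez
      refine ⟨(res F A z - e, (z - res F A z) + e), ⟨⟨?_, ?_⟩, ⟨?_, ?_⟩⟩, 0, Submodule.zero_mem _, ?_⟩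
      · exact Submodule.sub_mem _ (hra hz.1) (KK_mono Set.inter_subset_left _ he)
      · show bd F (res F A z - e) = 0
        rw [map_sub, h0, sub_self]
      · exact Submodule.add_mem _ (hrc hz.1) (KK_mono Set.inter_subset_right _ he)
      · show bd F ((z - res F A z) + e) = 0
        rw [map_add, map_sub, h1, h0]; abel
      · show z = LinearMap.coprod LinearMap.id LinearMap.id (res F A z - e, (z - res F A z) + e) + 0
        rw [LinearMap.coprod_apply, LinearMap.id_apply, LinearMap.id_apply]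
        funext T
        simp only [Pi.add_apply, Pi.sub_apply, Pi.zero_apply]; abel)
  rw [finrank_prod_sub, finrank_prod_sub] at key
  have k1 := Submodule.finrank_mono (BB_le_ZZ G ρ A ∅ (i + 1))
  have k2 := Submodule.finrank_mono (BB_le_ZZ G ρ B ∅ (i + 1))
  unfold beta
  omega

end

end Pool.Agent.W5h83.GT
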