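import Pool.Agent.H79.LX.W5h83_GT_Top1
import Pool.Agent.H79.LX.W5h83_GT_Stm

/-!
# Sets with a coloured product structure
-/

set_option autoImplicit false
set_option linter.unusedSectionVars false

namespace Pool.Agent.W5h83.GT

open Module Pool.Agent.W907.SG
open Pool.Agent.TH652.Glue (KK_mono BB_mono)

theorem finrank_PV {ι F : Type} [Fintype ι] [Fintype F] (V : Submodule ℝ (ι → ℝ)) :
    finrank ℝ (PV F V) = Fintype.card F * finrank ℝ V := by
  let e : (PV F V) ≃ₗ[ℝ] (F → V) :=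
    { toFun := fun w f => ⟨fun j => w.1 (f, j), w.2 f⟩
      invFun := fun u => ⟨fun z => (u z.1).1 z.2, fun f => (u f).2⟩
      map_add' := fun _ _ => rfl
      map_smul' := fun _ _ => rfl
      left_inv := fun _ => rfl
      right_inv := fun _ => rfl }
  rw [e.finrank_eq, Module.finrank_pi_fintype, Finset.sum_const, Finset.card_univ, smul_eq_mul]

section cu
variable {V X : Type}

/-- currying -/
def cu (V X : Type) : (Finset V × X → ℝ) ≃ₗ[ℝ] (Finset V → X → ℝ) where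
  toFun u T x := u (T, x)
  invFun y z := y z.1 z.2
  left_inv _ := rfl
  right_inv _ := rfl
  map_add' _ _ := rfl
  map_smul' _ _ := rfl

/-- subspaces of functions on `Finset V × X` -/
def uc (K : Submodule ℝ (Finset V → X → ℝ)) : Submodule ℝ (Finset V × X → ℝ) := K.comap (cu V X).toLinearMap

theorem mem_uc {K : Submodule ℝ (Finset V → X → ℝ)} {u : Finset V × X → ℝ} :
    u ∈ uc K ↔ (fun T x => u (T, x)) ∈ K := Iff.rfl

theorem finrank_uc (K : Submodule ℝ (Finset V → X → ℝ)) : finrank ℝ (uc K) = finrank ℝ K := by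
  unfold uc
  rw [Submodule.comap_equiv_eq_map_symm]
  exact LinearEquiv.finrank_map_eq _ _

/-- chains on a product -/
def sw (V X F : Type) : (F × (Finset V × X) → ℝ) ≃ₗ[ℝ] (Finset V → X × F → ℝ) where
  toFun w T z := w (z.2, (T, z.1))
  invFun y z := y z.2.1 (z.2.2, z.1)
  left_inv _ := rfl
  right_inv _ := rfl
  map_add' _ _ := rfl
  map_smul' _ _ := rfl

theorem finrank_sw {F : Type} (K : Submodule ℝ (Finset V → X × F → ℝ)) :
    finrank ℝ (K.comap (sw V X F).toLinearMap) = finrank ℝ K := by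
  rw [Submodule.comap_equiv_eq_map_symm]
  exact LinearEquiv.finrank_map_eq _ _

end cu

section slice
variable {V X F : Type} [Fintype V] [LinearOrder V] {G : SimpleGraph V} {v0 : V} {a : V → X → X}
  {b : V → X × F → X × F}

theorem KK_slice (hb : ∀ v, v ≠ v0 → ∀ z, b v z = (a v z.1, z.2)) {A S : Set V} (hA : v0 ∉ A) (hS : v0 ∉ S) {i : ℕ}
    {y : Finset V → X × F → ℝ} :
    y ∈ KK G (pull ℝ b) A S i ↔ ∀ f, (fun T x => y T (x, f)) ∈ KK G (pull ℝ a) A S i := by
  have hne : ∀ (T : Finset V) t, (T : Set V) ⊆ A → (t ∈ T ∨ t ∈ S) → t ≠ v0 := by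
    rintro T t hT ht rfl
    rcases ht with h | h
    · exact hA (hT h)
    · exact hS h
  constructor
  · intro h f
    rw [mem_KK] at h ⊢
    refine ⟨fun T hT => funext fun x => congrFun (h.1 T hT) (x, f), fun T t ht => ?_⟩
    funext x
    by_cases hT : (T : Set V) ⊆ A
    · have h1 := congrFun (h.2 T t ht) (x, f)
      rw [pull_apply, hb t (hne T t hT ht)] at h1
      exact h1
    · have e : y T = 0 := h.1 T fun h1 => hT h1.2.1
      rw [pull_apply, Pi.neg_apply]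
      show y T (a t x, f) = - y T (x, f)
      rw [e]; simp
  · intro h
    rw [mem_KK]
    refine ⟨fun T hT => funext fun z => congrFun ((h z.2).1 T hT) z.1, fun T t ht => ?_⟩
    funext z
    by_cases hT : (T : Set V) ⊆ A
    · have h1 := congrFun ((h z.2).2 T t ht) z.1
      rw [pull_apply, hb t (hne T t hT ht)]
      exact h1
    · have e : y T = 0 := funext fun z => congrFun ((h z.2).1 T fun h1 => hT h1.2.1) z.1
      rw [pull_apply, e]; simp

theorem bd_slice (y : Finset V → X × F → ℝ) (f : F) :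
    (fun T x => bd ℝ y T (x, f)) = bd ℝ (fun T x => y T (x, f)) := by
  funext T x
  rw [bd_apply, bd_apply, Finset.sum_apply, Finset.sum_apply]
  rfl

theorem BB_slice (hb : ∀ v, v ≠ v0 → ∀ z, b v z = (a v z.1, z.2)) {A S : Set V} (hA : v0 ∉ A) (hS : v0 ∉ S) {i : ℕ}
    {y : Finset V → X × F → ℝ} :
    y ∈ BB G (pull ℝ b) A S i ↔ ∀ f, (fun T x => y T (x, f)) ∈ BB G (pull ℝ a) A S i := by
  constructor
  · rintro ⟨w, hw, rfl⟩ f
    exact ⟨_, (KK_slice hb hA hS).1 hw f, (bd_slice w f).symm⟩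
  · intro h
    choose w hw hwy using h
    refine ⟨fun T z => w z.2 T z.1, (KK_slice hb hA hS).2 fun f => hw f, ?_⟩
    funext T z
    have h1 := congrFun (congrFun (bd_slice (fun T (z : X × F) => w z.2 T z.1) z.2) T) z.1
    have h2 := congrFun (congrFun (hwy z.2) T) z.1
    exact h1.trans h2

variable {E : Type} {τ : E → F → F} {e : X → E}

/-- the colour -/
def cl (V : Type) (e : X → E) (z : Finset V × X) : E := e z.2

theorem an_iff (hb0 : ∀ z, b v0 z = (z.1, τ (e z.1) z.2)) (w : F × (Finset V × X) → ℝ) :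
    w ∈ An τ (cl V e) ↔ ∀ T, pull ℝ b v0 (sw V X F w T) = - sw V X F w T := by
  constructor
  · intro h T
    funext z
    rw [pull_apply, hb0]
    exact h z.2 (T, z.1)
  · intro h f j
    have h1 := congrFun (h j.1) (j.2, f)
    rw [pull_apply, hb0] at h1
    exact h1

theorem lemI (hb : ∀ v, v ≠ v0 → ∀ z, b v z = (a v z.1, z.2)) (hb0 : ∀ z, b v0 z = (z.1, τ (e z.1) z.2))
    {A S : Set V} (hA : v0 ∉ A) (hS : v0 ∉ S) {i : ℕ} :
    PV F (uc (BB G (pull ℝ a) A ∅ i ⊓ KK G (pull ℝ a) S ∅ i)) ⊓ An τ (cl V e) ≤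
      (BB G (pull ℝ b) A ∅ i ⊓ KK G (pull ℝ b) S {v0} i).comap (sw V X F).toLinearMap := by
  rintro w ⟨h1, h2⟩
  have h3 : sw V X F w ∈ BB G (pull ℝ b) A ∅ i := (BB_slice hb hA (by simp)).2 fun f => (h1 f).1
  have h4 : sw V X F w ∈ KK G (pull ℝ b) S ∅ i := (KK_slice hb hS (by simp)).2 fun f => (h1 f).2
  refine ⟨h3, h4.1, fun T t ht => ?_⟩
  rcases ht with ht | ht
  · exact h4.2 T t (Or.inl ht)
  · rw [Set.mem_singleton_iff.1 ht]
    exact (an_iff hb0 w).1 h2 T

theorem lemII (hb : ∀ v, v ≠ v0 → ∀ z, b v z = (a v z.1, z.2)) (hb0 : ∀ z, b v0 z = (z.1, τ (e z.1) z.2))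
    {S : Set V} (hS : v0 ∉ S) {i : ℕ} :
    (BB G (pull ℝ b) S {v0} i).comap (sw V X F).toLinearMap ≤
      PV F (uc (BB G (pull ℝ a) S ∅ i)) ⊓ An τ (cl V e) := by
  intro w hw
  have h0 : sw V X F w ∈ BB G (pull ℝ b) S {v0} i := hw
  obtain ⟨y, hy, hyw⟩ := h0
  refine ⟨fun f => ?_, ?_⟩
  · have h1 : sw V X F w ∈ BB G (pull ℝ b) S ∅ i :=
      ⟨y, ⟨hy.1, fun T t ht => hy.2 T t (ht.elim Or.inl fun h => absurd h (by simp))⟩, hyw⟩
    exact (BB_slice hb hS (by simp)).1 h1 f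
  · refine (an_iff hb0 w).2 fun T => ?_
    have h1 := bd_mem_KK hy
    rw [hyw] at h1
    exact h1.2 T v0 (Or.inr rfl)

end slice

section hom
variable {V X E : Type} [Fintype V] [LinearOrder V] [Fintype X] [Fintype E] {G : SimpleGraph V} {a : V → X → X}
  {e : X → E} {S : Set V}

open Classical in
theorem KK_hom (he : ∀ v ∈ S, ∀ x, e (a v x) = e x) (i : ℕ) : Hom (cl V e) (uc (KK G (pull ℝ a) S ∅ i)) := by
  intro u hu e0
  have hu' : (fun T x => u (T, x)) ∈ KK G (pull ℝ a) S ∅ i := hu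
  show (fun (T : Finset V) (x : X) => if e x = e0 then u (T, x) else 0) ∈ KK G (pull ℝ a) S ∅ i
  rw [mem_KK] at hu' ⊢
  refine ⟨fun T hT => ?_, fun T t ht => ?_⟩
  · funext x
    have := congrFun (hu'.1 T hT) x
    show (if e x = e0 then u (T, x) else 0) = 0
    rw [show u (T, x) = 0 from this, ite_self]
  · funext x
    by_cases hT : (T : Set V) ⊆ S
    · have htS : t ∈ S := by
        rcases ht with h | h
        · exact hT h
        · exact absurd h (by simp)
      have h1 : u (T, a t x) = - u (T, x) := congrFun (hu'.2 T t ht) x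
      rw [pull_apply, Pi.neg_apply]
      show (if e (a t x) = e0 then u (T, a t x) else 0) = - (if e x = e0 then u (T, x) else 0)
      rw [he t htS, h1]
      split_ifs <;> simp
    · have h0 : ∀ x, u (T, x) = 0 := fun x => congrFun (hu'.1 T fun h1 => hT h1.2.1) x
      rw [pull_apply, Pi.neg_apply]
      show (if e (a t x) = e0 then u (T, a t x) else 0) = - (if e x = e0 then u (T, x) else 0)
      rw [h0, h0, ite_self, ite_self, neg_zero]

open Classical in
theorem BB_hom (he : ∀ v ∈ S, ∀ x, e (a v x) = e x) (i : ℕ) : Hom (cl V e) (uc (BB G (pull ℝ a) S ∅ i)) := by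
  intro u hu e0
  obtain ⟨w, hw, hwu⟩ := hu
  have h1 := KK_hom (G := G) he (i + 1) (fun z => w z.1 z.2) hw e0
  refine ⟨_, h1, ?_⟩
  funext T x
  have h2 := congrFun (congrFun hwu T) x
  rw [bd_apply, Finset.sum_apply] at h2 ⊢
  show ∑ v ∈ Tᶜ, sg v T • (if e x = e0 then w (insert v T) x else 0) = if e x = e0 then u (T, x) else 0
  have h3 : ∑ v ∈ Tᶜ, sg v T • w (insert v T) x = u (T, x) := h2
  split_ifs
  · exact h3
  · simp

end hom

section main
variable {V X F E : Type} [Fintype V] [LinearOrder V] [Fintype X] [Fintype F] [Nonempty F] [Fintype E]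
  {G : SimpleGraph V} {v0 : V} {a : V → X → X} {b : V → X × F → X × F} {τ : E → F → F} {e : X → E}

theorem hdA (half : S_HALF) (hb : ∀ v, v ≠ v0 → ∀ z, b v z = (a v z.1, z.2))
    (hb0 : ∀ z, b v0 z = (z.1, τ (e z.1) z.2)) (hτ : ∀ e f, τ e (τ e f) = f) (sgn : E → F → Bool)
    (hsgn : ∀ e f, sgn e (τ e f) = !(sgn e f)) {A S : Set V} (hA : v0 ∉ A) (hS : A ∩ G.neighborSet v0 = S)
    (he : ∀ v ∈ S, ∀ x, e (a v x) = e x) (N0 i : ℕ)
    (hsm : N0 * beta G (pull ℝ b) (insert v0 A) ∅ (i + 1) ≤ Fintype.card (X × F))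
    (V' : Submodule ℝ (Finset V × X → ℝ)) (hV : Hom (cl V e) V') :
    2 * N0 * finrank ℝ ↥(uc (BB G (pull ℝ a) A ∅ i ⊓ KK G (pull ℝ a) S ∅ i) ⊓ V') ≤
      N0 * finrank ℝ V' + N0 * finrank ℝ (uc (BB G (pull ℝ a) S ∅ i)) + 2 * Fintype.card X := by
  have hvS : v0 ∉ S := fun h => hA (by rw [← hS] at h; exact h.1)
  have p1 : finrank ℝ (PV F (uc (BB G (pull ℝ a) A ∅ i ⊓ KK G (pull ℝ a) S ∅ i) ⊓ V')) = _ := finrank_PV _
  have p2 := half (Finset V × X) E F τ (cl V e) sgn hτ hsgn V' hV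
  have p3 := half (Finset V × X) E F τ (cl V e) sgn hτ hsgn _ (BB_hom (G := G) he i)
  have q1 := Submodule.finrank_sup_add_finrank_inf_eq
    (PV F (uc (BB G (pull ℝ a) A ∅ i ⊓ KK G (pull ℝ a) S ∅ i) ⊓ V')) (PV F V' ⊓ An τ (cl V e))
  have q2 : finrank ℝ ↥(PV F (uc (BB G (pull ℝ a) A ∅ i ⊓ KK G (pull ℝ a) S ∅ i) ⊓ V') ⊔
      (PV F V' ⊓ An τ (cl V e))) ≤ finrank ℝ (PV F V') :=
    Submodule.finrank_mono (sup_le (fun w hw f => (hw f).2) inf_le_left)
  have q3 : finrank ℝ ↥(PV F (uc (BB G (pull ℝ a) A ∅ i ⊓ KK G (pull ℝ a) S ∅ i) ⊓ V') ⊓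
      (PV F V' ⊓ An τ (cl V e))) ≤
      finrank ℝ ↥(PV F (uc (BB G (pull ℝ a) A ∅ i ⊓ KK G (pull ℝ a) S ∅ i)) ⊓ An τ (cl V e)) :=
    Submodule.finrank_mono fun w hw => ⟨fun f => (hw.1 f).1, hw.2.2⟩
  have q4 := Submodule.finrank_mono (lemI (G := G) (A := A) (S := S) (i := i) (V := V) hb hb0 hA hvS)
  rw [finrank_sw] at q4
  have q5 := cone_bound G (pull ℝ b) A v0 hA i
  rw [hS] at q5
  have q6 := Submodule.finrank_mono (lemII (G := G) (S := S) (i := i) (V := V) hb hb0 hvS)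
  rw [finrank_sw] at q6
  have hF : 0 < Fintype.card F := Fintype.card_pos
  rw [Fintype.card_prod] at hsm
  refine le_of_mul_le_mul_left (a := Fintype.card F) ?_ hF
  have r1 : 2 * (Fintype.card F * finrank ℝ ↥(uc (BB G (pull ℝ a) A ∅ i ⊓ KK G (pull ℝ a) S ∅ i) ⊓ V')) ≤
      Fintype.card F * finrank ℝ V' + 2 * beta G (pull ℝ b) (insert v0 A) ∅ (i + 1) +
        Fintype.card F * finrank ℝ (uc (BB G (pull ℝ a) S ∅ i)) := by
    omega
  have r2 := Nat.mul_le_mul_left N0 r1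
  nlinarith [r2, hsm]

end main

end Pool.Agent.W5h83.GT
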