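import Pool.Agent.H79.LX.W5h83_GT_Top3
import Pool.Agent.H79.LX.W5h83_GT_Half
import Pool.Agent.H79.LX.W5h83_GT_Expr

/-!
# Gluing along a link, in terms of graphs
-/

set_option autoImplicit false

namespace Pool.Agent.W5h83.GT

open Module Pool.Agent.W907.SG Pool.Agent.W907.SM
open Pool.Agent.TH652.Glue (lglue)

/-- the iso between iterated induced subgraphs -/
theorem ind_ind {V : Type} (G : SimpleGraph V) (U A : Set V) (h : A ⊆ U) :
    Nonempty (G.induce A ≃g (G.induce U).induce {u : U | (u : V) ∈ A}) :=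
  ⟨⟨⟨fun x => ⟨⟨x, h x.2⟩, x.2⟩, fun x => ⟨x.1.1, x.2⟩, fun _ => rfl, fun _ => rfl⟩, Iff.rfl⟩⟩

/-- **Gluing along a link.** -/
theorem glue_link {V : Type} [Finite V] (G : SimpleGraph V) (v0 : V) (A B : Set V) (hA : v0 ∉ A) (hB : v0 ∉ B)
    (hAB : A ∪ B = {v0}ᶜ) (hno : ∀ x ∈ A, x ∉ B → ∀ y ∈ B, y ∉ A → ¬ G.Adj x y) (hS : G.neighborSet v0 = A ∩ B)
    (i : ℕ) (h1 : LV (G.induce A) i) (h2 : LV (G.induce B) i)
    (h3 : LV (G.induce (insert v0 A)) i) (h4 : LV (G.induce (insert v0 B)) i) :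
    LV (G.induce ({v0}ᶜ : Set V)) i := by
  classical
  cases i with
  | zero =>
    refine lglue (G.induce ({v0}ᶜ : Set V)) {u | (u : V) ∈ A} {u | (u : V) ∈ B} ?_ ?_ 0 ?_ ?_ (fun j hj => by omega)
    · ext u
      have : (u : V) ∈ A ∪ B := by rw [hAB]; exact u.2
      simpa using this
    · intro a ha haB b hb hbA
      exact hno a ha haB b hb hbA
    · exact liso _ _ _ _ 0 (ind_ind G _ A (by rw [← hAB]; exact Set.subset_union_left)) h1
    · exact liso _ _ _ _ 0 (ind_ind G _ B (by rw [← hAB]; exact Set.subset_union_right)) h2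
  | succ j =>
    letI : Fintype V := Fintype.ofFinite V
    letI : LinearOrder V := LinearOrder.lift' (Fintype.equivFin V) (Fintype.equivFin V).injective
    intro iF iO
    refine ord _ _ _ iF _ iO _ _ (j + 1) ⟨SimpleGraph.Iso.refl⟩
      (glue_link_aux (word expr0) half G v0 A B hA hB hAB hno hS j (h1 _ _) (h2 _ _) (h3 _ _) (h4 _ _))

end Pool.Agent.W5h83.GT
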