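import Pool.Agent.H79.LX.W5h83_GT_Stm

/-!
# Finite sets with a colour
-/

set_option autoImplicit false
set_option linter.unusedSectionVars false

namespace Pool.Agent.W5h83.GT

open Module Pool.Agent.W907.SG
open Pool.Agent.W461.SGN (simple_mul_self simple_comm)

section red
variable {E : Type} [DecidableEq E]

theorem L_prod {L : FP E → List E} (h2 : ∀ g e, L (g * sf e) = st e (L g)) (m : List E) :
    ∀ g, Red m → (∀ x ∈ m.head?, ∀ y ∈ (L g).head?, x ≠ y) → L (g * (m.map fun e => sf e).prod) = m.reverse ++ L g := by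
  induction m with
  | nil => intro g _ _; simp
  | cons e m ih =>
    intro g hm hg
    have h3 : L (g * sf e) = e :: L g := by
      rw [h2]
      cases hL : L g with
      | nil => rfl
      | cons y t =>
        have : e ≠ y := hg e rfl y (by rw [hL]; rfl)
        show (if y = e then t else e :: y :: t) = _
        rw [if_neg this.symm]
    rw [List.map_cons, List.prod_cons, ← mul_assoc, ih (g * sf e) hm.tail ?_, h3]
    · simp
    · intro x hx y hy
      rw [h3] at hy
      have hy' : y = e := by simpa using hy.symm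
      cases m with
      | nil => simp at hx
      | cons z t =>
        have hx' : x = z := by simpa using hx.symm
        rw [hx', hy']
        exact hm.1.symm

theorem red_ne_one (m : List E) (hm : Red m) (h : m ≠ []) : (m.map fun e => sf e).prod ≠ 1 := by
  obtain ⟨L, h1, h2, h3, h4⟩ := exists_L (E := E)
  intro h5
  have h6 := L_prod h2 m 1 hm (by rw [h1]; simp)
  rw [one_mul, h5, h1] at h6
  simp at h6
  exact h h6

end red

/-- EXPR -/
def S_EXPR : Prop := ∀ (V : Type) (G : SimpleGraph V) (v0 : V) (g : W G), ∃ (b0 : W G) (l : List (W G)),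
  b0 ∈ Subgroup.closure {x : W G | ∃ v, v ≠ v0 ∧ x = (cox G).simple v} ∧
  (∀ b ∈ l, b ∈ Subgroup.closure {x : W G | ∃ v, v ≠ v0 ∧ x = (cox G).simple v}) ∧
  g = b0 * (l.map fun b => (cox G).simple v0 * b).prod ∧
  ∀ b ∈ l.dropLast, b * (cox G).simple v0 * b⁻¹ * (cox G).simple v0 ≠ 1

/-- the colours met along a word -/
def cols {Z E H : Type} (ev : Z → H → Z) (e : Z → E) : Z → List H → List E
  | _, [] => []
  | y, b :: l => e y :: cols ev e (ev y b) l

theorem cols_red {Z E H : Type} (ev : Z → H → Z) (e : Z → E) (l : List H) :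
    (∀ b ∈ l.dropLast, ∀ y, e (ev y b) ≠ e y) → ∀ y, Red (cols ev e y l) := by
  induction l with
  | nil => intro _ y; trivial
  | cons b l ih =>
    intro h y
    cases l with
    | nil => trivial
    | cons b' l' =>
      refine ⟨fun h1 => h b (by simp) y h1.symm, ?_⟩
      exact ih (fun c hc => h c (by
        rw [List.dropLast_cons₂]
        exact List.mem_cons_of_mem _ hc)) (ev y b)

theorem cols_ne {Z E H : Type} (ev : Z → H → Z) (e : Z → E) (l : List H) (h : l ≠ []) (y : Z) :
    cols ev e y l ≠ [] := by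
  cases l with
  | nil => exact absurd rfl h
  | cons b l => exact List.cons_ne_nil _ _

theorem word (hexpr : S_EXPR) : S_WORD := by
  classical
  intro V _ G v0 E0 hE0
  choose b0 lg x1 x2 x3 x4 using hexpr V G v0
  obtain ⟨s0, hs0⟩ : ∃ s, s = (cox G).simple v0 := ⟨_, rfl⟩
  have hss : s0 * s0 = 1 := by rw [hs0]; exact simple_mul_self G v0
  let E1 : Finset (W G) := E0 ∪ E0.biUnion fun g => ((lg g).dropLast.toFinset.image fun b => b * s0 * b⁻¹ * s0)
  have hE1 : (1 : W G) ∉ E1 := by
    intro h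
    rcases Finset.mem_union.1 h with h | h
    · exact hE0 h
    · obtain ⟨g, hg, h⟩ := Finset.mem_biUnion.1 h
      obtain ⟨b, hb, hb1⟩ := Finset.mem_image.1 h
      rw [hs0] at hb1
      exact x4 g b (List.mem_toFinset.1 hb) hb1
  have : Fact (Nat.Prime 3) := ⟨Nat.prime_three⟩
  obtain ⟨X0, iX0, iX0n, P, ev0, f1, f2, f3, f4⟩ := nilp 3 V G E1 (by decide) hE1
  let ρ : W G →* Equiv.Perm X0 := MonoidHom.mk' (fun g => ⟨fun x => ev0 x g⁻¹, fun x => ev0 x g,
    fun x => by show ev0 (ev0 x g⁻¹) g = x; rw [← f2, inv_mul_cancel, f1],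
    fun x => by show ev0 (ev0 x g) g⁻¹ = x; rw [← f2, mul_inv_cancel, f1]⟩) (fun g h => Equiv.ext fun x => by
      show ev0 x (g * h)⁻¹ = ev0 (ev0 x h⁻¹) g⁻¹
      rw [mul_inv_rev, f2])
  have hρ : ∀ g x, ρ g x = ev0 x g⁻¹ := fun _ _ => rfl
  let X : Type := Equiv.Perm X0 × X0
  let a : V → X → X := fun v z => (ρ ((cox G).simple v) * z.1, P.a v z.2)
  let Q : Subgroup (Equiv.Perm X0) := Subgroup.closure {p | ∃ v, G.Adj v0 v ∧ p = ρ ((cox G).simple v)}
  let E : Type := Quotient (QuotientGroup.rightRel Q)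
  let e : X → E := fun z => Quotient.mk _ z.1
  let evX : X → W G → X := fun z g => (ρ g⁻¹ * z.1, ev0 z.2 g)
  have e1 : ∀ z, evX z 1 = z := fun z => by
    show (ρ 1⁻¹ * z.1, ev0 z.2 1) = z
    rw [f1, inv_one, map_one, one_mul]
  have e2 : ∀ z g h, evX z (g * h) = evX (evX z g) h := fun z g h => by
    show (ρ (g * h)⁻¹ * z.1, ev0 z.2 (g * h)) = (ρ h⁻¹ * (ρ g⁻¹ * z.1), ev0 (ev0 z.2 g) h)
    rw [f2, mul_inv_rev, map_mul, mul_assoc]
  have hsv : ∀ v, ((cox G).simple v)⁻¹ = (cox G).simple v := fun v => inv_eq_of_mul_eq_one_left (simple_mul_self G v)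
  have e3 : ∀ z v, evX z ((cox G).simple v) = a v z := fun z v => by
    show (ρ ((cox G).simple v)⁻¹ * z.1, ev0 z.2 ((cox G).simple v)) = (ρ ((cox G).simple v) * z.1, P.a v z.2)
    rw [hsv, f3]
  -- separation of colours
  have hcent : ∀ q ∈ Q, q * ρ s0 = ρ s0 * q := by
    intro q hq
    refine Subgroup.closure_induction (p := fun q _ => q * ρ s0 = ρ s0 * q) ?_ ?_ ?_ ?_ hq
    · rintro _ ⟨v, hv, rfl⟩
      rw [← map_mul, ← map_mul, hs0, simple_comm G _ _ hv.symm]
    · rw [one_mul, mul_one]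
    · intro x y _ _ hx hy
      rw [mul_assoc, hy, ← mul_assoc, hx, mul_assoc]
    · intro x _ hx
      exact (Commute.inv_left (show Commute x (ρ s0) from hx)).eq
  have hsep : ∀ g ∈ E0, ∀ b ∈ (lg g).dropLast, ∀ y, e (evX y b) ≠ e y := by
    intro g hg b hb y h
    have h1 : (QuotientGroup.rightRel Q) (ρ b⁻¹ * y.1) y.1 := Quotient.exact h
    rw [QuotientGroup.rightRel_apply] at h1
    have h2 : ρ b ∈ Q := by
      have : y.1 * (ρ b⁻¹ * y.1)⁻¹ = ρ b := by
        rw [map_inv]; group
      rwa [this] at h1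
    have h3 := hcent _ h2
    have h4 : ρ (b * s0 * b⁻¹ * s0) = 1 := by
      rw [map_mul, map_mul, map_mul, h3, map_inv, mul_assoc (ρ s0), mul_inv_cancel, mul_one, ← map_mul, hss, map_one]
    have h5 : b * s0 * b⁻¹ * s0 ∈ E1 := Finset.mem_union_right _ (Finset.mem_biUnion.2 ⟨g, hg,
      Finset.mem_image.2 ⟨b, List.mem_toFinset.2 hb, rfl⟩⟩)
    have h6 : ρ (b * s0 * b⁻¹ * s0)⁻¹ = 1 := by rw [map_inv, h4, inv_one]
    have h7 := hρ (b * s0 * b⁻¹ * s0)⁻¹ y.2
    rw [h6, inv_inv] at h7
    exact f4 _ h5 y.2 h7.symm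
  let R : Finset (FP E) := ((E0 ×ˢ (Finset.univ : Finset X)).image fun w =>
    ((cols evX e w.2 (lg w.1)).map fun c => sf c).prod).erase 1
  haveI iE : Fintype E := Fintype.ofFinite _
  refine ⟨X, inferInstance, ⟨(1, Classical.arbitrary X0)⟩, a, fun v z => P.sgn v z.2, E, iE, e, R, ?_, ?_, ?_, ?_, ?_,
    Finset.notMem_erase _ _, ?_, ?_⟩
  · intro v z
    show (ρ ((cox G).simple v) * (ρ ((cox G).simple v) * z.1), P.a v (P.a v z.2)) = z
    rw [P.inv, ← mul_assoc, ← map_mul, simple_mul_self, map_one, one_mul]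
  · intro u v huv z
    show (ρ ((cox G).simple u) * (ρ ((cox G).simple v) * z.1), P.a u (P.a v z.2)) =
      (ρ ((cox G).simple v) * (ρ ((cox G).simple u) * z.1), P.a v (P.a u z.2))
    rw [P.comm u v huv, ← mul_assoc, ← mul_assoc, ← map_mul, ← map_mul, simple_comm G _ _ huv]
  · intro v z
    exact P.sgn_self v z.2
  · intro u v huv z
    exact P.sgn_other u v huv z.2
  · intro v hv z
    refine Quotient.sound ?_
    show (QuotientGroup.rightRel Q) (ρ ((cox G).simple v) * z.1) z.1
    rw [QuotientGroup.rightRel_apply]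
    have : z.1 * (ρ ((cox G).simple v) * z.1)⁻¹ = (ρ ((cox G).simple v))⁻¹ := by group
    rw [this]
    exact Q.inv_mem (Subgroup.subset_closure ⟨v, hv, rfl⟩)
  · intro ev g1 g2 g3 g hg z hz
    have h1 : ∀ g, ev z g = evX z g := by
      intro g
      refine (cox G).toCoxeterSystem.simple_induction_right (p := fun g => ev z g = evX z g) g ?_ ?_
      · rw [g1, e1]
      · intro g v hgv
        have hs : (cox G).toCoxeterSystem.simple v = (cox G).simple v := rfl
        rw [hs, g2, e2, g3, e3, hgv]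
    rw [h1] at hz
    exact f4 g (Finset.mem_union_left _ hg) z.2 (congrArg Prod.snd hz)
  · intro F τ eF t1 t2 t3 t4 b hb hb0 ev g1 g2 g3 g hg z hz
    -- the action of the letters
    have hW : ∀ c ∈ Subgroup.closure {x : W G | ∃ v, v ≠ v0 ∧ x = (cox G).simple v}, ∀ y f,
        ev (y, f) c = (evX y c, f) := by
      intro c hc
      refine Subgroup.closure_induction (p := fun c _ => ∀ y f, ev (y, f) c = (evX y c, f)) ?_ ?_ ?_ ?_ hc
      · rintro _ ⟨v, hv, rfl⟩ y f
        rw [g3, hb v hv, e3]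
      · intro y f
        rw [g1, e1]
      · intro c d _ _ h1 h2 y f
        rw [g2, h1, h2, e2]
      · intro c _ h1 y f
        have h2 := h1 (evX y c⁻¹) f
        rw [← e2, inv_mul_cancel, e1] at h2
        rw [← h2, ← g2, mul_inv_cancel, g1]
    have hl : ∀ (l : List (W G)), (∀ c ∈ l, c ∈ Subgroup.closure {x : W G | ∃ v, v ≠ v0 ∧ x = (cox G).simple v}) →
        ∀ y f, (ev (y, f) (l.map fun c => (cox G).simple v0 * c).prod).2 =
          eF f ((cols evX e y l).map fun c => sf c).prod := by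
      intro l
      induction l with
      | nil =>
        intro _ y f
        show (ev (y, f) 1).2 = eF f 1
        rw [g1, t1]
      | cons c l ih =>
        intro h y f
        show (ev (y, f) ((cox G).simple v0 * c * (l.map fun c => (cox G).simple v0 * c).prod)).2 =
          eF f (sf (e y) * ((cols evX e (evX y c) l).map fun c => sf c).prod)
        rw [g2, g2, g3, hb0, hW c (h c (List.mem_cons_self)), ih (fun d hd => h d (List.mem_cons_of_mem _ hd)), t2, t3]
    obtain ⟨y, f⟩ := z
    have h1 : g = b0 g * ((lg g).map fun c => (cox G).simple v0 * c).prod := x3 g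
    by_cases hn : lg g = []
    · rw [hn] at h1
      have h2 : g = b0 g := by simpa using h1
      have h3 := hW _ (x1 g) y f
      rw [← h2, hz] at h3
      have h4 : evX y g = y := (congrArg Prod.fst h3).symm
      exact f4 g (Finset.mem_union_left _ hg) y.2 (congrArg Prod.snd h4)
    · have h2 := hl (lg g) (x2 g) (evX y (b0 g)) f
      rw [← hW _ (x1 g), ← g2, ← h1, hz] at h2
      refine t4 _ ?_ f h2.symm
      refine Finset.mem_erase.2 ⟨?_, Finset.mem_image.2 ⟨(g, evX y (b0 g)), Finset.mem_product.2 ⟨hg, Finset.mem_univ _⟩,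
        rfl⟩⟩
      exact red_ne_one _ (cols_red evX e (lg g) (hsep g hg) _) (cols_ne _ _ _ hn _)

end Pool.Agent.W5h83.GT
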