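import Pool.Agent.H79.LX.X250_Sph_Mono
import Pool.Agent.H79.LX.X250_Sph_Taylor

/-!
# Full subcomplexes which are joins of discrete sets, and the bound for the links
-/

set_option autoImplicit false
set_option linter.unusedSectionVars false

namespace Pool.Agent.X250.Sph

open Module Pool.Agent.W907.SG Pool.Agent.W907.SM Pool.Agent.W397.SG Pool.Agent.W347.SGV
  Pool.Agent.W338.SG Pool.Agent.W461.SGN Pool.Agent.TH652.Above
open Pool.Agent.TH652.Join (join ljoin)
open Pool.Agent.W497.FS (cl lkF lam fe mem_cl mem_lkF sum_sup Full)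

variable {V : Type} [Fintype V] [LinearOrder V] {G : SimpleGraph V}

theorem LV_of {U : Type} [iF : Fintype U] [iO : LinearOrder U] {H : SimpleGraph U} {i : ℕ} (h : L2Van H i) :
    LV H i := fun f o => ord U U iF f iO o H H i ⟨SimpleGraph.Iso.refl⟩ h

theorem lv_zero_pair {A : Set V} {s t : V} (hs : s ∈ A) (ht : t ∈ A) (hst : s ≠ t) (hadj : ¬ G.Adj s t) :
    LV (G.induce A) 0 := by
  classical
  have key : ∀ (k : ℕ) (A : Set V), s ∈ A → t ∈ A → (A \ {s, t}).ncard = k → LV (G.induce A) 0 := by
    intro k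
    induction k with
    | zero =>
      intro A hs ht hk
      rw [Set.ncard_eq_zero, Set.sdiff_eq_empty] at hk
      refine lsusp ↥A (G.induce A) ⟨s, hs⟩ ⟨t, ht⟩ 0 (fun e => hst (congrArg Subtype.val e)) hadj ?_
      intro u hus hut
      rcases hk u.2 with h | h
      · exact absurd (Subtype.ext h) hus
      · exact absurd (Subtype.ext (Set.mem_singleton_iff.1 h)) hut
    | succ k ih =>
      intro A hs ht hk
      obtain ⟨v, hv⟩ : (A \ {s, t}).Nonempty := by
        rw [← Set.ncard_pos]; omega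
      have hvs : v ≠ s := fun e => hv.2 (by rw [e]; simp)
      have hvt : v ≠ t := fun e => hv.2 (by rw [e]; simp)
      refine lv_add G A v hv.1 0 (ih _ ⟨hs, fun e => hvs e.symm⟩ ⟨ht, fun e => hvt e.symm⟩ ?_)
        (fun j hj => absurd hj (by omega))
      have h1 : (A \ {v}) \ {s, t} = (A \ {s, t}) \ {v} := by
        ext x
        simp only [Set.mem_sdiff, Set.mem_singleton_iff, Set.mem_insert_iff]
        tauto
      have h2 := Set.ncard_sdiff_singleton_add_one hv (Set.toFinite _)
      rw [h1]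
      omega
  exact key _ A hs ht rfl

/-- the join of two full subcomplexes -/
theorem lv_union {A B : Set V} (hAB : ∀ a ∈ A, ∀ b ∈ B, G.Adj a b) (i : ℕ)
    (h : ∀ p q, p + q = i → LV (G.induce A) p ∨ LV (G.induce B) q) : LV (G.induce (A ∪ B)) i := by
  classical
  have h1 : LV (join (G.induce A) (G.induce B)) i := ljoin _ _ i h
  rw [← lv_univ] at h1
  have h2 := (lv_img (G := G) (fun x : ↥A ⊕ ↥B => match x with
    | Sum.inl a => a.1
    | Sum.inr b => b.1) Set.univ ?_ ?_ i).1 h1
  · refine lv_set ?_ (h2)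
    ext x
    simp only [Set.mem_union, Set.mem_image, Set.mem_univ, true_and]
    constructor
    · rintro (hx | hx)
      · exact ⟨Sum.inl ⟨x, hx⟩, rfl⟩
      · exact ⟨Sum.inr ⟨x, hx⟩, rfl⟩
    · rintro ⟨y | y, rfl⟩
      · exact Or.inl y.2
      · exact Or.inr y.2
  · rintro (a | a) _ (b | b) _ hab
    · exact congrArg Sum.inl (Subtype.ext hab)
    · have h3 : a.1 = b.1 := hab
      exact absurd h3 (hAB _ a.2 _ b.2).ne
    · have h3 : a.1 = b.1 := hab
      exact absurd h3.symm (hAB _ b.2 _ a.2).ne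
    · exact congrArg Sum.inr (Subtype.ext hab)
  · rintro (a | a) _ (b | b) _
    · exact Iff.rfl
    · exact iff_of_true (hAB _ a.2 _ b.2) trivial
    · exact iff_of_true (hAB _ b.2 _ a.2).symm trivial
    · exact Iff.rfl

/-- the two descriptions of the Charney-Davis quantity of a full subcomplex -/
theorem lam_coe (W : Finset V) [Fintype ↥(W : Set V)] : lam G W = chiW (G.induce (W : Set V)) := by
  classical
  rw [chiW_filter]
  unfold lam fe
  symm
  refine Finset.sum_nbij' (fun S => S.map (incl (W : Set V))) (fun S => cut (W : Set V) S) ?_ ?_ ?_ ?_ ?_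
  · intro S hS
    rw [Finset.mem_filter] at hS
    have hS2 := (clique_map G (W : Set V) S).1 hS.2
    rw [mem_cl]
    exact ⟨fun x hx => map_subset (W : Set V) S hx, fun x hx y hy hxy => hS2 hx hy hxy⟩
  · intro S hS
    rw [mem_cl] at hS
    have hsub : (S : Set V) ⊆ (W : Set V) := fun x hx => hS.1 hx
    rw [Finset.mem_filter]
    refine ⟨Finset.mem_univ _, ?_⟩
    rw [clique_map, map_cut _ hsub]
    exact fun x hx y hy hxy => hS.2 x hx y hy hxy
  · intro S _
    exact cut_map _ S
  · intro S hS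
    rw [mem_cl] at hS
    exact map_cut _ (fun x hx => hS.1 hx)
  · intro S _
    simp only [Finset.card_map]

/-- the quantity of a discrete set -/
theorem lam_indep (K : Finset V) (h : ∀ u ∈ K, ∀ v ∈ K, ¬ G.Adj u v) : lam G K = 1 - (K.card : ℚ) / 2 := by
  classical
  induction K using Finset.induction_on with
  | empty => simp [Pool.Agent.W497.FS.lam_empty]
  | insert a K ha ih =>
    have h1 := Pool.Agent.W497.FS.fe_erase (H := G) (Finset.mem_insert_self a K) (-1 / 2 : ℚ)
    have h2 : Pool.Agent.W497.FS.lk G (insert a K) a = ∅ := by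
      rw [Finset.eq_empty_iff_forall_notMem]
      intro x hx
      rw [Pool.Agent.W497.FS.mem_lk] at hx
      exact h a (Finset.mem_insert_self a K) x hx.1 hx.2
    rw [h2, Finset.erase_insert ha, Pool.Agent.W497.FS.fe_empty] at h1
    have h3 := ih fun u hu v hv => h u (Finset.mem_insert_of_mem hu) v (Finset.mem_insert_of_mem hv)
    unfold lam at h3 ⊢
    rw [h1, h3, Finset.card_insert_of_notMem ha]
    push_cast
    ring

/-- `K` is a family of discrete full subcomplexes which span their join -/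
structure IsMultipartite {ι : Type} (G : SimpleGraph V) (K : ι → Finset V) : Prop where
  two_le : ∀ k, 2 ≤ (K k).card
  indep : ∀ k, ∀ u ∈ K k, ∀ v ∈ K k, ¬ G.Adj u v
  adj : ∀ k l, k ≠ l → ∀ u ∈ K k, ∀ v ∈ K l, G.Adj u v

section multi

variable {ι : Type} [DecidableEq ι] {K : ι → Finset V}

theorem IsMultipartite.adj_biUnion (h : IsMultipartite G K) {a : ι} {s : Finset ι} (ha : a ∉ s) :
    ∀ u ∈ s.biUnion K, ∀ v ∈ K a, G.Adj u v := by
  intro u hu v hv
  rw [Finset.mem_biUnion] at hu
  obtain ⟨k, hk, hu⟩ := hu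
  exact h.adj k a (fun e => ha (e ▸ hk)) u hu v hv

theorem IsMultipartite.lv (h : IsMultipartite G K) (s : Finset ι) : ∀ i, i < s.card →
    LV (G.induce ((s.biUnion K : Finset V) : Set V)) i := by
  classical
  induction s using Finset.induction_on with
  | empty => intro i hi; simp at hi
  | insert a s ha ih =>
    intro i hi
    rw [Finset.card_insert_of_notMem ha] at hi
    have e : (((insert a s).biUnion K : Finset V) : Set V) =
        ((s.biUnion K : Finset V) : Set V) ∪ (K a : Set V) := by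
      rw [Finset.biUnion_insert, Finset.coe_union, Set.union_comm]
    refine lv_set e (lv_union (fun u hu v hv => h.adj_biUnion ha u hu v hv) i ?_)
    intro p q hpq
    rcases Nat.eq_zero_or_pos q with hq | hq
    · right
      obtain ⟨u, hu, v, hv, huv⟩ := Finset.one_lt_card.1 (h.two_le a)
      rw [hq]
      exact lv_zero_pair (A := (K a : Set V)) hu hv huv (h.indep a u hu v hv)
    · left
      exact ih p (by omega)

theorem IsMultipartite.lam (h : IsMultipartite G K) (s : Finset ι) :
    Pool.Agent.W497.FS.lam G (s.biUnion K) = ∏ k ∈ s, (1 - ((K k).card : ℚ) / 2) := by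
  classical
  induction s using Finset.induction_on with
  | empty => simp [Pool.Agent.W497.FS.lam_empty]
  | insert a s ha ih =>
    rw [Finset.biUnion_insert, Finset.prod_insert ha,
      Pool.Agent.W497.FS.lam_join (fun u hu v hv => (h.adj_biUnion ha v hv u hu).symm), ih,
      lam_indep (K a) (h.indep a)]

end multi

/-- the bound for the links of the faces -/
theorem mono_lk {n : ℕ} (hS : HSph n G) (hP : P n G) (F : Finset V) (hF : G.IsClique (F : Set V)) (j : ℕ)
    (hj : 2 * j + F.card = n) {A : Set V} [Fintype ↥A] [Fintype ↥(lk G F)] (hA : A ⊆ lk G F)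
    (hL : ∀ i, i < j → Even (i + j) → LV (G.induce A) i) :
    (-1 : ℚ) ^ j * chiW (G.induce A) ≤ (-1) ^ j * chiW (G.induce (lk G F)) := by
  classical
  refine mono_gen hA ?_ ?_ ?_
  · intro v hv C hC
    refine hP.2 (insert v F) ?_ _ ?_ j ?_
    · rw [Finset.coe_insert, SimpleGraph.isClique_insert]
      exact ⟨hF, fun u hu _ => hv.1 u hu⟩
    · intro a ha u hu
      rw [Finset.mem_insert] at hu
      rcases hu with rfl | hu
      · exact ha.2
      · exact (hC ha.1 u hu).symm
    · rw [Finset.card_insert_of_notMem (fun h => G.irrefl (hv.1 v h))]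
      omega
  · intro i hi he
    rcases lt_or_gt_of_ne hi with h | h
    · exact hL i h he
    · exact hP.2 F hF A (fun a ha u hu => (hA ha u hu).symm) i (by omega)
  · intro i ho
    refine LV_of (singer_lk hS hP F hF i ?_)
    intro e
    have : i = j := by omega
    subst this
    exact (Nat.not_odd_iff_even.2 ⟨i, rfl⟩) ho

/-- the bound for the gamma-vector: `𝓕` is a set of faces with `d - 2 j` vertices -/
theorem gamma_bound {d : ℕ} {γ : ℕ → ℤ} (hS : HSph d G) (hP : P d G) (hγ : IsGam d G γ) (j : ℕ)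
    (hj : 2 * j ≤ d) (𝓕 : Finset (Finset V)) (A : Finset V → Finset V)
    (hF : ∀ F ∈ 𝓕, G.IsClique (F : Set V) ∧ F.card = d - 2 * j)
    (hA : ∀ F ∈ 𝓕, (A F : Set V) ⊆ lk G F)
    (hL : ∀ F ∈ 𝓕, ∀ i, i < j → Even (i + j) → LV (G.induce (A F : Set V)) i) :
    ∑ F ∈ 𝓕, 4 ^ j * ((-1 : ℚ) ^ j * chiW (G.induce (A F : Set V))) ≤
      ∑ i ∈ Finset.range (d / 2 + 1), (i.choose j : ℚ) * 2 ^ (d - 2 * i) * γ i := by
  classical
  rw [← taylor (fun σ hσ => card_le_of_hSph hS σ (mem_cl_univ.1 hσ)) hγ j hj]
  have h1 : 𝓕 ⊆ (cl G Finset.univ).filter (fun F => F.card = d - 2 * j) := by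
    intro F h
    obtain ⟨h1, h2⟩ := hF F h
    exact Finset.mem_filter.2 ⟨mem_cl_univ.2 h1, h2⟩
  refine (Finset.sum_le_sum fun F h => ?_).trans (Finset.sum_le_sum_of_subset_of_nonneg h1 ?_)
  · obtain ⟨h2, h3⟩ := hF F h
    have h4 := mono_lk hS hP F h2 j (by omega) (hA F h) (hL F h)
    rw [lam_lk]
    exact mul_le_mul_of_nonneg_left h4 (by positivity)
  · intro F h _
    obtain ⟨h2, h3⟩ := Finset.mem_filter.1 h
    rw [lam_lk]
    exact mul_nonneg (by positivity) (gap_lk hS hP F (mem_cl_univ.1 h2) j (by omega)).1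

end Pool.Agent.X250.Sph
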