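import Pool.Agent.H79.LX.X250_Sph_Grow
import Pool.Agent.H79.LX.X250_Sph_Multi
import Pool.Agent.H7.L.Y132_SI_Free

/-!
# Upper bounds for Betti numbers by the links of faces
-/

set_option autoImplicit false
set_option linter.unusedSectionVars false

namespace Pool.Agent.X250.Sph

open Module Pool.Agent.W907.SG Pool.Agent.W907.SM Pool.Agent.W397.SG Pool.Agent.W347.SGV
  Pool.Agent.W338.SG Pool.Agent.W461.SGN Pool.Agent.TH652.Above Pool.Agent.Y132.SI
open Pool.Agent.W907.SM.Clo (Lk mem_Lk)

variable {V : Type} [Fintype V] [LinearOrder V]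

/-! ### finite `W_G`-sets with large injectivity radius -/

/-- finite `W_G`-sets on which the elements of `E` have no fixed points -/
def Far (G : SimpleGraph V) (E : Finset (W G)) (X : Type) (a : V → X → X) : Prop :=
  (∀ v x, a v (a v x) = x) ∧ (∀ u v, G.Adj u v → ∀ x, a u (a v x) = a v (a u x)) ∧
  ∃ ev : X → W G → X, (∀ x, ev x 1 = x) ∧ (∀ x g h, ev x (g * h) = ev (ev x g) h) ∧
    (∀ x v, ev x ((cox G).simple v) = a v x) ∧ ∀ g ∈ E, ∀ x, ev x g ≠ x

theorem Far.mono {G : SimpleGraph V} {E E' : Finset (W G)} (h : E ⊆ E') {X : Type} {a : V → X → X}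
    (hf : Far G E' X a) : Far G E X a := by
  obtain ⟨h1, h2, ev, h3, h4, h5, h6⟩ := hf
  exact ⟨h1, h2, ev, h3, h4, h5, fun g hg => h6 g (h hg)⟩

/-- for all finite `W_G`-sets with large injectivity radius -/
def Evt (G : SimpleGraph V) (Q : ∀ (X : Type) [Fintype X], (V → X → X) → Prop) : Prop :=
  ∃ E : Finset (W G), (1 : W G) ∉ E ∧ ∀ (X : Type) [Fintype X] (a : V → X → X), Far G E X a → Q X a

theorem Evt.mono {G : SimpleGraph V} {Q R : ∀ (X : Type) [Fintype X], (V → X → X) → Prop} (h : Evt G Q)
    (h2 : ∀ (X : Type) [Fintype X] (a : V → X → X), Far G ∅ X a → Q X a → R X a) : Evt G R := by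
  obtain ⟨E, h3, h4⟩ := h
  exact ⟨E, h3, fun X _ a hX => h2 X a (hX.mono (Finset.empty_subset _)) (h4 X a hX)⟩

theorem Evt.and {G : SimpleGraph V} {Q R : ∀ (X : Type) [Fintype X], (V → X → X) → Prop} (h : Evt G Q)
    (h' : Evt G R) : Evt G (fun X _ a => Q X a ∧ R X a) := by
  classical
  obtain ⟨E, h1, h2⟩ := h
  obtain ⟨E', h3, h4⟩ := h'
  exact ⟨E ∪ E', fun h => (Finset.mem_union.1 h).elim h1 h3, fun X _ a hX =>
    ⟨h2 X a (hX.mono Finset.subset_union_left), h4 X a (hX.mono Finset.subset_union_right)⟩⟩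

theorem Evt.forall {G : SimpleGraph V} {ι : Type} (s : Finset ι)
    (Q : ι → ∀ (X : Type) [Fintype X], (V → X → X) → Prop)
    (h : ∀ i ∈ s, Evt G (Q i)) : Evt G (fun X _ a => ∀ i ∈ s, Q i X a) := by
  classical
  induction s using Finset.induction_on with
  | empty => exact ⟨∅, Finset.notMem_empty _, fun X _ a _ i hi => absurd hi (Finset.notMem_empty i)⟩
  | insert b s hb ih =>
    refine ((h b (Finset.mem_insert_self b s)).and
      (ih fun i hi => h i (Finset.mem_insert_of_mem hi))).mono fun X _ a _ hX i hi => ?_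
    rcases Finset.mem_insert.1 hi with rfl | hi
    · exact hX.1
    · exact hX.2 i hi

variable {G : SimpleGraph V}

/-- the Betti numbers of full subcomplexes without `ℓ²`-homology are small -/
theorem evt_small {A : Set V} {i : ℕ} (h : LV (G.induce A) i) (ε : ℝ) (hε : 0 < ε) :
    Evt G (fun X _ a => (beta G (pull ℝ a) A ∅ i : ℝ) ≤ ε * Fintype.card X) := by
  classical
  obtain ⟨N, hN⟩ := exists_nat_gt (1 / ε)
  have hN0 : (0 : ℝ) < N := lt_of_le_of_lt (by positivity) hN
  have hNε : 1 < N * ε := (div_lt_iff₀ hε).1 hN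
  obtain ⟨E, h1, h2⟩ := small_restrict small tr G A i (h _ _) N
  refine ⟨E, h1, fun X _ a hX => ?_⟩
  obtain ⟨k1, k2, ev, e1, e2, e3, e4⟩ := hX
  have h3 := h2 X a ev k1 k2 e1 e2 e3 e4
  have h4 : (N : ℝ) * (beta G (pull ℝ a) A ∅ i : ℝ) ≤ Fintype.card X := by exact_mod_cast h3
  have h5 : (0 : ℝ) ≤ (beta G (pull ℝ a) A ∅ i : ℝ) := Nat.cast_nonneg _
  have h6 : (0 : ℝ) ≤ Fintype.card X := Nat.cast_nonneg _
  have h7 : (beta G (pull ℝ a) A ∅ i : ℝ) ≤ N * ε * (beta G (pull ℝ a) A ∅ i : ℝ) := by nlinarith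
  nlinarith

/-- isotypical parts -/
theorem beta_le_empty {X : Type} [Fintype X] {a : V → X → X} (hX : Far G ∅ X a) (A : Set V) (i : ℕ)
    (S : Finset V) : G.IsClique (S : Set V) → A ⊆ lk G S →
    beta G (pull ℝ a) A (S : Set V) i ≤ beta G (pull ℝ a) A ∅ i := by
  classical
  induction S using Finset.induction_on with
  | empty => intro _ _; rw [Finset.coe_empty]
  | insert v S hv ih =>
    intro hS hA
    have h1 : G.IsClique (S : Set V) := hS.subset (by simp)
    have h2 : A ⊆ lk G S := fun u hu t ht => hA hu t (Finset.mem_insert_of_mem ht)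
    refine le_trans ?_ (ih h1 h2)
    rw [Finset.coe_insert]
    refine eig V ℝ (X → ℝ) G (pull ℝ a) A (S : Set V) v (by norm_num) (fun m => ?_) (fun u hu m => ?_) i
    · funext x
      rw [pull_apply, pull_apply, hX.1]
    · have hu' : G.Adj u v := by
        rcases hu with hu | hu
        · exact hA hu v (Finset.mem_insert_self v S)
        · refine hS (by simp [Finset.mem_coe.1 hu]) (by simp) ?_
          rintro rfl
          exact hv (Finset.mem_coe.1 hu)
      funext x
      rw [pull_apply, pull_apply, pull_apply, pull_apply, hX.2.1 u v hu']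

/-- monotonicity for the isotypical parts -/
theorem mono_T {T : Finset V} (hT : G.IsClique (T : Set V)) {j : ℕ}
    (hP : ∀ u ∈ lk G T, ∀ C : Set V, C ⊆ lk G T ∩ G.neighborSet u → LV (G.induce C) j) :
    ∀ (k : ℕ) (C : Set V), C ⊆ lk G T → (lk G T \ C).ncard = k → ∀ ε : ℝ, 0 < ε →
    Evt G (fun X _ a => (beta G (pull ℝ a) C (T : Set V) j : ℝ) ≤
      beta G (pull ℝ a) (lk G T) (T : Set V) j + ε * Fintype.card X) := by
  classical
  intro k
  induction k with
  | zero =>
    intro C hC hk ε hε
    rw [Set.ncard_eq_zero, Set.sdiff_eq_empty] at hk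
    have : C = lk G T := Set.Subset.antisymm hC hk
    subst this
    refine ⟨∅, Finset.notMem_empty _, fun X _ a _ => ?_⟩
    have : (0 : ℝ) ≤ ε * Fintype.card X := by positivity
    linarith
  | succ k ih =>
    intro C hC hk ε hε
    obtain ⟨u, hu⟩ : (lk G T \ C).Nonempty := by
      rw [← Set.ncard_pos]; omega
    have h1 : lk G T \ insert u C = (lk G T \ C) \ {u} := by
      ext x
      simp only [Set.mem_sdiff, Set.mem_insert_iff, Set.mem_singleton_iff]
      tauto
    have h2 := Set.ncard_sdiff_singleton_add_one hu (Set.toFinite _)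
    have h3 := ih (insert u C) (Set.insert_subset hu.1 hC) (by rw [h1]; omega) (ε / 2) (by positivity)
    have hsub : C ∩ G.neighborSet u ⊆ lk G T ∩ G.neighborSet u := fun x hx => ⟨hC hx.1, hx.2⟩
    have h4 := evt_small (G := G) (hP u hu.1 _ hsub) (ε / 2) (by positivity)
    refine (h3.and h4).mono fun X _ a hX hh => ?_
    obtain ⟨h5, h6⟩ := hh
    have h7 := vert_con G (pull ℝ a) C (T : Set V) u hu.2 j
    have hcl : G.IsClique ((insert u T : Finset V) : Set V) := by
      rw [Finset.coe_insert, SimpleGraph.isClique_insert]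
      exact ⟨hT, fun t ht _ => hu.1 t ht⟩
    have h8 := beta_le_empty hX (C ∩ G.neighborSet u) j (insert u T) hcl (by
      intro x hx t ht
      rcases Finset.mem_insert.1 ht with rfl | ht
      · exact ((G.mem_neighborSet t x).1 hx.2).symm
      · exact hC hx.1 t ht)
    rw [Finset.coe_insert] at h8
    have h9 : (beta G (pull ℝ a) C (T : Set V) j : ℝ) ≤ beta G (pull ℝ a) (insert u C) (T : Set V) j +
        beta G (pull ℝ a) (C ∩ G.neighborSet u) ∅ j := by
      exact_mod_cast h7.trans (Nat.add_le_add_left h8 _)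
    linarith

/-! ### the Euler characteristic of the isotypical parts -/

open Classical in
/-- the chains as a product -/
theorem KK_dimT {X F : Type} [Field F] [Fintype X] (G : SimpleGraph V) (a : V → X → X) (A : Set V)
    (S : Finset V) (i : ℕ) : finrank F (KK G (pull F a) A (S : Set V) i) =
      ∑ T : Finset V, if G.IsClique (T : Set V) ∧ (T : Set V) ⊆ A ∧ T.card = i then
        finrank F (ET F a (T ∪ S)) else 0 := by
  obtain ⟨p, hp⟩ : ∃ p : Finset V → Submodule F (X → F), p = fun T : Finset V =>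
    if G.IsClique (T : Set V) ∧ (T : Set V) ⊆ A ∧ T.card = i then ET F a (T ∪ S) else ⊥ := ⟨_, rfl⟩
  have hmem : ∀ c : Finset V → (X → F), c ∈ KK G (pull F a) A (S : Set V) i ↔ ∀ T, c T ∈ p T := by
    intro c
    rw [mem_KK]
    constructor
    · rintro ⟨h1, h2⟩ T
      rw [hp]
      simp only []
      split_ifs with h
      · intro t ht x
        have := h2 T t ((Finset.mem_union.1 ht).imp id fun h => h)
        exact congrFun this x
      · rw [Submodule.mem_bot]
        exact h1 T h
    · intro h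
      refine ⟨fun T hT => ?_, fun T t ht => ?_⟩
      · have h3 := h T
        rw [hp] at h3
        simp only [] at h3
        rw [if_neg hT] at h3
        exact h3
      · have h3 := h T
        rw [hp] at h3
        simp only [] at h3
        split_ifs at h3 with h4
        · funext x
          exact h3 t (Finset.mem_union.2 ht) x
        · have h5 : c T = 0 := h3
          rw [h5, map_zero, neg_zero]
  have e : KK G (pull F a) A (S : Set V) i ≃ₗ[F] (∀ T : Finset V, p T) :=
    { toFun := fun c T => ⟨c.1 T, (hmem c.1).1 c.2 T⟩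
      map_add' := fun _ _ => rfl
      map_smul' := fun _ _ => rfl
      invFun := fun g => ⟨fun T => (g T).1, (hmem _).2 fun T => (g T).2⟩
      left_inv := fun _ => rfl
      right_inv := fun _ => rfl }
  rw [e.finrank_eq, Module.finrank_pi_fintype]
  refine Finset.sum_congr rfl fun T _ => ?_
  by_cases h : G.IsClique (T : Set V) ∧ (T : Set V) ⊆ A ∧ T.card = i
  · have h1 : p T = ET F a (T ∪ S) := by rw [hp]; exact if_pos h
    rw [h1, if_pos h]
  · have h1 : p T = ⊥ := by rw [hp]; exact if_neg h
    rw [h1, if_neg h, finrank_bot]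

open Classical in
theorem chiW_sub (A : Set V) [Fintype ↥A] : chiW (G.induce A) =
    ∑ T : Finset V, if G.IsClique (T : Set V) ∧ (T : Set V) ⊆ A then (-1 / 2 : ℚ) ^ T.card else 0 := by
  unfold chiW
  refine Finset.sum_of_injOn (fun S : Finset ↥A => S.map (incl A)) ?_ ?_ ?_ ?_
  · intro S _ S' _ h
    exact Finset.map_injective _ h
  · intro S _
    exact Finset.mem_coe.2 (Finset.mem_univ _)
  · intro T _ hT
    refine if_neg fun h => hT ⟨cut A T, Finset.mem_coe.2 (Finset.mem_univ _), map_cut A h.2⟩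
  · intro S _
    have h1 := clique_map G A S
    have h2 := map_subset A S
    by_cases h : (G.induce A).IsClique (S : Set ↥A)
    · rw [if_pos h, if_pos ⟨h1.1 h, h2⟩, Finset.card_map]
    · rw [if_neg h, if_neg fun h3 => h (h1.2 h3.1)]

/-- the Euler characteristic -/
theorem euler_T {X : Type} [Fintype X] {a : V → X → X} (hX : Far G ∅ X a)
    (hσ : ∀ (T : Finset V) (t : V), t ∉ T → G.IsClique ((insert t T : Finset V) : Set V) →
      ∃ σ : X → Bool, (∀ x, σ (a t x) = !(σ x)) ∧ ∀ u ∈ T, ∀ x, σ (a u x) = σ x)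
    (A : Set V) [Fintype ↥A] (S : Finset V) (hS : G.IsClique (S : Set V)) (hA : A ⊆ lk G S) :
    ∑ i ∈ Finset.range (Fintype.card V + 1), (-1 : ℝ) ^ i * (beta G (pull ℝ a) A (S : Set V) i : ℝ) =
      (1 / 2) ^ S.card * (chiW (G.induce A) : ℝ) * Fintype.card X := by
  classical
  have h1 := euler G (pull ℝ a) A (S : Set V) (Fintype.card V)
  have hBB : finrank ℝ (BB G (pull ℝ a) A (S : Set V) (Fintype.card V)) = 0 := by
    unfold BB
    rw [KK_big G _ A _ (by omega : Fintype.card V < Fintype.card V + 1),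
      Submodule.map_bot, finrank_bot]
  rw [hBB, Nat.cast_zero, mul_zero, sub_zero] at h1
  have h2 := congrArg (fun z : ℤ => (z : ℝ)) h1
  push_cast at h2
  rw [h2, chiW_sub A]
  push_cast
  have h3 : ∀ i ∈ Finset.range (Fintype.card V + 1), (-1 : ℝ) ^ i *
      (finrank ℝ (KK G (pull ℝ a) A (S : Set V) i) : ℝ) =
      ∑ T : Finset V, if T.card = i then ((1 / 2) ^ S.card * (Fintype.card X : ℝ)) *
        (if G.IsClique (T : Set V) ∧ (T : Set V) ⊆ A then (-1 / 2 : ℝ) ^ T.card else 0) else 0 := by
    intro i _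
    rw [KK_dimT, Nat.cast_sum, Finset.mul_sum]
    refine Finset.sum_congr rfl fun T _ => ?_
    by_cases hT : G.IsClique (T : Set V) ∧ (T : Set V) ⊆ A
    · by_cases hi : T.card = i
      · have hdisj : Disjoint T S := by
          rw [Finset.disjoint_left]
          intro u hu hu'
          exact G.irrefl (hA (hT.2 hu) u hu')
        have hcl : G.IsClique ((T ∪ S : Finset V) : Set V) := by
          intro x hx y hy hxy
          rw [Finset.mem_coe, Finset.mem_union] at hx hy
          rcases hx with hx | hx <;> rcases hy with hy | hy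
          · exact hT.1 hx hy hxy
          · exact hA (hT.2 hx) y hy
          · exact (hA (hT.2 hy) x hx).symm
          · exact hS hx hy hxy
        have h4 := ET_dim' (two_ne_zero : (2 : ℝ) ≠ 0) G a hX.1 hX.2.1 (fun T t h1 h2 => by
          refine hσ T t h1 ?_
          convert h2) (T ∪ S) hcl
        rw [if_pos ⟨hT.1, hT.2, hi⟩, if_pos hi, if_pos hT, ← h4, ← hi,
          Finset.card_union_of_disjoint hdisj, pow_add]
        push_cast
        rw [div_pow, div_pow]
        field_simp
        simp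
      · rw [if_neg (fun h => hi h.2.2), if_neg hi]
        simp
    · rw [if_neg (fun h => hT ⟨h.1, h.2.1⟩), if_neg hT]
      simp
  rw [Finset.sum_congr rfl h3, Finset.sum_comm, mul_right_comm, Finset.mul_sum]
  refine Finset.sum_congr rfl fun T _ => ?_
  rw [Finset.sum_ite_eq, if_pos]
  · split_ifs <;> push_cast <;> rfl
  · rw [Finset.mem_range]
    have := Finset.card_le_univ T
    omega

/-- signs -/
theorem evt_sigma (G : SimpleGraph V) : Evt G (fun X _ a => Far G ∅ X a ∧ ∀ (T : Finset V) (t : V), t ∉ T →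
    G.IsClique ((insert t T : Finset V) : Set V) →
      ∃ σ : X → Bool, (∀ x, σ (a t x) = !(σ x)) ∧ ∀ u ∈ T, ∀ x, σ (a u x) = σ x) := by
  classical
  obtain ⟨E, h1, h2⟩ := exists_tor G
  refine ⟨E, h1, fun X _ a hX => ⟨hX.mono (Finset.empty_subset _), fun T t ht hc => ?_⟩⟩
  obtain ⟨k1, k2, ev, e1, e2, e3, e4⟩ := hX
  exact exists_sigma G a ev e1 e2 e3 (fun T hT g hg hg1 x => e4 g (h2 T hT g hg hg1) x) T t ht (by
    convert hc)

/-- the Betti numbers of the links of the maximal faces -/
theorem top_T {j : ℕ} {T : Finset V} (hT : G.IsClique (T : Set V)) [Fintype ↥(lk G T)]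
    (hL : ∀ i, i ≠ j → LV (G.induce (lk G T)) i) (ε : ℝ) (hε : 0 < ε) :
    Evt G (fun X _ a => (beta G (pull ℝ a) (lk G T) (T : Set V) j : ℝ) ≤
      ((1 / 2) ^ T.card * ((-1 : ℝ) ^ j * (chiW (G.induce (lk G T)) : ℝ)) + ε) * Fintype.card X) := by
  classical
  obtain ⟨K, hK⟩ : ∃ K : ℕ, K = Fintype.card V + 1 := ⟨_, rfl⟩
  have hK0 : (0 : ℝ) < K := by rw [hK]; positivity
  have h1 := Evt.forall (G := G) ((Finset.range K).erase j)
    (fun i X _ a => (beta G (pull ℝ a) (lk G T) ∅ i : ℝ) ≤ ε / K * Fintype.card X)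
    (fun i hi => evt_small (hL i (Finset.ne_of_mem_erase hi)) (ε / K) (by positivity))
  refine (h1.and (evt_sigma G)).mono fun X _ a _ hh => ?_
  obtain ⟨h2, hX, h3⟩ := hh
  have h4 := euler_T hX h3 (lk G T) T hT le_rfl
  rw [← hK] at h4
  obtain ⟨b, hb⟩ : ∃ b : ℕ → ℝ, b = fun i => (beta G (pull ℝ a) (lk G T) (T : Set V) i : ℝ) := ⟨_, rfl⟩
  have hb0 : ∀ i, 0 ≤ b i := by intro i; rw [hb]; exact Nat.cast_nonneg _
  have hbi : ∀ i, (beta G (pull ℝ a) (lk G T) (T : Set V) i : ℝ) = b i := by intro i; rw [hb]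
  simp only [hbi] at h4 ⊢
  have h5 : ∑ i ∈ (Finset.range K).erase j, b i ≤ ε * Fintype.card X := by
    calc ∑ i ∈ (Finset.range K).erase j, b i ≤
        ∑ _i ∈ (Finset.range K).erase j, ε / K * Fintype.card X := by
          refine Finset.sum_le_sum fun i hi => le_trans ?_ (h2 i hi)
          rw [← hbi i]
          exact_mod_cast beta_le_empty hX (lk G T) i T hT le_rfl
      _ = ((Finset.range K).erase j).card * (ε / K * Fintype.card X) := by
          rw [Finset.sum_const, nsmul_eq_mul]
      _ ≤ K * (ε / K * Fintype.card X) := by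
          refine mul_le_mul_of_nonneg_right ?_ (by positivity)
          have := Finset.card_le_card (Finset.erase_subset j (Finset.range K))
          rw [Finset.card_range] at this
          exact_mod_cast this
      _ = ε * Fintype.card X := by field_simp
  have h6 : |∑ i ∈ (Finset.range K).erase j, (-1 : ℝ) ^ i * b i| ≤ ε * Fintype.card X := by
    refine le_trans ((Finset.abs_sum_le_sum_abs _ _).trans (Finset.sum_le_sum fun i _ => ?_)) h5
    rw [abs_mul, abs_pow, abs_neg, abs_one, one_pow, one_mul, abs_of_nonneg (hb0 i)]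
  have h7 : (-1 : ℝ) ^ j * b j + ∑ i ∈ (Finset.range K).erase j, (-1 : ℝ) ^ i * b i =
      (1 / 2) ^ T.card * (chiW (G.induce (lk G T)) : ℝ) * Fintype.card X := by
    rw [← h4]
    by_cases hj : j ∈ Finset.range K
    · exact Finset.add_sum_erase _ (fun i => (-1 : ℝ) ^ i * b i) hj
    · have h8 : b j = 0 := by
        rw [hb]
        show (beta G (pull ℝ a) (lk G T) (T : Set V) j : ℝ) = 0
        rw [beta_big G _ (lk G T) _ (by rw [Finset.mem_range] at hj; omega), Nat.cast_zero]
      rw [h8, mul_zero, zero_add, Finset.erase_eq_of_notMem hj]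
  have h9 : ((-1 : ℝ) ^ j) * (-1) ^ j = 1 := by
    rw [← mul_pow]; norm_num
  have h10 : b j = (-1 : ℝ) ^ j * ((1 / 2) ^ T.card * (chiW (G.induce (lk G T)) : ℝ) * Fintype.card X) -
      (-1) ^ j * ∑ i ∈ (Finset.range K).erase j, (-1 : ℝ) ^ i * b i := by
    rw [← h7, mul_add, ← mul_assoc, h9]
    ring
  have h11 : |(-1 : ℝ) ^ j * ∑ i ∈ (Finset.range K).erase j, (-1 : ℝ) ^ i * b i| ≤ ε * Fintype.card X := by
    rwa [abs_mul, abs_pow, abs_neg, abs_one, one_pow, one_mul]
  have h12 := (abs_le.1 h11).1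
  rw [h10]
  linarith

section iter

variable {F M : Type} [Field F] [AddCommGroup M] [Module F M] [FiniteDimensional F M]

/-- the Betti numbers of the empty set -/
theorem beta_none (G : SimpleGraph V) (ρ : V → M →ₗ[F] M) (S : Set V) (i : ℕ) : beta G ρ ∅ S (i + 1) = 0 := by
  have h : KK G ρ ∅ S (i + 1) = ⊥ := by
    rw [eq_bot_iff]
    intro c hc
    rw [Submodule.mem_bot]
    funext T
    refine ((mem_KK (G := G)).1 hc).1 T ?_
    rintro ⟨-, h2, h3⟩
    have : T = ∅ := by
      rw [← Finset.coe_eq_empty]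
      exact Set.subset_empty_iff.1 h2
    rw [this, Finset.card_empty] at h3
    omega
  unfold beta ZZ
  rw [h, bot_inf_eq, finrank_bot, Nat.zero_sub]

open Classical in
/-- the iterated bound -/
theorem iter (G : SimpleGraph V) (ρ : V → M →ₗ[F] M) (j k : ℕ) (B : Finset V → ℝ)
    (hB : ∀ T : Finset V, G.IsClique (T : Set V) → T.card = k → ∀ C : Set V, C ⊆ lk G T →
      (beta G ρ C (T : Set V) j : ℝ) ≤ B T) :
    ∀ (r : ℕ) (S : Finset V), G.IsClique (S : Set V) → S.card + r = k → ∀ A : Finset V,
      (A : Set V) ⊆ lk G S → (beta G ρ (A : Set V) (S : Set V) (j + r) : ℝ) ≤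
        ∑ T ∈ (A.powersetCard r).filter (fun T : Finset V => G.IsClique (T : Set V)), B (T ∪ S) := by
  intro r
  induction r with
  | zero =>
    intro S hS hk A hA
    have h1 : (A.powersetCard 0).filter (fun T : Finset V => G.IsClique (T : Set V)) = {∅} := by
      rw [Finset.powersetCard_zero, Finset.filter_singleton, if_pos (by simp)]
    rw [h1, Finset.sum_singleton, Finset.empty_union]
    exact hB S hS (by omega) A hA
  | succ r ih =>
    intro S hS hk A
    induction A using Finset.induction_on with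
    | empty =>
      intro _
      rw [Finset.coe_empty, ← add_assoc, beta_none, Nat.cast_zero]
      have h1 : (∅ : Finset V).powersetCard (r + 1) = ∅ := Finset.powersetCard_eq_empty.2 (by simp)
      rw [h1, Finset.filter_empty, Finset.sum_empty]
    | insert v A hv ihA =>
      intro hA
      have hA1 : (A : Set V) ⊆ lk G S := fun x hx => hA (by simp [Finset.mem_coe.1 hx])
      have hvS : v ∈ lk G S := hA (by simp)
      have hvS' : v ∉ S := fun h => G.irrefl (hvS v h)
      have hcl : G.IsClique ((insert v S : Finset V) : Set V) := by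
        rw [Finset.coe_insert, SimpleGraph.isClique_insert]
        exact ⟨hS, fun t ht _ => hvS t ht⟩
      have h1 := (vert V F M G ρ (A : Set V) (S : Set V) v hv hvS').2 (j + r)
      have h2 := ihA hA1
      obtain ⟨A', hA'⟩ : ∃ A' : Finset V, A' = A.filter (fun u => G.Adj v u) := ⟨_, rfl⟩
      have hA'c : (A : Set V) ∩ G.neighborSet v = (A' : Set V) := by
        rw [hA']
        ext x
        simp [SimpleGraph.mem_neighborSet]
      have h3 := ih (insert v S) hcl (by rw [Finset.card_insert_of_notMem hvS']; omega) A' (by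
        intro x hx t ht
        rw [← hA'c] at hx
        rcases Finset.mem_insert.1 ht with rfl | ht
        · exact ((G.mem_neighborSet t x).1 hx.2).symm
        · exact hA1 hx.1 t ht)
      rw [Finset.coe_insert] at h3 ⊢
      rw [hA'c] at h1
      have h4 : (beta G ρ (insert v (A : Set V)) (S : Set V) (j + (r + 1)) : ℝ) ≤
          beta G ρ (A : Set V) (S : Set V) (j + (r + 1)) + beta G ρ (A' : Set V) (insert v (S : Set V)) (j + r) := by
        exact_mod_cast h1
      refine h4.trans ((add_le_add h2 h3).trans (le_of_eq ?_))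
      rw [Finset.powersetCard_succ_insert hv, Finset.filter_union, Finset.sum_union, Finset.filter_image,
        Finset.sum_image]
      · congr 1
        refine Finset.sum_congr ?_ ?_
        · ext T
          rw [Finset.mem_filter, Finset.mem_filter, Finset.mem_powersetCard, Finset.mem_powersetCard,
            Finset.coe_insert, SimpleGraph.isClique_insert, hA']
          constructor
          · rintro ⟨⟨h5, h6⟩, h7⟩
            exact ⟨⟨h5.trans (Finset.filter_subset _ _), h6⟩, h7, fun t ht _ =>
              (Finset.mem_filter.1 (h5 ht)).2⟩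
          · rintro ⟨⟨h5, h6⟩, h7, h8⟩
            refine ⟨⟨fun t ht => Finset.mem_filter.2 ⟨h5 ht, h8 t ht ?_⟩, h6⟩, h7⟩
            rintro rfl
            exact hv (h5 ht)
        · intro T _
          congr 1
          rw [Finset.insert_union, Finset.union_insert]
      · intro T hT T' hT' he
        have h5 := (Finset.mem_powersetCard.1 (Finset.mem_filter.1 hT).1).1
        have h6 := (Finset.mem_powersetCard.1 (Finset.mem_filter.1 hT').1).1
        have h7 : Finset.erase (insert v T) v = Finset.erase (insert v T') v :=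
          congrArg (fun U => Finset.erase U v) he
        rwa [Finset.erase_insert (fun h => hv (h5 h)), Finset.erase_insert (fun h => hv (h6 h))] at h7
      · rw [Finset.disjoint_left]
        intro T hT hT'
        have h5 := (Finset.mem_powersetCard.1 (Finset.mem_filter.1 hT).1).1
        obtain ⟨T'', _, rfl⟩ := Finset.mem_image.1 (Finset.mem_filter.1 hT').1
        exact hv (h5 (Finset.mem_insert_self v T''))

open Classical in
/-- the iterated bound, relative version -/
theorem iterB (G : SimpleGraph V) (ρ : V → M →ₗ[F] M) (j k : ℕ) (B : Finset V → ℝ)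
    (hB : ∀ T : Finset V, G.IsClique (T : Set V) → T.card = k + 1 → ∀ C : Set V, C ⊆ lk G T →
      (beta G ρ C (T : Set V) j : ℝ) ≤ B T) (D : Finset V) (A : Finset V) :
      (beta G ρ ((A ∪ D : Finset V) : Set V) ∅ (j + (k + 1)) : ℝ) ≤
        beta G ρ (D : Set V) ∅ (j + (k + 1)) +
        ∑ T ∈ ((A ∪ D).powersetCard (k + 1)).filter
          (fun T : Finset V => G.IsClique (T : Set V) ∧ ¬ T ⊆ D), B T := by
  induction A using Finset.induction_on with
  | empty =>
    rw [Finset.empty_union]
    have h1 : (D.powersetCard (k + 1)).filter (fun T : Finset V => G.IsClique (T : Set V) ∧ ¬ T ⊆ D) = ∅ := by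
      rw [Finset.filter_eq_empty_iff]
      rintro T hT ⟨_, h⟩
      exact h (Finset.mem_powersetCard.1 hT).1
    rw [h1, Finset.sum_empty, add_zero]
  | insert v A hv ih =>
    by_cases hvD : v ∈ D
    · have h1 : insert v A ∪ D = A ∪ D := by
        rw [Finset.insert_union, Finset.insert_eq_self.2 (Finset.mem_union_right _ hvD)]
      rw [h1]
      exact ih
    · have hvA : v ∉ A ∪ D := fun h => (Finset.mem_union.1 h).elim hv hvD
      obtain ⟨E, hE⟩ : ∃ E : Finset V, E = A ∪ D := ⟨_, rfl⟩
      rw [Finset.insert_union]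
      rw [← hE] at ih hvA ⊢
      have h1 := (vert V F M G ρ (E : Set V) ∅ v hvA (by simp)).2 (j + k)
      obtain ⟨A', hA'⟩ : ∃ A' : Finset V, A' = E.filter (fun u => G.Adj v u) := ⟨_, rfl⟩
      have hA'c : (E : Set V) ∩ G.neighborSet v = (A' : Set V) := by
        rw [hA']
        ext x
        simp [SimpleGraph.mem_neighborSet]
      have h3 := iter G ρ j (k + 1) B hB k {v} (by simp) (by rw [Finset.card_singleton]; omega) A' (by
        intro x hx t ht
        rw [← hA'c] at hx
        rw [Finset.mem_singleton] at ht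
        subst ht
        exact ((G.mem_neighborSet t x).1 hx.2).symm)
      rw [Finset.coe_singleton] at h3
      rw [hA'c] at h1
      rw [show (insert v (∅ : Set V)) = {v} from by simp] at h1
      have h4 : (beta G ρ (insert v (E : Set V)) ∅ (j + (k + 1)) : ℝ) ≤
          beta G ρ (E : Set V) ∅ (j + (k + 1)) + beta G ρ (A' : Set V) {v} (j + k) := by
        exact_mod_cast h1
      rw [Finset.coe_insert]
      refine h4.trans ((add_le_add ih h3).trans (le_of_eq ?_))
      rw [add_assoc]
      congr 1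
      rw [Finset.powersetCard_succ_insert hvA, Finset.filter_union, Finset.sum_union, Finset.filter_image,
        Finset.sum_image]
      · congr 1
        refine Finset.sum_congr ?_ ?_
        · ext T
          rw [Finset.mem_filter, Finset.mem_filter, Finset.mem_powersetCard, Finset.mem_powersetCard,
            Finset.coe_insert, SimpleGraph.isClique_insert, hA']
          constructor
          · rintro ⟨⟨h5, h6⟩, h7⟩
            exact ⟨⟨h5.trans (Finset.filter_subset _ _), h6⟩, ⟨h7, fun t ht _ =>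
              (Finset.mem_filter.1 (h5 ht)).2⟩, fun h => hvD (h (Finset.mem_insert_self v T))⟩
          · rintro ⟨⟨h5, h6⟩, ⟨h7, h8⟩, _⟩
            refine ⟨⟨fun t ht => Finset.mem_filter.2 ⟨h5 ht, h8 t ht ?_⟩, h6⟩, h7⟩
            rintro rfl
            exact hvA (h5 ht)
        · intro T _
          congr 1
          ext x
          simp
      · intro T hT T' hT' he
        have h5 := (Finset.mem_powersetCard.1 (Finset.mem_filter.1 hT).1).1
        have h6 := (Finset.mem_powersetCard.1 (Finset.mem_filter.1 hT').1).1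
        have h7 : Finset.erase (insert v T) v = Finset.erase (insert v T') v :=
          congrArg (fun U => Finset.erase U v) he
        rwa [Finset.erase_insert (fun h => hvA (h5 h)), Finset.erase_insert (fun h => hvA (h6 h))] at h7
      · rw [Finset.disjoint_left]
        intro T hT hT'
        have h5 := (Finset.mem_powersetCard.1 (Finset.mem_filter.1 hT).1).1
        obtain ⟨T'', _, rfl⟩ := Finset.mem_image.1 (Finset.mem_filter.1 hT').1
        exact hvA (h5 (Finset.mem_insert_self v T''))

end iter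

/-! ### vanishing -/

/-- vanishing from the asymptotic smallness -/
theorem lv_of_evt {A : Set V} {i : ℕ} (h : ∀ ε : ℝ, 0 < ε →
    Evt G (fun X _ a => (beta G (pull ℝ a) A ∅ i : ℝ) ≤ ε * Fintype.card X)) : LV (G.induce A) i := by
  classical
  refine LV_of (large ↥A (G.induce A) i fun N E hE => ?_)
  have : Fact (Nat.Prime 3) := ⟨Nat.prime_three⟩
  obtain ⟨E', h1, h2⟩ := h (1 / (N + 1)) (by positivity)
  obtain ⟨Y, fY, nY, P, ev, e1, e2, e3, e4⟩ := nilp 3 V G (E.image (inA G A) ∪ E') (by decide) (by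
    rw [Finset.mem_union]
    rintro (h | h)
    · obtain ⟨g, hg, hg'⟩ := Finset.mem_image.1 h
      exact inA_ne G A (fun he => hE (he ▸ hg)) hg'
    · exact h1 h)
  have h3 := h2 Y P.a ⟨P.inv, P.comm, ev, e1, e2, e3, fun g hg x => e4 g (Finset.mem_union_right _ hg) x⟩
  refine ⟨Y, fY, nY, fun u => P.a u.1, fun x g => ev x (inA G A g), fun v x => P.inv _ x,
    fun u v huv x => P.comm _ _ huv x, fun x => ?_, fun x g h => ?_, fun x v => ?_,
    fun g hg x => e4 _ (Finset.mem_union_left _ (Finset.mem_image_of_mem _ hg)) x, ?_⟩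
  · show ev x (inA G A 1) = x
    rw [map_one, e1]
  · show ev x (inA G A (g * h)) = ev (ev x (inA G A g)) (inA G A h)
    rw [map_mul, e2]
  · show ev x (inA G A ((cox (G.induce A)).simple v)) = P.a v.1 x
    rw [inA_simple, e3]
  · have h4 := tr ↥A V ℝ (Y → ℝ) G (G.induce A) (pull ℝ P.a) (fun u => (u : V))
      (Subtype.strictMono_coe _) (fun u u' => Iff.rfl) i
    rw [Subtype.range_coe] at h4
    have h5 : beta (G.induce A) (pull ℝ fun u : ↥A => P.a u.1) Set.univ ∅ i =
        beta G (pull ℝ P.a) A ∅ i := h4.symm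
    rw [h5]
    have h6 : (N : ℝ) * (beta G (pull ℝ P.a) A ∅ i : ℝ) ≤ Fintype.card Y := by
      have h7 : (0 : ℝ) ≤ (Fintype.card Y : ℝ) := Nat.cast_nonneg _
      have h8 : (N : ℝ) * (1 / (N + 1)) ≤ 1 := by
        rw [mul_one_div, div_le_one (by positivity)]
        linarith
      calc (N : ℝ) * (beta G (pull ℝ P.a) A ∅ i : ℝ) ≤ N * (1 / (N + 1) * Fintype.card Y) :=
            mul_le_mul_of_nonneg_left h3 (Nat.cast_nonneg _)
        _ = N * (1 / (N + 1)) * Fintype.card Y := by ring
        _ ≤ 1 * Fintype.card Y := mul_le_mul_of_nonneg_right h8 h7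
        _ = Fintype.card Y := one_mul _
    exact_mod_cast h6

theorem evt_of_asyX {f : ∀ (X : Type) [Fintype X], (V → X → X) → ℤ} (h : AsyX G f) (ε : ℝ) (hε : 0 < ε) :
    Evt G (fun X _ a => (f X a : ℝ) ≤ ε * Fintype.card X) := by
  obtain ⟨N, hN⟩ := exists_nat_gt (1 / ε)
  have hN0 : (0 : ℝ) < N := lt_of_le_of_lt (by positivity) hN
  have hNε : 1 < N * ε := (div_lt_iff₀ hε).1 hN
  obtain ⟨E, h1, h2⟩ := h N
  refine ⟨E, h1, fun X _ a hX => ?_⟩
  obtain ⟨k1, k2, ev, e1, e2, e3, e4⟩ := hX
  have h3 := h2 X a ev k1 k2 e1 e2 e3 e4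
  have h4 : (N : ℝ) * (f X a : ℝ) ≤ Fintype.card X := by exact_mod_cast h3
  have h6 : (0 : ℝ) ≤ Fintype.card X := Nat.cast_nonneg _
  by_contra hcon
  push Not at hcon
  have h7 : (N : ℝ) * (ε * Fintype.card X) < N * (f X a : ℝ) := mul_lt_mul_of_pos_left hcon hN0
  nlinarith

/-- vanishing for the full subcomplexes of a full subcomplex -/
theorem lv_mono {A B : Set V} (hAB : A ⊆ B) {i : ℕ} (hB : LV (G.induce B) i)
    (h : ∀ v ∈ B \ A, ∀ C ⊆ B, LV (G.induce (C ∩ G.neighborSet v)) i) : LV (G.induce A) i := by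
  classical
  refine lv_of_evt fun ε hε => ?_
  have h1 := evt_of_asyX (AsyX.steps (G := G) (i := i) _ A B hAB rfl h) (ε / 2) (by positivity)
  have h2 := evt_small (G := G) hB (ε / 2) (by positivity)
  refine (h1.and h2).mono fun X _ a _ hh => ?_
  obtain ⟨h3, h4⟩ := hh
  push_cast at h3
  linarith

/-- full subcomplexes, by adding vertices -/
theorem lv_grow {i : ℕ} (D E : Set V) (hE : LV (G.induce E) i)
    (h : ∀ v ∈ D, v ∉ E → ∀ C : Set V, C ⊆ (D ∪ E) ∩ G.neighborSet v → ∀ j, i = j + 1 → LV (G.induce C) j) :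
    LV (G.induce (D ∪ E)) i := by
  classical
  have key : ∀ k : ℕ, ∀ A : Set V, A ⊆ D → (A \ E).ncard = k → LV (G.induce (A ∪ E)) i := by
    intro k
    induction k with
    | zero =>
      intro A _ hA
      rw [Set.ncard_eq_zero, Set.sdiff_eq_empty] at hA
      exact lv_set (Set.union_eq_right.2 hA) hE
    | succ k ih =>
      intro A hAD hA
      obtain ⟨v, hv⟩ : (A \ E).Nonempty := by
        rw [← Set.ncard_pos]; omega
      refine lv_add G (A ∪ E) v (Or.inl hv.1) i ?_ (fun j hj => ?_)
      · refine lv_set (A := (A \ {v}) ∪ E) ?_ (ih (A \ {v}) (fun x hx => hAD hx.1) ?_)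
        · ext x
          simp only [Set.mem_sdiff, Set.mem_union, Set.mem_singleton_iff]
          constructor
          · rintro ⟨h1 | h1, h2⟩
            · exact Or.inl ⟨h1, h2⟩
            · exact Or.inr h1
          · rintro (⟨h1, h2⟩ | h1)
            · exact ⟨Or.inl h1, h2⟩
            · exact ⟨Or.inr h1, fun e => hv.2 (e ▸ h1)⟩
        · have h1 : (A \ {v}) \ E = (A \ E) \ {v} := by
            ext x
            simp only [Set.mem_sdiff, Set.mem_singleton_iff]
            tauto
          have h2 := Set.ncard_sdiff_singleton_add_one hv (Set.toFinite _)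
          rw [h1]
          omega
      · exact h v (hAD hv.1) hv.2 _ (fun x hx => ⟨hx.1.imp (fun h => hAD h) id, hx.2⟩) j hj
  exact key _ D le_rfl rfl

theorem lv_none (i : ℕ) (hi : 1 ≤ i) : LV (G.induce (∅ : Set V)) i := lempty _ _ i hi

/-- the vanishing of the `ℓ²`-homology of the full subcomplexes of the links -/
theorem lv_faces {k : ℕ} (N : Set V) (f : ℕ → ℕ → Prop) (hf : ∀ r i, f (r + 1) (i + 1) → f r i)
    (hf0 : ∀ r, ¬ f (r + 1) 0)
    (h : ∀ T : Finset V, G.IsClique (T : Set V) → T.card = k → ¬ (T : Set V) ⊆ N → ∀ C : Set V, C ⊆ lk G T →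
      ∀ i, f 0 i → LV (G.induce C) i) :
    ∀ (r : ℕ) (S : Finset V), G.IsClique (S : Set V) → S.card + r = k → ¬ (S : Set V) ⊆ N → ∀ C : Set V,
      C ⊆ lk G S → ∀ i, f r i → LV (G.induce C) i := by
  classical
  intro r
  induction r with
  | zero => exact fun S hS hk hN C hC i hi => h S hS (by omega) hN C hC i hi
  | succ r ih =>
    intro S hS hk hN C hC i hi
    have hi1 : 1 ≤ i := by
      rcases Nat.eq_zero_or_pos i with h0 | h0
      · exact absurd (h0 ▸ hi) (hf0 r)
      · exact h0
    have h1 := lv_grow (G := G) (i := i) C ∅ (lv_none i hi1) (fun v hv _ D hD j hj => by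
      have hvS := hC hv
      have hvS' : v ∉ S := fun h => G.irrefl (hvS v h)
      have hcl : G.IsClique ((insert v S : Finset V) : Set V) := by
        rw [Finset.coe_insert, SimpleGraph.isClique_insert]
        exact ⟨hS, fun t ht _ => hvS t ht⟩
      refine ih (insert v S) hcl (by rw [Finset.card_insert_of_notMem hvS']; omega) ?_ D ?_ j ?_
      · intro h
        exact hN fun x hx => h (by simp [Finset.mem_coe.1 hx])
      · intro x hx t ht
        have hx' := hD hx
        rw [Set.union_empty] at hx'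
        rcases Finset.mem_insert.1 ht with rfl | ht
        · exact ((G.mem_neighborSet t x).1 hx'.2).symm
        · exact hC hx'.1 t ht
      · exact hf r j (hj ▸ hi))
    exact lv_set (Set.union_empty C).symm h1

/-- the vanishing of the `ℓ²`-homology of the full subcomplexes -/
theorem lv_faces_top {k : ℕ} (N : Set V) (f : ℕ → ℕ → Prop) (hf : ∀ r i, f (r + 1) (i + 1) → f r i)
    (hf0 : ∀ r, ¬ f (r + 1) 0)
    (h : ∀ T : Finset V, G.IsClique (T : Set V) → T.card = k + 1 → ¬ (T : Set V) ⊆ N → ∀ C : Set V,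
      C ⊆ lk G T → ∀ i, f 0 i → LV (G.induce C) i) (i : ℕ) (hi : f (k + 1) i) (hN : LV (G.induce N) i)
    (A : Set V) : LV (G.induce (A ∪ N)) i := by
  classical
  refine lv_grow A N hN fun v _ hvN C hC j hj => ?_
  refine lv_faces (k := k + 1) N f hf hf0 h k {v} (by simp) (by rw [Finset.card_singleton]; omega) (by
    simpa using hvN) C ?_ j (hf k j (hj ▸ hi))
  intro x hx t ht
  rw [Finset.mem_singleton] at ht
  subst ht
  exact ((G.mem_neighborSet t x).1 (hC hx).2).symm

/-- the hypothesis on the links of the faces with `k` vertices -/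
def FaceP (j k : ℕ) (G : SimpleGraph V) : Prop :=
  ∀ T : Finset V, G.IsClique (T : Set V) → T.card = k → P (2 * j) (G.induce (lk G T))

theorem FaceP.lv {j k : ℕ} (h : FaceP j k G) {T : Finset V} (hT : G.IsClique (T : Set V)) (hk : T.card = k)
    {C : Set V} (hC : C ⊆ lk G T) {i : ℕ} (hi : j < i) : LV (G.induce C) i := by
  have h1 := (h T hT hk).2 ∅ (by simp) {x | x.1 ∈ C} (by
    intro x _ u hu
    simp at hu) i (by rw [Finset.card_empty]; omega)
  rw [lv_sub] at h1
  refine lv_set ?_ h1
  ext x
  simp only [Set.mem_image, Set.mem_ofPred_eq, Subtype.exists, exists_and_left,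
    exists_prop, exists_eq_right_right]
  exact ⟨fun hx => ⟨hx, hC hx⟩, fun hx => hx.1⟩

/-- the subcomplexes of the links of the vertices of the links -/
theorem FaceP.lv_vert {j k : ℕ} (h : FaceP j k G) {T : Finset V} (hT : G.IsClique (T : Set V)) (hk : T.card = k)
    {u : V} (hu : u ∈ lk G T) {C : Set V} (hC : C ⊆ lk G T ∩ G.neighborSet u) : LV (G.induce C) j := by
  classical
  have h1 := (h T hT hk).2 {⟨u, hu⟩} (by simp) {x | x.1 ∈ C} (by
    intro x hx w hw
    rw [Finset.mem_singleton] at hw
    subst hw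
    exact (hC hx).2) j (by rw [Finset.card_singleton]; omega)
  rw [lv_sub] at h1
  refine lv_set ?_ h1
  ext x
  simp only [Set.mem_image, Set.mem_ofPred_eq, Subtype.exists, exists_and_left,
    exists_prop, exists_eq_right_right]
  exact ⟨fun hx => ⟨hx, (hC hx).1⟩, fun hx => hx.1⟩

/-- the vanishing above the degree `j + k` for all full subcomplexes -/
theorem FaceP.above {j k : ℕ} (h : FaceP j (k + 1) G) (A : Set V) {i : ℕ} (hi : j + (k + 1) < i) :
    LV (G.induce A) i := by
  have h1 := lv_faces_top (G := G) (k := k) ∅ (fun r i => j + r < i) (fun r i hi => by omega)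
    (fun r => by omega) (fun T hT hk _ C hC i hi => h.lv hT hk hC (by omega)) i hi (lv_none i (by omega)) A
  exact lv_set (Set.union_empty A).symm h1

/-- the Singer conjecture for the links of the faces -/
theorem FaceP.singer {j k : ℕ} (h : FaceP j k G) (hS : HSph (2 * j + k) G) {T : Finset V}
    (hT : G.IsClique (T : Set V)) (hk : T.card = k) [Fintype ↥(lk G T)] {i : ℕ} (hi : i ≠ j) :
    LV (G.induce (lk G T)) i := by
  refine LV_of (singer_of_above (n := 2 * j) (hSph_congr (by omega) (hSph_lk hS T hT)) (fun i hi => ?_) i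
    (by omega))
  exact h.lv hT hk le_rfl (by omega) _ _

/-- the vanishing in the degree `j + k` -/
theorem FaceP.crit {j k : ℕ} (h : FaceP j (k + 1) G) (N : Set V) (hN : LV (G.induce N) (j + (k + 1)))
    (h0 : ∀ T : Finset V, G.IsClique (T : Set V) → T.card = k + 1 → ¬ (T : Set V) ⊆ N →
      LV (G.induce (lk G T)) j) (A : Set V) : LV (G.induce (A ∪ N)) (j + (k + 1)) := by
  refine lv_faces_top (G := G) (k := k) N (fun r i => i = j + r) (fun r i hi => by omega)
    (fun r => by omega) (fun T hT hk hTN C hC i hi => ?_) _ rfl hN A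
  subst hi
  refine lv_mono hC (h0 T hT hk hTN) fun v hv D _ => h.lv_vert hT hk hv.1 ?_
  exact Set.inter_subset_inter_left _ (by assumption)

open Classical in
/-- `(-1) ^ j χ(W_{lk T})`, where `χ(W_A) = ∑ (-1 / 2) ^ |S|` over the cliques `S ⊆ A` is the Euler characteristic
of the special subgroup `W_A` -/
noncomputable def chiLk (G : SimpleGraph V) (j : ℕ) (T : Finset V) : ℚ := (-1) ^ j * chiW (G.induce (lk G T))

open Classical in
/-- the faces with `k` vertices which are not contained in `D` -/
noncomputable def facesOff (G : SimpleGraph V) (k : ℕ) (D : Set V) : Finset (Finset V) :=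
  Finset.univ.filter fun T => G.IsClique (T : Set V) ∧ T.card = k ∧ ¬ (T : Set V) ⊆ D

/-- the bound for the Betti numbers -/
theorem FaceP.bound {j k : ℕ} (h : FaceP j (k + 1) G) (hS : HSph (2 * j + (k + 1)) G) (D : Set V)
    (hD : LV (G.induce D) (j + (k + 1))) (ε : ℝ) (hε : 0 < ε) :
    Evt G (fun X _ a => (beta G (pull ℝ a) Set.univ ∅ (j + (k + 1)) : ℝ) ≤
      ((1 / 2) ^ (k + 1) * (∑ T ∈ facesOff G (k + 1) D, (chiLk G j T : ℝ)) + ε) * Fintype.card X) := by
  classical
  obtain ⟨c, hc⟩ : ∃ c : ℕ, c = Fintype.card (Finset V) + 1 := ⟨_, rfl⟩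
  have hc0 : (0 : ℝ) < c := by rw [hc]; positivity
  obtain ⟨ε1, hε1⟩ : ∃ ε1 : ℝ, ε1 = ε / (3 * c) := ⟨_, rfl⟩
  have hε1p : 0 < ε1 := by rw [hε1]; positivity
  -- all faces and all full subcomplexes of their links
  have h1 := Evt.forall (G := G) ((Finset.univ : Finset (Finset V × Finset V)).filter
      (fun p => G.IsClique (p.1 : Set V) ∧ p.1.card = k + 1 ∧ (p.2 : Set V) ⊆ lk G p.1))
    (fun p X _ a => (beta G (pull ℝ a) (p.2 : Set V) (p.1 : Set V) j : ℝ) ≤
      beta G (pull ℝ a) (lk G p.1) (p.1 : Set V) j + ε1 * Fintype.card X)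
    (fun p hp => by
      obtain ⟨-, h2, h3, h4⟩ := Finset.mem_filter.1 hp
      exact mono_T h2 (fun u hu C hC => h.lv_vert h2 h3 hu hC) _ _ h4 rfl ε1 hε1p)
  have h2 := Evt.forall (G := G) ((Finset.univ : Finset (Finset V)).filter
      (fun T : Finset V => G.IsClique (T : Set V) ∧ T.card = k + 1))
    (fun T X _ a => (beta G (pull ℝ a) (lk G T) (T : Set V) j : ℝ) ≤
      ((1 / 2) ^ (k + 1) * (chiLk G j T : ℝ) + ε1) * Fintype.card X)
    (fun T hT => by
      obtain ⟨-, h2, h3⟩ := Finset.mem_filter.1 hT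
      have h4 := top_T h2 (fun i hi => h.singer hS h2 h3 hi) ε1 hε1p
      refine h4.mono fun X _ a _ h5 => h5.trans (le_of_eq ?_)
      rw [h3]
      unfold chiLk
      push_cast
      rfl)
  have h3 := evt_small (G := G) hD (ε / 3) (by positivity)
  refine ((h1.and h2).and h3).mono fun X _ a _ hh => ?_
  obtain ⟨⟨h4, h5⟩, h6⟩ := hh
  have hX0 : (0 : ℝ) ≤ Fintype.card X := Nat.cast_nonneg _
  have hDf : (D.toFinset : Set V) = D := Set.coe_toFinset D
  have h7 := iterB G (pull ℝ a) j k
    (fun T => ((1 / 2) ^ (k + 1) * (chiLk G j T : ℝ) + 2 * ε1) * Fintype.card X)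
    (fun T hT hk C hC => by
      have h8 := h4 (T, C.toFinset) (Finset.mem_filter.2 ⟨Finset.mem_univ _, hT, hk, by
        simpa using hC⟩)
      have h9 := h5 T (Finset.mem_filter.2 ⟨Finset.mem_univ _, hT, hk⟩)
      simp only [Set.coe_toFinset] at h8
      linarith) D.toFinset Finset.univ
  rw [Finset.union_eq_left.2 (Finset.subset_univ D.toFinset), hDf, Finset.coe_univ] at h7
  have h8 : (Finset.univ.powersetCard (k + 1)).filter
      (fun T : Finset V => G.IsClique (T : Set V) ∧ ¬ T ⊆ D.toFinset) = facesOff G (k + 1) D := by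
    unfold facesOff
    ext T
    rw [Finset.mem_filter, Finset.mem_filter, Finset.mem_powersetCard_univ]
    have : T ⊆ D.toFinset ↔ (T : Set V) ⊆ D := by
      rw [← Finset.coe_subset, hDf]
    rw [this]
    constructor
    · rintro ⟨k1, k2, k3⟩
      exact ⟨Finset.mem_univ _, k2, k1, k3⟩
    · rintro ⟨_, k2, k1, k3⟩
      exact ⟨k1, k2, k3⟩
  rw [h8, ← Finset.sum_mul, Finset.sum_add_distrib, ← Finset.mul_sum, Finset.sum_const, nsmul_eq_mul] at h7
  have h9 : ((facesOff G (k + 1) D).card : ℝ) * (2 * ε1) ≤ 2 * ε / 3 := by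
    have h10 : ((facesOff G (k + 1) D).card : ℝ) ≤ c := by
      rw [hc]
      have := Finset.card_le_univ (facesOff G (k + 1) D)
      push_cast
      have h11 : ((facesOff G (k + 1) D).card : ℝ) ≤ (Fintype.card (Finset V) : ℝ) := by exact_mod_cast this
      linarith
    calc ((facesOff G (k + 1) D).card : ℝ) * (2 * ε1) ≤ c * (2 * ε1) :=
          mul_le_mul_of_nonneg_right h10 (by positivity)
      _ = 2 * ε / 3 := by
          rw [hε1]
          field_simp
  have h10 : ((facesOff G (k + 1) D).card : ℝ) * (2 * ε1) * Fintype.card X ≤ 2 * ε / 3 * Fintype.card X :=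
    mul_le_mul_of_nonneg_right h9 hX0
  nlinarith

end Pool.Agent.X250.Sph
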