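import Pool.Agent.H79.LX.Y365_FS_Cls

/-!
# Weighted Charney-Davis quantities (helper365)
-/

set_option autoImplicit false
set_option linter.unusedVariables false
set_option linter.unusedSectionVars false

namespace Y365.FS

open Pool.Agent.W497.FS

section inv

variable {β : Type*} [DecidableEq β]

/-- the alternating sum `∑_{U ⊆ T} (-1/2)^|T \ U| / N U` -/
def bN (N : Finset β → ℚ) (T : Finset β) : ℚ :=
  ∑ U ∈ T.powerset, (-1 / 2) ^ (T.card - U.card) / N U

/-- binomial sum over an interval of sets -/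
theorem interval_sum (U σ : Finset β) (hU : U ⊆ σ) :
    ∑ T ∈ σ.powerset.filter (fun T => U ⊆ T),
      (1 / 2 : ℚ) ^ (σ.card - T.card) * (-1 / 2) ^ (T.card - U.card) =
      if U = σ then 1 else 0 := by
  have h1 : ∑ T ∈ σ.powerset.filter (fun T => U ⊆ T),
      (1 / 2 : ℚ) ^ (σ.card - T.card) * (-1 / 2) ^ (T.card - U.card) =
      ∑ V ∈ (σ \ U).powerset, (-1 / 2 : ℚ) ^ V.card * (1 / 2) ^ ((σ \ U).card - V.card) := by
    refine Finset.sum_bij' (fun T _ => T \ U) (fun V _ => V ∪ U) ?_ ?_ ?_ ?_ ?_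
    · intro T hT
      obtain ⟨hT1, hT2⟩ := Finset.mem_filter.1 hT
      rw [Finset.mem_powerset] at hT1 ⊢
      exact Finset.sdiff_subset_sdiff hT1 (Finset.Subset.refl U)
    · intro V hV
      rw [Finset.mem_powerset] at hV
      refine Finset.mem_filter.2 ⟨Finset.mem_powerset.2 ?_, Finset.subset_union_right⟩
      exact Finset.union_subset (hV.trans Finset.sdiff_subset) hU
    · intro T hT
      exact Finset.sdiff_union_of_subset (Finset.mem_filter.1 hT).2
    · intro V hV
      rw [Finset.mem_powerset] at hV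
      rw [Finset.union_sdiff_right]
      exact Finset.sdiff_eq_self_of_disjoint
        (Finset.disjoint_of_subset_left hV Finset.sdiff_disjoint)
    · intro T hT
      obtain ⟨hT1, hT2⟩ := Finset.mem_filter.1 hT
      rw [Finset.mem_powerset] at hT1
      have c1 := Finset.card_sdiff_add_card_eq_card hT2
      have c2 := Finset.card_sdiff_add_card_eq_card hU
      have c3 := Finset.card_le_card hT1
      rw [mul_comm]
      congr 2 <;> omega
  rw [h1, Finset.sum_pow_mul_eq_add_pow]
  split_ifs with h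
  · subst h; simp
  · have h2 : (σ \ U).card ≠ 0 := by
      rw [Ne, Finset.card_eq_zero, Finset.sdiff_eq_empty_iff_subset]
      exact fun h3 => h (Finset.Subset.antisymm hU h3)
    have h3 : (-1 / 2 : ℚ) + 1 / 2 = 0 := by norm_num
    rw [h3, zero_pow h2]

/-- Moebius inversion -/
theorem inversion (N : Finset β → ℚ) (σ : Finset β) :
    1 / N σ = ∑ T ∈ σ.powerset, (1 / 2) ^ (σ.card - T.card) * bN N T := by
  have h1 : ∑ T ∈ σ.powerset, (1 / 2 : ℚ) ^ (σ.card - T.card) * bN N T =
      ∑ T ∈ σ.powerset, ∑ U ∈ σ.powerset, if U ⊆ T then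
        (1 / 2 : ℚ) ^ (σ.card - T.card) * (-1 / 2) ^ (T.card - U.card) * (1 / N U) else 0 := by
    refine Finset.sum_congr rfl fun T hT => ?_
    rw [Finset.mem_powerset] at hT
    rw [bN, Finset.mul_sum, ← Finset.sum_filter]
    have h2 : σ.powerset.filter (fun U => U ⊆ T) = T.powerset := by
      ext U
      simp only [Finset.mem_filter, Finset.mem_powerset]
      exact ⟨fun h => h.2, fun h => ⟨h.trans hT, h⟩⟩
    rw [h2]
    refine Finset.sum_congr rfl fun U _ => ?_
    ring
  rw [h1, Finset.sum_comm]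
  have h3 : ∀ U ∈ σ.powerset, (∑ T ∈ σ.powerset, if U ⊆ T then
        (1 / 2 : ℚ) ^ (σ.card - T.card) * (-1 / 2) ^ (T.card - U.card) * (1 / N U) else 0) =
      if U = σ then 1 / N U else 0 := by
    intro U hU
    rw [← Finset.sum_filter, ← Finset.sum_mul,
      interval_sum U σ (Finset.mem_powerset.1 hU)]
    split_ifs <;> simp
  rw [Finset.sum_congr rfl h3, Finset.sum_ite_eq', if_pos (Finset.mem_powerset_self σ)]

end inv

variable {α : Type} [DecidableEq α] {H : SimpleGraph α}

/-- the weighted quantity is a combination of the Charney-Davis quantities of the links -/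
theorem weighted_eq (N : Finset α → ℚ) (W : Finset α) :
    ∑ σ ∈ cl H W, (-1) ^ σ.card / N σ =
      ∑ T ∈ cl H W, (-1) ^ T.card * bN N T * lam H (lkF H W T) := by
  have h1 : ∀ σ ∈ cl H W, (-1) ^ σ.card / N σ = ∑ T ∈ cl H W, if T ⊆ σ then
      (-1) ^ σ.card * ((1 / 2) ^ (σ.card - T.card) * bN N T) else 0 := by
    intro σ hσ
    rw [div_eq_mul_one_div, inversion N σ, Finset.mul_sum, ← Finset.sum_filter]
    refine Finset.sum_congr ?_ fun _ _ => rfl
    ext T
    simp only [Finset.mem_filter, Finset.mem_powerset]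
    exact ⟨fun h => ⟨cl_of_subset hσ h, h⟩, fun h => h.2⟩
  rw [Finset.sum_congr rfl h1, Finset.sum_comm]
  refine Finset.sum_congr rfl fun T hT => ?_
  rw [← Finset.sum_filter, sum_sup hT (fun n => (-1 : ℚ) ^ n * ((1 / 2) ^ (n - T.card) * bN N T)),
    lam, fe, Finset.mul_sum]
  refine Finset.sum_congr rfl fun ρ _ => ?_
  have h2 : (-1 / 2 : ℚ) = -1 * (1 / 2) := by norm_num
  rw [Nat.add_sub_cancel, h2, mul_pow, pow_add]
  ring

/-- the condition on the orders: the Coxeter complexes satisfy the Charney-Davis inequality -/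
def GoodOrders {β : Type*} [DecidableEq β] (F : Finset (Finset β)) (N : Finset β → ℚ) : Prop :=
  ∀ T ∈ F, (Odd T.card → bN N T = 0) ∧ ∀ j, T.card = 2 * j → 0 ≤ (-1) ^ j * bN N T

theorem weighted_nonneg {m : ℕ} {W : Finset α} (h : NP H (2 * m) W) (hE : Eul H (2 * m) W)
    (hK : Kc H W) {N : Finset α → ℚ} (hN : GoodOrders (cl H W) N) :
    0 ≤ (-1) ^ m * ∑ σ ∈ cl H W, (-1) ^ σ.card / N σ := by
  rw [weighted_eq, Finset.mul_sum]
  refine Finset.sum_nonneg fun T hT => ?_
  obtain ⟨e, he, hNP, -, -⟩ := h.lkF hT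
  rcases Nat.even_or_odd T.card with ⟨j, hj⟩ | ho
  · obtain ⟨l, hl⟩ : ∃ l, m = j + l := ⟨m - j, by omega⟩
    obtain rfl : e = 2 * l := by omega
    have h1 := (hN T hT).2 j (by omega)
    have h2 := (hK.lkF h hT).cd hNP (hE.lkF_rank hT he)
    have h3 : (-1 : ℚ) ^ m * ((-1) ^ T.card * bN N T * lam H (lkF H W T)) =
        ((-1) ^ j * bN N T) * ((-1) ^ l * lam H (lkF H W T)) := by
      have h4 : (-1 : ℚ) ^ T.card = 1 := by rw [hj]; exact Even.neg_one_pow ⟨j, rfl⟩
      rw [hl, h4, pow_add]; ring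
    rw [h3]
    exact mul_nonneg h1 h2
  · rw [(hN T hT).1 ho]
    simp

/-! ## Weights whose heavy edges are disjoint -/

section matching

variable {β : Type*} [DecidableEq β]

/-- product of the `1 - c e` over the pairs inside `U` -/
def hp (c : Finset β → ℚ) (U : Finset β) : ℚ := ∏ e ∈ U.powersetCard 2, (1 - c e)

theorem hp_insert (c : Finset β → ℚ) {U : Finset β} {v : β} (hv : v ∉ U) :
    hp c (insert v U) = hp c U * ∏ u ∈ U, (1 - c {v, u}) := by
  have hdis : Disjoint (U.powersetCard 2) ((U.powersetCard 1).image (insert v)) := by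
    rw [Finset.disjoint_left]
    intro e he he2
    obtain ⟨e', -, rfl⟩ := Finset.mem_image.1 he2
    exact hv ((Finset.mem_powersetCard.1 he).1 (Finset.mem_insert_self v e'))
  rw [hp, Finset.powersetCard_succ_insert hv 1, Finset.prod_union hdis, ← hp]
  congr 1
  rw [Finset.prod_image]
  · rw [Finset.powersetCard_one, Finset.prod_map]
    rfl
  · intro e he e' he' h
    have h1 := (Finset.mem_powersetCard.1 he).1
    have h2 := (Finset.mem_powersetCard.1 he').1
    have h3 : v ∉ e := fun h => hv (h1 h)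
    have h4 : v ∉ e' := fun h => hv (h2 h)
    rw [← Finset.erase_insert h3, ← Finset.erase_insert h4]
    exact congrArg (fun s => s.erase v) h

/-- the alternating sum of `hp` -/
def Dh (c : Finset β → ℚ) (T : Finset β) : ℚ :=
  ∑ U ∈ T.powerset, (-1) ^ (T.card - U.card) * hp c U

theorem Dh_insert (c : Finset β → ℚ) {T : Finset β} {v : β} (hv : v ∉ T) :
    Dh c (insert v T) = ∑ U ∈ T.powerset, (-1) ^ (T.card - U.card) *
      (hp c (insert v U) - hp c U) := by
  rw [Dh, Finset.sum_powerset_insert hv, ← Finset.sum_add_distrib]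
  refine Finset.sum_congr rfl fun U hU => ?_
  rw [Finset.mem_powerset] at hU
  have h1 : v ∉ U := fun h => hv (hU h)
  have h2 := Finset.card_le_card hU
  rw [Finset.card_insert_of_notMem hv, Finset.card_insert_of_notMem h1]
  have e1 : T.card + 1 - U.card = (T.card - U.card) + 1 := by omega
  have e2 : T.card + 1 - (U.card + 1) = T.card - U.card := by omega
  rw [e1, e2, pow_succ]
  ring

theorem Dh_sign (c : Finset β → ℚ) (hc : ∀ e, 0 ≤ c e) : ∀ (k : ℕ) (T : Finset β), T.card = k →
    (∀ u ∈ T, ∀ v ∈ T, ∀ z ∈ T, u ≠ v → u ≠ z → v ≠ z → c {u, v} = 0 ∨ c {u, z} = 0) →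
    (Odd T.card → Dh c T = 0) ∧ ∀ j, T.card = 2 * j → 0 ≤ (-1) ^ j * Dh c T := by
  intro k
  induction k using Nat.strong_induction_on with
  | _ k ih =>
    intro T hT hm
    rcases T.eq_empty_or_nonempty with rfl | ⟨v, hv⟩
    · refine ⟨fun h => by simp at h, fun j hj => ?_⟩
      obtain rfl : j = 0 := by simpa using hj.symm
      have h0 : (∅ : Finset β).powersetCard 2 = ∅ := by
        rw [Finset.powersetCard_eq_empty]; simp
      simp [Dh, hp, h0]
    obtain ⟨T', hvT', rfl⟩ : ∃ T', v ∉ T' ∧ insert v T' = T :=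
      ⟨T.erase v, Finset.notMem_erase v T, Finset.insert_erase hv⟩
    by_cases hl : ∀ u ∈ T', c {v, u} = 0
    · have h0 : Dh c (insert v T') = 0 := by
        rw [Dh_insert c hvT']
        refine Finset.sum_eq_zero fun U hU => ?_
        rw [Finset.mem_powerset] at hU
        rw [hp_insert c (fun h => hvT' (hU h)), Finset.prod_eq_one (fun u hu => by
          rw [hl u (hU hu), sub_zero]), mul_one, sub_self, mul_zero]
      rw [h0]
      exact ⟨fun _ => rfl, fun j _ => by simp⟩
    · push Not at hl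
      obtain ⟨u, hu, hcu⟩ := hl
      obtain ⟨T'', huT'', rfl⟩ : ∃ T'', u ∉ T'' ∧ insert u T'' = T' :=
        ⟨T'.erase u, Finset.notMem_erase u T', Finset.insert_erase hu⟩
      have hvu : v ≠ u := fun h => hvT' (h ▸ Finset.mem_insert_self u T'')
      have hvT'' : v ∉ T'' := fun h => hvT' (Finset.mem_insert_of_mem h)
      have hz1 : ∀ z ∈ T'', c {v, z} = 0 := by
        intro z hz
        have hzv : v ≠ z := fun h => hvT'' (h ▸ hz)
        have hzu : u ≠ z := fun h => huT'' (h ▸ hz)
        rcases hm v (Finset.mem_insert_self _ _) u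
          (Finset.mem_insert_of_mem (Finset.mem_insert_self _ _)) z
          (Finset.mem_insert_of_mem (Finset.mem_insert_of_mem hz)) hvu hzv hzu with h | h
        · exact absurd h hcu
        · exact h
      have hz2 : ∀ z ∈ T'', c {u, z} = 0 := by
        intro z hz
        have hzv : v ≠ z := fun h => hvT'' (h ▸ hz)
        have hzu : u ≠ z := fun h => huT'' (h ▸ hz)
        rcases hm u (Finset.mem_insert_of_mem (Finset.mem_insert_self _ _)) v
          (Finset.mem_insert_self _ _) z
          (Finset.mem_insert_of_mem (Finset.mem_insert_of_mem hz)) hvu.symm hzu hzv with h | h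
        · rw [Finset.pair_comm] at h
          exact absurd h hcu
        · exact h
      have key : Dh c (insert v (insert u T'')) = -c {v, u} * Dh c T'' := by
        rw [Dh_insert c hvT', Finset.sum_powerset_insert huT'', ← Finset.sum_add_distrib, Dh,
          Finset.mul_sum]
        refine Finset.sum_congr rfl fun U hU => ?_
        rw [Finset.mem_powerset] at hU
        have h1 : u ∉ U := fun h => huT'' (hU h)
        have h2 : v ∉ U := fun h => hvT'' (hU h)
        have h3 := Finset.card_le_card hU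
        have h4 : v ∉ insert u U := fun h => by
          rcases Finset.mem_insert.1 h with h | h
          · exact hvu h
          · exact h2 h
        rw [hp_insert c h4, hp_insert c h1, hp_insert c h2, Finset.prod_insert h1,
          Finset.prod_eq_one (fun z hz => by rw [hz1 z (hU hz), sub_zero]),
          Finset.prod_eq_one (fun z hz => by rw [hz2 z (hU hz), sub_zero]),
          Finset.card_insert_of_notMem huT'', Finset.card_insert_of_notMem h1]
        have e2 : T''.card + 1 - (U.card + 1) = T''.card - U.card := by omega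
        rw [e2]
        ring
      have hc1 : (insert v (insert u T'')).card = T''.card + 2 := by
        rw [Finset.card_insert_of_notMem hvT', Finset.card_insert_of_notMem huT'']
      obtain ⟨i1, i2⟩ := ih T''.card (by omega) T'' rfl (fun a ha b hb z hz => hm a
        (Finset.mem_insert_of_mem (Finset.mem_insert_of_mem ha)) b
        (Finset.mem_insert_of_mem (Finset.mem_insert_of_mem hb)) z
        (Finset.mem_insert_of_mem (Finset.mem_insert_of_mem hz)))
      rw [key, hc1]
      refine ⟨fun h => ?_, fun j hj => ?_⟩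
      · rw [i1 (by rw [Nat.odd_iff] at h ⊢; omega), mul_zero]
      · obtain ⟨j, rfl⟩ : ∃ j', j = j' + 1 := ⟨j - 1, by omega⟩
        have h1 := i2 j (by omega)
        have h2 : (-1 : ℚ) ^ (j + 1) * (-c {v, u} * Dh c T'') =
            c {v, u} * ((-1) ^ j * Dh c T'') := by rw [pow_succ]; ring
        rw [h2]
        exact mul_nonneg (hc _) h1

/-- the order `2^|σ| ∏ (m e / 2)` of the Coxeter group of `σ`, if the edges `e` in `σ` with
weight `m e > 2` are pairwise disjoint -/
def ordM (m : Finset β → ℕ) (σ : Finset β) : ℚ := 2 ^ σ.card * ∏ e ∈ σ.powersetCard 2, (m e : ℚ) / 2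

theorem bN_ordM (m : Finset β → ℕ) (hm : ∀ e, 2 ≤ m e) (T : Finset β) :
    bN (ordM m) T = (1 / 2) ^ T.card * Dh (fun e => 1 - 2 / (m e : ℚ)) T := by
  rw [bN, Dh, Finset.mul_sum]
  refine Finset.sum_congr rfl fun U hU => ?_
  rw [Finset.mem_powerset] at hU
  have h1 := Finset.card_le_card hU
  obtain ⟨k, hk⟩ := Nat.exists_eq_add_of_le h1
  have h2 : hp (fun e => 1 - 2 / (m e : ℚ)) U = (∏ e ∈ U.powersetCard 2, (m e : ℚ) / 2)⁻¹ := by
    rw [hp, ← Finset.prod_inv_distrib]
    refine Finset.prod_congr rfl fun e _ => ?_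
    have : (m e : ℚ) ≠ 0 := by
      have := hm e
      exact_mod_cast (by omega : m e ≠ 0)
    field_simp
    ring
  rw [h2, ordM, hk, Nat.add_sub_cancel_left, pow_add]
  have h3 : (-1 / 2 : ℚ) = -1 * (1 / 2) := by norm_num
  rw [h3, mul_pow]
  have h4 : (1 / 2 : ℚ) ^ U.card = (2 ^ U.card)⁻¹ := by rw [one_div, inv_pow]
  rw [h4, div_eq_mul_inv, mul_inv]
  ring

theorem goodOrders_ordM {F : Finset (Finset β)} (m : Finset β → ℕ) (hm : ∀ e, 2 ≤ m e)
    (hmat : ∀ T ∈ F, ∀ u ∈ T, ∀ v ∈ T, ∀ z ∈ T, u ≠ v → u ≠ z → v ≠ z →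
      m {u, v} = 2 ∨ m {u, z} = 2) : GoodOrders F (ordM m) := by
  intro T hT
  have hc : ∀ e, 0 ≤ (fun e => 1 - 2 / (m e : ℚ)) e := by
    intro e
    have h1 : (2 : ℚ) ≤ m e := by exact_mod_cast hm e
    have h2 : 2 / (m e : ℚ) ≤ 1 := by rw [div_le_one (by linarith)]; exact h1
    dsimp only
    linarith
  obtain ⟨h1, h2⟩ := Dh_sign (fun e => 1 - 2 / (m e : ℚ)) hc T.card T rfl
    (fun u hu v hv z hz h1 h2 h3 => by
      rcases hmat T hT u hu v hv z hz h1 h2 h3 with h | h
      · left; rw [h]; norm_num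
      · right; rw [h]; norm_num)
  rw [bN_ordM m hm]
  refine ⟨fun h => by rw [h1 h, mul_zero], fun j hj => ?_⟩
  have h3 : (-1 : ℚ) ^ j * ((1 / 2) ^ T.card * Dh (fun e => 1 - 2 / (m e : ℚ)) T) =
      (1 / 2) ^ T.card * ((-1) ^ j * Dh (fun e => 1 - 2 / (m e : ℚ)) T) := by ring
  rw [h3]
  exact mul_nonneg (by positivity) (h2 j hj)

end matching

end Y365.FS
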