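import Pool.Agent.H79.LX.X250_Sph_Beta
import Pool.Agent.H79.LX.Y365_FS_Wt

/-!
# Charney-Davis quantities of the links of a homology sphere
-/

set_option autoImplicit false
set_option linter.unusedSectionVars false

namespace Pool.Agent.X250.Sph

open Pool.Agent.W907.SG Pool.Agent.W907.SM Pool.Agent.TH652.Above
open Pool.Agent.W497.FS (cl lkF lam fe mem_cl mem_lkF sum_sup)

variable {V : Type} [Fintype V] [LinearOrder V] {G : SimpleGraph V}

theorem mem_cl_univ {T : Finset V} : T ∈ cl G Finset.univ ↔ G.IsClique (T : Set V) := by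
  rw [mem_cl]
  constructor
  · rintro ⟨-, h⟩ x hx y hy hxy
    exact h x hx y hy hxy
  · exact fun h => ⟨Finset.subset_univ _, fun x hx y hy hxy => h hx hy hxy⟩

theorem chiW_filter [DecidablePred fun T : Finset V => G.IsClique (T : Set V)] :
    chiW G = ∑ T ∈ (Finset.univ : Finset (Finset V)).filter
      (fun T : Finset V => G.IsClique (T : Set V)), (-1 / 2 : ℚ) ^ T.card := by
  rw [Finset.sum_filter]
  unfold chiW
  refine Finset.sum_congr rfl fun T _ => ?_
  by_cases h : G.IsClique (T : Set V)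
  · rw [if_pos h, if_pos h]
  · rw [if_neg h, if_neg h]

/-- the two descriptions of the Charney-Davis quantity of a link -/
theorem lam_lk (T : Finset V) [Fintype ↥(lk G T)] :
    lam G (lkF G Finset.univ T) = chiW (G.induce (lk G T)) := by
  classical
  rw [chiW_filter]
  unfold lam fe
  symm
  refine Finset.sum_nbij' (fun S => S.map (incl (lk G T))) (fun S => cut (lk G T) S) ?_ ?_ ?_ ?_ ?_
  · intro S hS
    rw [Finset.mem_filter] at hS
    have hS2 := (clique_map G (lk G T) S).1 hS.2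
    rw [mem_cl]
    refine ⟨fun x hx => ?_, fun x hx y hy hxy => hS2 hx hy hxy⟩
    rw [mem_lkF]
    exact ⟨Finset.mem_univ _, fun y hy => ((map_subset (lk G T) S hx) y hy).symm⟩
  · intro S hS
    rw [mem_cl] at hS
    have hsub : (S : Set V) ⊆ lk G T := by
      intro x hx y hy
      exact ((mem_lkF.1 (hS.1 hx)).2 y hy).symm
    rw [Finset.mem_filter]
    refine ⟨Finset.mem_univ _, ?_⟩
    rw [clique_map, map_cut _ hsub]
    exact fun x hx y hy hxy => hS.2 x hx y hy hxy
  · intro S _
    exact cut_map _ S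
  · intro S hS
    rw [mem_cl] at hS
    have hsub : (S : Set V) ⊆ lk G T := by
      intro x hx y hy
      exact ((mem_lkF.1 (hS.1 hx)).2 y hy).symm
    exact map_cut _ hsub
  · intro S _
    simp only [Finset.card_map]

/-- `4 ^ m ω` is an integer -/
theorem exists_int {m : ℕ} (h : HSph (2 * m) G) :
    ∃ z : ℤ, 4 ^ m * chiW G = z := by
  classical
  refine ⟨∑ T : Finset V, if G.IsClique (T : Set V) then
    (-1) ^ T.card * 2 ^ (2 * m - T.card) else 0, ?_⟩
  unfold chiW
  rw [Finset.mul_sum]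
  push_cast
  refine Finset.sum_congr rfl fun T _ => ?_
  by_cases hT : G.IsClique (T : Set V)
  · rw [if_pos hT, if_pos hT]
    have h1 := card_le_of_hSph h T hT
    obtain ⟨r, hr⟩ := Nat.exists_eq_add_of_le h1
    rw [hr, Nat.add_sub_cancel_left]
    have h4 : (4 : ℚ) ^ m = 2 ^ T.card * 2 ^ r := by
      rw [← pow_add, ← hr, pow_mul]
      norm_num
    rw [h4, div_pow]
    field_simp
  · rw [if_neg hT, if_neg hT, mul_zero]

/-- the inequality, the case of equality, and the gap, from the vanishing outside the middle -/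
theorem gap_of {m : ℕ} (h : HSph (2 * m) G) (hL : ∀ i, i ≠ m → L2Van G i) :
    0 ≤ (-1) ^ m * chiW G ∧ ((∀ i, L2Van G i) ↔ chiW G = 0) ∧
      (¬ (∀ i, L2Van G i) → 1 ≤ 4 ^ m * ((-1) ^ m * chiW G)) := by
  have h1 := chi_sign (m := m) G hL
  have h2 : (∀ i, L2Van G i) ↔ chiW G = 0 := l2eul V G m hL
  refine ⟨h1, h2, fun h3 => ?_⟩
  have h4 : chiW G ≠ 0 := fun h5 => h3 (h2.2 h5)
  obtain ⟨z, hz⟩ := exists_int h
  have h5 : (0 : ℚ) < 4 ^ m * ((-1) ^ m * chiW G) := by
    have h6 : (-1 : ℚ) ^ m * chiW G ≠ 0 := mul_ne_zero (pow_ne_zero _ (by norm_num)) h4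
    exact mul_pos (by positivity) (lt_of_le_of_ne h1 h6.symm)
  have h6 : (4 : ℚ) ^ m * ((-1) ^ m * chiW G) = (((-1) ^ m * z : ℤ) : ℚ) := by
    push_cast
    rw [← hz]
    ring
  rw [h6] at h5 ⊢
  have h7 : (0 : ℤ) < (-1) ^ m * z := by exact_mod_cast h5
  exact_mod_cast h7

theorem hSph_congr {m n : ℕ} (e : m = n) (h : HSph m G) : HSph n G := e ▸ h

/-- the links of even codimension -/
theorem gap_lk {n : ℕ} (h : HSph n G) (hP : P n G) (S : Finset V) (hS : G.IsClique (S : Set V))
    [Fintype ↥(lk G S)] (j : ℕ) (hj : 2 * j + S.card = n) :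
    0 ≤ (-1) ^ j * chiW (G.induce (lk G S)) ∧
      ((∀ i, L2Van (G.induce (lk G S)) i) ↔ chiW (G.induce (lk G S)) = 0) ∧
      (¬ (∀ i, L2Van (G.induce (lk G S)) i) → 1 ≤ 4 ^ j * ((-1) ^ j * chiW (G.induce (lk G S)))) :=
  gap_of (hSph_congr (by omega) (hSph_lk h S hS)) fun i hi => singer_lk h hP S hS i (by omega)

/-- the empty face -/
theorem lk_empty : lk G ∅ = Set.univ := by
  ext v
  simp [lk]

theorem chiW_congr {A B : Set V} (h : A = B) [i1 : Fintype ↥A] [i2 : Fintype ↥B] :
    chiW (G.induce A) = chiW (G.induce B) := by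
  subst h
  have : i1 = i2 := Subsingleton.elim _ _
  subst this
  rfl

theorem chiW_univ [Fintype ↥(Set.univ : Set V)] : chiW (G.induce Set.univ) = chiW G := by
  classical
  have h : lam G (lkF G Finset.univ ∅) = chiW G := by
    have h1 : lkF G Finset.univ ∅ = Finset.univ := by
      ext x
      simp [mem_lkF]
    rw [h1, chiW_filter]
    unfold lam fe
    refine Finset.sum_congr ?_ fun _ _ => rfl
    ext T
    rw [mem_cl_univ, Finset.mem_filter]
    simp
  have : Fintype ↥(lk G ∅) := Fintype.ofFinite _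
  rw [← h, lam_lk]
  exact chiW_congr lk_empty.symm

end Pool.Agent.X250.Sph
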