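import Pool.Agent.H79.LX.X250_Sph_Links

/-!
# Monotonicity of the middle Betti numbers for full subcomplexes
-/

set_option autoImplicit false
set_option linter.unusedSectionVars false

namespace Pool.Agent.X250.Sph

open Module Pool.Agent.W907.SG Pool.Agent.W907.SM Pool.Agent.W397.SG Pool.Agent.W347.SGV
  Pool.Agent.W338.SG Pool.Agent.W461.SGN Pool.Agent.TH652.Above

section vert

variable {V F M : Type} [Fintype V] [LinearOrder V] [Field F] [AddCommGroup M] [Module F M]
  [FiniteDimensional F M]

/-- removing a vertex, bound from above for the smaller complex -/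
theorem vert_con (G : SimpleGraph V) (ρ : V → M →ₗ[F] M) (A S : Set V) (v : V) (hvA : v ∉ A) (i : ℕ) :
    beta G ρ A S i ≤ beta G ρ (insert v A) S i + beta G ρ (A ∩ G.neighborSet v) (insert v S) i := by
  refine con F (Finset V → M) (Finset V → M) (Finset V → M) (bd F) (qq F v)
    (BB G ρ A S i) (ZZ G ρ A S i) (BB G ρ (insert v A) S i) (ZZ G ρ (insert v A) S i)
    (BB G ρ (A ∩ G.neighborSet v) (insert v S) i) (ZZ G ρ (A ∩ G.neighborSet v) (insert v S) i)
    (KK G ρ (insert v A) S (i + 1) ⊓ (ZZ G ρ A S i).comap (bd F))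
    (BB_le_ZZ _ _ _ _ _) (BB_le_ZZ _ _ _ _ _) (BB_le_ZZ _ _ _ _ _)
    (inf_le_inf_right _ (KK_mono (Set.subset_insert _ _))) ?_ ?_ ?_
  · intro z hz hb
    obtain ⟨x, hx, rfl⟩ := hb
    exact ⟨x, ⟨hx, hz⟩, rfl⟩
  · rintro x ⟨hx1, hx2⟩
    refine ⟨qq_mem hx1, ?_⟩
    show bd F (qq F v x) = 0
    rw [qq_bd, neg_eq_zero]
    funext T
    by_cases hv : v ∈ T
    · exact qq_of_mem _ hv
    · rw [qq_of_not _ hv]
      have h1 : bd F x ∈ ZZ G ρ A S i := hx2
      rw [(mem_KK.1 h1.1).1 (insert v T), smul_zero]
      · rfl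
      · rintro ⟨_, h, _⟩
        exact hvA (h (by simp))
  · rintro x ⟨hx1, hx2⟩ hb
    obtain ⟨y, hy, hyx⟩ := hb
    have hy : y ∈ KK G ρ (A ∩ G.neighborSet v) (insert v S) (i + 1) := hy
    have he := lift_mem (A := A) hy
    have hqe := qq_lift hvA hy
    have hbe : bd F (lift v y) ∈ KK G ρ (insert v A) S (i + 1) := bd_mem_KK he
    refine ⟨x + bd F (lift v y), ?_, ?_⟩
    · refine mem_of_qq (v := v) ((KK G ρ (insert v A) S (i + 1)).add_mem hx1 hbe) ?_
      have h1 := qq_bd (F := F) v (lift v y)
      rw [hqe, hyx] at h1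
      rw [map_add]
      have h2 : qq F v (bd F (lift v y)) = - qq F v x := by rw [h1, neg_neg]
      rw [h2, add_neg_cancel]
    · rw [map_add, bd_bd, add_zero]

end vert

variable {V : Type} [Fintype V] [LinearOrder V]

/-- the quantity `f` is asymptotically at most zero along the finite `W_G`-sets with large
injectivity radius -/
def Asy (G : SimpleGraph V) (f : ∀ (X : Type) [Fintype X], PSet 3 G X → ℤ) : Prop :=
  ∀ N : ℕ, ∃ E : Finset (W G), (1 : W G) ∉ E ∧ ∀ (X : Type) [Fintype X] (P : PSet 3 G X)
    (ev : X → W G → X), (∀ x, ev x 1 = x) → (∀ x g h, ev x (g * h) = ev (ev x g) h) →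
    (∀ x v, ev x ((cox G).simple v) = P.a v x) → (∀ g ∈ E, ∀ x, ev x g ≠ x) →
    N * f X P ≤ (Fintype.card X : ℤ)

variable {G : SimpleGraph V}

theorem Asy.add {f g : ∀ (X : Type) [Fintype X], PSet 3 G X → ℤ} (hf : Asy G f) (hg : Asy G g) :
    Asy G (fun X _ P => f X P + g X P) := by
  classical
  intro N
  obtain ⟨E1, h1, h2⟩ := hf (2 * N)
  obtain ⟨E2, h3, h4⟩ := hg (2 * N)
  refine ⟨E1 ∪ E2, fun h => (Finset.mem_union.1 h).elim h1 h3, fun X _ P ev e1 e2 e3 e4 => ?_⟩
  have k1 := h2 X P ev e1 e2 e3 fun g hg => e4 g (Finset.mem_union_left _ hg)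
  have k2 := h4 X P ev e1 e2 e3 fun g hg => e4 g (Finset.mem_union_right _ hg)
  push_cast at k1 k2
  nlinarith

theorem Asy.mono {f g : ∀ (X : Type) [Fintype X], PSet 3 G X → ℤ} (hg : Asy G g)
    (h : ∀ (X : Type) [Fintype X] (P : PSet 3 G X), f X P ≤ g X P) : Asy G f := by
  intro N
  obtain ⟨E, h1, h2⟩ := hg N
  refine ⟨E, h1, fun X _ P ev e1 e2 e3 e4 => ?_⟩
  exact le_trans (mul_le_mul_of_nonneg_left (h X P) (by positivity)) (h2 X P ev e1 e2 e3 e4)

theorem Asy.zero : Asy G (fun _ _ _ => 0) := by
  intro N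
  refine ⟨∅, Finset.notMem_empty _, fun X _ P ev _ _ _ _ => ?_⟩
  rw [mul_zero]
  positivity

theorem Asy.sum {ι : Type} (s : Finset ι) (f : ι → ∀ (X : Type) [Fintype X], PSet 3 G X → ℤ)
    (h : ∀ i ∈ s, Asy G (f i)) : Asy G (fun X _ P => ∑ i ∈ s, f i X P) := by
  classical
  induction s using Finset.induction_on with
  | empty => simpa using Asy.zero
  | insert a s ha ih =>
    have h1 := (h a (Finset.mem_insert_self a s)).add (ih fun i hi => h i (Finset.mem_insert_of_mem hi))
    refine h1.mono fun X _ P => ?_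
    rw [Finset.sum_insert ha]

/-- the Betti numbers of a full subcomplex -/
noncomputable def bet (A : Set V) (i : ℕ) (X : Type) [Fintype X] (P : PSet 3 G X) : ℤ :=
  (beta G (pull ℝ P.a) A ∅ i : ℤ)

theorem Asy.bet_of {A : Set V} {i : ℕ} (h : LV (G.induce A) i) : Asy G (bet (G := G) A i) := by
  classical
  intro N
  obtain ⟨E, h1, h2⟩ := small_restrict small tr G A i (h _ _) N
  refine ⟨E, h1, fun X _ P ev e1 e2 e3 e4 => ?_⟩
  have := h2 X P.a ev P.inv P.comm e1 e2 e3 e4
  unfold bet
  exact_mod_cast this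

/-- one vertex -/
theorem Asy.step {A : Set V} {v : V} {i : ℕ} (hv : v ∉ A)
    (h : LV (G.induce (A ∩ G.neighborSet v)) i) :
    Asy G (fun X _ P => bet (G := G) A i X P - bet (G := G) (insert v A) i X P) := by
  refine (Asy.bet_of h).mono fun X _ P => ?_
  have h1 := vert_con G (pull ℝ P.a) A ∅ v hv i
  have h2 := eig V ℝ (X → ℝ) G (pull ℝ P.a) (A ∩ G.neighborSet v) ∅ v (by norm_num)
    (fun m => by
      funext x
      rw [pull_apply, pull_apply, P.inv])
    (fun u hu m => by
      have hu' : G.Adj u v := by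
        rcases hu with hu | hu
        · exact ((G.mem_neighborSet v u).1 hu.2).symm
        · exact absurd hu (by simp)
      funext x
      rw [pull_apply, pull_apply, pull_apply, pull_apply, P.comm u v hu']) i
  unfold bet
  have h3 : (beta G (pull ℝ P.a) A ∅ i : ℤ) ≤ beta G (pull ℝ P.a) (insert v A) ∅ i +
      beta G (pull ℝ P.a) (A ∩ G.neighborSet v) ∅ i := by
    exact_mod_cast h1.trans (Nat.add_le_add_left h2 _)
  linarith

/-- all vertices of `B` outside `A` -/
theorem Asy.steps {i : ℕ} : ∀ (k : ℕ) (A B : Set V), A ⊆ B → (B \ A).ncard = k →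
    (∀ v ∈ B \ A, ∀ C ⊆ B, LV (G.induce (C ∩ G.neighborSet v)) i) →
    Asy G (fun X _ P => bet (G := G) A i X P - bet (G := G) B i X P) := by
  intro k
  induction k with
  | zero =>
    intro A B hAB hk _
    rw [Set.ncard_eq_zero, Set.sdiff_eq_empty] at hk
    have : A = B := Set.Subset.antisymm hAB hk
    subst this
    exact Asy.zero.mono fun X _ P => by simp
  | succ k ih =>
    intro A B hAB hk hv
    obtain ⟨v, hvm⟩ : (B \ A).Nonempty := by
      rw [← Set.ncard_pos]; omega
    have h1 : B \ insert v A = (B \ A) \ {v} := by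
      ext x
      simp only [Set.mem_sdiff, Set.mem_insert_iff, Set.mem_singleton_iff]
      tauto
    have h2 := Set.ncard_sdiff_singleton_add_one hvm (Set.toFinite _)
    have h3 := ih (insert v A) B (Set.insert_subset hvm.1 hAB) (by rw [h1]; omega)
      (fun u hu C hC => hv u ⟨hu.1, fun h => hu.2 (Set.mem_insert_of_mem _ h)⟩ C hC)
    have h4 := Asy.step (G := G) hvm.2 (hv v hvm A hAB)
    refine (h4.add h3).mono fun X _ P => ?_
    linarith

/-- the Euler characteristic of a full subcomplex -/
theorem chi_sub (A : Set V) [Fintype ↥A] (X : Type) [Fintype X] (P : PSet 3 G X) :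
    ((∑ i ∈ Finset.range (Fintype.card V + 1), (-1 : ℤ) ^ i * bet (G := G) A i X P : ℤ) : ℚ) =
      Fintype.card X * chiW (G.induce A) := by
  have h1 := Pool.Agent.W723.SM.beta_sum (X := X) (two_ne_zero : (2 : ℝ) ≠ 0) (G.induce A)
    (fun u => P.a u.1) (fun u => P.sgn u.1) (fun u x => P.inv u.1 x)
    (fun u v h x => P.comm u.1 v.1 h x) (fun u x => P.sgn_self u.1 x)
    (fun u v h x => P.sgn_other u.1 v.1 (fun e => h (Subtype.ext e)) x)
  rw [← h1]
  have h2 : ∀ i, bet (G := G) A i X P = (beta (G.induce A) (pull ℝ fun u : ↥A => P.a u.1) Set.univ ∅ i : ℤ) := by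
    intro i
    unfold bet
    have h3 := beta_sub G A (pull ℝ P.a) Set.univ i
    have h4 : (Subtype.val '' (Set.univ : Set ↥A) : Set V) = A := by
      ext x; simp
    rw [h4] at h3
    rw [← h3]
    rfl
  simp only [h2]
  congr 1
  have hle : Fintype.card ↥A ≤ Fintype.card V := Fintype.card_le_of_injective _ Subtype.val_injective
  symm
  refine Finset.sum_subset ?_ ?_
  · intro x hx
    rw [Finset.mem_range] at hx ⊢
    omega
  · intro x _ hx
    rw [Finset.mem_range, not_lt] at hx
    rw [beta_big (G.induce A) _ Set.univ ∅ (by omega)]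
    simp

/-- there are finite `W_G`-sets with large injectivity radius -/
theorem Asy.rat {q : ℚ} (f : ∀ (X : Type) [Fintype X], PSet 3 G X → ℤ) (hf : Asy G f)
    (h : ∀ (X : Type) [Fintype X] (P : PSet 3 G X), (Fintype.card X : ℚ) * q ≤ f X P) : q ≤ 0 := by
  by_contra hq
  push Not at hq
  obtain ⟨N, hN⟩ := exists_nat_gt (1 / q)
  obtain ⟨E, h1, h2⟩ := hf N
  have : Fact (Nat.Prime 3) := ⟨Nat.prime_three⟩
  obtain ⟨Y, fY, neY, P, ev, e1, e2, e3, e4⟩ := nilp 3 V G E (by norm_num) h1
  have h3 := h2 Y P ev e1 e2 e3 e4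
  have h4 : (N : ℚ) * f Y P ≤ Fintype.card Y := by exact_mod_cast h3
  have h5 := h Y P
  have hc : (0 : ℚ) < Fintype.card Y := by exact_mod_cast Fintype.card_pos
  have h6 : (N : ℚ) * (Fintype.card Y * q) ≤ Fintype.card Y :=
    (mul_le_mul_of_nonneg_left h5 (Nat.cast_nonneg _)).trans h4
  have h7 : (N : ℚ) * q ≤ 1 := by
    have : (Fintype.card Y : ℚ) * (N * q) ≤ Fintype.card Y * 1 := by linarith
    exact le_of_mul_le_mul_left this hc
  rw [div_lt_iff₀ hq] at hN
  linarith

/-- Monotonicity: if the reduced `ℓ²`-homology of the full subcomplexes of the links of the vertices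
in `B \ A` vanishes in degree `m`, that of `A` in the degrees `i ≠ m` of the parity of `m` and that of
`B` in the degrees of the other parity, then `(-1)^m χ(W_A) ≤ (-1)^m χ(W_B)`. -/
theorem mono_gen {m : ℕ} {A B : Set V} [Fintype ↥A] [Fintype ↥B] (hAB : A ⊆ B)
    (hv : ∀ v ∈ B \ A, ∀ C ⊆ B, LV (G.induce (C ∩ G.neighborSet v)) m)
    (hA : ∀ i, i ≠ m → Even (i + m) → LV (G.induce A) i)
    (hB : ∀ i, Odd (i + m) → LV (G.induce B) i) :
    (-1 : ℚ) ^ m * chiW (G.induce A) ≤ (-1) ^ m * chiW (G.induce B) := by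
  classical
  have key : (-1 : ℚ) ^ m * chiW (G.induce A) - (-1) ^ m * chiW (G.induce B) ≤ 0 := by
    refine Asy.rat (G := G) (fun X _ P => (bet (G := G) A m X P - bet (G := G) B m X P) +
      ((∑ i ∈ ((Finset.range (Fintype.card V + 1)).erase m).filter (fun i => Even (i + m)),
        bet (G := G) A i X P) +
      ∑ i ∈ (Finset.range (Fintype.card V + 1)).filter (fun i => Odd (i + m)),
        bet (G := G) B i X P)) ?_ ?_
    · refine Asy.add (Asy.steps _ A B hAB rfl hv) (Asy.add (Asy.sum _ _ ?_) (Asy.sum _ _ ?_))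
      · intro i hi
        rw [Finset.mem_filter, Finset.mem_erase] at hi
        exact Asy.bet_of (hA i hi.1.1 hi.2)
      · intro i hi
        rw [Finset.mem_filter] at hi
        exact Asy.bet_of (hB i hi.2)
    · intro X _ P
      have e1 : (Fintype.card X : ℚ) * ((-1 : ℚ) ^ m * chiW (G.induce A) - (-1) ^ m * chiW (G.induce B)) =
          (-1) ^ m * (Fintype.card X * chiW (G.induce A)) -
          (-1) ^ m * (Fintype.card X * chiW (G.induce B)) := by ring
      rw [e1, ← chi_sub A X P, ← chi_sub B X P]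
      have hnn : ∀ (C : Set V) (i : ℕ), 0 ≤ bet (G := G) C i X P := fun C i => by
        unfold bet; positivity
      have h2 : (-1 : ℤ) ^ m * (∑ i ∈ Finset.range (Fintype.card V + 1), (-1 : ℤ) ^ i * bet (G := G) A i X P) -
          (-1) ^ m * (∑ i ∈ Finset.range (Fintype.card V + 1), (-1 : ℤ) ^ i * bet (G := G) B i X P) ≤
          (bet (G := G) A m X P - bet (G := G) B m X P) +
          ((∑ i ∈ ((Finset.range (Fintype.card V + 1)).erase m).filter (fun i => Even (i + m)),
            bet (G := G) A i X P) +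
          ∑ i ∈ (Finset.range (Fintype.card V + 1)).filter (fun i => Odd (i + m)),
            bet (G := G) B i X P) := by
        rw [Finset.mul_sum, Finset.mul_sum, ← Finset.sum_sub_distrib]
        have h3 : ∀ i ∈ Finset.range (Fintype.card V + 1),
            (-1 : ℤ) ^ m * ((-1) ^ i * bet (G := G) A i X P) -
              (-1) ^ m * ((-1) ^ i * bet (G := G) B i X P) ≤
            (if i = m then bet (G := G) A m X P - bet (G := G) B m X P else 0) +
            ((if i ≠ m ∧ Even (i + m) then bet (G := G) A i X P else 0) +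
              (if Odd (i + m) then bet (G := G) B i X P else 0)) := by
          intro i _
          have a1 := hnn A i
          have b1 := hnn B i
          have e2 : (-1 : ℤ) ^ m * ((-1) ^ i * bet (G := G) A i X P) -
              (-1) ^ m * ((-1) ^ i * bet (G := G) B i X P) =
              (-1) ^ (i + m) * (bet (G := G) A i X P - bet (G := G) B i X P) := by
            rw [pow_add]; ring
          rw [e2]
          rcases Nat.even_or_odd (i + m) with he | ho
          · rw [he.neg_one_pow, one_mul, if_neg (Nat.not_odd_iff_even.2 he), add_zero]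
            by_cases him : i = m
            · subst him
              rw [if_pos rfl, if_neg (fun h => h.1 rfl), add_zero]
            · rw [if_neg him, if_pos ⟨him, he⟩, zero_add]
              linarith
          · have him : i ≠ m := by
              rintro rfl
              exact (Nat.not_odd_iff_even.2 ⟨i, rfl⟩) ho
            rw [ho.neg_one_pow, if_neg him, if_neg (fun h => (Nat.not_odd_iff_even.2 h.2) ho),
              if_pos ho]
            linarith
        refine (Finset.sum_le_sum h3).trans ?_
        rw [Finset.sum_add_distrib, Finset.sum_add_distrib, Finset.sum_ite_eq', ← Finset.sum_filter,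
          ← Finset.sum_filter]
        have h5 : (Finset.range (Fintype.card V + 1)).filter (fun i => i ≠ m ∧ Even (i + m)) =
            ((Finset.range (Fintype.card V + 1)).erase m).filter (fun i => Even (i + m)) := by
          ext i
          simp only [Finset.mem_filter, Finset.mem_erase]
          tauto
        rw [h5]
        refine add_le_add_left ?_ _
        split_ifs with hm
        · exact le_rfl
        · rw [Finset.mem_range, not_lt] at hm
          have z1 : bet (G := G) A m X P = 0 := by
            unfold bet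
            rw [beta_big G _ A ∅ (by omega)]
            rfl
          have z2 : bet (G := G) B m X P = 0 := by
            unfold bet
            rw [beta_big G _ B ∅ (by omega)]
            rfl
          rw [z1, z2, sub_zero]
      exact_mod_cast h2
  linarith

/-- Monotonicity in the class with vanishing above the middle for all full subcomplexes of all
links. -/
theorem mono_P {m : ℕ} (hP : P (2 * m) G) {A B : Set V} [Fintype ↥A] [Fintype ↥B] (hAB : A ⊆ B)
    (hA : ∀ i, i < m → Even (i + m) → LV (G.induce A) i)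
    (hB : ∀ i, i < m → Odd (i + m) → LV (G.induce B) i) :
    (-1 : ℚ) ^ m * chiW (G.induce A) ≤ (-1) ^ m * chiW (G.induce B) := by
  have habove : ∀ (C : Set V) (i : ℕ), m < i → LV (G.induce C) i := fun C i hi =>
    hP.2 ∅ (by simp) C (by intro a _ u hu; simp at hu) i (by rw [Finset.card_empty]; omega)
  refine mono_gen hAB ?_ ?_ ?_
  · intro v _ C _
    refine hP.2 {v} (by simp) _ ?_ m (by rw [Finset.card_singleton]; omega)
    intro a ha u hu
    rw [Finset.mem_singleton] at hu
    subst hu
    exact ha.2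
  · intro i him he
    rcases lt_or_gt_of_ne him with h | h
    · exact hA i h he
    · exact habove A i h
  · intro i ho
    rcases lt_trichotomy i m with h | h | h
    · exact hB i h ho
    · subst h
      exact absurd ho (Nat.not_odd_iff_even.2 ⟨i, rfl⟩)
    · exact habove B i h

end Pool.Agent.X250.Sph
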