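import Pool.Agent.H79.LX.X250_Sph_Bound2

/-!
# Vanishing in one degree for the links
-/

set_option autoImplicit false
set_option linter.unusedSectionVars false

namespace Pool.Agent.X250.Sph

open Module Pool.Agent.W907.SG Pool.Agent.W907.SM Pool.Agent.TH652.Above Pool.Agent.Y132.SI

variable {V : Type} [Fintype V] [LinearOrder V] {G : SimpleGraph V}

theorem clique_insert' {T : Finset V} (hT : G.IsClique (T : Set V)) {v : V} (hv : v ∈ lk G T) :
    G.IsClique ((insert v T : Finset V) : Set V) := by
  rw [Finset.coe_insert, SimpleGraph.isClique_insert]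
  exact ⟨hT, fun t ht _ => hv t ht⟩

/-- the full subcomplexes of the links -/
theorem one_deg {k : ℕ} (h : ∀ T : Finset V, G.IsClique (T : Set V) → T.Nonempty → LV (G.induce (lk G T)) k) :
    ∀ (r : ℕ) (T : Finset V), Fintype.card V ≤ T.card + r → G.IsClique (T : Set V) → T.Nonempty →
      ∀ C : Set V, C ⊆ lk G T → LV (G.induce C) k := by
  classical
  intro r
  induction r with
  | zero =>
    intro T hr hT hne C hC
    have h1 : T = Finset.univ := Finset.eq_univ_of_card T (le_antisymm (Finset.card_le_univ T) hr)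
    have h2 : ∀ x, x ∉ lk G T := fun x hx => G.irrefl (hx x (by rw [h1]; exact Finset.mem_univ x))
    refine lv_set ?_ (h T hT hne)
    ext x
    exact ⟨fun hx => absurd (hC hx) (h2 x), fun hx => absurd hx (h2 x)⟩
  | succ r ih =>
    intro T hr hT hne C hC
    refine lv_mono hC (h T hT hne) fun v hv D hD => ?_
    have hvT : v ∉ T := fun h => G.irrefl (hv.1 v h)
    refine ih (insert v T) (by rw [Finset.card_insert_of_notMem hvT]; omega) (clique_insert' hT hv.1)
      (Finset.insert_nonempty v T) _ ?_
    intro x hx t ht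
    rcases Finset.mem_insert.1 ht with rfl | ht
    · exact ((G.mem_neighborSet t x).1 hx.2).symm
    · exact hD hx.1 t ht

/-- the full subcomplexes of the links of the vertices, in all degrees `≥ k` -/
theorem van_vert {k : ℕ} (h : ∀ T : Finset V, G.IsClique (T : Set V) → T.Nonempty → LV (G.induce (lk G T)) k)
    (i : ℕ) (hi : k ≤ i) : ∀ (v : V) (C : Set V), C ⊆ G.neighborSet v → LV (G.induce C) i := by
  classical
  induction i, hi using Nat.le_induction with
  | base =>
    intro v C hC
    refine one_deg h (Fintype.card V) {v} (by omega) (by simp) (Finset.singleton_nonempty v) C ?_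
    intro x hx t ht
    rw [Finset.mem_singleton] at ht
    subst ht
    exact ((G.mem_neighborSet t x).1 (hC hx)).symm
  | succ i hi ih =>
    intro v C hC
    have h1 := lv_grow (G := G) (i := i + 1) C ∅ (lv_none _ (by omega)) (fun u _ _ D hD j hj => by
      obtain rfl : i = j := by omega
      exact ih u D (fun x hx => (hD hx).2))
    exact lv_set (Set.union_empty C).symm h1

/-- all full subcomplexes, above the degree `k` -/
theorem van_above {k : ℕ} (h : ∀ T : Finset V, G.IsClique (T : Set V) → T.Nonempty → LV (G.induce (lk G T)) k)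
    (i : ℕ) (hi : k < i) (A : Set V) : LV (G.induce A) i := by
  classical
  have h1 := lv_grow (G := G) (i := i) A ∅ (lv_none _ (by omega)) (fun u _ _ D hD j hj =>
    van_vert h j (by omega) u D (fun x hx => (hD hx).2))
  exact lv_set (Set.union_empty A).symm h1

/-- all full subcomplexes, in the degree `k` -/
theorem van_at {k : ℕ} (h : ∀ T : Finset V, G.IsClique (T : Set V) → T.Nonempty → LV (G.induce (lk G T)) k)
    (h0 : L2Van G k) (A : Set V) : LV (G.induce A) k := by
  classical
  refine lv_mono (Set.subset_univ A) ((lv_univ G _).2 (LV_of h0)) fun v _ C _ => ?_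
  exact van_vert h k le_rfl v _ Set.inter_subset_right

/-- for homology spheres of even dimension -/
theorem van_odd {m : ℕ} (h : ∀ T : Finset V, G.IsClique (T : Set V) → T.Nonempty →
    LV (G.induce (lk G T)) (m + 1)) (hS : HSph (2 * m + 1) G) {i : ℕ} (hi : i ≠ m) (hi' : i ≠ m + 1) :
    L2Van G i := by
  have h1 : ∀ i, m + 1 < i → L2Van G i := fun i hi => (lv_univ G i).1 (van_above h i hi Set.univ) _ _
  by_cases h2 : m + 1 < i
  · exact h1 i h2
  · exact Pool.Agent.TH652.Dual.l2_duality (n := 2 * m + 1) hS (i := i) (j := 2 * m + 1 - i) (by omega)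
      (h1 _ (by omega))

/-- for homology spheres of odd dimension -/
theorem van_even {m : ℕ} (h : ∀ T : Finset V, G.IsClique (T : Set V) → T.Nonempty →
    LV (G.induce (lk G T)) m) (hS : HSph (2 * m) G) {i : ℕ} (hi : i ≠ m) : L2Van G i :=
  singer_of_above (n := 2 * m) hS (fun i hi => (lv_univ G i).1 (van_above h i (by omega) Set.univ) _ _) i
    (by omega)

/-- the growth of the Betti numbers of the preimages of the full subcomplexes -/
theorem growth_all {f : ℕ → Prop} (h : ∀ (A : Set V) (i : ℕ), f i → LV (G.induce A) i) (ε : ℝ) (hε : 0 < ε) :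
    ∃ E : Finset (W G), (1 : W G) ∉ E ∧ ∀ H : Subgroup (W G), H.FiniteIndex →
      (∀ g ∈ E, ∀ x : W G, x * g * x⁻¹ ∉ H) → ∀ (A : Set V) (i : ℕ), f i →
        (finrank ℝ (HInvOn G A H i) : ℝ) ≤ ε * H.index := by
  classical
  have h1 := Evt.forall (G := G) ((Finset.univ : Finset (Set V)) ×ˢ (Finset.range (Fintype.card V + 1)))
    (fun p X _ a => f p.2 → (beta G (pull ℝ a) p.1 ∅ p.2 : ℝ) ≤ ε * Fintype.card X)
    (fun p _ => by
      by_cases hp : f p.2
      · exact (evt_small (h p.1 p.2 hp) ε hε).mono fun X _ a _ hX _ => hX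
      · exact ⟨∅, Finset.notMem_empty _, fun X _ a _ hf => absurd hf hp⟩)
  obtain ⟨E, h2, h3⟩ := h1.sub
  refine ⟨E, h2, fun H hfin hE A i hi => ?_⟩
  obtain ⟨fX, h5, h6⟩ := h3 H hfin hE
  rw [h5] at h6
  by_cases hiV : Fintype.card V < i
  · rw [HInvOn_zero hiV, finrank_bot, Nat.cast_zero]
    positivity
  · rw [finrank_HInvOn]
    exact h6 (A, i) (Finset.mem_product.2 ⟨Finset.mem_univ _, Finset.mem_range.2 (by omega)⟩) hi

end Pool.Agent.X250.Sph
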