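import Pool.Agent.H79.LX.W497_FS_Fact
import Pool.Agent.H79.LX.W497_FS_Nice

/-!
# Flag spheres whose join factors have small rank or few vertices (helper365)

A class of flag normal pseudomanifolds which is closed under links and joins and in which the
gamma-vectors are nonnegative.
-/

set_option autoImplicit false
set_option linter.unusedVariables false

namespace Y365.FS

open Pool.Agent.W497.FS Polynomial

variable {α : Type} [DecidableEq α] {H : SimpleGraph α}

/-- every join factor has rank at most three, or at most `2 e + 6` or `3 e` vertices,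
`e` its rank -/
def Kc (H : SimpleGraph α) (W : Finset α) : Prop :=
  ∀ C ∈ comps H W, ∀ e, NP H e C → e ≤ 3 ∨ C.card ≤ 2 * e + 6 ∨ C.card ≤ 3 * e

/-- the same for the join factors of even rank -/
def Kev (H : SimpleGraph α) (W : Finset α) : Prop :=
  ∀ C ∈ comps H W, ∀ e, NP H e C → Odd e ∨ e ≤ 2 ∨ C.card ≤ 2 * e + 6 ∨ C.card ≤ 3 * e

theorem Kc.left {A B : Finset α} (hAB : Full H A B) (h : Kc H (A ∪ B)) : Kc H A :=
  fun C hC => h C (by rw [comps_union hAB]; exact Finset.mem_union_left _ hC)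

theorem Kc.right {A B : Finset α} (hAB : Full H A B) (h : Kc H (A ∪ B)) : Kc H B :=
  fun C hC => h C (by rw [comps_union hAB]; exact Finset.mem_union_right _ hC)

theorem Kc.union {A B : Finset α} (hAB : Full H A B) (hA : Kc H A) (hB : Kc H B) :
    Kc H (A ∪ B) := by
  intro C hC
  rw [comps_union hAB] at hC
  rcases Finset.mem_union.1 hC with hC | hC
  · exact hA C hC
  · exact hB C hC

theorem Kev.left {A B : Finset α} (hAB : Full H A B) (h : Kev H (A ∪ B)) : Kev H A :=
  fun C hC => h C (by rw [comps_union hAB]; exact Finset.mem_union_left _ hC)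

theorem Kev.right {A B : Finset α} (hAB : Full H A B) (h : Kev H (A ∪ B)) : Kev H B :=
  fun C hC => h C (by rw [comps_union hAB]; exact Finset.mem_union_right _ hC)

theorem split_comp {d : ℕ} {W C : Finset α} (h : NP H d W) (hC : C ∈ comps H W) :
    ∃ e f, e + f = d ∧ NP H e C ∧ NP H f (W \ C) ∧ Full H C (W \ C) ∧ C ∪ (W \ C) = W := by
  obtain ⟨h1, -, h3⟩ := mem_comps.1 hC
  have hun : C ∪ (W \ C) = W := Finset.union_sdiff_of_subset h1
  have hfull : Full H C (W \ C) := fun a ha b hb => by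
    rw [Finset.mem_sdiff] at hb
    exact h3 a ha b hb.1 hb.2
  rw [← hun] at h
  obtain ⟨e, f, hef, he, hf⟩ := h.split hfull
  exact ⟨e, f, hef, he, hf, hfull, hun⟩

theorem Kc.lk_prm {d : ℕ} {W : Finset α} (h : NP H (d + 1) W) (hp : Prm H W) (hK : Kc H W)
    {v : α} (hv : v ∈ W) : Kc H (lk H W v) := by
  intro C hC e hNe
  have hcase := hK W (by rw [comps_prm hp]; exact Finset.mem_singleton_self W) (d + 1) h
  obtain ⟨e', f, hef, hC1, hC2, hfull, hun⟩ := split_comp (h.lk hv) hC
  obtain rfl := hC1.rank_unique hNe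
  have h2 := hC2.two_mul_le
  have h3 := hC2.three_mul_le
  have hcu := card_comps_union hfull
  rw [hun, comps_prm (mem_comps.1 hC).2.1, Finset.card_singleton] at hcu
  have hcard := Finset.card_union_of_disjoint hfull.disjoint
  rw [hun] at hcard
  have hlk := card_eq_lk_nn (H := H) hv
  have hnn := Finset.card_pos.2 (h.nn_nonempty hv)
  have hdef := h.defect_lk v hv
  rw [comps_prm hp, Finset.card_singleton] at hdef
  rcases hcase with h' | h' | h'
  · left; omega
  · right; left; omega
  · right; right; omega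

theorem Kc.lk {d : ℕ} {W : Finset α} (h : NP H d W) (hK : Kc H W) :
    ∀ v ∈ W, Kc H (lk H W v) := by
  revert hK
  refine join_induction (H := H) (P := fun _ W => Kc H W →
    ∀ v ∈ W, Kc H (Pool.Agent.W497.FS.lk H W v)) ?_ ?_ ?_ h
  · intro _ v hv
    exact absurd hv (Finset.notMem_empty v)
  · intro d W hW hp _ hK v hv
    exact hK.lk_prm hW hp hv
  · intro d₁ d₂ A B hA hB _ hAB h1 h2 hK v hv
    rcases Finset.mem_union.1 hv with hv | hv
    · rw [hAB.lk_left hv]
      exact (h1 (hK.left hAB) v hv).union (hAB.mono lk_subset (Finset.Subset.refl B))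
        (hK.right hAB)
    · rw [hAB.lk_right hv]
      exact (hK.left hAB).union (hAB.mono (Finset.Subset.refl A) lk_subset)
        (h2 (hK.right hAB) v hv)

theorem Kc.lkF {d : ℕ} {W κ : Finset α} (h : NP H d W) (hK : Kc H W) (hκ : κ ∈ cl H W) :
    Kc H (lkF H W κ) := by
  induction κ using Finset.induction_on with
  | empty =>
    have hlk0 : Pool.Agent.W497.FS.lkF H W ∅ = W := by
      ext x; rw [mem_lkF]; simp
    rw [hlk0]; exact hK
  | insert v κ hv ih =>
    have hκ' : κ ∈ cl H W := cl_of_subset hκ (Finset.subset_insert v κ)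
    obtain ⟨e, he, hNP, -, -⟩ := h.lkF hκ'
    have hvl : v ∈ Pool.Agent.W497.FS.lkF H W κ := by
      rw [mem_cl] at hκ
      exact mem_lkF.2 ⟨hκ.1 (Finset.mem_insert_self v κ), fun y hy => hκ.2 y
        (Finset.mem_insert_of_mem hy) v (Finset.mem_insert_self v κ) (fun h => hv (h ▸ hy))⟩
    have hlk : Pool.Agent.W497.FS.lkF H W (insert v κ) =
        Pool.Agent.W497.FS.lk H (Pool.Agent.W497.FS.lkF H W κ) v := by
      rw [← lkF_singleton, lkF_lkF, Finset.union_comm, ← Finset.insert_eq]
    rw [hlk]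
    exact (ih hκ').lk hNP v hvl

/-- Gal's conjecture in the class -/
theorem Kc.gal {d : ℕ} {W : Finset α} (h : NP H d W) (hE : Eul H d W) (hK : Kc H W) :
    FP H W ∈ GT ⊤ d := by
  revert hK
  refine join_induction' (H := H) (P := fun d W => Kc H W → FP H W ∈ GT ⊤ d) ?_ ?_ ?_ h hE
  · intro _
    rw [FP_empty]
    exact one_mem_GT _
  · intro d W h hE hp _ hK
    rcases hK W (by rw [comps_prm hp]; exact Finset.mem_singleton_self W) (d + 1) h
      with h' | h' | h'
    · exact GT_of_lt (t := 2) (by omega) ⊤ (FP_mem_two h hE)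
    · exact gal_few stmF stmF2 h hE (by omega)
    · refine gal_defect_le_one stmDel h hE ?_
      rw [comps_prm hp, Finset.card_singleton]
      omega
  · intro d₁ d₂ A B hA hB _ _ _ hAB h1 h2 hK
    rw [FP_join hAB]
    exact GT_mul (h1 (hK.left hAB)) (h2 (hK.right hAB))

/-- the Charney-Davis inequality in the class -/
theorem Kc.cd {n : ℕ} {W : Finset α} (h : NP H (2 * n) W) (hE : Eul H (2 * n) W) (hK : Kc H W) :
    0 ≤ (-1) ^ n * lam H W :=
  lam_nonneg_of_GT (hK.gal h hE)

/-- the Charney-Davis inequality, condition on the join factors of even rank only -/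
theorem Kev.cd {d : ℕ} {W : Finset α} (h : NP H d W) (hE : Eul H d W) (hK : Kev H W)
    (n : ℕ) (hn : d = 2 * n) : 0 ≤ (-1) ^ n * lam H W := by
  revert hK
  refine join_induction' (H := H) (P := fun d W => ∀ (n : ℕ) (_ : d = 2 * n), Kev H W →
    0 ≤ (-1) ^ n * lam H W) ?_ ?_ ?_ h hE n hn
  · intro n hn _
    obtain rfl : n = 0 := by omega
    rw [lam_empty]; norm_num
  · intro d W h hE hp _ n hn hK
    have hG : FP H W ∈ GT ⊤ (d + 1) := by
      rcases hK W (by rw [comps_prm hp]; exact Finset.mem_singleton_self W) (d + 1) h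
        with h' | h' | h' | h'
      · exfalso
        rw [hn] at h'
        exact (Nat.not_even_iff_odd.2 h') (even_two_mul n)
      · exact GT_of_lt (t := 2) (by omega) ⊤ (FP_mem_two h hE)
      · exact gal_few stmF stmF2 h hE (by omega)
      · refine gal_defect_le_one stmDel h hE ?_
        rw [comps_prm hp, Finset.card_singleton]
        omega
    rw [hn] at hG
    exact lam_nonneg_of_GT hG
  · intro d₁ d₂ A B hA hB eA eB _ hAB h1 h2 n hn hK
    rw [lam_join hAB]
    rcases Nat.even_or_odd (d₁ + 1) with ho | ho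
    · obtain ⟨a, ha⟩ := ho
      obtain ⟨b, hb⟩ : ∃ b, d₂ + 1 = 2 * b := ⟨n - a, by omega⟩
      have k1 := h1 a (by omega) (hK.left hAB)
      have k2 := h2 b hb (hK.right hAB)
      have hmab : n = a + b := by omega
      rw [hmab, pow_add]
      have : (-1 : ℚ) ^ a * (-1) ^ b * (lam H A * lam H B)
          = ((-1) ^ a * lam H A) * ((-1) ^ b * lam H B) := by ring
      rw [this]
      exact mul_nonneg k1 k2
    · rw [lam_odd eA ho]
      simp

/-! ## The top part of the gamma-vector -/

/-- combinations of the `w^i y^(d - 2 i)`, `i ≤ c`, whose coefficients with `c ≤ i + 3` are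
nonnegative -/
noncomputable def Mt (c d : ℕ) : AddSubmonoid ℤ[X] :=
  AddSubmonoid.closure {p | ∃ i j : ℕ, 2 * i + j = d ∧
    ((i ≤ c ∧ p = w ^ i * y ^ j) ∨ (i + 3 < c ∧ p = -(w ^ i * y ^ j)))}

theorem Mt_mul {c c' d d' : ℕ} {p q : ℤ[X]} (hp : p ∈ Mt c d) (hq : q ∈ Mt c' d') :
    p * q ∈ Mt (c + c') (d + d') := by
  induction hp using AddSubmonoid.closure_induction with
  | mem p hp =>
    induction hq using AddSubmonoid.closure_induction with
    | mem q hq =>
      obtain ⟨i, j, hij, hp⟩ := hp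
      obtain ⟨i', j', hij', hq⟩ := hq
      have e2 : w ^ i * y ^ j * (w ^ i' * y ^ j') = w ^ (i + i') * y ^ (j + j') := by
        rw [pow_add, pow_add]; ring
      apply AddSubmonoid.subset_closure
      refine ⟨i + i', j + j', by omega, ?_⟩
      rcases hp with ⟨h1, rfl⟩ | ⟨h1, rfl⟩ <;> rcases hq with ⟨h2, rfl⟩ | ⟨h2, rfl⟩
      · exact Or.inl ⟨by omega, e2⟩
      · exact Or.inr ⟨by omega, by rw [mul_neg, e2]⟩
      · exact Or.inr ⟨by omega, by rw [neg_mul, e2]⟩
      · exact Or.inl ⟨by omega, by rw [neg_mul_neg, e2]⟩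
    | zero => rw [mul_zero]; exact zero_mem _
    | add a b _ _ ha hb => rw [mul_add]; exact add_mem ha hb
  | zero => rw [zero_mul]; exact zero_mem _
  | add a b _ _ ha hb => rw [add_mul]; exact add_mem ha hb

theorem Mt_of_top {c d : ℕ} (hc : ∀ i, 2 * i ≤ d → i ≤ c) {p : ℤ[X]} (hp : p ∈ GT ⊤ d) :
    p ∈ Mt c d := by
  induction hp using AddSubmonoid.closure_induction with
  | mem p hp =>
    obtain ⟨i, j, hij, hp⟩ := hp
    apply AddSubmonoid.subset_closure
    rcases hp with rfl | ⟨h1, -⟩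
    · exact ⟨i, j, hij, Or.inl ⟨hc i (by omega), rfl⟩⟩
    · exact absurd h1 (by simp)
  | zero => exact zero_mem _
  | add a b _ _ ha hb => exact add_mem ha hb

theorem Mt_of_zero {c d : ℕ} (hc : ∀ i, 2 * i ≤ d → i + 3 < c) {p : ℤ[X]} (hp : p ∈ GT 0 d) :
    p ∈ Mt c d := by
  induction hp using AddSubmonoid.closure_induction with
  | mem p hp =>
    obtain ⟨i, j, hij, hp⟩ := hp
    have h0 := hc i (by omega)
    apply AddSubmonoid.subset_closure
    rcases hp with rfl | ⟨h1, rfl⟩
    · exact ⟨i, j, hij, Or.inl ⟨by omega, rfl⟩⟩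
    · exact ⟨i, j, hij, Or.inr ⟨h0, rfl⟩⟩
  | zero => exact zero_mem _
  | add a b _ _ ha hb => exact add_mem ha hb

theorem mem_Mt {d : ℕ} {W : Finset α} (h : NP H d W) (hE : Eul H d W) :
    FP H W ∈ Mt (W.card - 2 * d) d := by
  refine join_induction' (H := H) (P := fun d W => FP H W ∈ Mt (W.card - 2 * d) d)
    ?_ ?_ ?_ h hE
  · rw [FP_empty]
    exact Mt_of_top (fun i hi => by omega) (one_mem_GT ⊤)
  · intro d W h hE hp _
    have h3 := Prm.three_mul_le h hp
    have hG : FP H W ∈ GT 0 (d + 1) := GT_mono zero_le _ (FP_mem_two h hE)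
    by_cases h6 : W.card ≤ 2 * (d + 1) + 6
    · exact Mt_of_top (fun i hi => by omega) (gal_few stmF stmF2 h hE h6)
    by_cases h7 : W.card ≤ 3 * (d + 1)
    · refine Mt_of_top (fun i hi => by omega) (gal_defect_le_one stmDel h hE ?_)
      rw [comps_prm hp, Finset.card_singleton]
      omega
    · exact Mt_of_zero (fun i hi => by omega) hG
  · intro d₁ d₂ A B hA hB _ _ _ hAB h1 h2
    have k1 := hA.two_mul_le
    have k2 := hB.two_mul_le
    rw [FP_join hAB, Finset.card_union_of_disjoint hAB.disjoint]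
    have e1 : A.card + B.card - 2 * (d₁ + 1 + (d₂ + 1)) =
        (A.card - 2 * (d₁ + 1)) + (B.card - 2 * (d₂ + 1)) := by omega
    rw [e1]
    exact Mt_mul h1 h2

/-- coefficients of an element of `Mt c d` -/
theorem Mt_coeffs {c d : ℕ} {p : ℤ[X]} (hp : p ∈ Mt c d) :
    ∃ a : ℕ → ℤ, p = ∑ i ∈ Finset.range (d / 2 + 1), C (a i) * w ^ i * y ^ (d - 2 * i) ∧
      (∀ i : ℕ, c ≤ i + 3 → 0 ≤ a i) ∧ (∀ i : ℕ, c < i → a i = 0) := by
  induction hp using AddSubmonoid.closure_induction with
  | mem p hp =>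
    obtain ⟨i, j, hij, hp⟩ := hp
    have hi : i ∈ Finset.range (d / 2 + 1) := Finset.mem_range.2 (by omega)
    obtain rfl : j = d - 2 * i := by omega
    rcases hp with ⟨h1, rfl⟩ | ⟨h1, rfl⟩
    · refine ⟨fun l => if l = i then 1 else 0, ?_, fun l _ => ?_, fun l hl => ?_⟩
      · rw [Finset.sum_eq_single_of_mem i hi]
        · simp
        · intro l _ hl; simp [hl]
      · dsimp only; split_ifs <;> norm_num
      · dsimp only; rw [if_neg (by omega)]
    · refine ⟨fun l => if l = i then -1 else 0, ?_, fun l hl => ?_, fun l hl => ?_⟩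
      · rw [Finset.sum_eq_single_of_mem i hi]
        · simp
        · intro l _ hl; simp [hl]
      · dsimp only; rw [if_neg (by omega)]
      · dsimp only; rw [if_neg (by omega)]
  | zero => exact ⟨fun _ => 0, by simp, fun _ _ => le_rfl, fun _ _ => rfl⟩
  | add a b _ _ ha hb =>
    obtain ⟨a₁, e1, h1, k1⟩ := ha
    obtain ⟨a₂, e2, h2, k2⟩ := hb
    refine ⟨fun i => a₁ i + a₂ i, ?_, fun i hi => add_nonneg (h1 i hi) (h2 i hi),
      fun i hi => by dsimp only; rw [k1 i hi, k2 i hi, add_zero]⟩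
    rw [e1, e2, ← Finset.sum_add_distrib]
    refine Finset.sum_congr rfl (fun i _ => ?_)
    rw [map_add]; ring

end Y365.FS
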